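import Mathlib
import Pool.Agent.Lib.MP_05cdf2_gt.K.Chord

/-! MP_05cdf2_gt, stream L (helper49): elementary facts on crossing chords. -/

set_option autoImplicit false

namespace TorL
open TorM

variable {α : Type} [LinearOrder α]

theorem ne_col {c z x : α} {P : Set α} (h1 : c ∈ P ↔ x ∉ P) (h2 : z ∈ P ↔ x ∈ P) : c ≠ z := by
  rintro rfl
  tauto

theorem cr_ne {a b x y : α} (h : Cr a b x y) :
    a ≠ b ∧ a ≠ x ∧ a ≠ y ∧ b ≠ x ∧ b ≠ y ∧ x ≠ y := by
  unfold Cr Cyc at h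
  grind

theorem cr_tri {a b x y z : α} (h : Cr a b x z) (h1 : a ≠ y) (h2 : b ≠ y) : Cr a b x y ∨ Cr a b y z := by
  unfold Cr Cyc at *
  grind

/-- `e f` separates `a`, `b` from `c`: then `c` and `e` are on the same side of `a b` -/
theorem cr_same {a b c e f : α} (h1 : Cr e f a c) (h2 : Cr e f b c) : ¬ Cr a b c e := by
  intro h
  unfold Cr Cyc at *
  grind

/-- `c d` separates `a`, `b` from `x`, `y`: then `a b` does not cross `x y` -/
theorem cr_sep {a b c d x y : α} (h1 : Cr c d a x) (h2 : Cr c d b x) (h3 : Cr c d a y) (h4 : Cr c d b y) :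
    ¬ Cr a b x y := by
  intro h
  have n1 := cr_ne h1
  have n2 := cr_ne h2
  rcases cr_tri h n1.2.1.symm n2.2.1.symm with h5 | h5
  · exact cr_same h1 h2 h5
  · exact cr_same h3 h4 (cr_swap2.1 h5)

/-- a chord which separates `a` from `x` but not `a` from `b` separates `b` from `x` -/
theorem cr_move {c d a b x : α} (h : Cr c d a x) (hb1 : c ≠ b) (hb2 : d ≠ b) (hn : ¬ Cr c d a b) :
    Cr c d b x := by
  rcases cr_tri h hb1 hb2 with h1 | h1
  · exact absurd h1 hn
  · exact h1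

theorem cr_move' {c d a x y : α} (h : Cr c d a x) (hb1 : c ≠ y) (hb2 : d ≠ y) (hn : ¬ Cr c d x y) :
    Cr c d a y := by
  rcases cr_tri h hb1 hb2 with h1 | h1
  · exact h1
  · exact absurd (cr_swap2.1 h1) hn

theorem cr_opp {a b r p q : α} (h1 : Cr a b r p) (h2 : Cr a b r q) : ¬ Cr a b p q := by
  intro h
  unfold Cr Cyc at *
  grind

/-- two chords `r s`, `p q` cross `x y`; a chord `a b` which separates them crosses `x y` -/
theorem cr_between {a b r s p q x y : α} (h1 : Cr r s x y) (h2 : Cr p q x y) (h3 : Cr a b r p)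
    (h4 : Cr a b s p) (h5 : Cr a b r q) (hx1 : a ≠ x) (hx2 : b ≠ x) (hy1 : a ≠ y)
    (hy2 : b ≠ y) : Cr a b x y := by
  by_contra hn
  have npq := cr_opp h3 h5
  have nrs : ¬ Cr a b r s := by
    have h3' := cr_swap2.1 h3
    have h4' := cr_swap2.1 h4
    exact cr_opp h3' h4'
  rcases cr_tri h3 hx1 hx2 with hx | hx
  · -- `x`, `y` on the side of `p`, `q`
    have a1 : Cr a b x r := cr_swap2.1 hx
    have a2 : Cr a b y r := cr_move a1 hy1 hy2 hn
    have a3 : Cr a b x s := cr_move' a1 (cr_ne h4).2.1 (cr_ne h4).2.2.2.1 nrs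
    have a4 : Cr a b y s := cr_move' a2 (cr_ne h4).2.1 (cr_ne h4).2.2.2.1 nrs
    exact cr_sep a1 a2 a3 a4 (cr_comm.1 h1)
  · have a2 : Cr a b y p := cr_move hx hy1 hy2 hn
    have a3 : Cr a b x q := cr_move' hx (cr_ne h5).2.2.1 (cr_ne h5).2.2.2.2.1 npq
    have a4 : Cr a b y q := cr_move' a2 (cr_ne h5).2.2.1 (cr_ne h5).2.2.2.2.1 npq
    exact cr_sep hx a2 a3 a4 (cr_comm.1 h2)

end TorL
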