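import Mathlib
import Pool.Agent.Lib.MP_05cdf2_gt.L.Cr

/-! MP_05cdf2_gt, stream L (helper49): Galois pairs on a cyclically ordered set.

A Galois pair is a two colouring `P`, `Pᶜ` of the points together with a relation `S` between points of the same
colour: `x`, `y` are related iff no chord between related points of the other colour crosses `{x, y}`. Such an `S`
is an equivalence relation and its classes do not cross. `Sat E`: proper convex sets which do not separate related
points. `gap E x y`: the points not separated from `y` by the class of `x`. -/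

set_option autoImplicit false

namespace TorL
open TorM

variable {α : Type} [LinearOrder α]

/-- Galois pairs -/
structure GP (α : Type) [LinearOrder α] where
  P : Set α
  S : α → α → Prop
  iff : ∀ x y, S x y ↔ ((x ∈ P ↔ y ∈ P) ∧ ∀ a b, S a b → (a ∈ P ↔ x ∉ P) → ¬ Cr a b x y)

variable (E : GP α)

namespace GP
variable {E}

theorem refl (x : α) : E.S x x := by
  rw [E.iff]
  refine ⟨Iff.rfl, fun a b _ _ h => ?_⟩
  exact not_cr_same (cr_comm.1 h)

theorem col {x y : α} (h : E.S x y) : x ∈ E.P ↔ y ∈ E.P := ((E.iff x y).1 h).1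

theorem symm {x y : α} (h : E.S x y) : E.S y x := by
  rw [E.iff] at h ⊢
  refine ⟨h.1.symm, fun a b hab hc hcr => h.2 a b hab ?_ (cr_swap2.1 hcr)⟩
  rw [hc, h.1]

theorem symm_iff {x y : α} : E.S x y ↔ E.S y x := ⟨symm, symm⟩

/-- a chord of the other colour does not cross a chord -/
theorem not_cross {a b x y : α} (h : E.S x y) (hab : E.S a b) (hc : a ∈ E.P ↔ x ∉ E.P) : ¬ Cr a b x y :=
  ((E.iff x y).1 h).2 a b hab hc

theorem trans {x y z : α} (h : E.S x y) (h' : E.S y z) : E.S x z := by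
  rw [E.iff]
  refine ⟨(col h).trans (col h'), fun a b hab hc hcr => ?_⟩
  have h1 := not_cross h hab hc
  have h2 := not_cross h' hab (by rw [hc, col h])
  replace hab : (a ∈ E.P ↔ x ∉ E.P) ∧ (b ∈ E.P ↔ x ∉ E.P) := ⟨hc, (col hab).symm.trans hc⟩
  have hay : a ≠ y := ne_col hab.1 (col h).symm
  exact (cr_tri hcr hay (ne_col hab.2 (col h).symm)).elim h1 h2

/-- two chords which cross lie in the same class -/
theorem noncr {a b x y : α} (h : E.S x y) (hab : E.S a b) (hcr : Cr a b x y) : E.S a x := by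
  by_cases hc : a ∈ E.P ↔ x ∉ E.P
  · exact absurd hcr (not_cross h hab hc)
  by_contra hax
  have hc2 : a ∈ E.P ↔ x ∈ E.P := by
    clear hab hcr h hax
    tauto
  have hax' : ¬ ∀ c d, E.S c d → (c ∈ E.P ↔ a ∉ E.P) → ¬ Cr c d a x := fun hh =>
    hax ((E.iff a x).2 ⟨hc2, hh⟩)
  push Not at hax'
  obtain ⟨c, d, hcd, hcc, hcr2⟩ := hax'
  have hcx : c ∈ E.P ↔ x ∉ E.P := hcc.trans (not_congr hc2)
  have hdx : d ∈ E.P ↔ x ∉ E.P := (col hcd).symm.trans hcx
  have n1 := not_cross hab hcd hcc
  have n2 := not_cross h hcd hcx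
  have k1 : b ∈ E.P ↔ x ∈ E.P := (col hab).symm.trans hc2
  have k2 : y ∈ E.P ↔ x ∈ E.P := (col h).symm
  have b1 : Cr c d b x := cr_move hcr2 (ne_col hcx k1) (ne_col hdx k1) n1
  have b2 : Cr c d a y := cr_move' hcr2 (ne_col hcx k2) (ne_col hdx k2) n2
  have b3 : Cr c d b y := cr_move b2 (ne_col hcx k1) (ne_col hdx k1) n1
  exact cr_sep hcr2 b1 b2 b3 hcr

end GP

/-- the complementary Galois pair -/
def GP.dual (E : GP α) : GP α where
  P := E.Pᶜ
  S := E.S
  iff x y := by
    rw [E.iff]
    simp only [Set.mem_compl_iff]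
    constructor
    · rintro ⟨h1, h2⟩
      exact ⟨by tauto, fun a b hab hc => h2 a b hab (by tauto)⟩
    · rintro ⟨h1, h2⟩
      exact ⟨by tauto, fun a b hab hc => h2 a b hab (by tauto)⟩

@[simp] theorem GP.dual_S (E : GP α) : E.dual.S = E.S := rfl
@[simp] theorem GP.dual_P (E : GP α) : E.dual.P = E.Pᶜ := rfl

/-- convex sets: no chord inside crosses a chord outside -/
def Cvx (D : Set α) : Prop := ∀ a ∈ D, ∀ b ∈ D, ∀ c ∉ D, ∀ d ∉ D, ¬ Cr a b c d

theorem Cvx.compl {D : Set α} (h : Cvx D) : Cvx Dᶜ := by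
  intro a ha b hb c hc d hd hcr
  rw [Set.notMem_compl_iff] at hc hd
  exact h c hc d hd a ha b hb (cr_comm.1 hcr)

/-- proper convex sets which do not separate related points -/
structure Sat (E : GP α) (D : Set α) : Prop where
  ne : D.Nonempty
  ne' : Dᶜ.Nonempty
  cvx : Cvx D
  sat : ∀ x y, E.S x y → (x ∈ D ↔ y ∈ D)

theorem Sat.compl {D : Set α} (h : Sat E D) : Sat E Dᶜ where
  ne := h.ne'
  ne' := by
    rw [compl_compl]
    exact h.ne
  cvx := h.cvx.compl
  sat x y hxy := not_congr (h.sat x y hxy)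

theorem sat_dual {D : Set α} : Sat E.dual D ↔ Sat E D :=
  ⟨fun h => ⟨h.ne, h.ne', h.cvx, h.sat⟩, fun h => ⟨h.ne, h.ne', h.cvx, h.sat⟩⟩

theorem sat_compl_iff {D : Set α} : Sat E Dᶜ ↔ Sat E D := by
  constructor
  · intro h
    have := h.compl
    rwa [compl_compl] at this
  · exact Sat.compl E

/-- the points not separated from `y` by the class of `x` -/
def gap (x y : α) : Set α := {z | ¬ E.S x z ∧ ∀ a b, E.S x a → E.S x b → ¬ Cr a b y z}

variable {E}

theorem mem_gap_self {x y : α} (h : ¬ E.S x y) : y ∈ gap E x y :=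
  ⟨h, fun _ _ _ _ hcr => not_cr_same (cr_comm.1 hcr)⟩

theorem notMem_gap {x y z : α} (h : E.S x z) : z ∉ gap E x y := fun hh => hh.1 h

/-- two points of a gap are not separated by the class -/
theorem gap_gap {x y z w a b : α} (hy : ¬ E.S x y) (hz : z ∈ gap E x y) (hw : w ∈ gap E x y)
    (ha : E.S x a) (hb : E.S x b) : ¬ Cr a b z w := by
  intro hcr
  have h1 := hz.2 a b ha hb
  have h2 := hw.2 a b ha hb
  have e1 : a ≠ y := by rintro rfl; exact hy ha
  have e2 : b ≠ y := by rintro rfl; exact hy hb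
  rcases cr_tri hcr e1 e2 with h3 | h3
  · exact h1 (cr_swap2.1 h3)
  · exact h2 h3

theorem gap_cvx {x y : α} (hy : ¬ E.S x y) : Cvx (gap E x y) := by
  intro a ha b hb c hc d hd hcr
  have key : ∀ c, c ∉ gap E x y → c ≠ a → c ≠ b → ∃ e, E.S x e ∧ ∀ d, Cr a b c d → Cr a b e d := by
    intro c hc hca hcb
    by_cases hxc : E.S x c
    · exact ⟨c, hxc, fun d h => h⟩
    · have : ∃ e f, E.S x e ∧ E.S x f ∧ Cr e f y c := by
        by_contra hcon
        push Not at hcon
        exact hc ⟨hxc, fun e f he hf => hcon e f he hf⟩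
      obtain ⟨e, f, he, hf, h1⟩ := this
      have h2 := ha.2 e f he hf
      have h3 := hb.2 e f he hf
      have e1 : e ≠ a := by rintro rfl; exact ha.1 he
      have e2 : e ≠ b := by rintro rfl; exact hb.1 he
      have e3 : f ≠ a := by rintro rfl; exact ha.1 hf
      have e4 : f ≠ b := by rintro rfl; exact hb.1 hf
      have h4 := cr_same (cr_move h1 e1 e3 h2) (cr_move h1 e2 e4 h3)
      refine ⟨e, he, fun d h => ?_⟩
      exact cr_move h e1.symm e2.symm h4
  have hca : c ≠ a := by rintro rfl; exact hc ha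
  have hcb : c ≠ b := by rintro rfl; exact hc hb
  have hda : d ≠ a := by rintro rfl; exact hd ha
  have hdb : d ≠ b := by rintro rfl; exact hd hb
  obtain ⟨e, he, h1⟩ := key c hc hca hcb
  obtain ⟨f, hf, h2⟩ := key d hd hda hdb
  have h3 := h1 d hcr
  have h4 := h2 e (cr_swap2.1 h3)
  exact gap_gap hy ha hb hf he (cr_comm.1 h4)

theorem gap_sat {x y : α} (hy : ¬ E.S x y) : Sat E (gap E x y) where
  ne := ⟨y, mem_gap_self hy⟩
  ne' := ⟨x, notMem_gap (GP.refl x)⟩
  cvx := gap_cvx hy
  sat := by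
    have key : ∀ z w, E.S z w → z ∈ gap E x y → w ∈ gap E x y := by
      intro z w hzw hz
      refine ⟨fun h => hz.1 (GP.trans h (GP.symm hzw)), fun a b ha hb hcr => ?_⟩
      have h1 := hz.2 a b ha hb
      have e1 : a ≠ z := by rintro rfl; exact hz.1 ha
      have e2 : b ≠ z := by rintro rfl; exact hz.1 hb
      rcases cr_tri hcr e1 e2 with h2 | h2
      · exact h1 h2
      · exact hz.1 (GP.trans ha (GP.noncr hzw (GP.trans (GP.symm ha) hb) h2))
    intro z w hzw
    exact ⟨key z w hzw, key w z (GP.symm hzw)⟩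

/-- a convex set which avoids the class of `x` lies in one gap -/
theorem sub_gap {x y : α} {D : Set α} (hD : Cvx D) (hy : y ∈ D) (hx : ∀ z, E.S x z → z ∉ D) :
    D ⊆ gap E x y := by
  intro z hz
  refine ⟨fun h => hx z h hz, fun a b ha hb hcr => ?_⟩
  exact hD y hy z hz a (hx a ha) b (hx b hb) (cr_comm.1 hcr)

/-- related points are the points which are not separated by a saturated cut -/
theorem S_iff {x y : α} : E.S x y ↔ ∀ D, Sat E D → (x ∈ D ↔ y ∈ D) := by
  constructor
  · intro h D hD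
    exact hD.sat x y h
  · intro h
    by_contra hxy
    have h1 := h _ (gap_sat hxy)
    exact notMem_gap (GP.refl x) (h1.2 (mem_gap_self hxy))

/-- a saturated cut avoids the class of a point outside -/
theorem Sat.sub_gap {x y : α} {D : Set α} (hD : Sat E D) (hx : x ∉ D) (hy : y ∈ D) : D ⊆ gap E x y :=
  TorL.sub_gap hD.cvx hy fun z hz hzD => hx ((hD.sat x z hz).2 hzD)

/-- the relation determines the Galois pair up to the colouring -/
theorem GP.ext' {E E' : GP α} (h1 : E.P = E'.P) (h2 : ∀ x y, E.S x y ↔ E'.S x y) : E = E' := by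
  obtain ⟨P, S, h⟩ := E
  obtain ⟨P', S', h'⟩ := E'
  obtain rfl : P = P' := h1
  obtain rfl : S = S' := by
    funext x y
    exact propext (h2 x y)
  rfl

end TorL
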