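import Mathlib
import Pool.Agent.Lib.MP_05cdf2_gt.L.GP

/-! MP_05cdf2_gt, stream L (helper49): locally finite Galois pairs: every saturated cut is a gap.

`cl E a`: the class of `a`. `Xs E x y`: the classes which separate `x` from `y`. `LF E`: all `Xs E x y` are finite.
`Adj E D k l`: `k ∉ D`, `l ∈ D` have different colours and no class separates them. `exists_adj`: such points
exist for every saturated cut `D`; `Adj.eq_gap`: then `D = gap E k l`; `Adj.unique`: `D` is the only saturated cut with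
`k ∉ D`, `l ∈ D`. `sat_fin`: finitely many saturated cuts separate `x` and `y`. -/

set_option autoImplicit false

namespace TorL
open TorM

variable {α : Type} [LinearOrder α] {E : GP α}

/-- the class of a point -/
def cl (E : GP α) (a : α) : Set α := {z | E.S a z}

theorem cl_eq {a b : α} (h : E.S a b) : cl E a = cl E b := by
  ext z
  exact ⟨fun hz => GP.trans (GP.symm h) hz, fun hz => GP.trans h hz⟩

theorem S_of_cl_eq {a b : α} (h : cl E a = cl E b) : E.S a b := by
  have : b ∈ cl E b := GP.refl b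
  rw [← h] at this
  exact this

/-- the classes which separate `x` from `y` -/
def Xs (E : GP α) (x y : α) : Set (Set α) :=
  {c | ∃ a b, c = cl E a ∧ E.S a b ∧ Cr a b x y ∧ ¬ E.S a x ∧ ¬ E.S a y}

theorem Xs_symm (x y : α) : Xs E x y = Xs E y x := by
  ext c
  constructor
  · rintro ⟨a, b, h1, h2, h3, h4, h5⟩
    exact ⟨a, b, h1, h2, cr_swap2.1 h3, h5, h4⟩
  · rintro ⟨a, b, h1, h2, h3, h4, h5⟩
    exact ⟨a, b, h1, h2, cr_swap2.1 h3, h5, h4⟩

theorem Xs_dual (x y : α) : Xs E.dual x y = Xs E x y := rfl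

/-- locally finite -/
def LF (E : GP α) : Prop := ∀ x y, (Xs E x y).Finite

theorem LF.dual (h : LF E) : LF E.dual := h

/-- the classes between a separating class and the end -/
theorem Xs_sub {a b k l : α} (hab : E.S a b) (hcr : Cr a b k l) (hk : ¬ E.S a k) :
    Xs E a l ⊆ Xs E k l \ {cl E a} := by
  rintro c ⟨p, q, rfl, hpq, h1, h2, h3⟩
  have hpb : ¬ E.S p b := fun h => h2 (GP.trans h (GP.symm hab))
  have hqa : ¬ E.S q a := fun h => h2 (GP.trans hpq h)
  have hqb : ¬ E.S q b := fun h => hpb (GP.trans hpq h)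
  have e1 : p ≠ b := by rintro rfl; exact hpb (GP.refl _)
  have e2 : q ≠ b := by rintro rfl; exact hqb (GP.refl _)
  have n1 : ¬ Cr p q a b := fun h => h2 (GP.noncr hab hpq h)
  have b1 : Cr p q b l := cr_move h1 e1 e2 n1
  have s1 : ¬ Cr a b l p := cr_same h1 b1
  have s2 : ¬ Cr a b l q := cr_same (cr_swap1.1 h1) (cr_swap1.1 b1)
  have ne1 := cr_ne h1
  have c1 : Cr a b k p := cr_move' hcr ne1.2.1.symm e1.symm s1
  have c2 : Cr a b k q := cr_move' hcr ne1.2.2.2.1.symm e2.symm s2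
  have s3 : ¬ Cr p q k a := cr_same (cr_swap2.1 c1) (cr_swap2.1 c2)
  have ne2 := cr_ne c1
  have ne3 := cr_ne c2
  refine ⟨⟨p, q, rfl, hpq, ?_, ?_, h3⟩, ?_⟩
  · exact cr_move h1 ne2.2.2.2.2.2.symm ne3.2.2.2.2.2.symm (fun h => s3 (cr_swap2.1 h))
  · intro h
    exact hk (GP.noncr (GP.symm h) hab c1)
  · intro h
    exact h2 (S_of_cl_eq h)

theorem Xs_lt (hE : LF E) {a b k l : α} (hab : E.S a b) (hcr : Cr a b k l) (hk : ¬ E.S a k)
    (hl : ¬ E.S a l) : (Xs E a l).ncard < (Xs E k l).ncard := by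
  refine Set.ncard_lt_ncard ?_ (hE k l)
  refine ⟨fun c hc => (Xs_sub hab hcr hk hc).1, fun h => ?_⟩
  have h1 : cl E a ∈ Xs E k l := ⟨a, b, rfl, hab, hcr, hk, hl⟩
  exact (Xs_sub hab hcr hk (h h1)).2 rfl

theorem Xs_lt' (hE : LF E) {a b k l : α} (hab : E.S a b) (hcr : Cr a b k l) (hk : ¬ E.S a k)
    (hl : ¬ E.S a l) : (Xs E k a).ncard < (Xs E k l).ncard := by
  rw [Xs_symm k a, Xs_symm k l]
  exact Xs_lt hE hab (cr_swap2.1 hcr) hl hk

/-- adjacent points on the two sides of a saturated cut -/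
structure Adj (E : GP α) (D : Set α) (k l : α) : Prop where
  out : k ∉ D
  inn : l ∈ D
  col : k ∈ E.P ↔ l ∉ E.P
  none : Xs E k l = ∅

theorem Adj.compl {D : Set α} {k l : α} (h : Adj E D k l) : Adj E Dᶜ l k where
  out := fun hh => hh h.inn
  inn := h.out
  col := by
    have := h.col
    tauto
  none := by
    rw [Xs_symm]
    exact h.none

theorem Adj.dual {D : Set α} {k l : α} (h : Adj E D k l) : Adj E.dual D k l where
  out := h.out
  inn := h.inn
  col := not_congr h.col
  none := h.none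

theorem exists_adj (hE : LF E) {D : Set α} (hD : Sat E D) : ∃ k l, Adj E D k l := by
  classical
  have hex : ∃ n, ∃ k l, k ∉ D ∧ l ∈ D ∧ (Xs E k l).ncard = n := by
    obtain ⟨l, hl⟩ := hD.ne
    obtain ⟨k, hk⟩ := hD.ne'
    exact ⟨_, k, l, hk, hl, rfl⟩
  obtain ⟨k, l, hk, hl, hn⟩ := Nat.find_spec hex
  have hmin : ∀ k' l', k' ∉ D → l' ∈ D → (Xs E k l).ncard ≤ (Xs E k' l').ncard := by
    intro k' l' hk' hl'
    rw [hn]
    exact Nat.find_min' hex ⟨k', l', hk', hl', rfl⟩
  have key : ∀ a b, E.S a b → Cr a b k l → ¬ E.S a k → ¬ E.S a l → False := by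
    intro a b hab hcr h1 h2
    by_cases ha : a ∈ D
    · exact absurd (hmin k a hk ha) (not_le.2 (Xs_lt' hE hab hcr h1 h2))
    · exact absurd (hmin a l ha hl) (not_le.2 (Xs_lt hE hab hcr h1 h2))
  refine ⟨k, l, hk, hl, ?_, ?_⟩
  · by_contra hcol
    have hcol' : k ∈ E.P ↔ l ∈ E.P := by tauto
    have h1 : ¬ E.S k l := fun h => hk ((hD.sat k l h).2 hl)
    rw [E.iff] at h1
    push Not at h1
    obtain ⟨a, b, hab, hc, hcr⟩ := h1 hcol'
    refine key a b hab hcr (fun h => ?_) (fun h => ?_)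
    · have := GP.col h
      tauto
    · have := GP.col h
      tauto
  · rw [Set.eq_empty_iff_forall_notMem]
    rintro c ⟨a, b, -, hab, hcr, h1, h2⟩
    exact key a b hab hcr h1 h2

theorem Adj.eq_gap (hE : LF E) {D : Set α} (hD : Sat E D) {k l : α} (h : Adj E D k l) :
    D = gap E k l := by
  classical
  refine Set.Subset.antisymm (hD.sub_gap h.out h.inn) ?_
  by_contra hcon
  rw [Set.not_subset] at hcon
  have hex : ∃ n, ∃ z, z ∈ gap E k l ∧ z ∉ D ∧ (Xs E k z).ncard = n := by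
    obtain ⟨z, hz, hzD⟩ := hcon
    exact ⟨_, z, hz, hzD, rfl⟩
  obtain ⟨z, hz, hzD, hn⟩ := Nat.find_spec hex
  have hmin : ∀ z', z' ∈ gap E k l → z' ∉ D → (Xs E k z).ncard ≤ (Xs E k z').ncard := by
    intro z' hz' hzD'
    rw [hn]
    exact Nat.find_min' hex ⟨z', hz', hzD', rfl⟩
  have hkl : ¬ E.S k l := fun hh => h.out ((hD.sat k l hh).2 h.inn)
  have hlz : ¬ E.S l z := fun hh => hzD ((hD.sat l z hh).1 h.inn)
  -- a chord separates `k` from `z`
  have key : ∃ a b, E.S a b ∧ Cr a b k z ∧ ¬ E.S a k ∧ ¬ E.S a z := by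
    by_cases hc : z ∈ E.P ↔ k ∈ E.P
    · have h1 : ¬ E.S k z := hz.1
      rw [E.iff] at h1
      push Not at h1
      obtain ⟨a, b, hab, hca, hcr⟩ := h1 hc.symm
      refine ⟨a, b, hab, hcr, fun hh => ?_, fun hh => ?_⟩
      · have := GP.col hh
        tauto
      · have := GP.col hh
        tauto
    · have hcol := h.col
      have h1 := hlz
      rw [E.iff] at h1
      push Not at h1
      obtain ⟨a, b, hab, hca, hcr⟩ := h1 (by tauto)
      have h2 : ¬ E.S k a := fun hh => hz.2 a b hh (GP.trans hh hab) hcr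
      have h3 : ¬ E.S a k := fun hh => h2 (GP.symm hh)
      have h4 : ¬ E.S a l := fun hh => by
        have := GP.col hh
        tauto
      have h5 : ¬ E.S a z := fun hh => by
        have := GP.col hh
        tauto
      have h6 : ¬ Cr a b k l := by
        intro hh
        have : cl E a ∈ Xs E k l := ⟨a, b, rfl, hab, hh, h3, h4⟩
        rw [h.none] at this
        exact this
      refine ⟨a, b, hab, ?_, h3, h5⟩
      refine cr_move hcr ?_ ?_ (fun hh => h6 (cr_swap2.1 hh))
      · rintro rfl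
        exact h3 (GP.refl _)
      · rintro rfl
        exact h3 hab
  obtain ⟨a, b, hab, hcr, h1, h2⟩ := key
  have ha : a ∉ D := by
    intro ha
    exact hD.cvx a ha b ((hD.sat a b hab).1 ha) k h.out z hzD hcr
  have hag : a ∈ gap E k l := by
    refine ⟨fun hh => h1 (GP.symm hh), fun c d hc hd hcd => ?_⟩
    have n1 := hz.2 c d hc hd
    have hca : ¬ E.S c a := fun hh => h1 (GP.symm (GP.trans hc hh))
    have hcz : ¬ E.S c z := fun hh => hz.1 (GP.trans hc hh)
    have hcd' : E.S c d := GP.trans (GP.symm hc) hd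
    have e1 : c ≠ z := by rintro rfl; exact hcz (GP.refl _)
    have e2 : d ≠ z := by rintro rfl; exact hcz hcd'
    have b1 : Cr c d z a := cr_move hcd e1 e2 n1
    have e3 : c ≠ b := by rintro rfl; exact hca (GP.symm hab)
    have e4 : d ≠ b := by rintro rfl; exact hca (GP.trans hcd' (GP.symm hab))
    have n2 : ¬ Cr c d a b := fun hh => hca (GP.noncr hab hcd' hh)
    have b2 : Cr c d z b := cr_move' b1 e3 e4 n2
    have s1 : ¬ Cr a b z c := cr_same (cr_swap2.1 b1) (cr_swap2.1 b2)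
    have ne1 := cr_ne b1
    have b3 : Cr a b k c := cr_move' hcr ne1.2.2.1.symm e3.symm s1
    exact h1 (GP.noncr hc hab b3)
  exact absurd (hmin a hag ha) (not_le.2 (Xs_lt' hE hab hcr h1 h2))

theorem Adj.eq_gap' (hE : LF E) {D : Set α} (hD : Sat E D) {k l : α} (h : Adj E D k l) :
    Dᶜ = gap E l k := h.compl.eq_gap hE hD.compl

/-- `D` is the only saturated cut between `k` and `l` -/
theorem Adj.unique (hE : LF E) {D D' : Set α} (hD : Sat E D) {k l : α} (h : Adj E D k l)
    (hD' : Sat E D') (hk : k ∉ D') (hl : l ∈ D') : D' = D := by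
  refine Set.Subset.antisymm ?_ ?_
  · rw [h.eq_gap hE hD]
    exact hD'.sub_gap hk hl
  · rw [← Set.compl_subset_compl, h.eq_gap' hE hD]
    exact hD'.compl.sub_gap (fun hh => hh hl) hk

/-- finitely many saturated cuts separate two points -/
theorem sat_fin (hE : LF E) (x y : α) : {D | Sat E D ∧ x ∉ D ∧ y ∈ D}.Finite := by
  refine (((hE x y).insert (cl E x)).image
    fun c : Set α => {z | z ∉ c ∧ ∀ a b, a ∈ c → b ∈ c → ¬ Cr a b y z}).subset ?_
  rintro D ⟨hD, hx, hy⟩
  obtain ⟨k, l, h⟩ := exists_adj hE hD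
  have hkl : ¬ E.S k l := fun hh => h.out ((hD.sat k l hh).2 h.inn)
  have hky : ¬ E.S k y := fun hh => h.out ((hD.sat k y hh).2 hy)
  have e1 : D = gap E k y := by
    refine Set.Subset.antisymm (hD.sub_gap h.out hy) ?_
    have h1 := (gap_sat hky).sub_gap (x := k) (y := l) (notMem_gap (GP.refl k)) ?_
    · rw [h.eq_gap hE hD]
      exact h1
    · refine ⟨hkl, fun a b ha hb hcr => ?_⟩
      have hy' : y ∈ gap E k l := by
        rw [← h.eq_gap hE hD]
        exact hy
      exact hy'.2 a b ha hb (cr_swap2.1 hcr)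
  refine ⟨cl E k, ?_, e1.symm⟩
  by_cases hkx : E.S k x
  · exact Or.inl (cl_eq hkx)
  · right
    have h2 : x ∉ gap E k y := e1 ▸ hx
    have h3 : ∃ a b, E.S k a ∧ E.S k b ∧ Cr a b y x := by
      by_contra hcon
      push Not at hcon
      exact h2 ⟨hkx, fun a b ha hb => hcon a b ha hb⟩
    obtain ⟨a, b, ha, hb, hcr⟩ := h3
    exact ⟨a, b, cl_eq ha, GP.trans (GP.symm ha) hb, cr_swap2.1 hcr, fun hh => hkx (GP.trans ha hh),
      fun hh => hky (GP.trans ha hh)⟩

end TorL
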