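import Mathlib
import Pool.Agent.Lib.MP_05cdf2_gt.L.Fin

/-! MP_05cdf2_gt, stream L (helper49): outward lines, the order of Galois pairs, nestedness.

`Ln E D`: `D` is a saturated cut with a point of colour `P` adjacent outside. Exactly one of `D`, `Dᶜ` is outward.
Order: `E ≤ E'` iff `P ⊆ P'` and related points of colour `P` are related for `E'`. `nest_of_le`: the saturated cuts
of comparable Galois pairs are nested. -/

set_option autoImplicit false

namespace TorL
open TorM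

variable {α : Type} [LinearOrder α] {E E' : GP α}

/-- outward lines -/
def Ln (E : GP α) (D : Set α) : Prop := Sat E D ∧ ∃ k l, Adj E D k l ∧ k ∈ E.P

theorem gap_congr {x y z : α} (hy : ¬ E.S x y) (hz : z ∈ gap E x y) : gap E x z = gap E x y := by
  have h1 : gap E x y ⊆ gap E x z := (gap_sat hy).sub_gap (notMem_gap (GP.refl x)) hz
  have hz' : ¬ E.S x z := hz.1
  have h2 : gap E x z ⊆ gap E x y :=
    (gap_sat hz').sub_gap (notMem_gap (GP.refl x)) (h1 (mem_gap_self hy))
  exact Set.Subset.antisymm h2 h1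

theorem gap_class {x x' y : α} (h : E.S x x') : gap E x y = gap E x' y := by
  ext z
  constructor
  · rintro ⟨h1, h2⟩
    exact ⟨fun hh => h1 (GP.trans h hh), fun a b ha hb => h2 a b (GP.trans h ha) (GP.trans h hb)⟩
  · rintro ⟨h1, h2⟩
    exact ⟨fun hh => h1 (GP.trans (GP.symm h) hh), fun a b ha hb =>
      h2 a b (GP.trans (GP.symm h) ha) (GP.trans (GP.symm h) hb)⟩

/-- the class outside is determined by the gap -/
theorem gap_inj {k k' y : α} {D : Set α} (hk : k ∉ D) (hk' : k' ∉ D)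
    (h : D = gap E k y) (h' : D = gap E k' y) : E.S k k' := by
  by_contra hkk
  have hkk' : ¬ E.S k' k := fun hh => hkk (GP.symm hh)
  have h1 : ∃ a b, E.S k a ∧ E.S k b ∧ Cr a b y k' := by
    by_contra hcon
    push Not at hcon
    exact hk' (h ▸ ⟨hkk, fun a b ha hb => hcon a b ha hb⟩)
  have h2 : ∃ a b, E.S k' a ∧ E.S k' b ∧ Cr a b y k := by
    by_contra hcon
    push Not at hcon
    exact hk (h' ▸ ⟨hkk', fun a b ha hb => hcon a b ha hb⟩)
  obtain ⟨a, b, ha, hb, hab⟩ := h1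
  obtain ⟨c, d, hc, hd, hcd⟩ := h2
  have sab : E.S a b := GP.trans (GP.symm ha) hb
  have scd : E.S c d := GP.trans (GP.symm hc) hd
  have nac : ¬ E.S a c := fun hh => hkk (GP.trans (GP.trans ha hh) (GP.symm hc))
  have nak' : ¬ E.S a k' := fun hh => hkk (GP.trans ha hh)
  have nck : ¬ E.S c k := fun hh => hkk' (GP.trans hc hh)
  -- `a b` separates `y` from `k'`, `c`, `d`
  have ne : ∀ p q, E.S p a → E.S q c → p ≠ q := by
    rintro p q hp hq rfl
    exact nac (GP.trans (GP.symm hp) hq)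
  have x1 : ¬ Cr a b k' c := fun hh => nak' (GP.noncr hc sab hh)
  have x2 : ¬ Cr a b k' d := fun hh => nak' (GP.noncr (GP.trans hc scd) sab hh)
  have b1 : Cr a b y c := cr_move' hab (ne a c (GP.refl _) (GP.refl _)) (ne b c (GP.symm sab) (GP.refl _)) x1
  have b2 : Cr a b y d :=
    cr_move' hab (ne a d (GP.refl _) (GP.symm scd)) (ne b d (GP.symm sab) (GP.symm scd)) x2
  have s1 : ¬ Cr c d y a := cr_same (cr_swap2.1 b1) (cr_swap2.1 b2)
  have x3 : ¬ Cr c d k a := fun hh => nck (GP.noncr ha scd hh)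
  exact s1 (cr_move' hcd (ne a c (GP.refl _) (GP.refl _)).symm (ne a d (GP.refl _) (GP.symm scd)).symm x3)

theorem ln_or (hE : LF E) {D : Set α} (hD : Sat E D) : Ln E D ∨ Ln E Dᶜ := by
  obtain ⟨k, l, h⟩ := exists_adj hE hD
  by_cases hk : k ∈ E.P
  · exact Or.inl ⟨hD, k, l, h, hk⟩
  · have := h.col
    exact Or.inr ⟨hD.compl, l, k, h.compl, by tauto⟩

theorem Adj.eq_gap_of_mem (hE : LF E) {D : Set α} (hD : Sat E D) {k l y : α} (h : Adj E D k l) (hy : y ∈ D) :
    D = gap E k y := by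
  have h1 := h.eq_gap hE hD
  have hkl : ¬ E.S k l := fun hh => h.out ((hD.sat k l hh).2 h.inn)
  rw [gap_congr hkl (h1 ▸ hy)]
  exact h1

/-- all the points adjacent outside are related -/
theorem Adj.out_unique (hE : LF E) {D : Set α} (hD : Sat E D) {k l k' l' : α} (h : Adj E D k l)
    (h' : Adj E D k' l') : E.S k k' :=
  gap_inj h.out h'.out (h.eq_gap_of_mem hE hD h.inn) (h'.eq_gap_of_mem hE hD h.inn)

theorem Adj.inn_unique (hE : LF E) {D : Set α} (hD : Sat E D) {k l k' l' : α} (h : Adj E D k l)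
    (h' : Adj E D k' l') : E.S l l' := h.compl.out_unique hE hD.compl h'.compl

theorem ln_not (hE : LF E) {D : Set α} (h : Ln E D) : ¬ Ln E Dᶜ := by
  rintro ⟨-, l', k', h', hl'⟩
  obtain ⟨hD, k, l, hk, hkP⟩ := h
  have h1 : Adj E D k' l' := by
    have := h'.compl
    rwa [compl_compl] at this
  have h2 := hk.out_unique hE hD h1
  have h3 := GP.col h2
  have h4 := h1.col
  tauto

theorem ln_compl_iff (hE : LF E) {D : Set α} (hD : Sat E D) : Ln E Dᶜ ↔ ¬ Ln E D := by
  constructor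
  · intro h h'
    exact ln_not hE h' h
  · intro h
    exact (ln_or hE hD).resolve_left h

theorem Ln.adj {D : Set α} (h : Ln E D) : ∃ k l, Adj E D k l ∧ k ∈ E.P ∧ l ∉ E.P := by
  obtain ⟨-, k, l, h1, h2⟩ := h
  exact ⟨k, l, h1, h2, h1.col.1 h2⟩

theorem ln_dual {D : Set α} : Ln E.dual D ↔ Ln E Dᶜ := by
  constructor
  · rintro ⟨h1, k, l, h2, h3⟩
    refine ⟨(sat_dual (E := E)).1 h1 |>.compl, l, k, ?_, ?_⟩
    · exact Adj.compl ⟨h2.out, h2.inn, by have := h2.col; simp only [GP.dual_P, Set.mem_compl_iff] at this; tauto,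
        h2.none⟩
    · have := h2.col
      simp only [GP.dual_P, Set.mem_compl_iff] at this h3
      tauto
  · rintro ⟨h1, k, l, h2, h3⟩
    have h4 := h2.compl
    rw [compl_compl] at h4
    refine ⟨(sat_dual (E := E)).2 ((sat_compl_iff (E := E)).1 h1), l, k, h4.dual, ?_⟩
    have := h2.col
    simp only [GP.dual_P, Set.mem_compl_iff]
    tauto

/-! order -/

instance : LE (GP α) := ⟨fun E E' => E.P ⊆ E'.P ∧ ∀ x y, x ∈ E.P → E.S x y → E'.S x y⟩

theorem le_def : E ≤ E' ↔ E.P ⊆ E'.P ∧ ∀ x y, x ∈ E.P → E.S x y → E'.S x y := Iff.rfl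

theorem dual_le (h : E ≤ E') : E'.dual ≤ E.dual := by
  refine ⟨Set.compl_subset_compl.2 h.1, fun x y hx hxy => ?_⟩
  simp only [GP.dual_P, Set.mem_compl_iff] at hx
  have hxy' : E'.S x y := hxy
  have hy : y ∉ E'.P := fun hh => hx ((GP.col hxy').2 hh)
  show E.S x y
  rw [E.iff]
  have hx1 : x ∉ E.P := fun hh => hx (h.1 hh)
  have hy1 : y ∉ E.P := fun hh => hy (h.1 hh)
  refine ⟨by tauto, fun a b hab hc => ?_⟩
  have ha : a ∈ E.P := hc.2 hx1
  refine GP.not_cross hxy' (h.2 a b ha hab) ?_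
  have := h.1 ha
  tauto

theorem dual_dual (E : GP α) : E.dual.dual = E := GP.ext' (by simp) (fun _ _ => Iff.rfl)

theorem dual_le_iff : E'.dual ≤ E.dual ↔ E ≤ E' := by
  constructor
  · intro h
    have := dual_le h
    rwa [dual_dual, dual_dual] at this
  · exact dual_le

theorem S_of_le' (h : E ≤ E') {x y : α} (hx : x ∉ E'.P) (hxy : E'.S x y) : E.S x y :=
  (dual_le h).2 x y hx hxy

instance : PartialOrder (GP α) where
  le := (· ≤ ·)
  le_refl E := ⟨Set.Subset.rfl, fun _ _ _ h => h⟩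
  le_trans E E' E'' h h' := ⟨h.1.trans h'.1, fun x y hx hxy => h'.2 x y (h.1 hx) (h.2 x y hx hxy)⟩
  le_antisymm E E' h h' := by
    have hP : E.P = E'.P := Set.Subset.antisymm h.1 h'.1
    refine GP.ext' hP fun x y => ?_
    by_cases hx : x ∈ E.P
    · exact ⟨h.2 x y hx, h'.2 x y (hP ▸ hx)⟩
    · exact ⟨S_of_le' h' hx, S_of_le' h (hP ▸ hx)⟩

/-- nested sets -/
def Nst (A B : Set α) : Prop := A ⊆ B ∨ B ⊆ A ∨ (∀ x, ¬ (x ∈ A ∧ x ∈ B)) ∨ (∀ x, x ∈ A ∨ x ∈ B)

theorem Nst.symm {A B : Set α} (h : Nst A B) : Nst B A := by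
  rcases h with h | h | h | h
  · exact Or.inr (Or.inl h)
  · exact Or.inl h
  · exact Or.inr (Or.inr (Or.inl fun x hx => h x hx.symm))
  · exact Or.inr (Or.inr (Or.inr fun x => (h x).symm))

theorem Nst.compl_left {A B : Set α} (h : Nst A B) : Nst Aᶜ B := by
  rcases h with h | h | h | h
  · exact Or.inr (Or.inr (Or.inr fun x => by
      by_cases hx : x ∈ A
      · exact Or.inr (h hx)
      · exact Or.inl hx))
  · exact Or.inr (Or.inr (Or.inl fun x hx => hx.1 (h hx.2)))
  · exact Or.inr (Or.inl fun x hx hxA => h x ⟨hxA, hx⟩)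
  · exact Or.inl fun x hx => (h x).resolve_left hx

theorem Nst.compl_right {A B : Set α} (h : Nst A B) : Nst A Bᶜ := h.symm.compl_left.symm

/-- a convex set which does not cut the class outside `D` is nested with `D` -/
theorem nst_of_out {D D' : Set α} {k : α} (hg : ∀ z, z ∈ D → D = gap E k z)
    (hD' : Cvx D') (hs : ∀ z, E.S k z → (k ∈ D' ↔ z ∈ D')) : Nst D D' := by
  by_cases hk : k ∈ D'
  · by_cases hd : ∃ z ∈ D, z ∉ D'
    · obtain ⟨z, hz, hzD⟩ := hd
      right; right; right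
      have h1 : D'ᶜ ⊆ gap E k z := sub_gap hD'.compl hzD fun w hw hwD => hwD ((hs w hw).1 hk)
      rw [← hg z hz] at h1
      intro x
      by_cases hx : x ∈ D'
      · exact Or.inr hx
      · exact Or.inl (h1 hx)
    · push Not at hd
      exact Or.inl hd
  · by_cases hd : ∃ z ∈ D, z ∈ D'
    · obtain ⟨z, hz, hzD⟩ := hd
      right; left
      have h1 : D' ⊆ gap E k z := sub_gap hD' hzD fun w hw hwD => hk ((hs w hw).2 hwD)
      rw [← hg z hz] at h1
      exact h1
    · push Not at hd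
      exact Or.inr (Or.inr (Or.inl fun x hx => hd x hx.1 hx.2))

theorem nest_of_le (hE : LF E) (h : E ≤ E') {D D' : Set α} (hD : Sat E D) (hD' : Sat E' D') : Nst D D' := by
  obtain ⟨k, l, hkl⟩ := exists_adj hE hD
  by_cases hk : k ∈ E.P
  · exact nst_of_out (fun z hz => hkl.eq_gap_of_mem hE hD hz) hD'.cvx fun z hz =>
      hD'.sat k z (h.2 k z hk hz)
  · have hl : l ∈ E.P := by
      have := hkl.col
      tauto
    have := nst_of_out (fun z hz => hkl.compl.eq_gap_of_mem hE hD.compl hz) hD'.cvx fun z hz =>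
      hD'.sat l z (h.2 l z hl hz)
    have h2 := this.compl_left
    rwa [compl_compl] at h2

theorem nest_sat (hE : LF E) {D D' : Set α} (hD : Sat E D) (hD' : Sat E D') : Nst D D' :=
  nest_of_le hE (le_refl E) hD hD'

end TorL
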