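import Mathlib
import Pool.Agent.Lib.MP_05cdf2_gt.L.Ord

/-! MP_05cdf2_gt, stream L (helper49): Galois pairs form a lattice; locally finite ones a sublattice. -/

set_option autoImplicit false

namespace TorL
open TorM

variable {α : Type} [LinearOrder α] {E E' : GP α}

/-- the infimum -/
def GP.inf (E E' : GP α) : GP α where
  P := E.P ∩ E'.P
  S x y := (x ∈ E.P ∩ E'.P ∧ y ∈ E.P ∩ E'.P ∧ E.S x y ∧ E'.S x y) ∨
    (x ∉ E.P ∩ E'.P ∧ y ∉ E.P ∩ E'.P ∧
      ∀ a b, a ∈ E.P ∩ E'.P → b ∈ E.P ∩ E'.P → E.S a b → E'.S a b → ¬ Cr a b x y)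
  iff x y := by
    have aux : ∀ (E E' : GP α) (x y : α), x ∈ E.P ∩ E'.P → y ∈ E.P ∩ E'.P → ¬ E.S x y →
        ∃ a b, a ∉ E.P ∧ b ∉ E.P ∧ E.S a b ∧ Cr a b x y := by
      intro E E' x y hx hy h
      rw [E.iff] at h
      push Not at h
      obtain ⟨a, b, hab, hc, hcr⟩ := h (iff_of_true hx.1 hy.1)
      have ha : a ∉ E.P := fun hh => (hc.1 hh) hx.1
      exact ⟨a, b, ha, fun hh => ha ((GP.col hab).2 hh), hab, hcr⟩
    constructor
    · rintro (⟨hx, hy, h1, h2⟩ | ⟨hx, hy, h⟩)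
      · refine ⟨iff_of_true hx hy, ?_⟩
        rintro a b (⟨ha, -, -, -⟩ | ⟨ha, hb, hab⟩) hc
        · exact absurd hx (hc.1 ha)
        · intro hcr
          exact hab x y hx hy h1 h2 (cr_comm.1 hcr)
      · refine ⟨iff_of_false hx hy, ?_⟩
        rintro a b (⟨ha, hb, h1, h2⟩ | ⟨ha, hb, hab⟩) hc
        · exact h a b ha hb h1 h2
        · exact absurd (hc.2 hx) ha
    · rintro ⟨hc, h⟩
      by_cases hx : x ∈ E.P ∩ E'.P
      · have hy := hc.1 hx
        refine Or.inl ⟨hx, hy, ?_, ?_⟩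
        · by_contra hn
          obtain ⟨a, b, ha, hb, hab, hcr⟩ := aux E E' x y hx hy hn
          refine h a b (Or.inr ⟨fun hh => ha hh.1, fun hh => hb hh.1, fun c d hc hd h1 _ => ?_⟩)
            (iff_of_false (fun hh => ha hh.1) (fun hh => hh hx)) hcr
          exact GP.not_cross hab h1 (iff_of_true hc.1 ha)
        · by_contra hn
          obtain ⟨a, b, ha, hb, hab, hcr⟩ := aux E' E x y ⟨hx.2, hx.1⟩ ⟨hy.2, hy.1⟩ hn
          refine h a b (Or.inr ⟨fun hh => ha hh.2, fun hh => hb hh.2, fun c d hc hd _ h2 => ?_⟩)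
            (iff_of_false (fun hh => ha hh.2) (fun hh => hh hx)) hcr
          exact GP.not_cross hab h2 (iff_of_true hc.2 ha)
      · have hy : y ∉ E.P ∩ E'.P := fun hh => hx (hc.2 hh)
        refine Or.inr ⟨hx, hy, fun a b ha hb h1 h2 => ?_⟩
        exact h a b (Or.inl ⟨ha, hb, h1, h2⟩) (iff_of_true ha hx)

theorem inf_le_left' : GP.inf E E' ≤ E := by
  refine ⟨Set.inter_subset_left, ?_⟩
  rintro x y hx (⟨-, -, h, -⟩ | ⟨h, -, -⟩)
  · exact h
  · exact absurd hx h

theorem inf_le_right' : GP.inf E E' ≤ E' := by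
  refine ⟨Set.inter_subset_right, ?_⟩
  rintro x y hx (⟨-, -, -, h⟩ | ⟨h, -, -⟩)
  · exact h
  · exact absurd hx h

theorem le_inf' {Z : GP α} (h : Z ≤ E) (h' : Z ≤ E') : Z ≤ GP.inf E E' := by
  refine ⟨Set.subset_inter h.1 h'.1, fun x y hx hxy => Or.inl ?_⟩
  have hy := (GP.col hxy).1 hx
  exact ⟨⟨h.1 hx, h'.1 hx⟩, ⟨h.1 hy, h'.1 hy⟩, h.2 x y hx hxy, h'.2 x y hx hxy⟩

/-- the supremum -/
def GP.sup (E E' : GP α) : GP α := (GP.inf E.dual E'.dual).dual

instance : Lattice (GP α) where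
  inf := GP.inf
  sup := GP.sup
  inf_le_left _ _ := inf_le_left'
  inf_le_right _ _ := inf_le_right'
  le_inf _ _ _ := le_inf'
  le_sup_left E E' := by
    rw [← dual_le_iff]
    show (GP.inf E.dual E'.dual).dual.dual ≤ _
    rw [dual_dual]
    exact inf_le_left'
  le_sup_right E E' := by
    rw [← dual_le_iff]
    show (GP.inf E.dual E'.dual).dual.dual ≤ _
    rw [dual_dual]
    exact inf_le_right'
  sup_le E E' Z h h' := by
    rw [← dual_le_iff]
    show Z.dual ≤ (GP.inf E.dual E'.dual).dual.dual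
    rw [dual_dual]
    exact le_inf' (dual_le h) (dual_le h')

theorem inf_P : (E ⊓ E').P = E.P ∩ E'.P := rfl

theorem sup_P : (E ⊔ E').P = E.P ∪ E'.P := by
  show (E.Pᶜ ∩ E'.Pᶜ)ᶜ = _
  rw [Set.compl_inter, compl_compl, compl_compl]

theorem inf_dual : (E ⊓ E').dual = E.dual ⊔ E'.dual := by
  show (GP.inf E E').dual = (GP.inf E.dual.dual E'.dual.dual).dual
  rw [dual_dual, dual_dual]

theorem sup_dual : (E ⊔ E').dual = E.dual ⊓ E'.dual := by
  show (GP.inf E.dual E'.dual).dual.dual = _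
  rw [dual_dual]
  rfl

theorem inf_S {x y : α} (hx : x ∈ E.P ∩ E'.P) : (E ⊓ E').S x y ↔ (E.S x y ∧ E'.S x y) := by
  constructor
  · rintro (⟨-, -, h1, h2⟩ | ⟨h, -, -⟩)
    · exact ⟨h1, h2⟩
    · exact absurd hx h
  · rintro ⟨h1, h2⟩
    exact Or.inl ⟨hx, ⟨(GP.col h1).1 hx.1, (GP.col h2).1 hx.2⟩, h1, h2⟩

theorem sup_S {x y : α} (hx : x ∉ E.P ∪ E'.P) : (E ⊔ E').S x y ↔ (E.S x y ∧ E'.S x y) :=
  inf_S (E := E.dual) (E' := E'.dual) (by
    rw [Set.mem_union, not_or] at hx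
    exact hx)

/-! local finiteness -/

/-- the separating classes of colour `P` -/
def XP (E : GP α) (x y : α) : Set (Set α) :=
  {c | ∃ a b, a ∈ E.P ∧ c = cl E a ∧ E.S a b ∧ Cr a b x y ∧ ¬ E.S a x ∧ ¬ E.S a y}

/-- a class between two classes of the other colour -/
theorem between {a b r s p q x y : α} (hab : E.S a b) (hrs : E.S r s) (hpq : E.S p q)
    (hr : a ∈ E.P ↔ r ∉ E.P) (hp : a ∈ E.P ↔ p ∉ E.P) (h1 : Cr r s x y) (h2 : Cr p q x y)
    (h3 : Cr a b r p) (hrx : ¬ E.S r x) (hry : ¬ E.S r y) (hpx : ¬ E.S p x) (hpy : ¬ E.S p y) :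
    Cr a b x y ∧ ¬ E.S a x ∧ ¬ E.S a y := by
  have ne : ∀ {u v : α}, (u ∈ E.P ↔ v ∉ E.P) → u ≠ v := by
    rintro u v h rfl
    tauto
  have flip : ∀ {p q : Prop}, (p ↔ ¬ q) → (q ↔ ¬ p) := fun h => by tauto
  have ca := GP.col hab
  have cr := GP.col hrs
  have cp := GP.col hpq
  have nar : ¬ Cr a b r s := GP.not_cross hrs hab hr
  have nap : ¬ Cr a b p q := GP.not_cross hpq hab hp
  have has : a ∈ E.P ↔ s ∉ E.P := hr.trans (not_congr cr)
  have haq : a ∈ E.P ↔ q ∉ E.P := hp.trans (not_congr cp)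
  have e_as : a ≠ s := ne has
  have e_bs : b ≠ s := ne (ca.symm.trans has)
  have e_aq : a ≠ q := ne haq
  have e_bq : b ≠ q := ne (ca.symm.trans haq)
  have h4 : Cr a b s p := cr_move h3 e_as e_bs nar
  have h5 : Cr a b r q := cr_move' h3 e_aq e_bq nap
  -- no end of the chord is related to `a`
  have key : ∀ x y, Cr r s x y → Cr p q x y → ¬ E.S r y → ¬ E.S p y → ¬ E.S a x := by
    intro x y h1 h2 hry hpy hax
    have cx := GP.col hax
    have hrx' : r ∈ E.P ↔ x ∉ E.P := (flip hr).trans (not_congr cx)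
    have hpx' : p ∈ E.P ↔ x ∉ E.P := (flip hp).trans (not_congr cx)
    have n1 : ¬ Cr r s x a := GP.not_cross (GP.symm hax) hrs hrx'
    have n2 : ¬ Cr p q x a := GP.not_cross (GP.symm hax) hpq hpx'
    have n3 : ¬ Cr r s x b := GP.not_cross (GP.trans (GP.symm hax) hab) hrs hrx'
    have n4 : ¬ Cr p q x b := GP.not_cross (GP.trans (GP.symm hax) hab) hpq hpx'
    have era : r ≠ a := (ne hr).symm
    have erb : r ≠ b := (ne (ca.symm.trans hr)).symm
    have epa : p ≠ a := (ne hp).symm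
    have epb : p ≠ b := (ne (ca.symm.trans hp)).symm
    have c1 : Cr r s a y := cr_move h1 era e_as.symm n1
    have c2 : Cr r s b y := cr_move h1 erb e_bs.symm n3
    have c3 : Cr p q a y := cr_move h2 epa e_aq.symm n2
    have c4 : Cr p q b y := cr_move h2 epb e_bq.symm n4
    have s1 : ¬ Cr a b y r := cr_same c1 c2
    have s2 : ¬ Cr a b y p := cr_same c3 c4
    have ne1 := cr_ne c1
    have ne2 := cr_ne c2
    rcases cr_tri h3 (y := y) ne1.2.2.2.2.2 ne2.2.2.2.2.2 with h6 | h6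
    · exact s1 (cr_swap2.1 h6)
    · exact s2 h6
  have k1 := key x y h1 h2 hry hpy
  have k2 := key y x (cr_swap2.1 h1) (cr_swap2.1 h2) hrx hpx
  refine ⟨cr_between h1 h2 h3 h4 h5 ?_ ?_ ?_ ?_, k1, k2⟩
  · rintro rfl
    exact k1 (GP.refl _)
  · rintro rfl
    exact k1 hab
  · rintro rfl
    exact k2 (GP.refl _)
  · rintro rfl
    exact k2 hab

/-- if finitely many classes of colour `P` separate, the same holds for the other colour -/
theorem LF_of_XP (h : ∀ x y, (XP E x y).Finite) : LF E := by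
  classical
  intro x y
  have hsub : Xs E x y ⊆ XP E x y ∪ XP E.dual x y := by
    rintro c ⟨a, b, rfl, h1, h2, h3, h4⟩
    by_cases ha : a ∈ E.P
    · exact Or.inl ⟨a, b, ha, rfl, h1, h2, h3, h4⟩
    · exact Or.inr ⟨a, b, ha, rfl, h1, h2, h3, h4⟩
  refine ((h x y).union ?_).subset hsub
  -- the classes of the other colour are determined by their position
  let f : Set α → Set (Set α) := fun c => {κ | κ ∈ XP E x y ∧ ∃ r ∈ c, ∃ a ∈ κ, r ∈ gap E a y}
  refine Set.Finite.of_finite_image (f := f) ((h x y).finite_subsets.subset ?_) ?_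
  · rintro _ ⟨c, -, rfl⟩ κ hκ
    exact hκ.1
  · rintro c ⟨r, s, hr, rfl, hrs, h1, h2, h3⟩ c' ⟨p, q, hp, rfl, hpq, h4, h5, h6⟩ hf
    simp only [GP.dual_P, Set.mem_compl_iff, GP.dual_S] at hr hp hrs hpq h2 h3 h5 h6
    by_contra hne
    have hrp : ¬ E.S r p := fun hh => hne (cl_eq hh)
    rw [E.iff] at hrp
    push Not at hrp
    obtain ⟨a, b, hab, hc, hcr⟩ := hrp (iff_of_false hr hp)
    have ha : a ∈ E.P := hc.2 hr
    have hc' : a ∈ E.P ↔ p ∉ E.P := iff_of_true ha hp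
    have hres := between hab hrs hpq hc hc' h1 h4 hcr h2 h3 h5 h6
    have hκ : cl E a ∈ XP E x y := ⟨a, b, ha, rfl, hab, hres.1, hres.2.1, hres.2.2⟩
    -- exactly one of `r`, `p` lies in the gap of `y`
    have side : ∀ r s p : α, r ∉ E.P → E.S r s → Cr r s x y → Cr a b r p → ¬ Cr a b y r →
        ¬ E.S r x → r ∈ gap E a y ∧ p ∉ gap E a y := by
      intro r s p hr hrs h1 hcr hn hrx
      have ay : a ≠ y := by rintro rfl; exact hres.2.2 (GP.refl _)
      have bY : b ≠ y := by rintro rfl; exact hres.2.2 hab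
      have ne : ∀ {u v : α}, u ∈ E.P → v ∉ E.P → u ≠ v := by
        rintro u v h h' rfl
        exact h' h
      have hs : s ∉ E.P := fun hh => hr ((GP.col hrs).2 hh)
      have hb : b ∈ E.P := (GP.col hab).1 ha
      have x1 : Cr a b x r := cr_move' hres.1 (ne ha hr) (ne hb hr) (fun hh => hn hh)
      have x2 : ¬ Cr a b r s := GP.not_cross hrs hab (iff_of_true ha hr)
      have x3 : Cr a b x s := cr_move' x1 (ne ha hs) (ne hb hs) x2
      have x4 : ¬ Cr r s x a := cr_same (cr_swap2.1 x1) (cr_swap2.1 x3)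
      have x5 : Cr r s a y := cr_move h1 (ne ha hr).symm (ne ha hs).symm x4
      constructor
      · refine ⟨fun hh => hr ((GP.col hh).1 ha), fun c d hc hd hcd => ?_⟩
        have hcP : c ∈ E.P := (GP.col hc).1 ha
        have hdP : d ∈ E.P := (GP.col hd).1 ha
        have scd : E.S c d := GP.trans (GP.symm hc) hd
        have y1 : ¬ Cr c d r s := GP.not_cross hrs scd (iff_of_true hcP hr)
        have y2 : Cr c d y s := cr_move' hcd (ne hcP hs) (ne hdP hs) y1
        have y3 : ¬ Cr r s y c := cr_same (cr_swap2.1 hcd) (cr_swap2.1 y2)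
        have y4 : Cr r s a c := cr_move' x5 (ne hcP hr).symm (ne hcP hs).symm y3
        exact GP.not_cross hc hrs (iff_of_false hr (fun hh => hh ha)) y4
      · intro hp
        have z1 : Cr a b y p := cr_move hcr ay bY (fun hh => hn (cr_swap2.1 hh))
        exact hp.2 a b (GP.refl a) hab z1
    have mem_f : ∀ r : α, (cl E a ∈ f (cl E r)) ↔ r ∈ gap E a y := by
      intro r
      constructor
      · rintro ⟨-, r', hr', a', ha', h7⟩
        rw [gap_class (y := y) (show E.S a' a from GP.symm ha')] at h7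
        exact ((gap_sat (by exact hres.2.2)).sat r r' hr').2 h7
      · intro h7
        exact ⟨hκ, r, GP.refl r, a, GP.refl a, h7⟩
    have hf1 : r ∈ gap E a y ↔ p ∈ gap E a y := by
      rw [← mem_f r, ← mem_f p]
      exact iff_of_eq (congrArg (fun s => cl E a ∈ s) hf)
    by_cases hn : Cr a b y r
    · -- then `p` is on the side of `y`
      have hn' : ¬ Cr a b y p := fun hh => cr_opp hn hh hcr
      have := side p q r hp hpq h4 (cr_swap2.1 hcr) hn' h5
      exact this.2 (hf1.2 this.1)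
    · have := side r s p hr hrs h1 hcr hn h2
      exact this.2 (hf1.1 this.1)

theorem LF.inf (h : LF E) (h' : LF E') : LF (E ⊓ E') := by
  apply LF_of_XP
  intro x y
  have hfin : ((Xs E x y ∪ {cl E x, cl E y}) ×ˢ (Xs E' x y ∪ {cl E' x, cl E' y})).Finite :=
    ((h x y).union (Set.toFinite _)).prod ((h' x y).union (Set.toFinite _))
  refine (hfin.image fun c : Set α × Set α => c.1 ∩ c.2).subset ?_
  rintro c ⟨a, b, ha, rfl, hab, hcr, -, -⟩
  have ha' : a ∈ E.P ∩ E'.P := ha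
  rw [inf_S ha'] at hab
  have aux : ∀ E : GP α, E.S a b → cl E a ∈ Xs E x y ∪ {cl E x, cl E y} := by
    intro E hab
    by_cases h1 : E.S a x
    · exact Or.inr (Or.inl (cl_eq h1))
    by_cases h2 : E.S a y
    · exact Or.inr (Or.inr (cl_eq h2))
    exact Or.inl ⟨a, b, rfl, hab, hcr, h1, h2⟩
  refine ⟨(cl E a, cl E' a), ⟨aux E hab.1, aux E' hab.2⟩, ?_⟩
  ext z
  exact (inf_S ha').symm

theorem LF.sup (h : LF E) (h' : LF E') : LF (E ⊔ E') := by
  have h1 : LF (E ⊔ E').dual := by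
    rw [sup_dual]
    exact LF.inf h.dual h'.dual
  exact h1

end TorL
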