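import Mathlib
import Pool.Agent.Lib.MP_05cdf2_gt.L.Lat

/-! MP_05cdf2_gt, stream L (helper49): signed counts.

`ch D x y = 1_D y - 1_D x`. For a family `Fm` of sets and weights `a`: `ws Fm a x y = ∑ᶠ D ∈ Fm, ch D x y • a D`.
`tele`: if `f` is constant on the classes of `E` and jumps by `a D` along the outward line `D`, then
`f y - f x = ws (Ln E) a x y`. `signed`: the signed number of outward lines from `x` to `y` is `1_P x - 1_P y`. -/

set_option autoImplicit false

namespace TorL
open TorM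

variable {α : Type}

open Classical in
/-- jump of the indicator -/
noncomputable def ch (D : Set α) (x y : α) : ℤ := (if y ∈ D then 1 else 0) - (if x ∈ D then 1 else 0)

theorem ch_add (D : Set α) (x y z : α) : ch D x y + ch D y z = ch D x z := by
  unfold ch
  ring

theorem ch_symm (D : Set α) (x y : α) : ch D y x = - ch D x y := by
  unfold ch
  ring

theorem ch_zero {D : Set α} {x y : α} (h : x ∈ D ↔ y ∈ D) : ch D x y = 0 := by
  unfold ch
  by_cases hx : x ∈ D
  · simp [hx, h.1 hx]
  · have hy : y ∉ D := fun hh => hx (h.2 hh)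
    simp [hx, hy]

theorem ch_one {D : Set α} {x y : α} (hx : x ∉ D) (hy : y ∈ D) : ch D x y = 1 := by
  simp [ch, hx, hy]

theorem ch_neg_one {D : Set α} {x y : α} (hx : x ∈ D) (hy : y ∉ D) : ch D x y = -1 := by
  simp [ch, hx, hy]

theorem ch_compl (D : Set α) (x y : α) : ch Dᶜ x y = - ch D x y := by
  unfold ch
  by_cases hx : x ∈ D <;> by_cases hy : y ∈ D <;> simp [hx, hy]

/-- finitely many members separate any two points -/
def LFm (Fm : Set (Set α)) : Prop := ∀ x y, {D | D ∈ Fm ∧ ¬ (x ∈ D ↔ y ∈ D)}.Finite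

theorem LFm.mono {Fm Fm' : Set (Set α)} (h : LFm Fm) (hs : Fm' ⊆ Fm) : LFm Fm' :=
  fun x y => (h x y).subset fun _ hD => ⟨hs hD.1, hD.2⟩

theorem LFm.union {Fm Fm' : Set (Set α)} (h : LFm Fm) (h' : LFm Fm') : LFm (Fm ∪ Fm') := by
  intro x y
  refine ((h x y).union (h' x y)).subset ?_
  rintro D ⟨hD | hD, h2⟩
  · exact Or.inl ⟨hD, h2⟩
  · exact Or.inr ⟨hD, h2⟩

open Classical in
/-- weighted signed count -/
noncomputable def ws {G : Type} [AddCommGroup G] (Fm : Set (Set α)) (a : Set α → G) (x y : α) : G :=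
  ∑ᶠ D, if D ∈ Fm then ch D x y • a D else 0

section
variable {G : Type} [AddCommGroup G]

open Classical in
theorem ws_supp {Fm : Set (Set α)} (h : LFm Fm) (a : Set α → G) (x y : α) :
    (Function.support fun D => if D ∈ Fm then ch D x y • a D else 0).Finite := by
  refine (h x y).subset fun D hD => ?_
  rw [Function.mem_support] at hD
  by_cases hF : D ∈ Fm
  · rw [if_pos hF] at hD
    refine ⟨hF, fun hh => hD ?_⟩
    rw [ch_zero hh, zero_smul]
  · rw [if_neg hF] at hD
    exact absurd rfl hD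

theorem ws_add {Fm : Set (Set α)} (h : LFm Fm) (a : Set α → G) (x y z : α) :
    ws Fm a x y + ws Fm a y z = ws Fm a x z := by
  classical
  unfold ws
  rw [← finsum_add_distrib (ws_supp h a x y) (ws_supp h a y z)]
  refine finsum_congr fun D => ?_
  by_cases hF : D ∈ Fm
  · rw [if_pos hF, if_pos hF, if_pos hF, ← add_smul, ch_add]
  · rw [if_neg hF, if_neg hF, if_neg hF, add_zero]

theorem ws_symm (Fm : Set (Set α)) (a : Set α → G) (x y : α) :
    ws Fm a y x = - ws Fm a x y := by
  classical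
  unfold ws
  rw [← finsum_neg_distrib]
  refine finsum_congr fun D => ?_
  by_cases hF : D ∈ Fm
  · rw [if_pos hF, if_pos hF, ch_symm, neg_smul]
  · rw [if_neg hF, if_neg hF, neg_zero]

/-- only one member separates -/
theorem ws_single {Fm : Set (Set α)} (a : Set α → G) {x y : α} {D : Set α} (hD : D ∈ Fm)
    (h : ∀ D' ∈ Fm, D' ≠ D → (x ∈ D' ↔ y ∈ D')) : ws Fm a x y = ch D x y • a D := by
  classical
  unfold ws
  rw [finsum_eq_single _ D]
  · rw [if_pos hD]
  · intro D' hD'
    by_cases hF : D' ∈ Fm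
    · rw [if_pos hF, ch_zero (h D' hF hD'), zero_smul]
    · rw [if_neg hF]

theorem ws_zero {Fm : Set (Set α)} (a : Set α → G) {x y : α}
    (h : ∀ D' ∈ Fm, (x ∈ D' ↔ y ∈ D')) : ws Fm a x y = 0 := by
  classical
  unfold ws
  rw [finsum_eq_zero_of_forall_eq_zero]
  intro D
  by_cases hF : D ∈ Fm
  · rw [if_pos hF, ch_zero (h D hF), zero_smul]
  · rw [if_neg hF]

theorem ws_union {Fm Fm' : Set (Set α)} (h : LFm Fm) (h' : LFm Fm') (hd : ∀ D ∈ Fm, D ∉ Fm')
    (a : Set α → G) (x y : α) : ws (Fm ∪ Fm') a x y = ws Fm a x y + ws Fm' a x y := by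
  classical
  unfold ws
  rw [← finsum_add_distrib (ws_supp h a x y) (ws_supp h' a x y)]
  refine finsum_congr fun D => ?_
  by_cases hF : D ∈ Fm
  · have hU : D ∈ Fm ∪ Fm' := Or.inl hF
    rw [if_pos hU, if_pos hF, if_neg (hd D hF), add_zero]
  · by_cases hF' : D ∈ Fm'
    · have hU : D ∈ Fm ∪ Fm' := Or.inr hF'
      rw [if_pos hU, if_neg hF, if_pos hF', zero_add]
    · have hU : D ∉ Fm ∪ Fm' := by
        rintro (h | h)
        exacts [hF h, hF' h]
      rw [if_neg hU, if_neg hF, if_neg hF', add_zero]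

end

/-- the unweighted count is a difference of two cardinals -/
theorem ws_card {Fm : Set (Set α)} (h : LFm Fm) (x y : α) :
    ws Fm (fun _ => (1 : ℤ)) x y =
      ({D | D ∈ Fm ∧ x ∉ D ∧ y ∈ D}.ncard : ℤ) - ({D | D ∈ Fm ∧ x ∈ D ∧ y ∉ D}.ncard : ℤ) := by
  classical
  have h1 : {D | D ∈ Fm ∧ x ∉ D ∧ y ∈ D}.Finite :=
    (h x y).subset fun D hD => ⟨hD.1, fun hh => hD.2.1 (hh.2 hD.2.2)⟩
  have h2 : {D | D ∈ Fm ∧ x ∈ D ∧ y ∉ D}.Finite :=
    (h x y).subset fun D hD => ⟨hD.1, fun hh => hD.2.2 (hh.1 hD.2.1)⟩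
  unfold ws
  rw [finsum_eq_sum_of_support_subset _ (s := h1.toFinset ∪ h2.toFinset)]
  · rw [Finset.sum_union]
    · have e1 : ∑ D ∈ h1.toFinset, (if D ∈ Fm then ch D x y • (1 : ℤ) else 0) = h1.toFinset.card := by
        rw [Finset.card_eq_sum_ones]
        push_cast
        refine Finset.sum_congr rfl fun D hD => ?_
        rw [Set.Finite.mem_toFinset] at hD
        rw [if_pos hD.1, ch_one hD.2.1 hD.2.2]
        rfl
      have e2 : ∑ D ∈ h2.toFinset, (if D ∈ Fm then ch D x y • (1 : ℤ) else 0) = - h2.toFinset.card := by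
        rw [Finset.card_eq_sum_ones]
        push_cast
        rw [← Finset.sum_neg_distrib]
        refine Finset.sum_congr rfl fun D hD => ?_
        rw [Set.Finite.mem_toFinset] at hD
        rw [if_pos hD.1, ch_neg_one hD.2.1 hD.2.2]
        rfl
      rw [e1, e2, Set.ncard_eq_toFinset_card _ h1, Set.ncard_eq_toFinset_card _ h2]
      ring
    · rw [Finset.disjoint_left]
      intro D hD hD'
      rw [Set.Finite.mem_toFinset] at hD hD'
      exact hD.2.1 hD'.2.1
  · intro D hD
    rw [Function.mem_support] at hD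
    rw [Finset.mem_coe, Finset.mem_union, Set.Finite.mem_toFinset, Set.Finite.mem_toFinset]
    by_cases hF : D ∈ Fm
    · rw [if_pos hF] at hD
      by_cases hx : x ∈ D <;> by_cases hy : y ∈ D
      · rw [ch_zero (iff_of_true hx hy)] at hD
        simp at hD
      · exact Or.inr ⟨hF, hx, hy⟩
      · exact Or.inl ⟨hF, hx, hy⟩
      · rw [ch_zero (iff_of_false hx hy)] at hD
        simp at hD
    · rw [if_neg hF] at hD
      exact absurd rfl hD

variable [LinearOrder α] {E : GP α}

/-- the family of the outward lines -/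
def LnS (E : GP α) : Set (Set α) := {D | Ln E D}

theorem sep_fin (hE : LF E) (x y : α) : {D | Sat E D ∧ ¬ (x ∈ D ↔ y ∈ D)}.Finite := by
  refine ((sat_fin hE x y).union (sat_fin hE y x)).subset ?_
  rintro D ⟨h1, h2⟩
  by_cases hx : x ∈ D
  · exact Or.inr ⟨h1, fun hy => h2 (iff_of_true hx hy), hx⟩
  · refine Or.inl ⟨h1, hx, ?_⟩
    by_contra hy
    exact h2 (iff_of_false hx hy)

theorem LnS_lf (hE : LF E) : LFm (LnS E) := fun x y =>
  (sep_fin hE x y).subset fun _ hD => ⟨hD.1.1, hD.2⟩

/-- `D` or its complement is the only line between adjacent points -/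
theorem Adj.only (hE : LF E) {D D' : Set α} (hD : Sat E D) {k l : α} (h : Adj E D k l) (hD' : Sat E D')
    (h1 : D' ≠ D) (h2 : D' ≠ Dᶜ) : k ∈ D' ↔ l ∈ D' := by
  by_contra hcon
  by_cases hk : k ∈ D'
  · have hl : l ∉ D' := fun hl => hcon (iff_of_true hk hl)
    have := h.unique hE hD hD'.compl (fun hh => hh hk) hl
    exact h2 (by rw [← this, compl_compl])
  · have hl : l ∈ D' := by
      by_contra hl
      exact hcon (iff_of_false hk hl)
    exact h1 (h.unique hE hD hD' hk hl)

/-- telescoping along the lines between two points -/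
theorem tele {G : Type} [AddCommGroup G] (hE : LF E) (f : α → G) (a : Set α → G)
    (hf : ∀ x y, E.S x y → f x = f y)
    (ha : ∀ D k l, Ln E D → Adj E D k l → f l - f k = a D) (x y : α) :
    f y - f x = ws (LnS E) a x y := by
  classical
  induction hn : {D | Sat E D ∧ x ∉ D ∧ y ∈ D}.ncard using Nat.strong_induction_on generalizing x y with
  | _ n ih =>
    subst hn
    by_cases h0 : ∀ D, Sat E D → (x ∈ D ↔ y ∈ D)
    · rw [hf x y (S_iff.2 h0), sub_self, ws_zero a fun D' hD' => h0 D' hD'.1]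
    · push Not at h0
      have hex : ∃ D, Sat E D ∧ x ∉ D ∧ y ∈ D := by
        obtain ⟨D, hD, h⟩ := h0
        rcases h with ⟨hx, hy⟩ | ⟨hx, hy⟩
        · exact ⟨Dᶜ, hD.compl, fun hh => hh hx, hy⟩
        · exact ⟨D, hD, hx, hy⟩
      obtain ⟨D, hD, hx, hy⟩ := hex
      obtain ⟨k, l, hkl⟩ := exists_adj hE hD
      have key1 : {D' | Sat E D' ∧ x ∉ D' ∧ k ∈ D'} ⊂ {D' | Sat E D' ∧ x ∉ D' ∧ y ∈ D'} := by
        have hsub : ∀ D', Sat E D' → x ∉ D' → k ∈ D' → y ∈ D' := by
          intro D' hD' hx' hk'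
          have hl' : l ∈ D' := by
            by_contra hl'
            have := hkl.unique hE hD hD'.compl (fun hh => hh hk') hl'
            have h3 : x ∈ D := by rw [← this]; exact hx'
            exact hx h3
          rcases nest_sat hE hD hD' with h | h | h | h
          · exact h hy
          · exact absurd (h hk') hkl.out
          · exact absurd ⟨hkl.inn, hl'⟩ (h l)
          · exact absurd (h x) (by simp [hx, hx'])
        refine ⟨fun D' hD' => ⟨hD'.1, hD'.2.1, hsub D' hD'.1 hD'.2.1 hD'.2.2⟩, fun hh => ?_⟩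
        exact hkl.out (hh ⟨hD, hx, hy⟩).2.2
      have key2 : {D' | Sat E D' ∧ l ∉ D' ∧ y ∈ D'} ⊂ {D' | Sat E D' ∧ x ∉ D' ∧ y ∈ D'} := by
        have hsub : ∀ D', Sat E D' → l ∉ D' → y ∈ D' → x ∉ D' := by
          intro D' hD' hl' hy' hx'
          have hk' : k ∉ D' := by
            intro hk'
            have := hkl.unique hE hD hD'.compl (fun hh => hh hk') hl'
            have h3 : y ∈ D'ᶜ := by rw [this]; exact hy
            exact h3 hy'
          rcases nest_sat hE hD hD' with h | h | h | h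
          · exact hl' (h hkl.inn)
          · exact hx (h hx')
          · exact h y ⟨hy, hy'⟩
          · exact absurd (h k) (by simp [hkl.out, hk'])
        refine ⟨fun D' hD' => ⟨hD'.1, hsub D' hD'.1 hD'.2.1 hD'.2.2, hD'.2.2⟩, fun hh => ?_⟩
        exact (hh ⟨hD, hx, hy⟩).2.1 hkl.inn
      have i1 := ih _ (Set.ncard_lt_ncard key1 (sat_fin hE x y)) x k rfl
      have i2 := ih _ (Set.ncard_lt_ncard key2 (sat_fin hE x y)) l y rfl
      have i3 : f l - f k = ws (LnS E) a k l := by
        rcases ln_or hE hD with h1 | h1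
        · rw [ws_single (D := D) a h1, ch_one hkl.out hkl.inn, one_smul]
          · exact ha D k l h1 hkl
          · intro D' hD' hne
            refine hkl.only hE hD hD'.1 hne ?_
            rintro rfl
            exact ln_not hE h1 hD'
        · rw [ws_single (D := Dᶜ) a h1, ch_compl, ch_one hkl.out hkl.inn, neg_smul, one_smul]
          · rw [← ha Dᶜ l k h1 hkl.compl]
            abel
          · intro D' hD' hne
            refine hkl.only hE hD hD'.1 ?_ hne
            rintro rfl
            exact ln_not hE hD' h1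
      have e : f y - f x = (f k - f x) + (f l - f k) + (f y - f l) := by abel
      rw [e, i1, i3, i2, ws_add (LnS_lf hE), ws_add (LnS_lf hE)]

open Classical in
/-- the signed number of outward lines between two points -/
theorem signed (hE : LF E) (x y : α) :
    ws (LnS E) (fun _ => (1 : ℤ)) x y = (if x ∈ E.P then 1 else 0) - (if y ∈ E.P then 1 else 0) := by
  rw [← tele hE (fun z => -(if z ∈ E.P then (1 : ℤ) else 0)) (fun _ => 1)]
  · ring
  · intro x y h
    by_cases hx : x ∈ E.P
    · simp [hx, (GP.col h).1 hx]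
    · have hy : y ∉ E.P := fun hh => hx ((GP.col h).2 hh)
      simp [hx, hy]
  · intro D k l h1 h2
    obtain ⟨k', l', h3, h4, h5⟩ := h1.adj
    have hk : k ∈ E.P := (GP.col (h2.out_unique hE h1.1 h3)).2 h4
    have hl : l ∉ E.P := h2.col.1 hk
    simp [hk, hl]

end TorL
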