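import Mathlib
import Pool.Agent.Lib.MP_05cdf2_gt.L.Cnt

/-! MP_05cdf2_gt, stream L (helper49): the group `CrAut α` of the permutations which preserve crossing acts on
Galois pairs. -/

set_option autoImplicit false

namespace TorL
open TorM

variable {α : Type} [LinearOrder α]

/-- permutations which preserve crossing -/
def CrAut (α : Type) [LinearOrder α] : Subgroup (Equiv.Perm α) where
  carrier := {e | ∀ a b c d, Cr (e a) (e b) (e c) (e d) ↔ Cr a b c d}
  one_mem' _ _ _ _ := Iff.rfl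
  mul_mem' {e f} he hf a b c d := by
    rw [Equiv.Perm.mul_apply, Equiv.Perm.mul_apply, Equiv.Perm.mul_apply, Equiv.Perm.mul_apply, he, hf]
  inv_mem' {e} he a b c d := by
    rw [← he]
    have h : ∀ x, e (e⁻¹ x) = x := fun x => Equiv.apply_symm_apply e x
    rw [h, h, h, h]

theorem crAut (e : CrAut α) (a b c d : α) :
    Cr ((e : Equiv.Perm α) a) ((e : Equiv.Perm α) b) ((e : Equiv.Perm α) c) ((e : Equiv.Perm α) d) ↔
      Cr a b c d := e.2 a b c d

theorem crAut_symm (e : CrAut α) (a b c d : α) :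
    Cr ((e : Equiv.Perm α).symm a) ((e : Equiv.Perm α).symm b) ((e : Equiv.Perm α).symm c)
      ((e : Equiv.Perm α).symm d) ↔ Cr a b c d := by
  rw [← crAut e]
  simp

/-- image of a set -/
def mp (e : CrAut α) (D : Set α) : Set α := {x | (e : Equiv.Perm α).symm x ∈ D}

theorem mem_mp {e : CrAut α} {D : Set α} {x : α} : x ∈ mp e D ↔ (e : Equiv.Perm α).symm x ∈ D := Iff.rfl

theorem app_mem_mp {e : CrAut α} {D : Set α} {x : α} : (e : Equiv.Perm α) x ∈ mp e D ↔ x ∈ D := by
  rw [mem_mp, Equiv.symm_apply_apply]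

theorem mp_one (D : Set α) : mp 1 D = D := rfl

theorem mp_mul (e f : CrAut α) (D : Set α) : mp (e * f) D = mp e (mp f D) := rfl

theorem mp_compl (e : CrAut α) (D : Set α) : mp e Dᶜ = (mp e D)ᶜ := rfl

theorem mp_inv_mp (e : CrAut α) (D : Set α) : mp e⁻¹ (mp e D) = D := by
  rw [← mp_mul, inv_mul_cancel, mp_one]

theorem mp_mp_inv (e : CrAut α) (D : Set α) : mp e (mp e⁻¹ D) = D := by
  rw [← mp_mul, mul_inv_cancel, mp_one]

theorem mp_inj {e : CrAut α} {D D' : Set α} (h : mp e D = mp e D') : D = D' := by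
  rw [← mp_inv_mp e D, h, mp_inv_mp]

theorem mp_subset {e : CrAut α} {D D' : Set α} : mp e D ⊆ mp e D' ↔ D ⊆ D' := by
  constructor
  · intro h x hx
    exact app_mem_mp.1 (h (app_mem_mp.2 hx))
  · intro h x hx
    exact h hx

/-- image of a Galois pair -/
def GP.map (e : CrAut α) (E : GP α) : GP α where
  P := mp e E.P
  S x y := E.S ((e : Equiv.Perm α).symm x) ((e : Equiv.Perm α).symm y)
  iff x y := by
    rw [E.iff]
    constructor
    · rintro ⟨h1, h2⟩
      refine ⟨h1, fun a b hab hc hcr => ?_⟩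
      exact h2 _ _ hab hc ((crAut_symm e _ _ _ _).2 hcr)
    · rintro ⟨h1, h2⟩
      refine ⟨h1, fun a b hab hc hcr => ?_⟩
      refine h2 ((e : Equiv.Perm α) a) ((e : Equiv.Perm α) b) ?_ ?_ ?_
      · rw [Equiv.symm_apply_apply, Equiv.symm_apply_apply]
        exact hab
      · rw [app_mem_mp, mem_mp]
        exact hc
      · rw [← crAut_symm e, Equiv.symm_apply_apply, Equiv.symm_apply_apply]
        exact hcr

variable {E E' : GP α} {e : CrAut α}

theorem map_P : (E.map e).P = mp e E.P := rfl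

theorem map_S {x y : α} : (E.map e).S x y ↔ E.S ((e : Equiv.Perm α).symm x) ((e : Equiv.Perm α).symm y) :=
  Iff.rfl

theorem map_S' {x y : α} : (E.map e).S ((e : Equiv.Perm α) x) ((e : Equiv.Perm α) y) ↔ E.S x y := by
  rw [map_S, Equiv.symm_apply_apply, Equiv.symm_apply_apply]

theorem map_one' (E : GP α) : E.map 1 = E := rfl

theorem map_mul' (e f : CrAut α) (E : GP α) : E.map (e * f) = (E.map f).map e := rfl

theorem map_dual (e : CrAut α) (E : GP α) : (E.map e).dual = E.dual.map e := rfl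

theorem map_inv_map (e : CrAut α) (E : GP α) : (E.map e).map e⁻¹ = E := by
  rw [← map_mul', inv_mul_cancel, map_one']

theorem map_map_inv (e : CrAut α) (E : GP α) : (E.map e⁻¹).map e = E := by
  rw [← map_mul', mul_inv_cancel, map_one']

theorem map_le (e : CrAut α) (h : E ≤ E') : E.map e ≤ E'.map e :=
  ⟨mp_subset.2 h.1, fun _ _ hx hxy => h.2 _ _ hx hxy⟩

theorem map_le_iff (e : CrAut α) : E.map e ≤ E'.map e ↔ E ≤ E' := by
  constructor
  · intro h
    have := map_le e⁻¹ h
    rwa [map_inv_map, map_inv_map] at this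
  · exact map_le e

theorem cl_map (x : α) : cl (E.map e) ((e : Equiv.Perm α) x) = mp e (cl E x) := by
  ext z
  show E.S _ _ ↔ E.S _ _
  rw [Equiv.symm_apply_apply]

theorem cvx_mp {D : Set α} (h : Cvx D) (e : CrAut α) : Cvx (mp e D) := by
  intro a ha b hb c hc d hd hcr
  exact h _ ha _ hb _ hc _ hd ((crAut_symm e _ _ _ _).2 hcr)

theorem sat_map' {D : Set α} (h : Sat E D) (e : CrAut α) : Sat (E.map e) (mp e D) where
  ne := by
    obtain ⟨x, hx⟩ := h.ne
    exact ⟨(e : Equiv.Perm α) x, app_mem_mp.2 hx⟩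
  ne' := by
    obtain ⟨x, hx⟩ := h.ne'
    exact ⟨(e : Equiv.Perm α) x, fun hh => hx (app_mem_mp.1 hh)⟩
  cvx := cvx_mp h.cvx e
  sat x y hxy := h.sat _ _ hxy

theorem sat_map (e : CrAut α) {D : Set α} : Sat (E.map e) (mp e D) ↔ Sat E D := by
  constructor
  · intro h
    have := sat_map' h e⁻¹
    rwa [map_inv_map, mp_inv_mp] at this
  · intro h
    exact sat_map' h e

theorem Xs_map (x y : α) : Xs (E.map e) ((e : Equiv.Perm α) x) ((e : Equiv.Perm α) y) = mp e '' Xs E x y := by
  ext c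
  constructor
  · rintro ⟨a, b, rfl, h1, h2, h3, h4⟩
    refine ⟨cl E ((e : Equiv.Perm α).symm a), ⟨_, (e : Equiv.Perm α).symm b, rfl, h1, ?_, ?_, ?_⟩, ?_⟩
    · rw [← crAut e, Equiv.apply_symm_apply, Equiv.apply_symm_apply]
      exact h2
    · intro hh
      exact h3 (map_S.2 (by rwa [Equiv.symm_apply_apply]))
    · intro hh
      exact h4 (map_S.2 (by rwa [Equiv.symm_apply_apply]))
    · rw [← cl_map, Equiv.apply_symm_apply]
  · rintro ⟨_, ⟨a, b, rfl, h1, h2, h3, h4⟩, rfl⟩
    refine ⟨(e : Equiv.Perm α) a, (e : Equiv.Perm α) b, (cl_map a).symm, map_S'.2 h1, (crAut e _ _ _ _).2 h2,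
      fun hh => h3 (map_S'.1 hh), fun hh => h4 (map_S'.1 hh)⟩

theorem LF.map (h : LF E) (e : CrAut α) : LF (E.map e) := by
  intro x y
  have := Xs_map (E := E) (e := e) ((e : Equiv.Perm α).symm x) ((e : Equiv.Perm α).symm y)
  rw [Equiv.apply_symm_apply, Equiv.apply_symm_apply] at this
  rw [this]
  exact (h _ _).image _

theorem adj_map' {D : Set α} {k l : α} (h : Adj E D k l) (e : CrAut α) :
    Adj (E.map e) (mp e D) ((e : Equiv.Perm α) k) ((e : Equiv.Perm α) l) where
  out := fun hh => h.out (app_mem_mp.1 hh)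
  inn := app_mem_mp.2 h.inn
  col := by
    rw [map_P, app_mem_mp, app_mem_mp]
    exact h.col
  none := by
    rw [Xs_map, h.none, Set.image_empty]

theorem ln_map' {D : Set α} (h : Ln E D) (e : CrAut α) : Ln (E.map e) (mp e D) := by
  obtain ⟨h1, k, l, h2, h3⟩ := h
  exact ⟨sat_map' h1 e, _, _, adj_map' h2 e, app_mem_mp.2 h3⟩

theorem ln_map (e : CrAut α) {D : Set α} : Ln (E.map e) (mp e D) ↔ Ln E D := by
  constructor
  · intro h
    have := ln_map' h e⁻¹
    rwa [map_inv_map, mp_inv_mp] at this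
  · intro h
    exact ln_map' h e

theorem nst_mp {D D' : Set α} (e : CrAut α) (h : Nst D D') : Nst (mp e D) (mp e D') := by
  rcases h with h | h | h | h
  · exact Or.inl (mp_subset.2 h)
  · exact Or.inr (Or.inl (mp_subset.2 h))
  · exact Or.inr (Or.inr (Or.inl fun x => h _))
  · exact Or.inr (Or.inr (Or.inr fun x => h _))

end TorL
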