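import Mathlib
import Pool.Agent.Lib.MP_05cdf2_gt.L.Map
import Pool.Agent.Lib.MP_05cdf2_gt.G.CutGen

/-! MP_05cdf2_gt, stream L (helper49): half spaces of the infinite cyclic cover.

`ph x`: the level of the point `x ∈ F g` (exponent sum of `b_0`). `Hf g`: Galois pairs on `F g` with
`P = {ph ≤ J}`, invariant under `K = ker ph`, locally finite, which contain the far left edges and miss the far right
edges. They form a lattice on which `F g` acts. -/

set_option autoImplicit false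
set_option linter.unusedSectionVars false

namespace TorL
open TorM TorG

variable {g : ℕ} [NeZero g]

/-- the level of a point -/
noncomputable def ph (x : F g) : ℤ := abv x (Sum.inr 0)

@[simp] theorem ph_mul (x y : F g) : ph (x * y) = ph x + ph y := by
  simp [ph]

@[simp] theorem ph_inv (x : F g) : ph x⁻¹ = - ph x := by
  simp [ph]

@[simp] theorem ph_one : ph (1 : F g) = 0 := by
  simp [ph]

/-- the shift -/
def t0 : F g := FreeGroup.of (Sum.inr 0)

@[simp] theorem ph_t0 : ph (t0 : F g) = 1 := by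
  simp [ph, t0]

@[simp] theorem ph_zpow (x : F g) (n : ℤ) : ph (x ^ n) = n * ph x := by
  induction n using Int.induction_on with
  | zero => simp
  | succ n ih => rw [zpow_add_one, ph_mul, ih]; ring
  | pred n ih => rw [zpow_sub_one, ph_mul, ph_inv, ih]; ring

@[simp] theorem ph_zeta : ph (zeta g : F g) = 0 := by
  have h := map_zeta (ab (g := g))
  unfold ph abv
  rw [h]
  rfl

/-- left translation -/
def lt (h : F g) : CrAut (F g) := ⟨Equiv.mulLeft h, fun a b c d => cr_mul h a b c d⟩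

theorem lt_apply (h x : F g) : ((lt h : CrAut (F g)) : Equiv.Perm (F g)) x = h * x := rfl

theorem lt_symm (h x : F g) : ((lt h : CrAut (F g)) : Equiv.Perm (F g)).symm x = h⁻¹ * x := rfl

theorem lt_mul (h k : F g) : lt (h * k) = lt h * lt k := by
  apply Subtype.ext
  apply Equiv.ext
  intro x
  exact mul_assoc h k x

theorem lt_one : lt (1 : F g) = 1 := by
  apply Subtype.ext
  apply Equiv.ext
  intro x
  exact one_mul x

theorem mp_lt (h : F g) (D : Set (F g)) : mp (lt h) D = tr h D := rfl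

theorem nst_iff {A B : Set (F g)} : Nst A B ↔ Nest A B := Iff.rfl

/-- no chord crosses a boundary chord -/
theorem not_cr_zeta (a b x : F g) : ¬ Cr a b x (x * zeta g) := by
  intro h
  rw [← cr_mul x⁻¹] at h
  have e1 : x⁻¹ * x = 1 := inv_mul_cancel x
  have e2 : x⁻¹ * (x * zeta g) = zeta g := by group
  rw [e1, e2] at h
  generalize x⁻¹ * a = p at h
  generalize x⁻¹ * b = q at h
  have n := cr_ne h
  have hp1 : p ≠ 1 := n.2.1
  have hq1 : q ≠ 1 := n.2.2.2.1
  have l1 := zeta_le hp1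
  have l2 := zeta_le hq1
  have l3 := one_lt hp1
  have l4 := one_lt hq1
  have l5 := one_lt_zeta hp1
  unfold Cr Cyc at h
  grind

/-- half spaces -/
structure Hf (g : ℕ) [NeZero g] where
  E : GP (F g)
  J : ℤ
  lev : ∀ x, x ∈ E.P ↔ ph x ≤ J
  inv : ∀ k, ph k = 0 → E.map (lt k) = E
  lf : LF E
  lo : ∃ M, ∀ x (l : Ltr g), ph x ≤ M → ph (x * le l) ≤ M → E.S x (x * le l)
  hi : ∃ M, ∀ x (l : Ltr g), M ≤ ph x → M ≤ ph (x * le l) → E.S x (x * le l)

variable {X Y : Hf g}

theorem Hf.E_inj : Function.Injective (Hf.E (g := g)) := by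
  intro X Y h
  have hJ : X.J = Y.J := by
    have h1 : ∀ n : ℤ, n ≤ X.J ↔ n ≤ Y.J := by
      intro n
      have h2 := X.lev ((t0 : F g) ^ n)
      have h3 := Y.lev ((t0 : F g) ^ n)
      rw [h] at h2
      rw [ph_zpow, ph_t0, mul_one] at h2 h3
      rw [← h2, ← h3]
    exact le_antisymm ((h1 _).1 le_rfl) ((h1 _).2 le_rfl)
  cases X
  cases Y
  simp only at h hJ
  subst h
  subst hJ
  rfl

theorem Hf.S_mul (X : Hf g) {k : F g} (hk : ph k = 0) {x y : F g} : X.E.S (k * x) (k * y) ↔ X.E.S x y := by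
  have h := X.inv k hk
  conv_lhs => rw [← h]
  show X.E.S (k⁻¹ * (k * x)) (k⁻¹ * (k * y)) ↔ _
  rw [inv_mul_cancel_left, inv_mul_cancel_left]

theorem Hf.S_zeta (X : Hf g) (x : F g) : X.E.S x (x * zeta g) := by
  rw [X.E.iff]
  refine ⟨?_, fun a b _ _ h => not_cr_zeta a b x h⟩
  rw [X.lev, X.lev, ph_mul, ph_zeta, add_zero]

noncomputable instance : PartialOrder (Hf g) := PartialOrder.lift (fun X => X.E) Hf.E_inj

theorem Hf.le_iff : X ≤ Y ↔ X.E ≤ Y.E := Iff.rfl

/-- the order isomorphism given by a permutation -/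
def mapIso {α : Type} [LinearOrder α] (e : CrAut α) : GP α ≃o GP α where
  toFun E := E.map e
  invFun E := E.map e⁻¹
  left_inv E := map_inv_map e E
  right_inv E := map_map_inv e E
  map_rel_iff' := map_le_iff e

theorem map_inf' {α : Type} [LinearOrder α] (e : CrAut α) (E E' : GP α) :
    (E ⊓ E').map e = E.map e ⊓ E'.map e := map_inf (mapIso e) E E'

theorem map_sup' {α : Type} [LinearOrder α] (e : CrAut α) (E E' : GP α) :
    (E ⊔ E').map e = E.map e ⊔ E'.map e := map_sup (mapIso e) E E'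

/-- infimum of half spaces -/
noncomputable def Hf.inf (X Y : Hf g) : Hf g where
  E := X.E ⊓ Y.E
  J := min X.J Y.J
  lev x := by
    rw [inf_P, Set.mem_inter_iff, X.lev, Y.lev, le_min_iff]
  inv k hk := by
    rw [map_inf', X.inv k hk, Y.inv k hk]
  lf := X.lf.inf Y.lf
  lo := by
    obtain ⟨M, hM⟩ := X.lo
    obtain ⟨N, hN⟩ := Y.lo
    refine ⟨min (min M N) (min X.J Y.J), fun x l h1 h2 => ?_⟩
    simp only [le_min_iff] at h1 h2
    rw [inf_S]
    · exact ⟨hM x l h1.1.1 h2.1.1, hN x l h1.1.2 h2.1.2⟩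
    · exact ⟨(X.lev x).2 h1.2.1, (Y.lev x).2 h1.2.2⟩
  hi := by
    obtain ⟨M, hM⟩ := X.hi
    refine ⟨max M (X.J + 1), fun x l h1 h2 => ?_⟩
    simp only [max_le_iff] at h1 h2
    refine S_of_le' (E' := X.E) inf_le_left ?_ (hM x l h1.1 h2.1)
    rw [X.lev]
    omega

/-- supremum of half spaces -/
noncomputable def Hf.sup (X Y : Hf g) : Hf g where
  E := X.E ⊔ Y.E
  J := max X.J Y.J
  lev x := by
    rw [sup_P, Set.mem_union, X.lev, Y.lev, le_max_iff]
  inv k hk := by
    rw [map_sup', X.inv k hk, Y.inv k hk]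
  lf := X.lf.sup Y.lf
  lo := by
    obtain ⟨M, hM⟩ := X.lo
    refine ⟨min M X.J, fun x l h1 h2 => ?_⟩
    simp only [le_min_iff] at h1 h2
    exact (le_sup_left (a := X.E) (b := Y.E)).2 _ _ ((X.lev x).2 h1.2) (hM x l h1.1 h2.1)
  hi := by
    obtain ⟨M, hM⟩ := X.hi
    obtain ⟨N, hN⟩ := Y.hi
    refine ⟨max (max M N) (max (X.J + 1) (Y.J + 1)), fun x l h1 h2 => ?_⟩
    simp only [max_le_iff] at h1 h2
    rw [sup_S]
    · exact ⟨hM x l h1.1.1 h2.1.1, hN x l h1.1.2 h2.1.2⟩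
    · rintro (h | h)
      · rw [X.lev] at h
        omega
      · rw [Y.lev] at h
        omega

noncomputable instance : Lattice (Hf g) where
  inf := Hf.inf
  sup := Hf.sup
  inf_le_left X Y := (inf_le_left : X.E ⊓ Y.E ≤ X.E)
  inf_le_right X Y := (inf_le_right : X.E ⊓ Y.E ≤ Y.E)
  le_inf X Y Z h h' := (_root_.le_inf h h' : X.E ≤ Y.E ⊓ Z.E)
  le_sup_left X Y := (le_sup_left : X.E ≤ X.E ⊔ Y.E)
  le_sup_right X Y := (le_sup_right : Y.E ≤ X.E ⊔ Y.E)
  sup_le X Y Z h h' := (_root_.sup_le h h' : X.E ⊔ Y.E ≤ Z.E)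

theorem Hf.inf_E (X Y : Hf g) : (X ⊓ Y).E = X.E ⊓ Y.E := rfl
theorem Hf.sup_E (X Y : Hf g) : (X ⊔ Y).E = X.E ⊔ Y.E := rfl
theorem Hf.J_inf (X Y : Hf g) : (X ⊓ Y).J = min X.J Y.J := rfl
theorem Hf.J_sup (X Y : Hf g) : (X ⊔ Y).J = max X.J Y.J := rfl

theorem Hf.J_le (h : X ≤ Y) : X.J ≤ Y.J := by
  have h1 := h.1
  have h2 : (t0 : F g) ^ X.J ∈ X.E.P := by
    rw [X.lev, ph_zpow, ph_t0, mul_one]
  have h3 := h1 h2
  rwa [Y.lev, ph_zpow, ph_t0, mul_one] at h3

/-- translate of a half space -/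
noncomputable def Hf.act (h : F g) (X : Hf g) : Hf g where
  E := X.E.map (lt h)
  J := X.J + ph h
  lev x := by
    rw [map_P, mem_mp, lt_symm, X.lev, ph_mul, ph_inv]
    constructor <;> intro <;> omega
  inv k hk := by
    rw [← map_mul', ← lt_mul]
    have e : k * h = h * (h⁻¹ * k * h) := by group
    rw [e, lt_mul, map_mul', X.inv]
    simp [hk]
  lf := X.lf.map _
  lo := by
    obtain ⟨M, hM⟩ := X.lo
    refine ⟨M + ph h, fun x l h1 h2 => ?_⟩
    show X.E.S (h⁻¹ * x) (h⁻¹ * (x * le l))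
    rw [← mul_assoc]
    apply hM
    · rw [ph_mul, ph_inv]
      omega
    · rw [mul_assoc, ph_mul, ph_inv]
      omega
  hi := by
    obtain ⟨M, hM⟩ := X.hi
    refine ⟨M + ph h, fun x l h1 h2 => ?_⟩
    show X.E.S (h⁻¹ * x) (h⁻¹ * (x * le l))
    rw [← mul_assoc]
    apply hM
    · rw [ph_mul, ph_inv]
      omega
    · rw [mul_assoc, ph_mul, ph_inv]
      omega

theorem Hf.act_E (h : F g) (X : Hf g) : (X.act h).E = X.E.map (lt h) := rfl
theorem Hf.act_J (h : F g) (X : Hf g) : (X.act h).J = X.J + ph h := rfl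

theorem Hf.act_mul (h k : F g) (X : Hf g) : X.act (h * k) = (X.act k).act h := by
  apply Hf.E_inj
  rw [act_E, act_E, act_E, lt_mul, map_mul']

theorem Hf.act_one (X : Hf g) : X.act 1 = X := by
  apply Hf.E_inj
  rw [act_E, lt_one, map_one']

/-- the action depends only on the level -/
theorem Hf.act_eq {h k : F g} (hk : ph h = ph k) (X : Hf g) : X.act h = X.act k := by
  have e : h = k * (k⁻¹ * h) := by group
  rw [e, act_mul]
  congr 1
  apply Hf.E_inj
  rw [act_E, X.inv]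
  rw [ph_mul, ph_inv, hk]
  ring

theorem Hf.act_le_iff (h : F g) : X.act h ≤ Y.act h ↔ X ≤ Y := map_le_iff (lt h)

/-- the shift of half spaces -/
noncomputable def Hf.tIso (g : ℕ) [NeZero g] : Hf g ≃o Hf g where
  toFun X := X.act t0
  invFun X := X.act t0⁻¹
  left_inv X := by
    show (X.act t0).act t0⁻¹ = X
    rw [← Hf.act_mul, inv_mul_cancel, Hf.act_one]
  right_inv X := by
    show (X.act t0⁻¹).act t0 = X
    rw [← Hf.act_mul, mul_inv_cancel, Hf.act_one]
  map_rel_iff' := Hf.act_le_iff t0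

theorem Hf.tIso_apply (X : Hf g) : Hf.tIso g X = X.act t0 := rfl

theorem Hf.tIso_zpow (k : ℤ) (X : Hf g) : (Hf.tIso g ^ k) X = X.act (t0 ^ k) := by
  induction k using Int.induction_on with
  | zero => rw [zpow_zero, zpow_zero, Hf.act_one]; rfl
  | succ n ih =>
    rw [add_comm, zpow_add, zpow_one, zpow_add, zpow_one, Hf.act_mul, ← ih]
    rfl
  | pred n ih =>
    have e1 : (-(n : ℤ) - 1) = -1 + -(n : ℤ) := by ring
    rw [e1, zpow_add, zpow_neg_one, zpow_add, zpow_neg_one, Hf.act_mul, ← ih]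
    rfl

end TorL
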