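import Mathlib
import Pool.Agent.Lib.MP_05cdf2_gt.L.Hf
import Pool.Agent.Lib.MP_05cdf2_gt.G.TwistV

/-! MP_05cdf2_gt, stream L (helper49): saturated cuts of invariant Galois pairs are cuts of bounded level.

`KG E`: `E` is invariant under `K = ker ph`, locally finite, and relates the ends of the far left and of the far right
edges. (Both `X.E` and `X.E.dual` for `X : Hf g`.) `KCut D`: convex, invariant under `zeta`, edges of bounded level,
locally finitely many `K`-translates. `Sat E D → KCut D → WCut D`; the stabiliser of `D` lies in `K`. -/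

set_option autoImplicit false
set_option linter.unusedSectionVars false

namespace TorL
open TorM TorG

variable {g : ℕ} [NeZero g]

/-- invariant, locally finite, bounded Galois pairs -/
structure KG (E : GP (F g)) : Prop where
  inv : ∀ k, ph k = 0 → E.map (lt k) = E
  lf : LF E
  lo : ∃ M, ∀ x (l : Ltr g), ph x ≤ M → ph (x * le l) ≤ M → E.S x (x * le l)
  hi : ∃ M, ∀ x (l : Ltr g), M ≤ ph x → M ≤ ph (x * le l) → E.S x (x * le l)

theorem Hf.kg (X : Hf g) : KG X.E := ⟨X.inv, X.lf, X.lo, X.hi⟩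

variable {E E' : GP (F g)} {D D' : Set (F g)}

theorem KG.dual (h : KG E) : KG E.dual where
  inv k hk := by
    rw [← map_dual, h.inv k hk]
  lf := h.lf
  lo := h.lo
  hi := h.hi

theorem KG.P_mul (h : KG E) {k : F g} (hk : ph k = 0) {x : F g} : k * x ∈ E.P ↔ x ∈ E.P := by
  conv_lhs => rw [← h.inv k hk]
  show k⁻¹ * (k * x) ∈ E.P ↔ _
  rw [inv_mul_cancel_left]

theorem KG.P_lev (h : KG E) {x y : F g} (hxy : ph x = ph y) : x ∈ E.P ↔ y ∈ E.P := by
  have e : x = (x * y⁻¹) * y := by group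
  rw [e]
  exact h.P_mul (by rw [ph_mul, ph_inv, hxy]; ring)

theorem KG.S_mul (h : KG E) {k : F g} (hk : ph k = 0) {x y : F g} : E.S (k * x) (k * y) ↔ E.S x y := by
  conv_lhs => rw [← h.inv k hk]
  show E.S (k⁻¹ * (k * x)) (k⁻¹ * (k * y)) ↔ _
  rw [inv_mul_cancel_left, inv_mul_cancel_left]

theorem KG.S_zeta (h : KG E) (x : F g) : E.S x (x * zeta g) := by
  rw [E.iff]
  refine ⟨h.P_lev ?_, fun a b _ _ hh => not_cr_zeta a b x hh⟩
  rw [ph_mul, ph_zeta, add_zero]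

theorem KG.sat_tr (h : KG E) {k : F g} (hk : ph k = 0) : Sat E (tr k D) ↔ Sat E D := by
  have := sat_map (E := E) (D := D) (lt k)
  rwa [h.inv k hk, mp_lt] at this

theorem KG.ln_tr (h : KG E) {k : F g} (hk : ph k = 0) : Ln E (tr k D) ↔ Ln E D := by
  have := ln_map (E := E) (D := D) (lt k)
  rwa [h.inv k hk, mp_lt] at this

theorem KG.adj_tr (h : KG E) {k a b : F g} (hk : ph k = 0) (hab : Adj E D a b) :
    Adj E (tr k D) (k * a) (k * b) := by
  have := adj_map' hab (lt k)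
  rwa [h.inv k hk, mp_lt] at this

theorem ph_le (l : Ltr g) : -1 ≤ ph (le l : F g) ∧ ph (le l : F g) ≤ 1 := by
  have h1 : ∀ i : Gen g, 0 ≤ ph (FreeGroup.of i : F g) ∧ ph (FreeGroup.of i : F g) ≤ 1 := by
    intro i
    unfold ph
    rw [abv_of, Pi.single_apply]
    split_ifs <;> omega
  obtain ⟨i, b⟩ := l
  have h2 := h1 i
  cases b
  · have e : (le (i, false) : F g) = (FreeGroup.of i)⁻¹ := rfl
    rw [e, ph_inv]
    omega
  · have e : (le (i, true) : F g) = FreeGroup.of i := rfl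
    rw [e]
    omega

/-- the edges of a saturated cut have bounded level -/
theorem KG.bd (h : KG E) : ∃ M N : ℤ, ∀ D, Sat E D → ∀ x (l : Ltr g), ¬ (x ∈ D ↔ x * le l ∈ D) →
    M ≤ ph x ∧ ph x ≤ N := by
  obtain ⟨M, hM⟩ := h.lo
  obtain ⟨N, hN⟩ := h.hi
  refine ⟨M - 1, N + 1, fun D hD x l hx => ?_⟩
  have h1 := ph_le (g := g) l
  constructor
  · by_contra hcon
    exact hx (hD.sat _ _ (hM x l (by omega) (by rw [ph_mul]; omega)))
  · by_contra hcon
    exact hx (hD.sat _ _ (hN x l (by omega) (by rw [ph_mul]; omega)))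

/-- a set which separates `x` from `x * w` has an edge near `x` -/
theorem path_edge (w : F g) : ∃ N : ℤ, ∀ (x : F g) (A : Set (F g)), ¬ (x ∈ A ↔ x * w ∈ A) →
    ∃ (z : F g) (l : Ltr g), |ph z - ph x| ≤ N ∧ ¬ (z ∈ A ↔ z * le l ∈ A) := by
  have key : ∀ L : List (Ltr g), ∃ N : ℤ, ∀ (x : F g) (A : Set (F g)), ¬ (x ∈ A ↔ x * FreeGroup.mk L ∈ A) →
    ∃ (z : F g) (l : Ltr g), |ph z - ph x| ≤ N ∧ ¬ (z ∈ A ↔ z * le l ∈ A) := by
    intro L
    induction L with
    | nil =>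
      refine ⟨0, fun x A h => ?_⟩
      have : (FreeGroup.mk [] : F g) = 1 := rfl
      rw [this, mul_one] at h
      exact absurd Iff.rfl h
    | cons l L ih =>
      obtain ⟨N, hN⟩ := ih
      refine ⟨|N| + 1, fun x A h => ?_⟩
      have h1 : (FreeGroup.mk (l :: L) : F g) = le l * FreeGroup.mk L := by
        rw [le, FreeGroup.mul_mk]
        rfl
      rw [h1, ← mul_assoc] at h
      by_cases h2 : x ∈ A ↔ x * le l ∈ A
      · have h3 : ¬ (x * le l ∈ A ↔ x * le l * FreeGroup.mk L ∈ A) := fun hh => h (h2.trans hh)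
        obtain ⟨z, m, hz, hm⟩ := hN _ A h3
        refine ⟨z, m, ?_, hm⟩
        have h4 := ph_le (g := g) l
        rw [ph_mul] at hz
        have h5 := le_abs_self N
        rw [abs_le] at hz ⊢
        omega
      · refine ⟨x, l, ?_, h2⟩
        rw [sub_self, abs_zero]
        positivity
  obtain ⟨N, hN⟩ := key w.toWord
  rw [FreeGroup.mk_toWord] at hN
  exact ⟨N, hN⟩

/-- cuts of bounded level -/
structure KCut (D : Set (F g)) : Prop where
  ne : D.Nonempty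
  ne' : Dᶜ.Nonempty
  cvx : Cvx D
  zeta : ∀ x, x * zeta g ∈ D ↔ x ∈ D
  bd : ∃ M N : ℤ, ∀ x (l : Ltr g), ¬ (x ∈ D ↔ x * le l ∈ D) → M ≤ ph x ∧ ph x ≤ N
  kfin : ∀ x y : F g, {A | (∃ k, ph k = 0 ∧ A = tr k D) ∧ ¬ (x ∈ A ↔ y ∈ A)}.Finite

theorem KG.kcut (h : KG E) (hD : Sat E D) : KCut D where
  ne := hD.ne
  ne' := hD.ne'
  cvx := hD.cvx
  zeta x := (hD.sat _ _ (h.S_zeta x)).symm
  bd := by
    obtain ⟨M, N, hMN⟩ := h.bd
    exact ⟨M, N, hMN D hD⟩
  kfin x y := by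
    refine (sep_fin h.lf x y).subset ?_
    rintro A ⟨⟨k, hk, rfl⟩, h2⟩
    exact ⟨(h.sat_tr hk).2 hD, h2⟩

theorem KCut.compl (hD : KCut D) : KCut Dᶜ where
  ne := hD.ne'
  ne' := by
    rw [compl_compl]
    exact hD.ne
  cvx := hD.cvx.compl
  zeta x := not_congr (hD.zeta x)
  bd := by
    obtain ⟨M, N, hMN⟩ := hD.bd
    exact ⟨M, N, fun x l hx => hMN x l fun hh => hx (not_congr hh)⟩
  kfin x y := by
    refine ((hD.kfin x y).image (fun A : Set (F g) => Aᶜ)).subset ?_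
    rintro A ⟨⟨k, hk, rfl⟩, h2⟩
    refine ⟨tr k D, ⟨⟨k, hk, rfl⟩, ?_⟩, rfl⟩
    intro h3
    exact h2 (not_congr h3)

theorem KCut.tr (hD : KCut D) (h : F g) : KCut (tr h D) where
  ne := by
    obtain ⟨x, hx⟩ := hD.ne
    exact ⟨h * x, mul_mem_tr.2 hx⟩
  ne' := by
    obtain ⟨x, hx⟩ := hD.ne'
    exact ⟨h * x, fun hh => hx (mul_mem_tr.1 hh)⟩
  cvx := cvx_mp hD.cvx (lt h)
  zeta x := by
    rw [mem_tr, mem_tr, ← mul_assoc]
    exact hD.zeta _
  bd := by
    obtain ⟨M, N, hMN⟩ := hD.bd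
    refine ⟨M + ph h, N + ph h, fun x l hx => ?_⟩
    rw [mem_tr, mem_tr, ← mul_assoc] at hx
    have := hMN _ l hx
    rw [ph_mul, ph_inv] at this
    omega
  kfin x y := by
    refine ((hD.kfin (h⁻¹ * x) (h⁻¹ * y)).image (TorG.tr h)).subset ?_
    rintro A ⟨⟨k, hk, rfl⟩, h2⟩
    refine ⟨TorG.tr (h⁻¹ * k * h) D, ⟨⟨_, ?_, rfl⟩, ?_⟩, ?_⟩
    · simp [hk]
    · intro h3
      apply h2
      rw [tr_tr, mem_tr, mem_tr]
      rw [mem_tr, mem_tr] at h3
      have e : ∀ z : F g, (h⁻¹ * k * h)⁻¹ * (h⁻¹ * z) = (k * h)⁻¹ * z := by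
        intro z
        group
      rwa [e, e] at h3
    · rw [tr_tr, tr_tr]
      congr 1
      group

theorem KCut.letter (hD : KCut D) : ∃ (z : F g) (l : Ltr g), ¬ (z ∈ D ↔ z * le l ∈ D) := by
  obtain ⟨x, hx⟩ := hD.ne
  obtain ⟨y, hy⟩ := hD.ne'
  obtain ⟨N, hN⟩ := path_edge (g := g) (x⁻¹ * y)
  obtain ⟨z, l, -, h⟩ := hN x D (by
    rw [mul_inv_cancel_left]
    exact fun hh => hy (hh.1 hx))
  exact ⟨z, l, h⟩

/-- the stabiliser of a cut of bounded level has level 0 -/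
theorem KCut.st (hD : KCut D) {h : F g} (hh : h ∈ stD D) : ph h = 0 := by
  obtain ⟨z, l, hz⟩ := hD.letter
  obtain ⟨M, N, hMN⟩ := hD.bd
  have key : ∀ n : ℤ, M ≤ n * ph h + ph z ∧ n * ph h + ph z ≤ N := by
    intro n
    have h1 := hMN (h ^ n * z) l (by
      rw [mul_assoc, mul_mem_iff ((stD D).zpow_mem hh n), mul_mem_iff ((stD D).zpow_mem hh n)]
      exact hz)
    rw [ph_mul, ph_zpow] at h1
    exact h1
  by_contra h0
  have h1 := key (|M| + |N| + |ph z| + 1)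
  have h2 := key (-(|M| + |N| + |ph z| + 1))
  have a1 := neg_abs_le M
  have a2 := le_abs_self N
  have a3 := neg_abs_le (ph z)
  have a4 := le_abs_self (ph z)
  have a5 := abs_nonneg N
  have a6 := abs_nonneg M
  rcases lt_or_gt_of_ne h0 with h3 | h3
  · have : (|M| + |N| + |ph z| + 1) * ph h ≤ (|M| + |N| + |ph z| + 1) * (-1) := by
      apply mul_le_mul_of_nonneg_left (by omega) (by omega)
    nlinarith [h1.1]
  · have : (|M| + |N| + |ph z| + 1) * 1 ≤ (|M| + |N| + |ph z| + 1) * ph h := by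
      apply mul_le_mul_of_nonneg_left (by omega) (by omega)
    nlinarith [h1.2]

theorem KCut.wcut (hD : KCut D) : WCut D where
  ne := hD.ne
  ne' := hD.ne'
  nocr := hD.cvx
  zeta := hD.zeta
  fin x y := by
    obtain ⟨M, N, hMN⟩ := hD.bd
    obtain ⟨R, hR⟩ := path_edge (g := g) (x⁻¹ * y)
    -- the levels of the translates are bounded
    have key : ∀ h : F g, ¬ (x ∈ TorG.tr h D ↔ y ∈ TorG.tr h D) → ph x - R - N ≤ ph h ∧ ph h ≤ ph x + R - M := by
      intro h hh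
      obtain ⟨z, l, hz, hl⟩ := hR x (TorG.tr h D) (by rwa [mul_inv_cancel_left])
      rw [mem_tr, mem_tr, ← mul_assoc] at hl
      have h1 := hMN _ l hl
      rw [ph_mul, ph_inv] at h1
      rw [abs_le] at hz
      omega
    refine ((Set.finite_Icc (ph x - R - N) (ph x + R - M)).biUnion (t := fun n =>
      (TorG.tr (t0 ^ n)) '' {A | (∃ k, ph k = 0 ∧ A = TorG.tr k D) ∧
        ¬ ((t0 ^ n)⁻¹ * x ∈ A ↔ (t0 ^ n)⁻¹ * y ∈ A)}) fun n _ => (hD.kfin _ _).image _).subset ?_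
    rintro A ⟨⟨h, rfl⟩, h2⟩
    refine Set.mem_biUnion (key h h2) ⟨TorG.tr ((t0 ^ ph h)⁻¹ * h) D, ⟨⟨_, ?_, rfl⟩, ?_⟩, ?_⟩
    · rw [ph_mul, ph_inv, ph_zpow, ph_t0]
      ring
    · intro h3
      apply h2
      rw [mem_tr, mem_tr] at h3 ⊢
      have e : ∀ z : F g, ((t0 ^ ph h)⁻¹ * h)⁻¹ * ((t0 ^ ph h)⁻¹ * z) = h⁻¹ * z := by
        intro z
        group
      rwa [e, e] at h3
    · rw [tr_tr, mul_inv_cancel_left]

theorem KG.wcut (h : KG E) (hD : Sat E D) : WCut D := (h.kcut hD).wcut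

theorem KCut.ph_gn (hD : KCut D) : ph (gn D) = 0 := hD.st (gn_spec hD.wcut).mem

theorem KCut.ph_gn_pow (hD : KCut D) (n : ℤ) : ph (gn D ^ n) = 0 := by
  rw [ph_zpow, hD.ph_gn, mul_zero]

/-! chords along a cut -/

/-- the orbit of a point under the stabiliser of a cut separates the cut -/
theorem cross_orbit (hD : WCut D) {u x y : F g} (hu : u ∈ D) (hy : y ∈ D) (hx : x ∉ D) :
    ∃ n m : ℤ, Cr (gn D ^ n * u) (gn D ^ m * u) x y := by
  have hγ := gn_spec hD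
  obtain ⟨m, hm⟩ := hγ.arch hD hu hy
  obtain ⟨n, hn⟩ := hγ.arch' hD hu hy
  refine ⟨n, m, ?_⟩
  have h1 := hm.2.2.2 x hx
  have h2 := hn.2.2.2 x hx
  have h3 := (hn.trans hD hm).2.2.2 x hx
  unfold Cr Cyc at *
  grind

/-- the orbits of two points of a cut cross -/
theorem orbit_orbit (hD : WCut D) {u v : F g} (hu : u ∈ D) (hv : v ∈ D) :
    ∃ a b c d : ℤ, Cr (gn D ^ a * u) (gn D ^ b * u) (gn D ^ c * v) (gn D ^ d * v) := by
  have hγ := gn_spec hD
  obtain ⟨a, ha⟩ := hγ.arch' hD hu hv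
  obtain ⟨b, hb⟩ := hγ.arch hD hu hv
  have hb1 : gn D ^ b * u ∈ D := hb.2.1
  obtain ⟨d, hd⟩ := hγ.arch hD hv hb1
  obtain ⟨e, he⟩ := hD.ne'
  refine ⟨a, b, 0, d, ?_⟩
  rw [zpow_zero, one_mul]
  have h1 := ha.2.2.2 e he
  have h2 := hb.2.2.2 e he
  have h3 := hd.2.2.2 e he
  have h4 := (ha.trans hD hb).2.2.2 e he
  have h5 := (hb.trans hD hd).2.2.2 e he
  have h6 := ((ha.trans hD hb).trans hD hd).2.2.2 e he
  unfold Cr Cyc at *
  grind

/-- `E` relates all the translates of `u` by the stabiliser of `D` -/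
def OrbS (E : GP (F g)) (D : Set (F g)) (u : F g) : Prop := ∀ n : ℤ, E.S u (gn D ^ n * u)

theorem OrbS.two {u : F g} (h : OrbS E D u) (n m : ℤ) : E.S (gn D ^ n * u) (gn D ^ m * u) :=
  GP.trans (GP.symm (h n)) (h m)

theorem orbS_compl (hD : WCut D) {u : F g} : OrbS E Dᶜ u ↔ OrbS E D u := by
  unfold OrbS
  rw [gn_compl hD]
  constructor
  · intro h n
    have := h (-n)
    rwa [inv_zpow', neg_neg] at this
  · intro h n
    rw [inv_zpow']
    exact h (-n)

theorem orbS_dual {u : F g} : OrbS E.dual D u ↔ OrbS E D u := Iff.rfl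

theorem OrbS.mono (h : E ≤ E') {u : F g} (hu : u ∈ E.P) (ho : OrbS E D u) : OrbS E' D u :=
  fun n => h.2 _ _ hu (ho n)

/-- a related pair which is separated by `D` is related to the orbits -/
theorem OrbS.cross (hD : WCut D) {u x y : F g} (ho : OrbS E D u) (hxy : E.S x y) (hx : x ∉ D) (hy : y ∈ D) :
    E.S u x := by
  by_cases hu : u ∈ D
  · obtain ⟨n, m, h⟩ := cross_orbit hD hu hy hx
    exact GP.trans (ho n) (GP.noncr hxy (ho.two n m) h)
  · have ho' := (orbS_compl hD).2 ho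
    obtain ⟨n, m, h⟩ := cross_orbit hD.compl (show u ∈ Dᶜ from hu) (show x ∈ Dᶜ from hx)
      (show y ∉ Dᶜ from fun hh => hh hy)
    exact GP.trans (ho' n) (GP.trans (GP.noncr (GP.symm hxy) (ho'.two n m) h) (GP.symm hxy))

/-- two points on the same side of `D` with related orbits are related -/
theorem OrbS.same (hD : WCut D) {u v : F g} (hu : OrbS E D u) (hv : OrbS E D v) (huv : u ∈ D ↔ v ∈ D) :
    E.S u v := by
  by_cases hu' : u ∈ D
  · obtain ⟨a, b, c, d, h⟩ := orbit_orbit hD hu' (huv.1 hu')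
    exact GP.trans (hu a) (GP.trans (GP.noncr (hv.two c d) (hu.two a b) h) (GP.symm (hv c)))
  · have hv' : v ∉ D := fun hh => hu' (huv.2 hh)
    have hu2 := (orbS_compl hD).2 hu
    have hv2 := (orbS_compl hD).2 hv
    obtain ⟨a, b, c, d, h⟩ := orbit_orbit hD.compl (show u ∈ Dᶜ from hu') (show v ∈ Dᶜ from hv')
    exact GP.trans (hu2 a) (GP.trans (GP.noncr (hv2.two c d) (hu2.two a b) h) (GP.symm (hv2 c)))

theorem KG.orb_out (h : KG E) (hD : Sat E D) {k l : F g} (hkl : Adj E D k l) : OrbS E D k := by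
  intro n
  have h1 := h.adj_tr ((h.kcut hD).ph_gn_pow n) hkl
  have h2 : tr (gn D ^ n) D = D := mem_stD.1 (pow_mem_stD (gn_spec (h.wcut hD)).mem n)
  rw [h2] at h1
  exact hkl.out_unique h.lf hD h1

theorem KG.orb_inn (h : KG E) (hD : Sat E D) {k l : F g} (hkl : Adj E D k l) : OrbS E D l := by
  have h1 := h.orb_out hD.compl hkl.compl
  exact (orbS_compl (h.wcut hD)).1 h1

/-- no reversed lines -/
theorem not_rev (h : KG E) (h' : KG E') (hle : E ≤ E') (hD : Ln E D) : ¬ Ln E' Dᶜ := by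
  intro hD'
  obtain ⟨k, l, h1, h2, h3⟩ := hD.adj
  obtain ⟨k', l', h4, h5, h6⟩ := hD'.adj
  have hw := h.wcut hD.1
  have o1 : OrbS E' D k := (h.orb_out hD.1 h1).mono hle h2
  have o2 : OrbS E' D l' := (orbS_compl hw).1 (h'.orb_inn hD'.1 h4)
  have h7 := o1.same hw o2 (iff_of_false h1.out h4.inn)
  exact h6 ((GP.col h7).1 (hle.1 h2))

theorem not_rev' (h : KG E) (h' : KG E') (hle : E ≤ E') (hD : Ln E Dᶜ) : ¬ Ln E' D := by
  have := not_rev h h' hle hD
  rwa [compl_compl] at this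

/-- a line of `E` and of `E'` is a line of everything between -/
theorem ln_conv {Z : GP (F g)} (h : KG E) (hZ : KG Z) (h1 : E ≤ Z) (h2 : Z ≤ E') (hD : Ln E D)
    (hD' : Ln E' D) : Ln Z D := by
  have hS : Sat Z D := by
    refine ⟨hD.1.ne, hD.1.ne', hD.1.cvx, fun x y hxy => ?_⟩
    by_cases hx : x ∈ Z.P
    · exact hD'.1.sat _ _ (h2.2 _ _ hx hxy)
    · exact hD.1.sat _ _ (S_of_le' h1 hx hxy)
  exact (ln_or hZ.lf hS).resolve_right (not_rev h hZ h1 hD)

end TorL
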