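import Mathlib
import Pool.Agent.Lib.MP_05cdf2_gt.L.HCut

/-! MP_05cdf2_gt, stream L (helper49): curves.

`Cv g`: the `K`-orbits of the cuts of bounded level (`K = ker ph`), i.e. oriented simple closed curves of the infinite
cyclic cover. `cact h`: the action of `h : F g`; `tcv = cact t0`: the shift. `fr X`: the frontier curves of `X : Hf g`:
the `K`-orbits of the outward lines `Ln X.E`. -/

set_option autoImplicit false
set_option linter.unusedSectionVars false

namespace TorL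
open TorM TorG

variable {g : ℕ} [NeZero g]
variable {E E' : GP (F g)} {D D' : Set (F g)}

/-- the `K`-orbit of a cut -/
def orbK (D : Set (F g)) : Set (Set (F g)) := {A | ∃ k, ph k = 0 ∧ A = tr k D}

theorem mem_orbK_self (D : Set (F g)) : D ∈ orbK D := ⟨1, ph_one, (tr_one D).symm⟩

theorem orbK_eq_of_mem {A : Set (F g)} (h : A ∈ orbK D) : orbK A = orbK D := by
  obtain ⟨k, hk, rfl⟩ := h
  ext B
  constructor
  · rintro ⟨m, hm, rfl⟩
    exact ⟨m * k, by rw [ph_mul, hm, hk, add_zero], by rw [tr_tr]⟩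
  · rintro ⟨m, hm, rfl⟩
    exact ⟨m * k⁻¹, by rw [ph_mul, ph_inv, hm, hk]; ring, by rw [tr_tr, inv_mul_cancel_right]⟩

theorem orbK_eq_iff {A : Set (F g)} : orbK A = orbK D ↔ A ∈ orbK D := by
  constructor
  · intro h
    rw [← h]
    exact mem_orbK_self A
  · exact orbK_eq_of_mem

/-- translate of an orbit -/
def trO (h : F g) (O : Set (Set (F g))) : Set (Set (F g)) := {A | tr h⁻¹ A ∈ O}

theorem trO_orbK (h : F g) (D : Set (F g)) : trO h (orbK D) = orbK (tr h D) := by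
  ext A
  constructor
  · rintro ⟨k, hk, hA⟩
    refine ⟨h * k * h⁻¹, by simp [hk], ?_⟩
    have h1 := congrArg (tr h) hA
    rw [tr_tr, mul_inv_cancel, tr_one, tr_tr] at h1
    rw [h1, tr_tr]
    congr 1
    group
  · rintro ⟨k, hk, rfl⟩
    refine ⟨h⁻¹ * k * h, by simp [hk], ?_⟩
    rw [tr_tr, tr_tr]

theorem trO_mul (h k : F g) (O : Set (Set (F g))) : trO (h * k) O = trO h (trO k O) := by
  ext A
  show tr (h * k)⁻¹ A ∈ O ↔ tr k⁻¹ (tr h⁻¹ A) ∈ O
  rw [tr_tr, mul_inv_rev]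

theorem trO_one (O : Set (Set (F g))) : trO 1 O = O := by
  ext A
  show tr 1⁻¹ A ∈ O ↔ A ∈ O
  rw [inv_one, tr_one]

/-- curves -/
def Cv (g : ℕ) [NeZero g] : Type := {O : Set (Set (F g)) // ∃ D, KCut D ∧ O = orbK D}

noncomputable instance : DecidableEq (Cv g) := Classical.decEq _

/-- the curve of a cut -/
def cv (D : Set (F g)) (hD : KCut D) : Cv g := ⟨orbK D, D, hD, rfl⟩

theorem cv_eq_iff (hD : KCut D) (hD' : KCut D') : cv D hD = cv D' hD' ↔ D ∈ orbK D' := by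
  rw [← orbK_eq_iff]
  exact Subtype.ext_iff

theorem Cv.rep (c : Cv g) : ∃ D, ∃ hD : KCut D, c = cv D hD := by
  obtain ⟨O, D, hD, rfl⟩ := c
  exact ⟨D, hD, rfl⟩

/-- translate of a curve -/
def cvT (h : F g) (c : Cv g) : Cv g := ⟨trO h c.1, by
  obtain ⟨O, D, hD, rfl⟩ := c
  exact ⟨tr h D, hD.tr h, trO_orbK h D⟩⟩

theorem cvT_cv (h : F g) (hD : KCut D) : cvT h (cv D hD) = cv (tr h D) (hD.tr h) :=
  Subtype.ext (trO_orbK h D)

/-- the action of `F g` on curves -/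
def cact : F g →* Equiv.Perm (Cv g) where
  toFun h :=
    { toFun := cvT h
      invFun := cvT h⁻¹
      left_inv := fun c => Subtype.ext (by
        show trO h⁻¹ (trO h c.1) = c.1
        rw [← trO_mul, inv_mul_cancel, trO_one])
      right_inv := fun c => Subtype.ext (by
        show trO h (trO h⁻¹ c.1) = c.1
        rw [← trO_mul, mul_inv_cancel, trO_one]) }
  map_one' := Equiv.ext fun c => Subtype.ext (trO_one c.1)
  map_mul' h k := Equiv.ext fun c => Subtype.ext (trO_mul h k c.1)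

theorem cact_apply (h : F g) (c : Cv g) : cact h c = cvT h c := rfl

theorem cact_cv (h : F g) (hD : KCut D) : cact h (cv D hD) = cv (tr h D) (hD.tr h) := cvT_cv h hD

/-- the shift of curves -/
def tcv (g : ℕ) [NeZero g] : Equiv.Perm (Cv g) := cact t0

theorem tcv_zpow (k : ℤ) : tcv g ^ k = cact (t0 ^ k) := (map_zpow cact t0 k).symm

theorem cact_K {k : F g} (hk : ph k = 0) (c : Cv g) : cact k c = c := by
  obtain ⟨D, hD, rfl⟩ := c.rep
  rw [cact_cv, cv_eq_iff]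
  exact ⟨k, hk, rfl⟩

theorem cact_lev {h k : F g} (hk : ph h = ph k) (c : Cv g) : cact h c = cact k c := by
  have e : h = k * (k⁻¹ * h) := by group
  have h1 : ph (k⁻¹ * h) = 0 := by
    rw [ph_mul, ph_inv, hk]
    ring
  rw [e, map_mul, Equiv.Perm.mul_apply, cact_K h1]

/-- the shift acts freely -/
theorem tcv_free (c : Cv g) (k : ℤ) (h : (tcv g ^ k) c = c) : k = 0 := by
  obtain ⟨D, hD, rfl⟩ := c.rep
  rw [tcv_zpow, cact_cv, cv_eq_iff] at h
  obtain ⟨m, hm, h2⟩ := h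
  have h3 : m⁻¹ * t0 ^ k ∈ stD D := by
    rw [mem_stD, ← tr_tr, h2, tr_tr, inv_mul_cancel, tr_one]
  have h4 := hD.st h3
  rw [ph_mul, ph_inv, hm, ph_zpow, ph_t0] at h4
  omega

/-- finitely many `K`-orbits of saturated cuts -/
theorem KG.fin_orb (h : KG E) : {O | ∃ D, Sat E D ∧ O = orbK D}.Finite := by
  obtain ⟨M, N, hMN⟩ := h.bd
  refine ((Set.finite_Icc M N).biUnion (t := fun n => ⋃ l : Ltr g,
    orbK '' {D | Sat E D ∧ ¬ (t0 ^ n ∈ D ↔ t0 ^ n * le l ∈ D)}) fun n _ =>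
      Set.finite_iUnion fun l => (sep_fin h.lf _ _).image _).subset ?_
  rintro O ⟨D, hD, rfl⟩
  obtain ⟨z, l, hz⟩ := (h.kcut hD).letter
  refine Set.mem_biUnion (hMN D hD z l hz) ?_
  rw [Set.mem_iUnion]
  have hk : ph (t0 ^ ph z * z⁻¹) = 0 := by
    rw [ph_mul, ph_inv, ph_zpow, ph_t0]
    ring
  refine ⟨l, tr (t0 ^ ph z * z⁻¹) D, ⟨(h.sat_tr hk).2 hD, ?_⟩, orbK_eq_of_mem ⟨_, hk, rfl⟩⟩
  rw [mem_tr, mem_tr]
  have e1 : (t0 ^ ph z * z⁻¹)⁻¹ * t0 ^ ph z = z := by group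
  have e2 : (t0 ^ ph z * z⁻¹)⁻¹ * (t0 ^ ph z * le l) = z * le l := by group
  rw [e1, e2]
  exact hz

/-- the frontier curves of an invariant Galois pair -/
def frG (E : GP (F g)) : Set (Cv g) := {c | ∃ D, Ln E D ∧ c.1 = orbK D}

theorem KG.frG_fin (h : KG E) : (frG E).Finite := by
  refine Set.Finite.subset (h.fin_orb.preimage (f := Subtype.val) Subtype.val_injective.injOn) ?_
  rintro c ⟨D, hD, hc⟩
  exact ⟨D, hD.1, hc⟩

theorem KG.mem_frG (h : KG E) (hD : KCut D) : cv D hD ∈ frG E ↔ Ln E D := by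
  constructor
  · rintro ⟨D', hD', h2⟩
    have h3 : D ∈ orbK D' := orbK_eq_iff.1 h2
    obtain ⟨k, hk, rfl⟩ := h3
    exact (h.ln_tr hk).2 hD'
  · intro h2
    exact ⟨D, h2, rfl⟩

/-- the frontier curves of a half space -/
noncomputable def fr (X : Hf g) : Finset (Cv g) := X.kg.frG_fin.toFinset

theorem mem_fr {X : Hf g} {c : Cv g} : c ∈ fr X ↔ ∃ D, Ln X.E D ∧ c.1 = orbK D := by
  unfold fr
  rw [Set.Finite.mem_toFinset]
  rfl

theorem cv_mem_fr {X : Hf g} (hD : KCut D) : cv D hD ∈ fr X ↔ Ln X.E D := by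
  rw [← X.kg.mem_frG hD]
  unfold fr
  rw [Set.Finite.mem_toFinset]

theorem cact_mem_fr (h : F g) {X : Hf g} {c : Cv g} : cact h c ∈ fr (X.act h) ↔ c ∈ fr X := by
  obtain ⟨D, hD, rfl⟩ := c.rep
  rw [cact_cv, cv_mem_fr, cv_mem_fr]
  exact ln_map (lt h)

theorem fr_tIso (X : Hf g) (c : Cv g) : tcv g c ∈ fr (Hf.tIso g X) ↔ c ∈ fr X := cact_mem_fr t0

theorem J_tIso (X : Hf g) : (Hf.tIso g X).J = X.J + 1 := by
  rw [Hf.tIso_apply, Hf.act_J, ph_t0]

/-- a saturated cut or its complement is a line: the curve is on the frontier -/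
theorem fr_nonempty (X : Hf g) : (fr X).Nonempty := by
  have h1 : ¬ X.E.S (t0 ^ X.J) (t0 ^ (X.J + 1)) := by
    intro h
    have h2 := GP.col h
    rw [X.lev, X.lev, ph_zpow, ph_zpow, ph_t0] at h2
    omega
  rw [S_iff] at h1
  push Not at h1
  obtain ⟨D, hD, -⟩ := h1
  rcases ln_or X.lf hD with h | h
  · exact ⟨cv D (X.kg.kcut hD), (cv_mem_fr _).2 h⟩
  · exact ⟨cv Dᶜ (X.kg.kcut hD.compl), (cv_mem_fr _).2 h⟩

/-- the lines determine the relation -/
theorem S_iff_ln (hE : LF E) {x y : F g} : E.S x y ↔ ∀ D, Ln E D → (x ∈ D ↔ y ∈ D) := by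
  rw [S_iff]
  constructor
  · exact fun h D hD => h D hD.1
  · intro h D hD
    rcases ln_or hE hD with h1 | h1
    · exact h D h1
    · exact not_iff_not.1 (h Dᶜ h1)

theorem ln_iff_of_fr {X Y : Hf g} (h : fr X = fr Y) (D : Set (F g)) : Ln X.E D ↔ Ln Y.E D := by
  constructor
  · intro hD
    have h1 := (cv_mem_fr (X.kg.kcut hD.1)).2 hD
    rw [h] at h1
    exact (cv_mem_fr _).1 h1
  · intro hD
    have h1 := (cv_mem_fr (Y.kg.kcut hD.1)).2 hD
    rw [← h] at h1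
    exact (cv_mem_fr _).1 h1

/-- the frontier determines the half space -/
theorem fr_inj {X Y : Hf g} (h : fr X = fr Y) : X = Y := by
  classical
  have h1 := ln_iff_of_fr h
  have h2 : LnS X.E = LnS Y.E := Set.ext h1
  have hJ : X.J = Y.J := by
    have h3 : ∀ n m : ℤ, (if n ≤ X.J then (1 : ℤ) else 0) - (if m ≤ X.J then 1 else 0) =
        (if n ≤ Y.J then 1 else 0) - (if m ≤ Y.J then 1 else 0) := by
      intro n m
      have e1 := signed X.lf (t0 ^ n) (t0 ^ m)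
      have e2 := signed Y.lf (t0 ^ n) (t0 ^ m)
      rw [h2, e2] at e1
      have a1 : ∀ (Z : Hf g) (n : ℤ), (t0 ^ n ∈ Z.E.P) = (n ≤ Z.J) := by
        intro Z n
        rw [Z.lev, ph_zpow, ph_t0, mul_one]
      simp only [a1] at e1
      exact e1.symm
    rcases lt_trichotomy X.J Y.J with h4 | h4 | h4
    · have := h3 X.J Y.J
      have a1 := h3 X.J (X.J + 1)
      simp only [le_refl, if_true] at this a1
      split_ifs at this a1 <;> omega
    · exact h4
    · have := h3 X.J Y.J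
      have a1 := h3 Y.J (Y.J + 1)
      simp only [le_refl, if_true] at this a1
      split_ifs at this a1 <;> omega
  apply Hf.E_inj
  apply GP.ext'
  · ext x
    rw [X.lev, Y.lev, hJ]
  · intro x y
    rw [S_iff_ln X.lf, S_iff_ln Y.lf]
    constructor
    · intro h4 D hD
      exact h4 D ((h1 D).2 hD)
    · intro h4 D hD
      exact h4 D ((h1 D).1 hD)

/-- curves common to `X` and `Y` are curves of everything between -/
theorem fr_conv {X Y Z : Hf g} (h1 : X ≤ Z) (h2 : Z ≤ Y) {c : Cv g} (hX : c ∈ fr X) (hY : c ∈ fr Y) :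
    c ∈ fr Z := by
  obtain ⟨D, hD, rfl⟩ := c.rep
  rw [cv_mem_fr] at *
  exact ln_conv X.kg Z.kg h1 h2 hX hY

end TorL
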