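import Mathlib
import Pool.Agent.Lib.MP_05cdf2_gt.L.Fr

/-! MP_05cdf2_gt, stream L (helper49): the half space with a given family of lines.

`LFam J L`: `L` is a family of pairwise nested cuts, invariant under `K`, locally finite, of bounded level, such that
points on different sides of level `J` are separated, and every member `D` is the only member which separates some
`u ∉ D`, `ph u ≤ J` from some `v ∈ D`, `J < ph v`. `ofL h : Hf g` has level `J` and lines `L`. -/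

set_option autoImplicit false
set_option linter.unusedSectionVars false

namespace TorL
open TorM TorG

theorem Nst.corner {α : Type} {A B : Set α} (h : Nst A B) {a b c d : α} (ha : a ∈ A) (ha' : a ∈ B)
    (hb : b ∈ A) (hb' : b ∉ B) (hc : c ∉ A) (hc' : c ∈ B) (hd : d ∉ A) (hd' : d ∉ B) : False := by
  rcases h with h | h | h | h
  · exact hb' (h hb)
  · exact hc (h hc')
  · exact h a ⟨ha, ha'⟩
  · exact (h d).elim hd hd'

/-- nested sets do not separate two pairs crosswise -/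
theorem Nst.four {α : Type} {A B : Set α} (h : Nst A B) {a b c d : α} (hab : ¬ (a ∈ A ↔ b ∈ A))
    (hac : a ∈ A ↔ c ∈ A) (hbd : b ∈ A ↔ d ∈ A) (hab' : a ∈ B ↔ b ∈ B) (hcd' : c ∈ B ↔ d ∈ B)
    (hac' : ¬ (a ∈ B ↔ c ∈ B)) : False := by
  by_cases ha : a ∈ A <;> by_cases ha' : a ∈ B
  · have hb : b ∉ A := fun hh => hab (iff_of_true ha hh)
    have hc' : c ∉ B := fun hh => hac' (iff_of_true ha' hh)
    exact h.corner ha ha' (hac.1 ha) hc' hb (hab'.1 ha') (fun hh => hb (hbd.2 hh)) (fun hh => hc' (hcd'.2 hh))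
  · have hb : b ∉ A := fun hh => hab (iff_of_true ha hh)
    have hc' : c ∈ B := by
      by_contra hh
      exact hac' (iff_of_false ha' hh)
    exact h.corner (hac.1 ha) hc' ha ha' (fun hh => hb (hbd.2 hh)) (hcd'.1 hc') hb (fun hh => ha' (hab'.2 hh))
  · have hb : b ∈ A := by
      by_contra hh
      exact hab (iff_of_false ha hh)
    have hc' : c ∉ B := fun hh => hac' (iff_of_true ha' hh)
    exact h.corner hb (hab'.1 ha') (hbd.1 hb) (fun hh => hc' (hcd'.2 hh)) ha ha' (fun hh => ha (hac.2 hh)) hc'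
  · have hb : b ∈ A := by
      by_contra hh
      exact hab (iff_of_false ha hh)
    have hc' : c ∈ B := by
      by_contra hh
      exact hac' (iff_of_false ha' hh)
    exact h.corner (hbd.1 hb) (hcd'.1 hc') hb (fun hh => ha' (hab'.2 hh)) (fun hh => ha (hac.2 hh)) hc' ha ha'

variable {g : ℕ} [NeZero g]

/-- families of lines -/
structure LFam (J : ℤ) (L : Set (Set (F g))) : Prop where
  cvx : ∀ D ∈ L, Cvx D
  nst : ∀ D ∈ L, ∀ D' ∈ L, Nst D D'
  fin : LFm L
  inv : ∀ k : F g, ph k = 0 → ∀ D ∈ L, tr k D ∈ L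
  zeta : ∀ D ∈ L, ∀ x, x * zeta g ∈ D ↔ x ∈ D
  bd : ∃ M N : ℤ, ∀ D ∈ L, ∀ x (l : Ltr g), ¬ (x ∈ D ↔ x * le l ∈ D) → M ≤ ph x ∧ ph x ≤ N
  sc : ∀ x y : F g, ph x ≤ J → J < ph y → ∃ D ∈ L, ¬ (x ∈ D ↔ y ∈ D)
  red : ∀ D ∈ L, ∃ u v, u ∉ D ∧ v ∈ D ∧ ph u ≤ J ∧ J < ph v ∧ ∀ D' ∈ L, D' ≠ D → (u ∈ D' ↔ v ∈ D')

variable {J : ℤ} {L : Set (Set (F g))}

/-- same side of level `J` and not separated -/
def RL (J : ℤ) (L : Set (Set (F g))) (x y : F g) : Prop := (ph x ≤ J ↔ ph y ≤ J) ∧ ∀ D ∈ L, (x ∈ D ↔ y ∈ D)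

theorem RL.refl (x : F g) : RL J L x x := ⟨Iff.rfl, fun _ _ => Iff.rfl⟩
theorem RL.symm {x y : F g} (h : RL J L x y) : RL J L y x := ⟨h.1.symm, fun D hD => (h.2 D hD).symm⟩
theorem RL.trans {x y z : F g} (h : RL J L x y) (h' : RL J L y z) : RL J L x z :=
  ⟨h.1.trans h'.1, fun D hD => (h.2 D hD).trans (h'.2 D hD)⟩

theorem LFam.kcut (h : LFam J L) {D : Set (F g)} (hD : D ∈ L) : KCut D where
  ne := by
    obtain ⟨u, v, -, hv, -⟩ := h.red D hD
    exact ⟨v, hv⟩
  ne' := by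
    obtain ⟨u, v, hu, -⟩ := h.red D hD
    exact ⟨u, hu⟩
  cvx := h.cvx D hD
  zeta := h.zeta D hD
  bd := by
    obtain ⟨M, N, hMN⟩ := h.bd
    exact ⟨M, N, hMN D hD⟩
  kfin x y := by
    refine (h.fin x y).subset ?_
    rintro A ⟨⟨k, hk, rfl⟩, h2⟩
    exact ⟨h.inv k hk D hD, h2⟩

theorem iff_aux {p x y : Prop} (h : ¬ (x ↔ p)) : ¬ ((p ↔ y) ↔ (x ↔ y)) := by tauto

theorem iff_aux2 {p q x : Prop} (h : p ↔ ¬ q) (h2 : p ↔ x) : q ↔ ¬ x := by tauto

/-- points of different colours are separated -/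
theorem LFam.sep (h : LFam J L) {x y : F g} (hxy : ¬ (ph x ≤ J ↔ ph y ≤ J)) :
    ∃ D ∈ L, ¬ (x ∈ D ↔ y ∈ D) := by
  by_cases hx : ph x ≤ J
  · refine h.sc x y hx ?_
    by_contra hcon
    exact hxy (iff_of_true hx (not_lt.1 hcon))
  · have hy : ph y ≤ J := by
      by_contra hcon
      exact hxy (iff_of_false hx hcon)
    obtain ⟨D, hD, h2⟩ := h.sc y x hy (not_le.1 hx)
    exact ⟨D, hD, fun hh => h2 hh.symm⟩

theorem LFam.not_cross (h : LFam J L) {x y a b : F g} (hxy : RL J L x y) (hab : RL J L a b)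
    (hc : ph a ≤ J ↔ ¬ ph x ≤ J) : ¬ Cr a b x y := by
  obtain ⟨D, hD, h2⟩ := h.sep (x := a) (y := x) (by tauto)
  intro hcr
  by_cases ha : a ∈ D
  · have hx : x ∉ D := fun hh => h2 (iff_of_true ha hh)
    exact h.cvx D hD a ha b ((hab.2 D hD).1 ha) x hx y (fun hh => hx ((hxy.2 D hD).2 hh)) hcr
  · have hx : x ∈ D := by
      by_contra hh
      exact h2 (iff_of_false ha hh)
    exact h.cvx D hD x hx y ((hxy.2 D hD).1 hx) a ha b (fun hh => ha ((hab.2 D hD).2 hh)) (cr_comm.1 hcr)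

/-- the ends of the reduced pair have related orbits -/
theorem LFam.orb (h : LFam J L) {D : Set (F g)} (hD : D ∈ L) {u v : F g} (hu : u ∉ D) (hv : v ∈ D)
    (huv : ∀ D' ∈ L, D' ≠ D → (u ∈ D' ↔ v ∈ D')) (n : ℤ) :
    RL J L u (gn D ^ n * u) ∧ RL J L v (gn D ^ n * v) := by
  have hk := h.kcut hD
  have hst : gn D ^ n ∈ stD D := pow_mem_stD (gn_spec hk.wcut).mem n
  have hph := hk.ph_gn_pow n
  have key : ∀ D' ∈ L, (u ∈ D' ↔ gn D ^ n * u ∈ D') ∧ (v ∈ D' ↔ gn D ^ n * v ∈ D') := by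
    intro D' hD'
    by_cases hDD : D' = D
    · subst hDD
      exact ⟨(mul_mem_iff hst).symm, (mul_mem_iff hst).symm⟩
    · have h1 := huv D' hD' hDD
      have h2 := huv (tr (gn D ^ n)⁻¹ D') (h.inv _ (by simp [hph]) _ hD') (by
        intro hh
        apply hDD
        have h3 := congrArg (tr (gn D ^ n)) hh
        rw [tr_tr, mul_inv_cancel, tr_one, mem_stD.1 hst] at h3
        exact h3)
      rw [mem_tr, mem_tr, _root_.inv_inv] at h2
      by_contra hcon
      have h3 : ¬ (u ∈ D' ↔ gn D ^ n * u ∈ D') := by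
        intro h3
        exact hcon ⟨h3, h1.symm.trans (h3.trans h2)⟩
      exact (h.nst D hD D' hD').four (a := u) (b := v) (c := gn D ^ n * u) (d := gn D ^ n * v)
        (fun hh => hu (hh.2 hv)) (mul_mem_iff hst).symm (mul_mem_iff hst).symm h1 h2 h3
  have hp : ∀ z : F g, (ph z ≤ J ↔ ph (gn D ^ n * z) ≤ J) := by
    intro z
    rw [ph_mul, hph, zero_add]
  exact ⟨⟨hp u, fun D' hD' => (key D' hD').1⟩, ⟨hp v, fun D' hD' => (key D' hD').2⟩⟩

theorem LFam.exists_cross (h : LFam J L) {x y : F g} (hc : ph x ≤ J ↔ ph y ≤ J)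
    (hn : ∃ D ∈ L, ¬ (x ∈ D ↔ y ∈ D)) : ∃ a b, RL J L a b ∧ (ph a ≤ J ↔ ¬ ph x ≤ J) ∧ Cr a b x y := by
  classical
  let f : Set (F g) → Set (F g) := fun D => {z | z ∈ D ↔ y ∈ D}
  have hf : ∀ D : Set (F g), f D = D ∨ f D = Dᶜ := by
    intro D
    by_cases hy : y ∈ D
    · left
      ext z
      exact ⟨fun hz => hz.2 hy, fun hz => iff_of_true hz hy⟩
    · right
      ext z
      exact ⟨fun hz hz2 => hy (hz.1 hz2), fun hz => iff_of_false hz hy⟩
  have hfn : ∀ {A B : Set (F g)}, Nst A B → Nst (f A) (f B) := by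
    intro A B hAB
    rcases hf A with e | e <;> rcases hf B with e' | e' <;> rw [e, e']
    · exact hAB
    · exact hAB.compl_right
    · exact hAB.compl_left
    · exact hAB.compl_left.compl_right
  obtain ⟨D, ⟨hD, hsep⟩, hmax⟩ := (h.fin x y).exists_maximalFor f _ hn
  obtain ⟨u, v, hu, hv, hpu, hpv, huv⟩ := h.red D hD
  have hxf : x ∉ f D := fun hh => hsep hh
  have hyf : y ∈ f D := Iff.rfl
  -- the ends on the two sides
  obtain ⟨p, q, hp, hq, hpq, hcol, horb⟩ : ∃ p q, p ∉ f D ∧ q ∈ f D ∧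
      (∀ D' ∈ L, D' ≠ D → (p ∈ D' ↔ q ∈ D')) ∧ (ph p ≤ J ↔ ¬ ph q ≤ J) ∧
      ∀ n : ℤ, RL J L q (gn D ^ n * q) := by
    have h1 := h.orb hD hu hv huv
    by_cases hy : y ∈ D
    · refine ⟨u, v, fun hh => hu (hh.2 hy), iff_of_true hv hy, huv, ?_, fun n => (h1 n).2⟩
      exact iff_of_true hpu (not_le.2 hpv)
    · refine ⟨v, u, fun hh => hy (hh.1 hv), iff_of_false hu hy, fun D' hD' hne => (huv D' hD' hne).symm, ?_,
        fun n => (h1 n).1⟩
      exact iff_of_false (not_le.2 hpv) (fun hh => hh hpu)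
  have hcp : ph p ≤ J ↔ ph x ≤ J := by
    by_contra hcon
    obtain ⟨D', hD', hs'⟩ := h.sep hcon
    have hne : D' ≠ D := by
      rintro rfl
      apply hs'
      rcases hf D' with e | e <;> rw [e] at hp hxf
      · exact iff_of_false hp hxf
      · rw [Set.notMem_compl_iff] at hp hxf
        exact iff_of_true hp hxf
    have h2 := hpq D' hD' hne
    have hN := hfn (h.nst D hD D' hD')
    have e1 : (p ∈ f D' ↔ q ∈ f D') := ⟨fun hh => h2.symm.trans hh, fun hh => h2.trans hh⟩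
    have e2 : ¬ (p ∈ f D' ↔ x ∈ f D') := iff_aux (fun hh => hs' hh.symm)
    have hy' : y ∈ f D' := Iff.rfl
    by_cases hx' : x ∈ f D'
    · have hp' : p ∉ f D' := fun hh => e2 (iff_of_true hh hx')
      exact hN.corner hyf hy' hq (fun hh => hp' (e1.2 hh)) hxf hx' hp hp'
    · have hp' : p ∈ f D' := by
        by_contra hh
        exact e2 (iff_of_false hh hx')
      rcases hN with h3 | h3 | h3 | h3
      · have hmem : D' ∈ {D | D ∈ L ∧ ¬ (x ∈ D ↔ y ∈ D)} := ⟨hD', fun hh => hx' hh⟩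
        exact hp (hmax hmem h3 hp')
      · exact hp (h3 hp')
      · exact h3 y ⟨hyf, hy'⟩
      · exact (h3 x).elim hxf hx'
  have hk := (h.kcut hD).wcut
  obtain ⟨n, m, hcr⟩ : ∃ n m : ℤ, Cr (gn D ^ n * q) (gn D ^ m * q) x y := by
    by_cases hy : y ∈ D
    · refine cross_orbit hk (hq.2 hy) hy ?_
      exact fun hh => hsep (iff_of_true hh hy)
    · have hx : x ∈ D := by
        by_contra hh
        exact hsep (iff_of_false hh hy)
      have hq' : q ∉ D := fun hh => hy (hq.1 hh)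
      obtain ⟨n, m, h3⟩ := cross_orbit hk.compl (show q ∈ Dᶜ from hq') (show y ∈ Dᶜ from hy)
        (show x ∉ Dᶜ from fun hh => hh hx)
      rw [gn_compl hk, inv_zpow', inv_zpow'] at h3
      exact ⟨_, _, h3⟩
  refine ⟨_, _, (horb n).symm.trans (horb m), ?_, hcr⟩
  have h4 := (horb n).1
  rw [← h4]
  exact iff_aux2 hcol hcp

/-- the Galois pair of a family of lines -/
def ofLG (h : LFam J L) : GP (F g) where
  P := {x | ph x ≤ J}
  S := RL J L
  iff x y := by
    constructor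
    · intro hxy
      exact ⟨hxy.1, fun a b hab hc => h.not_cross hxy hab hc⟩
    · rintro ⟨h1, h2⟩
      refine ⟨h1, fun D hD => ?_⟩
      by_contra hh
      obtain ⟨a, b, hab, hc, hcr⟩ := h.exists_cross h1 ⟨D, hD, hh⟩
      exact h2 a b hab hc hcr

theorem mem_ofLG (h : LFam J L) {x : F g} : x ∈ (ofLG h).P ↔ ph x ≤ J := Iff.rfl

theorem ofLG_S (h : LFam J L) {x y : F g} : (ofLG h).S x y ↔ RL J L x y := Iff.rfl

theorem ofLG_lf (h : LFam J L) : LF (ofLG h) := by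
  classical
  intro x y
  let f : Set (F g) → Set (Set (F g)) := fun c => {D | (D ∈ L ∧ ¬ (x ∈ D ↔ y ∈ D)) ∧ ∃ a ∈ c, (a ∈ D ↔ y ∈ D)}
  refine Set.Finite.of_finite_image (f := f) ((h.fin x y).finite_subsets.subset ?_) ?_
  · rintro _ ⟨c, -, rfl⟩ D hD
    exact hD.1
  · rintro _ ⟨a, b, rfl, hab, hcr, hax, hay⟩ _ ⟨p, q, rfl, hpq, hcr', hpx, hpy⟩ hff
    by_contra hne
    have hap : ¬ RL J L a p := fun hh => hne (cl_eq hh)
    -- a member which separates `a` from `p`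
    have hs : ∃ D ∈ L, ¬ (a ∈ D ↔ p ∈ D) := by
      by_cases hc : ph a ≤ J ↔ ph p ≤ J
      · by_contra hcon
        apply hap
        refine ⟨hc, fun D hD => ?_⟩
        by_contra hh
        exact hcon ⟨D, hD, hh⟩
      · exact h.sep hc
    obtain ⟨D, hD, hs⟩ := hs
    have hab' := hab.2 D hD
    have hpq' := hpq.2 D hD
    have hxy : ¬ (x ∈ D ↔ y ∈ D) := by
      intro hxy
      -- one of the chords is on the other side of `D`
      have key : ∀ a b : F g, (a ∈ D ↔ b ∈ D) → Cr a b x y → (a ∈ D ↔ x ∈ D) := by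
        intro a b hab hcr
        by_contra hax
        by_cases ha : a ∈ D
        · have hx : x ∉ D := fun hh => hax (iff_of_true ha hh)
          exact h.cvx D hD a ha b (hab.1 ha) x hx y (fun hh => hx (hxy.2 hh)) hcr
        · have hx : x ∈ D := by
            by_contra hh
            exact hax (iff_of_false ha hh)
          exact h.cvx D hD x hx y (hxy.1 hx) a ha b (fun hh => ha (hab.2 hh)) (cr_comm.1 hcr)
      exact hs ((key a b hab' hcr).trans (key p q hpq' hcr').symm)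
    have mem_f : ∀ a : F g, D ∈ f (cl (ofLG h) a) ↔ (a ∈ D ↔ y ∈ D) := by
      intro a
      constructor
      · rintro ⟨-, a', ha', h3⟩
        exact (ha'.2 D hD).trans h3
      · intro h3
        exact ⟨⟨hD, hxy⟩, a, RL.refl a, h3⟩
    have h4 : (a ∈ D ↔ y ∈ D) ↔ (p ∈ D ↔ y ∈ D) := by
      rw [← mem_f a, ← mem_f p]
      exact iff_of_eq (congrArg (fun s => D ∈ s) hff)
    exact iff_aux (fun hh => hs hh.symm) h4

/-- the half space of a family of lines -/
noncomputable def ofL (h : LFam J L) : Hf g where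
  E := ofLG h
  J := J
  lev x := Iff.rfl
  inv k hk := by
    apply GP.ext'
    · ext x
      show ph (k⁻¹ * x) ≤ J ↔ ph x ≤ J
      rw [ph_mul, ph_inv, hk, neg_zero, zero_add]
    · intro x y
      show RL J L (k⁻¹ * x) (k⁻¹ * y) ↔ RL J L x y
      unfold RL
      rw [ph_mul, ph_inv, hk, neg_zero, zero_add, ph_mul, ph_inv, hk, neg_zero, zero_add]
      refine and_congr Iff.rfl ⟨fun h1 D hD => ?_, fun h1 D hD => h1 _ (h.inv k hk D hD)⟩
      have h2 := h1 (tr k⁻¹ D) (h.inv _ (by simp [hk]) D hD)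
      rw [mem_tr, mem_tr, _root_.inv_inv, mul_inv_cancel_left, mul_inv_cancel_left] at h2
      exact h2
  lf := ofLG_lf h
  lo := by
    obtain ⟨M, N, hMN⟩ := h.bd
    refine ⟨min (M - 1) J, fun x l h1 h2 => ?_⟩
    rw [le_min_iff] at h1 h2
    refine ⟨iff_of_true h1.2 h2.2, fun D hD => ?_⟩
    by_contra hcon
    have := hMN D hD x l hcon
    omega
  hi := by
    obtain ⟨M, N, hMN⟩ := h.bd
    refine ⟨max (N + 1) (J + 1), fun x l h1 h2 => ?_⟩
    rw [max_le_iff] at h1 h2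
    refine ⟨iff_of_false (by omega) (by omega), fun D hD => ?_⟩
    by_contra hcon
    have := hMN D hD x l hcon
    omega

theorem ofL_J (h : LFam J L) : (ofL h).J = J := rfl

theorem ofL_S (h : LFam J L) {x y : F g} : (ofL h).E.S x y ↔ RL J L x y := Iff.rfl

theorem ofL_ln_of_mem (h : LFam J L) {D : Set (F g)} (hD : D ∈ L) : Ln (ofL h).E D := by
  obtain ⟨u, v, hu, hv, hpu, hpv, huv⟩ := h.red D hD
  have hk := h.kcut hD
  refine ⟨⟨hk.ne, hk.ne', hk.cvx, fun x y hxy => hxy.2 D hD⟩, u, v, ⟨hu, hv, iff_of_true hpu (not_le.2 hpv), ?_⟩,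
    hpu⟩
  rw [Set.eq_empty_iff_forall_notMem]
  rintro c ⟨a, b, -, hab, hcr, hau, hav⟩
  have key : ∀ z : F g, ¬ RL J L a z → ∃ D' ∈ L, ¬ (a ∈ D' ↔ z ∈ D') := by
    intro z hz
    by_cases hc : ph a ≤ J ↔ ph z ≤ J
    · by_contra hcon
      apply hz
      refine ⟨hc, fun D hD => ?_⟩
      by_contra hh
      exact hcon ⟨D, hD, hh⟩
    · exact h.sep hc
  have key2 : ∀ D' ∈ L, D' ≠ D → (a ∈ D' ↔ u ∈ D') := by
    intro D' hD' hne
    have h1 := huv D' hD' hne
    have h2 := hab.2 D' hD'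
    by_contra hax
    by_cases ha : a ∈ D'
    · have hx : u ∉ D' := fun hh => hax (iff_of_true ha hh)
      exact h.cvx D' hD' a ha b (h2.1 ha) u hx v (fun hh => hx (h1.2 hh)) hcr
    · have hx : u ∈ D' := by
        by_contra hh
        exact hax (iff_of_false ha hh)
      exact h.cvx D' hD' u hx v (h1.1 hx) a ha b (fun hh => ha (h2.2 hh)) (cr_comm.1 hcr)
  obtain ⟨D1, hD1, h1⟩ := key u hau
  obtain ⟨D2, hD2, h2⟩ := key v hav
  have e1 : D1 = D := by
    by_contra hne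
    exact h1 (key2 D1 hD1 hne)
  have e2 : D2 = D := by
    by_contra hne
    exact h2 ((key2 D2 hD2 hne).trans (huv D2 hD2 hne))
  subst e1
  subst e2
  by_cases ha : a ∈ D2
  · exact h2 (iff_of_true ha hv)
  · exact h1 (iff_of_false ha hu)

/-- the lines of `ofL h` -/
theorem ln_ofL (h : LFam J L) {D : Set (F g)} : Ln (ofL h).E D ↔ D ∈ L := by
  constructor
  · intro hD
    obtain ⟨k, l, h1, h2, h3⟩ := hD.adj
    obtain ⟨D', hD', h4⟩ := h.sep (x := k) (y := l) (by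
      have a1 : ph k ≤ J := h2
      have a2 : ¬ ph l ≤ J := h3
      tauto)
    have h5 := ofL_ln_of_mem h hD'
    by_cases e1 : D' = D
    · rwa [← e1]
    by_cases e2 : D' = Dᶜ
    · rw [e2] at h5
      exact absurd h5 (ln_not (ofL h).lf hD)
    · exact absurd (h1.only (ofL h).lf hD.1 h5.1 e1 e2) h4
  · exact ofL_ln_of_mem h

theorem cv_mem_fr_ofL (h : LFam J L) {D : Set (F g)} (hD : KCut D) : cv D hD ∈ fr (ofL h) ↔ D ∈ L := by
  rw [cv_mem_fr, ln_ofL]

end TorL
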