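import Mathlib
import Pool.Agent.Lib.MP_05cdf2_gt.L.OfL

/-! MP_05cdf2_gt, stream L (helper49): the cut of the curve `a_0`.

`aa = a_0`, `bb = b_0⁻¹`. `B0`: the points between all `aa ^ (n+1)` and all `aa⁻¹ ^ (n+1)` (linear order), `D0` its
complement. `D0` is convex, invariant under `aa`, its edges are `(aa ^ k, aa ^ k * bb)`. The translates of `D0` are
pairwise nested and locally finite. -/

set_option autoImplicit false
set_option linter.unusedSectionVars false

namespace TorL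
open TorM TorG

variable {g : ℕ} [NeZero g]

/-- the letter `a_0` -/
def lA (g : ℕ) [NeZero g] : Ltr g := (Sum.inl 0, true)
/-- the letter `a_0⁻¹` -/
def lC (g : ℕ) [NeZero g] : Ltr g := (Sum.inl 0, false)
/-- the letter `b_0⁻¹` -/
def lB (g : ℕ) [NeZero g] : Ltr g := (Sum.inr 0, false)

theorem rk_lA : rk (lA g) = 0 := by simp [rk, lA]
theorem rk_lC : rk (lC g) = 2 := by simp [rk, lC]
theorem rk_lB : rk (lB g) = 1 := by simp [rk, lB]
theorem lA_ne_lB : lA g ≠ lB g := by simp [lA, lB]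
theorem lC_ne_lB : lC g ≠ lB g := by simp [lC, lB]
theorem lA_ne_lC : lA g ≠ lC g := by simp [lA, lC]
theorem inv_lA : TorM.inv (lA g) = lC g := rfl
theorem inv_lC : TorM.inv (lC g) = lA g := rfl

/-- `a_0` -/
def aa : F g := le (lA g)

theorem le_lC : (le (lC g) : F g) = aa⁻¹ := by
  rw [← inv_lA, le_inv]
  rfl

theorem t0_inv : (t0 : F g)⁻¹ = le (lB g) := by
  have h : (le (TorM.inv (lB g)) : F g) = (le (lB g))⁻¹ := le_inv _
  have h2 : (le (TorM.inv (lB g)) : F g) = t0 := rfl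
  rw [← h2, h, _root_.inv_inv]

theorem ph_lB : ph (le (lB g) : F g) = -1 := by
  rw [← t0_inv, ph_inv, ph_t0]

theorem ph_aa : ph (aa : F g) = 0 := by
  have h : (aa : F g) = FreeGroup.of (Sum.inl 0) := rfl
  unfold ph
  rw [h, abv_of, Pi.single_apply, if_neg (by simp)]

theorem aa_ne_one : (aa : F g) ≠ 1 := by
  intro h
  have h1 := le_toWord (lA g)
  have h2 : (aa : F g).toWord = [] := by rw [h, FreeGroup.toWord_one]
  exact absurd (h1.symm.trans h2) (by simp)

theorem mk_replicate (l : Ltr g) (n : ℕ) : (FreeGroup.mk (List.replicate n l) : F g) = le l ^ n := by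
  induction n with
  | zero => rfl
  | succ n ih =>
    rw [List.replicate_succ, pow_succ', ← ih, FreeGroup.mul_mk]
    rfl

theorem toWord_pow (l : Ltr g) (n : ℕ) : (le l ^ n : F g).toWord = List.replicate n l := by
  rw [← mk_replicate, exita_toWord_mk]
  unfold FreeGroup.IsReduced
  induction n with
  | zero => exact List.IsChain.nil
  | succ n ih =>
    rcases n with _ | n
    · exact List.IsChain.singleton _
    · exact List.IsChain.cons_cons (fun _ => rfl) ih

theorem pref_pow (l : Ltr g) {n m : ℕ} (h : n ≤ m) : List.replicate n l <+: (le l ^ m : F g).toWord := by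
  rw [toWord_pow]
  refine ⟨List.replicate (m - n) l, ?_⟩
  rw [← List.replicate_add]
  congr 1
  omega

theorem npref_pow (l : Ltr g) {n m : ℕ} (h : m < n) : ¬ List.replicate n l <+: (le l ^ m : F g).toWord := by
  intro h1
  have := h1.length_le
  rw [toWord_pow, List.length_replicate, List.length_replicate] at this
  omega

theorem aa_up (n : ℕ) : (aa : F g) ^ n < aa ^ (n + 1) := by
  have h0 : (aa : F g) < aa ^ 2 := by
    have h1 : ¬ (le (lA g) * le (lA g) : F g) < le (lA g) := by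
      rw [le_mul_lt (by rw [inv_lA]; exact lA_ne_lC), inv_lA, rk_lA]
      omega
    have h2 : (aa : F g) ≠ aa ^ 2 := by
      intro h
      rw [pow_two] at h
      exact aa_ne_one (by simpa using h.symm)
    rw [pow_two] at h2 ⊢
    exact lt_of_le_of_ne (not_lt.1 h1) h2
  induction n with
  | zero =>
    rw [pow_zero, zero_add, pow_one]
    exact one_lt aa_ne_one
  | succ n ih =>
    have h1 : ¬ (aa : F g) ^ (n + 2) < aa ^ n := by
      have h2 := lt_iff_of_prefix (pref_pow (lA g) (n := n + 1) (m := n + 1) le_rfl)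
        (pref_pow (lA g) (n := n + 1) (m := n + 2) (by omega)) (npref_pow (lA g) (n := n + 1) (m := n) (by omega))
      have h3 : ¬ (le (lA g) : F g) ^ (n + 1) < le (lA g) ^ n := not_lt.2 ih.le
      exact fun hh => h3 (h2.2 hh)
    have h2 : Cyc (aa ^ n * 1 : F g) (aa ^ n * aa) (aa ^ n * aa ^ 2) := by
      rw [cyc_mul]
      left
      exact ⟨one_lt aa_ne_one, h0⟩
    rw [mul_one, ← pow_succ, ← pow_add] at h2
    unfold Cyc at h2
    rcases h2 with h2 | h2 | h2
    · exact h2.2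
    · exact absurd h2.2 h1
    · exact absurd h2.1 h1

theorem cc_down (n : ℕ) : ((aa : F g)⁻¹) ^ (n + 2) < (aa⁻¹) ^ (n + 1) := by
  rw [← le_lC]
  have h0 : (le (lC g) : F g) ^ 2 < le (lC g) := by
    rw [pow_two, le_mul_lt (by rw [inv_lC]; exact lA_ne_lC.symm), inv_lC, rk_lA, rk_lC]
    omega
  have hne : (le (lC g) : F g) ≠ 1 := by
    rw [le_lC]
    exact inv_ne_one.2 aa_ne_one
  induction n with
  | zero =>
    rw [zero_add, zero_add, pow_one]
    exact h0
  | succ n ih =>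
    have h1 : (le (lC g) : F g) ^ (n + 3) < le (lC g) ^ (n + 1) := by
      have h2 := lt_iff_of_prefix (pref_pow (lC g) (n := n + 2) (m := n + 2) le_rfl)
        (pref_pow (lC g) (n := n + 2) (m := n + 3) (by omega)) (npref_pow (lC g) (n := n + 2) (m := n + 1) (by omega))
      exact h2.1 ih
    have h2 : Cyc (le (lC g) ^ (n + 1) * 1 : F g) (le (lC g) ^ (n + 1) * le (lC g) ^ 2)
        (le (lC g) ^ (n + 1) * le (lC g)) := by
      rw [cyc_mul]
      left
      refine ⟨one_lt ?_, h0⟩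
      intro h
      have h3 := congrArg FreeGroup.toWord h
      rw [toWord_pow, FreeGroup.toWord_one] at h3
      simp [List.replicate_succ] at h3
    rw [mul_one, ← pow_succ, ← pow_add] at h2
    unfold Cyc at h2
    rcases h2 with h2 | h2 | h2
    · exact absurd h2.1 (not_lt.2 h1.le)
    · exact h2.1
    · exact absurd h2.2 (not_lt.2 h1.le)

/-- block property: compare with a letter -/
theorem pow_lt_letter {l m : Ltr g} (h : l ≠ m) (n : ℕ) : (le l : F g) ^ (n + 1) < le m ↔ rk l < rk m := by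
  rw [← le_lt_le (g := g) h]
  have h1 := lt_iff_of_prefix (p := [l]) (x := (le l : F g) ^ (n + 1)) (y := le l) (z := le m)
    (by rw [toWord_pow]; exact ⟨List.replicate n l, rfl⟩) (by rw [le_toWord]) (by
      rw [le_toWord]
      intro hh
      rw [List.cons_prefix_cons] at hh
      exact h hh.1)
  exact h1

theorem aa_lt_cc (n m : ℕ) : (aa : F g) ^ (n + 1) < (aa⁻¹) ^ (m + 1) := by
  have h1 : (aa : F g) ^ (n + 1) < le (lB g) := (pow_lt_letter lA_ne_lB n).2 (by rw [rk_lA, rk_lB]; omega)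
  have h2 : ¬ (le (lC g) : F g) ^ (m + 1) < le (lB g) := by
    rw [pow_lt_letter lC_ne_lB m, rk_lB, rk_lC]
    omega
  rw [le_lC] at h2
  exact lt_of_lt_of_le h1 (not_lt.1 h2)

/-- the points below the curve `a_0` -/
def B0 (g : ℕ) [NeZero g] : Set (F g) := {x | ∀ n : ℕ, aa ^ (n + 1) < x ∧ x < (aa⁻¹) ^ (n + 1)}

/-- the points above the curve `a_0` -/
def D0 (g : ℕ) [NeZero g] : Set (F g) := (B0 g)ᶜ

theorem bb_mem : (le (lB g) : F g) ∈ B0 g := by
  intro n
  constructor
  · exact (pow_lt_letter lA_ne_lB n).2 (by rw [rk_lA, rk_lB]; omega)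
  · have h2 : ¬ (le (lC g) : F g) ^ (n + 1) < le (lB g) := by
      rw [pow_lt_letter lC_ne_lB n, rk_lB, rk_lC]
      omega
    rw [le_lC] at h2
    refine lt_of_le_of_ne (not_lt.1 h2) ?_
    intro h
    have h3 := congrArg FreeGroup.toWord h
    rw [← le_lC, toWord_pow, le_toWord] at h3
    have h4 := congrArg List.head? h3
    simp [List.replicate_succ, lB, lC] at h4

theorem aa_mul_mem {x : F g} (hx : x ∈ B0 g) : aa * x ∈ B0 g := by
  have key : ∀ n m : ℕ, aa ^ (n + 2) < aa * x ∧ aa * x < (aa⁻¹) ^ (m + 1) := by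
    intro n m
    have h1 : Cyc (aa * aa ^ (n + 1)) (aa * x) (aa * (aa⁻¹) ^ (m + 2)) := by
      rw [cyc_mul]
      exact Or.inl ⟨(hx n).1, (hx (m + 1)).2⟩
    have e1 : (aa : F g) * aa ^ (n + 1) = aa ^ (n + 2) := (pow_succ' _ _).symm
    have e2 : (aa : F g) * (aa⁻¹) ^ (m + 2) = (aa⁻¹) ^ (m + 1) := by
      rw [pow_succ' _ (m + 1), mul_inv_cancel_left]
    rw [e1, e2] at h1
    have h2 := aa_lt_cc (g := g) (n + 1) m
    unfold Cyc at h1
    rcases h1 with h1 | h1 | h1
    · exact h1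
    · exact absurd h2 (not_lt.2 h1.2.le)
    · exact absurd h2 (not_lt.2 h1.1.le)
  intro n
  refine ⟨?_, (key 0 n).2⟩
  rcases n with _ | n
  · rw [zero_add, pow_one]
    have := aa_up (g := g) 1
    rw [pow_one] at this
    exact this.trans (key 0 0).1
  · exact (key n 0).1

theorem cc_mul_mem {x : F g} (hx : x ∈ B0 g) : aa⁻¹ * x ∈ B0 g := by
  have key : ∀ n m : ℕ, aa ^ (n + 1) < aa⁻¹ * x ∧ aa⁻¹ * x < (aa⁻¹) ^ (m + 2) := by
    intro n m
    have h1 : Cyc (aa⁻¹ * aa ^ (n + 2)) (aa⁻¹ * x) (aa⁻¹ * (aa⁻¹) ^ (m + 1)) := by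
      rw [cyc_mul]
      exact Or.inl ⟨(hx (n + 1)).1, (hx m).2⟩
    have e1 : (aa : F g)⁻¹ * aa ^ (n + 2) = aa ^ (n + 1) := by
      rw [pow_succ' _ (n + 1), inv_mul_cancel_left]
    have e2 : (aa : F g)⁻¹ * (aa⁻¹) ^ (m + 1) = (aa⁻¹) ^ (m + 2) := (pow_succ' _ _).symm
    rw [e1, e2] at h1
    have h2 := aa_lt_cc (g := g) n (m + 1)
    unfold Cyc at h1
    rcases h1 with h1 | h1 | h1
    · exact h1
    · exact absurd h2 (not_lt.2 h1.2.le)
    · exact absurd h2 (not_lt.2 h1.1.le)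
  intro n
  exact ⟨(key n 0).1, (key 0 n).2.trans (cc_down n)⟩

theorem aa_st : (aa : F g) ∈ stD (B0 g) := by
  rw [mem_stD]
  ext x
  rw [mem_tr]
  constructor
  · intro h
    have := aa_mul_mem h
    rwa [mul_inv_cancel_left] at this
  · exact cc_mul_mem

theorem aa_st' (k : ℤ) : (aa : F g) ^ k ∈ stD (D0 g) := by
  unfold D0
  rw [stD_compl]
  exact (stD (B0 g)).zpow_mem aa_st k

theorem one_notMem_B0 : (1 : F g) ∉ B0 g := by
  intro h
  have := (h 0).1
  exact absurd this (not_lt.2 (one_le _))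

theorem one_mem_D0 : (1 : F g) ∈ D0 g := one_notMem_B0

theorem B0_cvx : Cvx (B0 g) := by
  intro a ha b hb c hc d hd hcr
  have key : ∀ c : F g, c ∉ B0 g → (c < a ∧ c < b) ∨ (a < c ∧ b < c) := by
    intro c hc
    have : ∃ n : ℕ, ¬ (aa ^ (n + 1) < c ∧ c < (aa⁻¹) ^ (n + 1)) := by
      by_contra hcon
      push Not at hcon
      exact hc hcon
    obtain ⟨n, hn⟩ := this
    rw [not_and_or, not_lt, not_lt] at hn
    rcases hn with hn | hn
    · exact Or.inl ⟨lt_of_le_of_lt hn (ha n).1, lt_of_le_of_lt hn (hb n).1⟩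
    · exact Or.inr ⟨lt_of_lt_of_le (ha n).2 hn, lt_of_lt_of_le (hb n).2 hn⟩
  have h1 := key c hc
  have h2 := key d hd
  unfold Cr Cyc at hcr
  grind

theorem D0_cvx : Cvx (D0 g) := B0_cvx.compl

theorem letter_nocr (z : F g) (l m : Ltr g) (x : F g) : ¬ Cr z (z * le l) x (x * le m) := by
  intro h
  have h1 := U_letter l m (z⁻¹ * x)
  apply h1
  rw [← cr_mul z, mul_one, mul_inv_cancel_left, ← mul_assoc z (z⁻¹ * x), mul_inv_cancel_left]
  exact h

/-- the edges of `B0` -/
theorem B0_edge {x : F g} {l : Ltr g} (hx : x ∉ B0 g) (hy : x * le l ∈ B0 g) :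
    (∃ k : ℤ, x = aa ^ k) ∧ l = lB g := by
  have hex : ∃ n : ℕ, ¬ (aa ^ (n + 1) < x ∧ x < (aa⁻¹) ^ (n + 1)) := by
    by_contra hcon
    push Not at hcon
    exact hx hcon
  have h1 : ∃ k : ℤ, x = aa ^ k := by
    classical
    have hn := Nat.find_spec hex
    have hmin : ∀ m < Nat.find hex, aa ^ (m + 1) < x ∧ x < (aa⁻¹) ^ (m + 1) := fun m hm =>
      not_not.1 (Nat.find_min hex hm)
    generalize Nat.find hex = n at hn hmin
    rw [not_and_or, not_lt, not_lt] at hn
    rcases hn with hn | hn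
    · -- `aa ^ n ≤ x ≤ aa ^ (n + 1)`
      have h2 : aa ^ n ≤ x := by
        rcases n with _ | n
        · rw [pow_zero]
          exact one_le x
        · exact (hmin n (by omega)).1.le
      rcases hn.eq_or_lt with h3 | h3
      · exact ⟨(n + 1 : ℕ), by rw [h3, zpow_natCast]⟩
      rcases h2.eq_or_lt with h4 | h4
      · exact ⟨(n : ℕ), by rw [← h4, zpow_natCast]⟩
      exfalso
      refine letter_nocr (aa ^ n) (lA g) l x ?_
      have h5 : (aa : F g) ^ n * le (lA g) = aa ^ (n + 1) := (pow_succ _ _).symm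
      rw [h5]
      have h6 := (hy n).1
      left
      unfold Cyc
      exact ⟨Or.inl ⟨h4, h3⟩, Or.inr (Or.inr ⟨h4.trans (h3), h6⟩)⟩
    · rcases hn.eq_or_lt with h3 | h3
      · refine ⟨-(n + 1 : ℕ), ?_⟩
        rw [← h3, zpow_neg, zpow_natCast, inv_pow]
      exfalso
      rcases n with _ | n
      · rw [zero_add, pow_one] at h3
        refine letter_nocr (1 : F g) (lC g) l x ?_
        rw [one_mul, le_lC]
        have h6 := (hy 0).2
        have h7 := (hy 0).1
        rw [zero_add, pow_one] at h6 h7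
        have h8 : (1 : F g) < x * le l := (one_lt aa_ne_one).trans h7
        right
        unfold Cyc
        exact ⟨Or.inl ⟨h8, h6⟩, Or.inr (Or.inr ⟨one_lt (inv_ne_one.2 aa_ne_one), h3⟩)⟩
      · have h2 : x < (aa⁻¹) ^ (n + 1) := (hmin n (by omega)).2
        refine letter_nocr ((aa⁻¹) ^ (n + 1)) (lC g) l x ?_
        have h5 : ((aa : F g)⁻¹) ^ (n + 1) * le (lC g) = (aa⁻¹) ^ (n + 2) := by
          rw [le_lC, ← pow_succ]
        rw [h5]
        have h6 := (hy (n + 1)).2
        right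
        unfold Cyc
        refine ⟨Or.inr (Or.inl ⟨h6, cc_down n⟩), Or.inl ⟨h3, h2⟩⟩
  refine ⟨h1, ?_⟩
  obtain ⟨k, rfl⟩ := h1
  have h2 : (le l : F g) ∈ B0 g := by
    have h3 : (aa : F g) ^ k ∈ stD (B0 g) := (stD (B0 g)).zpow_mem aa_st k
    exact (mul_mem_iff h3).1 hy
  have h3 := h2 0
  rw [zero_add, pow_one, pow_one, ← le_lC] at h3
  have n1 : lA g ≠ l := by
    rintro rfl
    exact lt_irrefl _ h3.1
  have n2 : l ≠ lC g := by
    rintro rfl
    exact lt_irrefl _ h3.2
  have h4 : rk (lA g) < rk l := (le_lt_le n1).1 h3.1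
  have h5 : rk l < rk (lC g) := (le_lt_le n2).1 h3.2
  rw [rk_lA] at h4
  rw [rk_lC] at h5
  apply rk_injective
  rw [rk_lB]
  omega

end TorL
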