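import Mathlib
import Pool.Agent.Lib.MP_05cdf2_gt.L.Ax

/-! MP_05cdf2_gt, stream L (helper49): the base half space `bs` and the axioms `base`, `arch`.

The lines of `bs` are the `K`-translates of `D0`; its level is `-1`. -/

set_option autoImplicit false
set_option linter.unusedSectionVars false

namespace TorL
open TorM TorG

variable {g : ℕ} [NeZero g]

/-- an edge of a translate of `D0` determines the translate -/
theorem D0_edge {h x : F g} {l : Ltr g} (hx : ¬ (x ∈ tr h (D0 g) ↔ x * le l ∈ tr h (D0 g))) :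
    (l = lB g ∧ tr h (D0 g) = tr x (D0 g)) ∨
      (l = TorM.inv (lB g) ∧ tr h (D0 g) = tr (x * le l) (D0 g)) := by
  have key : ∀ (x : F g) (l : Ltr g), x ∈ tr h (D0 g) → x * le l ∉ tr h (D0 g) →
      l = lB g ∧ tr h (D0 g) = tr x (D0 g) := by
    intro x l h1 h2
    rw [mem_tr] at h1 h2
    have h3 : h⁻¹ * x * le l ∈ B0 g := by
      rw [← mul_assoc] at h2
      exact not_not.1 h2
    obtain ⟨⟨k, hk⟩, hl⟩ := B0_edge h1 h3
    refine ⟨hl, ?_⟩
    have e : x = h * aa ^ k := by rw [← hk, mul_inv_cancel_left]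
    rw [e, ← tr_tr, mem_stD.1 (aa_st' k)]
  by_cases h1 : x ∈ tr h (D0 g)
  · left
    exact key x l h1 fun h2 => hx (iff_of_true h1 h2)
  · have h2 : x * le l ∈ tr h (D0 g) := by
      by_contra h2
      exact hx (iff_of_false h1 h2)
    right
    have h3 := key (x * le l) (TorM.inv l) h2 (by
      rw [le_inv, mul_inv_cancel_right]
      exact h1)
    exact ⟨by rw [← h3.1, TorM.inv_inv], h3.2⟩

/-- the edges of translates -/
theorem D0_self (h : F g) : h ∈ tr h (D0 g) ∧ h * le (lB g) ∉ tr h (D0 g) := by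
  constructor
  · rw [mem_tr, inv_mul_cancel]
    exact one_mem_D0
  · rw [mem_tr, inv_mul_cancel_left]
    exact fun hh => hh bb_mem

/-- a set without edges is empty or everything -/
theorem no_edge {Z : Set (F g)} (h : ∀ z ∈ Z, ∀ l : Ltr g, z * le l ∈ Z) {x : F g} (hx : x ∉ Z) (z : F g) :
    z ∉ Z := by
  intro hz
  have key : ∀ (L : List (Ltr g)) (z : F g), z ∈ Z → z * FreeGroup.mk L ∈ Z := by
    intro L
    induction L with
    | nil =>
      intro z hz
      have : (FreeGroup.mk [] : F g) = 1 := rfl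
      rwa [this, mul_one]
    | cons l L ih =>
      intro z hz
      have h1 : (FreeGroup.mk (l :: L) : F g) = le l * FreeGroup.mk L := by
        rw [le, FreeGroup.mul_mk]
        rfl
      rw [h1, ← mul_assoc]
      exact ih _ (h z hz l)
  have h1 := key (z⁻¹ * x).toWord z hz
  rw [FreeGroup.mk_toWord, mul_inv_cancel_left] at h1
  exact hx h1

/-- a set does not separate the powers of `aa` if it has no `aa`-edges -/
theorem pow_mem_iff {A : Set (F g)} (hA : ∀ x : F g, x ∈ A ↔ x * aa ∈ A) (x : F g) (k : ℤ) :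
    x ∈ A ↔ x * aa ^ k ∈ A := by
  induction k using Int.induction_on with
  | zero => rw [zpow_zero, mul_one]
  | succ n ih => rw [zpow_add_one, ← mul_assoc, ← hA, ih]
  | pred n ih =>
    rw [ih]
    have := hA (x * aa ^ (-(n : ℤ) - 1))
    rw [mul_assoc, ← zpow_add_one, sub_add_cancel] at this
    exact this.symm

theorem D0_aa (h x : F g) : x ∈ tr h (D0 g) ↔ x * aa ∈ tr h (D0 g) := by
  by_contra hcon
  rcases D0_edge (l := lA g) hcon with h1 | h1
  · exact lA_ne_lB h1.1
  · have := h1.1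
    simp [lA, lB, TorM.inv] at this

theorem D0_nst (h : F g) : Nst (tr h (D0 g)) (D0 g) := by
  by_cases hne : tr h (D0 g) = D0 g
  · exact Or.inl hne.subset
  -- the edges of `D0` are on one side of `A`, and conversely
  have c1 : ∀ k : ℤ, (1 ∈ tr h (D0 g) ↔ aa ^ k ∈ tr h (D0 g)) ∧
      (1 ∈ tr h (D0 g) ↔ aa ^ k * le (lB g) ∈ tr h (D0 g)) := by
    intro k
    have h1 := pow_mem_iff (D0_aa h) 1 k
    rw [one_mul] at h1
    refine ⟨h1, h1.trans ?_⟩
    by_contra hcon
    rcases D0_edge hcon with h2 | h2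
    · rw [mem_stD.1 (aa_st' k)] at h2
      exact hne h2.2
    · have := h2.1
      simp [lB, TorM.inv] at this
  have c2 : ∀ k : ℤ, (h ∈ D0 g ↔ h * aa ^ k ∈ D0 g) ∧ (h ∈ D0 g ↔ h * aa ^ k * le (lB g) ∈ D0 g) := by
    intro k
    have h1 := pow_mem_iff (D0_aa 1) h k
    rw [tr_one] at h1
    refine ⟨h1, h1.trans ?_⟩
    by_contra hcon
    have hcon' : ¬ (h * aa ^ k ∈ tr 1 (D0 g) ↔ h * aa ^ k * le (lB g) ∈ tr 1 (D0 g)) := by
      rwa [tr_one]
    rcases D0_edge hcon' with h2 | h2
    · rw [tr_one, ← tr_tr, mem_stD.1 (aa_st' k)] at h2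
      exact hne h2.2.symm
    · have := h2.1
      simp [lB, TorM.inv] at this
  -- the corner which contains no edges
  let Z : Set (F g) := {z | (z ∈ D0 g ↔ h ∉ D0 g) ∧ (z ∈ tr h (D0 g) ↔ 1 ∉ tr h (D0 g))}
  have hZ : ∀ z ∈ Z, ∀ l : Ltr g, z * le l ∈ Z := by
    intro z hz l
    have h1 : z ∈ D0 g ↔ z * le l ∈ D0 g := by
      by_contra hcon
      have hcon' : ¬ (z ∈ tr 1 (D0 g) ↔ z * le l ∈ tr 1 (D0 g)) := by rwa [tr_one]
      -- `z` is an end of an edge of `D0`
      have h2 : ∃ k : ℤ, z = aa ^ k ∨ z = aa ^ k * le (lB g) := by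
        by_cases hzD : z ∈ D0 g
        · have h3 : z * le l ∈ B0 g := by
            by_contra h3
            exact hcon (iff_of_true hzD h3)
          obtain ⟨⟨k, hk⟩, -⟩ := B0_edge hzD h3
          exact ⟨k, Or.inl hk⟩
        · have h3 : z * le l ∉ B0 g := by
            intro h3
            exact hcon (iff_of_false hzD fun hh => hh h3)
          have h4 : z * le l * le (TorM.inv l) ∈ B0 g := by
            rw [le_inv, mul_inv_cancel_right]
            exact not_not.1 hzD
          obtain ⟨⟨k, hk⟩, hl⟩ := B0_edge h3 h4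
          refine ⟨k, Or.inr ?_⟩
          rw [← hk, ← hl, le_inv, mul_inv_cancel_right]
      obtain ⟨k, rfl | rfl⟩ := h2
      · exact iff_not_self ((c1 k).1.trans hz.2)
      · exact iff_not_self ((c1 k).2.trans hz.2)
    have h2 : z ∈ tr h (D0 g) ↔ z * le l ∈ tr h (D0 g) := by
      by_contra hcon
      have h3 : ∃ k : ℤ, z = h * aa ^ k ∨ z = h * aa ^ k * le (lB g) := by
        have hcon' : ¬ (h⁻¹ * z ∈ D0 g ↔ h⁻¹ * z * le l ∈ D0 g) := by
          rw [mem_tr, mem_tr, ← mul_assoc] at hcon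
          exact hcon
        by_cases hzD : h⁻¹ * z ∈ D0 g
        · have h3 : h⁻¹ * z * le l ∈ B0 g := by
            by_contra h3
            exact hcon' (iff_of_true hzD h3)
          obtain ⟨⟨k, hk⟩, -⟩ := B0_edge hzD h3
          exact ⟨k, Or.inl (by rw [← hk, mul_inv_cancel_left])⟩
        · have h3 : h⁻¹ * z * le l ∉ B0 g := by
            intro h3
            exact hcon' (iff_of_false hzD fun hh => hh h3)
          have h4 : h⁻¹ * z * le l * le (TorM.inv l) ∈ B0 g := by
            rw [le_inv, mul_inv_cancel_right]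
            exact not_not.1 hzD
          obtain ⟨⟨k, hk⟩, hl⟩ := B0_edge h3 h4
          refine ⟨k, Or.inr ?_⟩
          rw [← hk, ← hl, le_inv]
          group
      obtain ⟨k, rfl | rfl⟩ := h3
      · exact iff_not_self ((c2 k).1.trans hz.1)
      · exact iff_not_self ((c2 k).2.trans hz.1)
    exact ⟨h1.symm.trans hz.1, h2.symm.trans hz.2⟩
  have hZ1 : (1 : F g) ∉ Z := by
    rintro ⟨-, h2⟩
    tauto
  have hZ2 := no_edge hZ hZ1
  by_cases e1 : h ∈ D0 g <;> by_cases e2 : (1 : F g) ∈ tr h (D0 g)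
  · right; right; right
    intro z
    by_contra hcon
    push Not at hcon
    exact hZ2 z ⟨iff_of_false hcon.2 (fun hh => hh e1), iff_of_false hcon.1 (fun hh => hh e2)⟩
  · left
    intro z hz
    by_contra hcon
    exact hZ2 z ⟨iff_of_false hcon (fun hh => hh e1), iff_of_true hz e2⟩
  · right; left
    intro z hz
    by_contra hcon
    exact hZ2 z ⟨iff_of_true hz e1, iff_of_false hcon (fun hh => hh e2)⟩
  · right; right; left
    rintro z ⟨h1, h2⟩
    exact hZ2 z ⟨iff_of_true h2 e1, iff_of_true h1 e2⟩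

theorem D0_nst' (h k : F g) : Nst (tr h (D0 g)) (tr k (D0 g)) := by
  have h1 := nst_mp (lt k) (D0_nst (k⁻¹ * h))
  rw [mp_lt, mp_lt, tr_tr, mul_inv_cancel_left] at h1
  exact h1

/-- a boundary chord crosses its translates -/
theorem zeta_of_cvx {D : Set (F g)} (hD : Cvx D) {γ : F g} (hγ : γ ∈ stD D) (h1 : γ ≠ 1) (x : F g) :
    x * zeta g ∈ D ↔ x ∈ D := by
  by_contra hcon
  have hm1 : γ * x ∈ D ↔ x ∈ D := mul_mem_iff hγ
  have hm2 : γ * (x * zeta g) ∈ D ↔ x * zeta g ∈ D := mul_mem_iff hγ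
  have hg : 0 < g := Nat.pos_of_ne_zero (NeZero.ne g)
  have hz := zeta_ne_one hg
  have key : ∀ x y : F g, x ≠ y → x * zeta g ≠ y → Cyc x (x * zeta g) y := by
    intro x y hxy hxy2
    have h3 : Cyc (x⁻¹ * x) (x⁻¹ * (x * zeta g)) (x⁻¹ * y) := by
      have e1 : x⁻¹ * x = 1 := inv_mul_cancel x
      have e2 : x⁻¹ * (x * zeta g) = zeta g := by group
      rw [e1, e2]
      have h4 : x⁻¹ * y ≠ 1 := by
        intro hh
        apply hxy
        rw [inv_mul_eq_one] at hh
        exact hh
      have h5 : zeta g ≠ x⁻¹ * y := by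
        intro hh
        apply hxy2
        rw [hh, mul_inv_cancel_left]
      left
      exact ⟨one_lt hz, lt_of_le_of_ne (zeta_le h4) h5⟩
    rwa [cyc_mul] at h3
  have n1 : x ≠ γ * x := fun hh => h1 (by simpa using hh.symm)
  have n2 : x * zeta g ≠ γ * x := fun hh => hcon (by rw [hh, hm1])
  have n3 : γ * (x * zeta g) ≠ x := fun hh => hcon (by rw [← hm2, hh])
  have a1 := key x (γ * x) n1 n2
  have a2 := key (γ * x) x n1.symm (by rwa [mul_assoc])
  rw [mul_assoc] at a2
  have hcr : Cr x (γ * x) (x * zeta g) (γ * (x * zeta g)) := Or.inl ⟨a1, a2⟩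
  by_cases hx : x ∈ D
  · have hxz : x * zeta g ∉ D := fun hh => hcon (iff_of_true hh hx)
    exact hD x hx _ (hm1.2 hx) _ hxz _ (fun hh => hxz (hm2.1 hh)) hcr
  · have hxz : x * zeta g ∈ D := by
      by_contra hh
      exact hcon (iff_of_false hh hx)
    exact hD _ hxz _ (hm2.2 hxz) x hx _ (fun hh => hx (hm1.1 hh)) (cr_comm.1 hcr)

/-- the lines of the base half space -/
def L0 (g : ℕ) [NeZero g] : Set (Set (F g)) := orbK (D0 g)

/-- the translates of `D0` which separate two points -/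
theorem D0_fin (x : F g) (L : List (Ltr g)) :
    {A | (∃ h, A = tr h (D0 g)) ∧ ¬ (x ∈ A ↔ x * FreeGroup.mk L ∈ A)}.Finite := by
  induction L generalizing x with
  | nil =>
    refine Set.finite_empty.subset ?_
    rintro A ⟨-, h2⟩
    have : (FreeGroup.mk [] : F g) = 1 := rfl
    rw [this, mul_one] at h2
    exact absurd Iff.rfl h2
  | cons l L ih =>
    have h1 : (FreeGroup.mk (l :: L) : F g) = le l * FreeGroup.mk L := by
      rw [le, FreeGroup.mul_mk]
      rfl
    refine ((Set.toFinite ({tr x (D0 g), tr (x * le l) (D0 g)} : Set (Set (F g)))).union (ih (x * le l))).subset ?_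
    rintro A ⟨⟨h, rfl⟩, h2⟩
    rw [h1, ← mul_assoc] at h2
    by_cases h3 : x ∈ tr h (D0 g) ↔ x * le l ∈ tr h (D0 g)
    · exact Or.inr ⟨⟨h, rfl⟩, fun hh => h2 (h3.trans hh)⟩
    · left
      rcases D0_edge h3 with h4 | h4
      · exact Or.inl h4.2
      · exact Or.inr h4.2

theorem D0_fin' (x y : F g) : {A | (∃ h, A = tr h (D0 g)) ∧ ¬ (x ∈ A ↔ y ∈ A)}.Finite := by
  have := D0_fin x (x⁻¹ * y).toWord
  rwa [FreeGroup.mk_toWord, mul_inv_cancel_left] at this

theorem L0_fin : LFm (L0 g) := by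
  intro x y
  refine (D0_fin' x y).subset ?_
  rintro A ⟨⟨k, -, rfl⟩, h2⟩
  exact ⟨⟨k, rfl⟩, h2⟩

open Classical in
theorem L0_step (x : F g) (l : Ltr g) :
    ws (L0 g) (fun _ => (1 : ℤ)) x (x * le l) =
      (if ph x ≤ -1 then 1 else 0) - (if ph (x * le l) ≤ -1 then 1 else 0) := by
  have key : ∀ x : F g, ws (L0 g) (fun _ => (1 : ℤ)) x (x * le (lB g)) =
      (if ph x ≤ -1 then 1 else 0) - (if ph (x * le (lB g)) ≤ -1 then 1 else 0) := by
    intro x
    rw [ph_mul, ph_lB]
    by_cases h0 : ph x = 0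
    · have h1 : tr x (D0 g) ∈ L0 g := ⟨x, h0, rfl⟩
      have h2 := D0_self x
      rw [ws_single (D := tr x (D0 g)) _ h1, ch_neg_one h2.1 h2.2]
      · rw [h0]
        simp
      · rintro D' ⟨k, hk, rfl⟩ hne
        by_contra hcon
        rcases D0_edge hcon with h3 | h3
        · exact hne h3.2
        · have := h3.1
          simp [lB, TorM.inv] at this
    · rw [ws_zero]
      · by_cases h1 : ph x ≤ -1
        · rw [if_pos h1, if_pos (by omega)]
          simp
        · rw [if_neg h1, if_neg (by omega)]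
          simp
      · rintro D' ⟨k, hk, rfl⟩
        by_contra hcon
        rcases D0_edge hcon with h3 | h3
        · have h4 : x ∈ tr k (D0 g) ∧ x * le (lB g) ∉ tr k (D0 g) := by
            rw [h3.2]
            exact D0_self x
          have h5 : h0 = h0 := rfl
          have h6 : k⁻¹ * x ∈ D0 g := mem_tr.1 h4.1
          have h7 : k⁻¹ * x * le (lB g) ∈ B0 g := by
            have := h4.2
            rw [mem_tr, ← mul_assoc] at this
            exact not_not.1 this
          obtain ⟨⟨j, hj⟩, -⟩ := B0_edge h6 h7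
          apply h0
          have h8 : x = k * aa ^ j := by rw [← hj, mul_inv_cancel_left]
          rw [h8, ph_mul, hk, ph_zpow, ph_aa]
          ring
        · have := h3.1
          simp [lB, TorM.inv] at this
  by_cases h1 : l = lB g
  · subst h1
    exact key x
  by_cases h2 : l = TorM.inv (lB g)
  · have h3 := key (x * le l)
    rw [h2, le_inv, inv_mul_cancel_right] at h3
    rw [ws_symm, h2, le_inv, h3]
    ring
  · rw [ws_zero]
    · have h3 : ph (le l : F g) = 0 := by
        obtain ⟨i, b⟩ := l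
        have h4 : i ≠ Sum.inr 0 := by
          rintro rfl
          cases b
          · exact h1 rfl
          · exact h2 rfl
        cases b
        · have e : (le (i, false) : F g) = (FreeGroup.of i)⁻¹ := rfl
          unfold ph
          rw [e, abv_inv, abv_of, Pi.neg_apply, Pi.single_apply, if_neg (fun hh => h4 hh.symm), neg_zero]
        · have e : (le (i, true) : F g) = FreeGroup.of i := rfl
          unfold ph
          rw [e, abv_of, Pi.single_apply, if_neg (fun hh => h4 hh.symm)]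
      rw [ph_mul, h3, add_zero, sub_self]
    · rintro D' ⟨k, hk, rfl⟩
      by_contra hcon
      rcases D0_edge hcon with h3 | h3
      · exact h1 h3.1
      · exact h2 h3.1

open Classical in
theorem L0_count (x y : F g) :
    ws (L0 g) (fun _ => (1 : ℤ)) x y = (if ph x ≤ -1 then 1 else 0) - (if ph y ≤ -1 then 1 else 0) := by
  have key : ∀ (L : List (Ltr g)) (x : F g), ws (L0 g) (fun _ => (1 : ℤ)) x (x * FreeGroup.mk L) =
      (if ph x ≤ -1 then 1 else 0) - (if ph (x * FreeGroup.mk L) ≤ -1 then 1 else 0) := by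
    intro L
    induction L with
    | nil =>
      intro x
      have : (FreeGroup.mk [] : F g) = 1 := rfl
      rw [this, mul_one, sub_self]
      exact ws_zero _ fun _ _ => Iff.rfl
    | cons l L ih =>
      intro x
      have h1 : (FreeGroup.mk (l :: L) : F g) = le l * FreeGroup.mk L := by
        rw [le, FreeGroup.mul_mk]
        rfl
      rw [h1, ← mul_assoc, ← ws_add L0_fin _ x (x * le l), ih, L0_step]
      ring
  have := key (x⁻¹ * y).toWord x
  rwa [FreeGroup.mk_toWord, mul_inv_cancel_left] at this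

theorem L0_fam : LFam (-1) (L0 g) where
  cvx := by
    rintro D ⟨k, -, rfl⟩
    exact cvx_mp D0_cvx (lt k)
  nst := by
    rintro D ⟨k, -, rfl⟩ D' ⟨m, -, rfl⟩
    exact D0_nst' k m
  fin := L0_fin
  inv := by
    rintro k hk D ⟨m, hm, rfl⟩
    exact ⟨k * m, by rw [ph_mul, hk, hm, add_zero], by rw [tr_tr]⟩
  zeta := by
    rintro D ⟨k, -, rfl⟩ x
    rw [mem_tr, mem_tr, ← mul_assoc]
    have h1 : (aa : F g) ∈ stD (D0 g) := by
      have := aa_st' (g := g) 1
      rwa [zpow_one] at this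
    exact zeta_of_cvx D0_cvx h1 aa_ne_one _
  bd := by
    refine ⟨-1, 0, ?_⟩
    rintro D ⟨k, hk, rfl⟩ x l hx
    have key : ∀ (x : F g) (l : Ltr g), x ∈ tr k (D0 g) → x * le l ∉ tr k (D0 g) → ph x = 0 ∧ ph (x * le l) = -1 := by
      intro x l h1 h2
      have h6 : k⁻¹ * x ∈ D0 g := mem_tr.1 h1
      have h7 : k⁻¹ * x * le l ∈ B0 g := by
        rw [mem_tr, ← mul_assoc] at h2
        exact not_not.1 h2
      obtain ⟨⟨j, hj⟩, hl⟩ := B0_edge h6 h7
      have h8 : x = k * aa ^ j := by rw [← hj, mul_inv_cancel_left]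
      have h9 : ph x = 0 := by
        rw [h8, ph_mul, hk, ph_zpow, ph_aa]
        ring
      refine ⟨h9, ?_⟩
      rw [ph_mul, h9, hl, ph_lB]
      ring
    by_cases h1 : x ∈ tr k (D0 g)
    · have := key x l h1 fun h2 => hx (iff_of_true h1 h2)
      omega
    · have h2 : x * le l ∈ tr k (D0 g) := by
        by_contra h2
        exact hx (iff_of_false h1 h2)
      have := key (x * le l) (TorM.inv l) h2 (by rwa [le_inv, mul_inv_cancel_right])
      rw [le_inv, mul_inv_cancel_right] at this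
      omega
  sc := by
    intro x y hx hy
    by_contra hcon
    have h1 := L0_count x y
    rw [if_pos hx, if_neg (by omega), ws_zero] at h1
    · omega
    · intro D hD
      by_contra hh
      exact hcon ⟨D, hD, hh⟩
  red := by
    rintro D ⟨k, hk, rfl⟩
    have h2 := D0_self k
    refine ⟨k * le (lB g), k, h2.2, h2.1, ?_, ?_, ?_⟩
    · rw [ph_mul, hk, ph_lB]
      omega
    · rw [hk]
      omega
    · rintro D' ⟨m, hm, rfl⟩ hne
      by_contra hcon
      rcases D0_edge (x := k) (l := lB g) (h := m) (fun hh => hcon hh.symm) with h3 | h3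
      · exact hne h3.2
      · have := h3.1
        simp [lB, TorM.inv] at this

/-- the base half space -/
noncomputable def bs (g : ℕ) [NeZero g] : Hf g := ofL (L0_fam (g := g))

/-- a translate of `D0` does not separate related points if its axis is related and has another colour -/
theorem D0_sep {E : GP (F g)} {h x y : F g} (hax : ∀ k : ℤ, E.S h (h * aa ^ k)) (hxy : E.S x y)
    (hc : ¬ (h ∈ E.P ↔ x ∈ E.P)) : x ∈ tr h (D0 g) ↔ y ∈ tr h (D0 g) := by
  have hst : (aa : F g) ∈ stD (D0 g) := by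
    have := aa_st' (g := g) 1
    rwa [zpow_one] at this
  have hw : WCut (D0 g) := by
    refine ⟨⟨1, one_mem_D0⟩, ⟨le (lB g), fun hh => hh bb_mem⟩, D0_cvx, fun x => zeta_of_cvx D0_cvx hst aa_ne_one x, ?_⟩
    intro x y
    exact D0_fin' x y
  have hw' : WCut (tr h (D0 g)) := hw.translate h
  -- the stabiliser
  have hstab : ∀ k ∈ stD (D0 g), ∃ j : ℤ, k = aa ^ j := by
    intro k hk
    have h1 : k ∈ D0 g := by
      have := (mul_mem_iff hk (x := 1)).2 one_mem_D0
      rwa [mul_one] at this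
    have h2 : k * le (lB g) ∈ B0 g := by
      by_contra h2
      exact ((mul_mem_iff hk).1 h2 : (le (lB g) : F g) ∈ D0 g) bb_mem
    exact (B0_edge h1 h2).1
  have horb : OrbS E (tr h (D0 g)) h := by
    intro n
    have h1 : gn (tr h (D0 g)) ^ n ∈ stD (tr h (D0 g)) := pow_mem_stD (gn_spec hw').mem n
    rw [mem_stD_tr] at h1
    obtain ⟨j, hj⟩ := hstab _ h1
    have e : gn (tr h (D0 g)) ^ n * h = h * aa ^ j := by
      rw [← hj]
      group
    rw [e]
    exact hax j
  by_contra hcon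
  by_cases hx : x ∈ tr h (D0 g)
  · have hy : y ∉ tr h (D0 g) := fun hh => hcon (iff_of_true hx hh)
    have h1 := horb.cross hw' (GP.symm hxy) hy hx
    have h2 := GP.col h1
    have h3 := GP.col hxy
    exact hc (h2.trans h3.symm)
  · have hy : y ∈ tr h (D0 g) := by
      by_contra hh
      exact hcon (iff_of_false hx hh)
    have h1 := horb.cross hw' hxy hx hy
    exact hc (GP.col h1)

theorem bs_axis (h : F g) (k : ℤ) : (bs g).E.S h (h * aa ^ k) := by
  refine ⟨?_, ?_⟩
  · rw [ph_mul, ph_zpow, ph_aa, mul_zero, add_zero]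
  · rintro D ⟨m, hm, rfl⟩
    exact pow_mem_iff (D0_aa m) h k

theorem axis_rel {E : GP (F g)} (h : F g) (hE : ∀ k : ℤ, E.S (h * aa ^ k) (h * aa ^ k * aa)) (k : ℤ) :
    E.S h (h * aa ^ k) := by
  induction k using Int.induction_on with
  | zero =>
    rw [zpow_zero, mul_one]
    exact GP.refl h
  | succ n ih =>
    have := hE n
    rw [mul_assoc, ← zpow_add_one] at this
    exact GP.trans ih this
  | pred n ih =>
    have := hE (-(n : ℤ) - 1)
    rw [mul_assoc, ← zpow_add_one, sub_add_cancel] at this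
    exact GP.trans ih (GP.symm this)

/-- axiom `base` -/
theorem bs_le : bs g ≤ Hf.tIso g (bs g) := by
  refine ⟨?_, ?_⟩
  · intro x hx
    rw [(Hf.tIso g (bs g)).lev, J_tIso]
    have := ((bs g).lev x).1 hx
    omega
  · intro x y hx hxy
    have hx' := ((bs g).lev x).1 hx
    have hy' := ((bs g).lev y).1 ((GP.col hxy).1 hx)
    have hJ : (bs g).J = -1 := rfl
    show RL (-1) (L0 g) (t0⁻¹ * x) (t0⁻¹ * y)
    refine ⟨?_, ?_⟩
    · rw [ph_mul, ph_mul, ph_inv, ph_t0]
      exact iff_of_true (by omega) (by omega)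
    · rintro D ⟨k, hk, rfl⟩
      have h1 : x ∈ tr (t0 * k) (D0 g) ↔ y ∈ tr (t0 * k) (D0 g) := by
        refine D0_sep (fun j => bs_axis _ j) hxy ?_
        have h2 : t0 * k ∉ (bs g).E.P := by
          rw [(bs g).lev, ph_mul, ph_t0, hk]
          omega
        exact fun hh => h2 (hh.2 hx)
      rw [mem_tr, mem_tr] at h1 ⊢
      rw [mul_inv_rev, mul_assoc, mul_assoc] at h1
      exact h1

theorem le_bs (X : Hf g) : ∃ n : ℤ, ∀ k, n ≤ k → X ≤ (bs g).act (t0 ^ k) := by
  obtain ⟨N, hN⟩ := X.hi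
  refine ⟨max N (X.J + 1), fun k hk => ⟨?_, ?_⟩⟩
  · intro x hx
    rw [((bs g).act _).lev, Hf.act_J, ph_zpow, ph_t0]
    have hJ : (bs g).J = -1 := rfl
    have := (X.lev x).1 hx
    rw [max_le_iff] at hk
    omega
  · intro x y hx hxy
    rw [max_le_iff] at hk
    have hx' := (X.lev x).1 hx
    have hy' := (X.lev y).1 ((GP.col hxy).1 hx)
    show RL (-1) (L0 g) ((t0 ^ k)⁻¹ * x) ((t0 ^ k)⁻¹ * y)
    refine ⟨?_, ?_⟩
    · rw [ph_mul, ph_mul, ph_inv, ph_zpow, ph_t0]
      exact iff_of_true (by omega) (by omega)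
    · rintro D ⟨m, hm, rfl⟩
      have hlev : ph (t0 ^ k * m) = k := by
        rw [ph_mul, ph_zpow, ph_t0, hm]
        ring
      have h1 : x ∈ tr (t0 ^ k * m) (D0 g) ↔ y ∈ tr (t0 ^ k * m) (D0 g) := by
        refine D0_sep (axis_rel _ fun j => ?_) hxy ?_
        · have h3 : ph (t0 ^ k * m * aa ^ j) = k := by
            rw [ph_mul, hlev, ph_zpow, ph_aa]
            ring
          refine hN _ (lA g) (by rw [h3]; exact hk.1) ?_
          rw [ph_mul, h3]
          have : ph (le (lA g) : F g) = 0 := ph_aa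
          rw [this]
          omega
        · have h2 : t0 ^ k * m ∉ X.E.P := by
            rw [X.lev, hlev]
            omega
          exact fun hh => h2 (hh.2 hx)
      rw [mem_tr, mem_tr] at h1 ⊢
      rw [mul_inv_rev, mul_assoc, mul_assoc] at h1
      exact h1

theorem bs_ge (X : Hf g) : ∃ n : ℤ, ∀ k, k ≤ n → (bs g).act (t0 ^ k) ≤ X := by
  obtain ⟨N, hN⟩ := X.lo
  refine ⟨min N X.J, fun k hk => ?_⟩
  rw [le_min_iff] at hk
  have hJ : (bs g).J = -1 := rfl
  rw [Hf.le_iff, ← dual_le_iff]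
  refine ⟨?_, ?_⟩
  · rw [GP.dual_P, GP.dual_P, Set.compl_subset_compl]
    intro x hx
    rw [((bs g).act _).lev, Hf.act_J, ph_zpow, ph_t0] at hx
    rw [X.lev]
    omega
  · intro x y hx hxy
    have hx1 : x ∉ X.E.P := hx
    have hxy' : X.E.S x y := hxy
    have hy1 : y ∉ X.E.P := fun hh => hx1 ((GP.col hxy').2 hh)
    rw [X.lev] at hx1 hy1
    show RL (-1) (L0 g) ((t0 ^ k)⁻¹ * x) ((t0 ^ k)⁻¹ * y)
    refine ⟨?_, ?_⟩
    · rw [ph_mul, ph_mul, ph_inv, ph_zpow, ph_t0]
      exact iff_of_false (by omega) (by omega)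
    · rintro D ⟨m, hm, rfl⟩
      have hlev : ph (t0 ^ k * m) = k := by
        rw [ph_mul, ph_zpow, ph_t0, hm]
        ring
      have h1 : x ∈ tr (t0 ^ k * m) (D0 g) ↔ y ∈ tr (t0 ^ k * m) (D0 g) := by
        refine D0_sep (axis_rel _ fun j => ?_) hxy' ?_
        · have h3 : ph (t0 ^ k * m * aa ^ j) = k := by
            rw [ph_mul, hlev, ph_zpow, ph_aa]
            ring
          refine hN _ (lA g) (by rw [h3]; exact hk.1) ?_
          rw [ph_mul, h3]
          have : ph (le (lA g) : F g) = 0 := ph_aa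
          rw [this]
          omega
        · have h2 : t0 ^ k * m ∈ X.E.P := by
            rw [X.lev, hlev]
            omega
          exact fun hh => hx (hh.1 h2)
      rw [mem_tr, mem_tr] at h1 ⊢
      rw [mul_inv_rev, mul_assoc, mul_assoc] at h1
      exact h1

/-- axiom `arch` -/
theorem hf_arch (X Y : Hf g) : ∃ k : ℕ, X ≤ (Hf.tIso g ^ k) Y := by
  obtain ⟨n, hn⟩ := le_bs X
  obtain ⟨m, hm⟩ := bs_ge Y
  refine ⟨(max n m - m).toNat, ?_⟩
  have h1 := hn (max n m) (le_max_left _ _)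
  have h2 := hm m le_rfl
  have h3 : (Hf.tIso g ^ (max n m - m).toNat) Y = (Hf.tIso g ^ (max n m - m)) Y := by
    rw [← zpow_natCast, Int.toNat_of_nonneg (by have := le_max_right n m; omega)]
  rw [h3, Hf.tIso_zpow]
  refine h1.trans ?_
  have h4 : (bs g).act (t0 ^ (max n m)) = ((bs g).act (t0 ^ m)).act (t0 ^ (max n m - m)) := by
    rw [← Hf.act_mul, ← zpow_add, sub_add_cancel]
  rw [h4, Hf.act_le_iff]
  exact h2

end TorL
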