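import Mathlib
import Pool.Agent.Lib.MP_05cdf2_gt.L.Base

/-! MP_05cdf2_gt, stream L (helper49): relative complements (axiom `compl`).

`X ≤ Y ≤ Y' ≤ t X` with `fr Y ⊆ fr X ∪ fr Y'`: there is `Z` with `Y ⊓ Z = X`, `Y ⊔ Z = Y'`. Its lines are the lines of
`X` or `Y'` which are not lines of `Y`, and the common lines of `X` and `Y'`. -/

set_option autoImplicit false
set_option linter.unusedSectionVars false

namespace TorL
open TorM TorG

section ws
variable {α : Type}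

open Classical in
theorem ws_four {G : Type} [AddCommGroup G] {A B C D : Set (Set α)} (hA : LFm A) (hB : LFm B) (hC : LFm C)
    (hD : LFm D) (a : Set α → G)
    (h : ∀ S, (if S ∈ A then (1 : ℤ) else 0) + (if S ∈ B then 1 else 0) =
      (if S ∈ C then 1 else 0) + (if S ∈ D then 1 else 0)) (x y : α) :
    ws A a x y + ws B a x y = ws C a x y + ws D a x y := by
  unfold ws
  rw [← finsum_add_distrib (ws_supp hA a x y) (ws_supp hB a x y),
    ← finsum_add_distrib (ws_supp hC a x y) (ws_supp hD a x y)]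
  refine finsum_congr fun S => ?_
  have h1 := h S
  have key : ∀ (p : Prop) [Decidable p], (if p then ch S x y • a S else 0) =
      (if p then (1 : ℤ) else 0) • (ch S x y • a S) := by
    intro p _
    by_cases hp : p
    · rw [if_pos hp, if_pos hp, one_smul]
    · rw [if_neg hp, if_neg hp, zero_smul]
  rw [key (S ∈ A), key (S ∈ B), key (S ∈ C), key (S ∈ D), ← add_smul, ← add_smul, h1]

end ws

section gp
variable {α : Type} [LinearOrder α] {E : GP α}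

/-- the points adjacent outside a gap of the class of `x` belong to this class -/
theorem adj_gap (hE : LF E) {x y : α} (hxy : ¬ E.S x y) :
    ∃ k l, Adj E (gap E x y) k l ∧ E.S x k := by
  obtain ⟨k, l, h⟩ := exists_adj hE (gap_sat hxy)
  refine ⟨k, l, h, ?_⟩
  have h1 := h.eq_gap_of_mem hE (gap_sat hxy) (mem_gap_self hxy)
  exact gap_inj (notMem_gap (GP.refl x)) h.out rfl h1

theorem ln_gap (hE : LF E) {x y : α} (hx : x ∈ E.P) (hxy : ¬ E.S x y) : Ln E (gap E x y) := by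
  obtain ⟨k, l, h, hk⟩ := adj_gap hE hxy
  exact ⟨gap_sat hxy, k, l, h, (GP.col hk).1 hx⟩

/-- lines of the relative complement -/
def Lz (X Y Y' : GP α) : Set (Set α) := {D | ((Ln X D ∨ Ln Y' D) ∧ ¬ Ln Y D) ∨ (Ln X D ∧ Ln Y' D)}

theorem Lz_dual {X Y Y' : GP α} {D : Set α} : D ∈ Lz Y'.dual Y.dual X.dual ↔ Dᶜ ∈ Lz X Y Y' := by
  show ((Ln Y'.dual D ∨ Ln X.dual D) ∧ ¬ Ln Y.dual D) ∨ (Ln Y'.dual D ∧ Ln X.dual D) ↔
    ((Ln X Dᶜ ∨ Ln Y' Dᶜ) ∧ ¬ Ln Y Dᶜ) ∨ (Ln X Dᶜ ∧ Ln Y' Dᶜ)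
  rw [ln_dual, ln_dual, ln_dual]
  tauto

/-- colour of the relative complement -/
def Pz (X Y Y' : GP α) : Set α := {x | x ∈ X.P ∨ (x ∈ Y'.P ∧ x ∉ Y.P)}

/-- `x ∈ Pz` for the duals -/
theorem Pz_dual {X Y Y' : GP α} (h1 : X ≤ Y) (h2 : Y ≤ Y') {x : α} :
    x ∈ Pz Y'.dual Y.dual X.dual ↔ x ∉ Pz X Y Y' := by
  have a1 := @h1.1 x
  have a2 := @h2.1 x
  show (x ∉ Y'.P ∨ (x ∉ X.P ∧ ¬ (x ∉ Y.P))) ↔ ¬ (x ∈ X.P ∨ (x ∈ Y'.P ∧ x ∉ Y.P))
  tauto

end gp

variable {g : ℕ} [NeZero g]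
variable {X Y Y' : GP (F g)}

theorem red_A (hX : KG X) (hY : KG Y) (hY' : KG Y') (h1 : X ≤ Y) (h2 : Y ≤ Y')
    (hsub : ∀ D, Ln Y D → Ln X D ∨ Ln Y' D) {D : Set (F g)} (hD : Ln X D) (hnD : ¬ Ln Y D) :
    ∃ u v, u ∉ D ∧ v ∈ D ∧ u ∈ Pz X Y Y' ∧ v ∉ Pz X Y Y' ∧
      ∀ D' ∈ Lz X Y Y', D' ≠ D → (u ∈ D' ↔ v ∈ D') := by
  obtain ⟨k, l, hkl, hk, hl⟩ := hD.adj
  have f1 : ∀ D', Ln X D' → D' ≠ D → (k ∈ D' ↔ l ∈ D') := by
    intro D' hD' hne
    refine hkl.only hX.lf hD.1 hD'.1 hne ?_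
    rintro rfl
    exact ln_not hX.lf hD hD'
  -- only lines of `Y'` can separate
  have f2 : ∀ v, X.S l v → ∀ D' ∈ Lz X Y Y', D' ≠ D → ¬ (k ∈ D' ↔ v ∈ D') → Ln Y' D' ∧ ¬ Ln Y D' := by
    intro v hv D' hD' hne hs
    have h3 : ¬ Ln X D' := fun hh => hs ((f1 D' hh hne).trans (hh.1.sat _ _ hv))
    rcases hD' with ⟨h4, h5⟩ | ⟨h4, -⟩
    · exact ⟨h4.resolve_left h3, h5⟩
    · exact absurd h4 h3
  by_cases hkl' : Y.S k l
  · refine ⟨k, l, hkl.out, hkl.inn, Or.inl hk, ?_, ?_⟩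
    · rintro (h | ⟨-, h⟩)
      · exact hl h
      · exact h ((GP.col hkl').1 (h1.1 hk))
    · intro D' hD' hne
      by_contra hs
      have h3 := f2 l (GP.refl l) D' hD' hne hs
      exact hs (h3.1.1.sat _ _ (h2.2 _ _ (h1.1 hk) hkl'))
  · have hG := ln_gap hY.lf (h1.1 hk) hkl'
    obtain ⟨k', l', hkl2, hkk'⟩ := adj_gap hY.lf hkl'
    have hkG : k ∉ gap Y k l := notMem_gap (GP.refl k)
    have hlG : l ∈ gap Y k l := mem_gap_self hkl'
    have hnX : ¬ Ln X (gap Y k l) := by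
      intro hh
      by_cases he : gap Y k l = D
      · rw [he] at hG
        exact hnD hG
      · exact hkG ((f1 _ hh he).2 hlG)
    have hY'G := (hsub _ hG).resolve_left hnX
    obtain ⟨k1, l1, hkl1, hk1, hl1⟩ := hY'G.adj
    have hw := hY.wcut hG.1
    have hl1X : l1 ∉ X.P := fun hh => hl1 (h2.1 (h1.1 hh))
    have oX : OrbS X (gap Y k l) l1 := by
      intro n
      exact S_of_le' (h1.trans h2) hl1 (hY'.orb_inn hY'G.1 hkl1 n)
    have hll1 : X.S l l1 := by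
      by_contra hcon
      obtain ⟨n, m, hcr⟩ := cross_orbit hw hkl1.inn hlG hkG
      have hmem : cl X (gn (gap Y k l) ^ n * l1) ∈ Xs X k l := by
        refine ⟨_, _, rfl, oX.two n m, hcr, fun hh => ?_, fun hh => ?_⟩
        · exact hl1X ((GP.col (GP.trans (oX n) hh)).2 hk)
        · exact hcon (GP.symm (GP.trans (oX n) hh))
      rw [hkl.none] at hmem
      exact hmem
    refine ⟨k, l1, hkl.out, (hD.1.sat _ _ hll1).1 hkl.inn, Or.inl hk, ?_, ?_⟩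
    · rintro (h | ⟨h, -⟩)
      · exact hl1X h
      · exact hl1 h
    · intro D' hD' hne
      by_contra hs
      have h3 := f2 l1 hll1 D' hD' hne hs
      have h4 : k1 ∈ D' ↔ l1 ∈ D' := by
        refine hkl1.only hY'.lf hY'G.1 h3.1.1 ?_ ?_
        · rintro rfl
          exact h3.2 hG
        · rintro rfl
          exact ln_not hY'.lf hY'G h3.1
      have hk'P : k' ∈ Y.P := (GP.col hkk').1 (h1.1 hk)
      have h5 : Y'.S k k' := h2.2 _ _ (h1.1 hk) hkk'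
      have o1 : OrbS Y' (gap Y k l) k' := (hY.orb_out hG.1 hkl2).mono h2 hk'P
      have o2 : OrbS Y' (gap Y k l) k1 := hY'.orb_out hY'G.1 hkl1
      have h6 : Y'.S k' k1 := o1.same hw o2 (iff_of_false hkl2.out hkl1.out)
      exact hs ((h3.1.1.sat _ _ (GP.trans h5 h6)).trans h4)

theorem red_C (hX : KG X) (hY' : KG Y') (h1 : X ≤ Y) (h2 : Y ≤ Y')
    {D : Set (F g)} (hD : Ln X D) (hD' : Ln Y' D) :
    ∃ u v, u ∉ D ∧ v ∈ D ∧ u ∈ Pz X Y Y' ∧ v ∉ Pz X Y Y' ∧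
      ∀ D' ∈ Lz X Y Y', D' ≠ D → (u ∈ D' ↔ v ∈ D') := by
  obtain ⟨k, l, hkl, hk, hl⟩ := hD.adj
  obtain ⟨k', l', hkl', hk', hl'⟩ := hD'.adj
  have hw := hX.wcut hD.1
  have o1 : OrbS Y' D k := (hX.orb_out hD.1 hkl).mono (h1.trans h2) hk
  have hkk : Y'.S k k' := o1.same hw (hY'.orb_out hD'.1 hkl') (iff_of_false hkl.out hkl'.out)
  have o2 : OrbS X D l' := fun n => S_of_le' (h1.trans h2) hl' (hY'.orb_inn hD'.1 hkl' n)
  have hll : X.S l l' := (hX.orb_inn hD.1 hkl).same hw o2 (iff_of_true hkl.inn hkl'.inn)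
  refine ⟨k, l', hkl.out, hkl'.inn, Or.inl hk, ?_, ?_⟩
  · rintro (h | ⟨h, -⟩)
    · exact hl' (h2.1 (h1.1 h))
    · exact hl' h
  · intro D' hm hne
    have key : Ln X D' ∨ Ln Y' D' := by
      rcases hm with h | h
      · exact h.1
      · exact Or.inl h.1
    rcases key with h3 | h3
    · have h4 : k ∈ D' ↔ l ∈ D' := by
        refine hkl.only hX.lf hD.1 h3.1 hne ?_
        rintro rfl
        exact ln_not hX.lf hD h3
      exact h4.trans (h3.1.sat _ _ hll)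
    · have h4 : k' ∈ D' ↔ l' ∈ D' := by
        refine hkl'.only hY'.lf hD'.1 h3.1 hne ?_
        rintro rfl
        exact ln_not hY'.lf hD' h3
      exact (h3.1.sat _ _ hkk).trans h4

theorem red_all (hX : KG X) (hY : KG Y) (hY' : KG Y') (h1 : X ≤ Y) (h2 : Y ≤ Y')
    (hsub : ∀ D, Ln Y D → Ln X D ∨ Ln Y' D) {D : Set (F g)} (hD : D ∈ Lz X Y Y') :
    ∃ u v, u ∉ D ∧ v ∈ D ∧ u ∈ Pz X Y Y' ∧ v ∉ Pz X Y Y' ∧
      ∀ D' ∈ Lz X Y Y', D' ≠ D → (u ∈ D' ↔ v ∈ D') := by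
  rcases hD with ⟨h3 | h3, h4⟩ | ⟨h3, h4⟩
  · exact red_A hX hY hY' h1 h2 hsub h3 h4
  · have hsub' : ∀ D, Ln Y.dual D → Ln Y'.dual D ∨ Ln X.dual D := by
      intro D hD
      rw [ln_dual] at hD ⊢
      rw [ln_dual]
      exact (hsub _ hD).symm
    obtain ⟨u, v, a1, a2, a3, a4, a5⟩ := red_A (D := Dᶜ) hY'.dual hY.dual hX.dual (dual_le h2) (dual_le h1) hsub'
      (by rw [ln_dual, compl_compl]; exact h3) (by rw [ln_dual, compl_compl]; exact h4)
    rw [Pz_dual h1 h2] at a3 a4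
    refine ⟨v, u, a2, not_not.1 a1, not_not.1 a4, a3, ?_⟩
    intro D' hD' hne
    have := a5 D'ᶜ (by rw [Lz_dual, compl_compl]; exact hD') (fun hh => hne (compl_inj_iff.1 hh))
    exact (not_iff_not.1 this).symm
  · exact red_C hX hY' h1 h2 h3 h4

/-- the family of lines of the relative complement -/
theorem fam_z {X Y Y' : Hf g} (h1 : X ≤ Y) (h2 : Y ≤ Y') (h3 : Y'.J ≤ X.J + 1)
    (hsub : ∀ D, Ln Y.E D → Ln X.E D ∨ Ln Y'.E D) :
    LFam (X.J + Y'.J - Y.J) (Lz X.E Y.E Y'.E) := by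
  classical
  have j1 := Hf.J_le h1
  have j2 := Hf.J_le h2
  have hmem : ∀ D ∈ Lz X.E Y.E Y'.E, Ln X.E D ∨ Ln Y'.E D := by
    rintro D (h | h)
    · exact h.1
    · exact Or.inl h.1
  have hfin : LFm (Lz X.E Y.E Y'.E) := ((LnS_lf X.lf).union (LnS_lf Y'.lf)).mono hmem
  have hP : ∀ x, x ∈ Pz X.E Y.E Y'.E ↔ ph x ≤ X.J + Y'.J - Y.J := by
    intro x
    show (x ∈ X.E.P ∨ (x ∈ Y'.E.P ∧ x ∉ Y.E.P)) ↔ _
    rw [X.lev, Y.lev, Y'.lev]
    omega
  refine ⟨?_, ?_, hfin, ?_, ?_, ?_, ?_, ?_⟩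
  · intro D hD
    rcases hmem D hD with h | h
    · exact h.1.cvx
    · exact h.1.cvx
  · intro D hD D' hD'
    rcases hmem D hD with h | h <;> rcases hmem D' hD' with h' | h'
    · exact nest_sat X.lf h.1 h'.1
    · exact nest_of_le X.lf (h1.trans h2) h.1 h'.1
    · exact (nest_of_le X.lf (h1.trans h2) h'.1 h.1).symm
    · exact nest_sat Y'.lf h.1 h'.1
  · intro k hk D hD
    show ((Ln X.E (tr k D) ∨ Ln Y'.E (tr k D)) ∧ ¬ Ln Y.E (tr k D)) ∨ (Ln X.E (tr k D) ∧ Ln Y'.E (tr k D))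
    rw [X.kg.ln_tr hk, Y.kg.ln_tr hk, Y'.kg.ln_tr hk]
    exact hD
  · intro D hD
    rcases hmem D hD with h | h
    · exact (X.kg.kcut h.1).zeta
    · exact (Y'.kg.kcut h.1).zeta
  · obtain ⟨M, N, hMN⟩ := X.kg.bd
    obtain ⟨M', N', hMN'⟩ := Y'.kg.bd
    refine ⟨min M M', max N N', fun D hD x l hx => ?_⟩
    rcases hmem D hD with h | h
    · have := hMN D h.1 x l hx
      omega
    · have := hMN' D h.1 x l hx
      omega
  · intro x y hx hy
    by_contra hcon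
    have e1 := ws_four (A := Lz X.E Y.E Y'.E) (B := LnS Y.E) (C := LnS X.E) (D := LnS Y'.E) hfin (LnS_lf Y.lf)
      (LnS_lf X.lf) (LnS_lf Y'.lf) (fun _ => (1 : ℤ)) (by
        intro S
        have a1 : S ∈ LnS X.E ∧ S ∈ LnS Y'.E → S ∈ LnS Y.E := fun hh => ln_conv X.kg Y.kg h1 h2 hh.1 hh.2
        have a2 : S ∈ LnS Y.E → S ∈ LnS X.E ∨ S ∈ LnS Y'.E := hsub S
        have a3 : S ∈ Lz X.E Y.E Y'.E ↔ ((S ∈ LnS X.E ∨ S ∈ LnS Y'.E) ∧ ¬ S ∈ LnS Y.E) ∨
          (S ∈ LnS X.E ∧ S ∈ LnS Y'.E) := Iff.rfl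
        by_cases b1 : S ∈ LnS X.E <;> by_cases b2 : S ∈ LnS Y'.E <;> by_cases b3 : S ∈ LnS Y.E <;>
          simp_all) x y
    rw [signed Y.lf, signed X.lf, signed Y'.lf, ws_zero] at e1
    · simp only [X.lev, Y.lev, Y'.lev] at e1
      split_ifs at e1 <;> omega
    · intro D hD
      by_contra hh
      exact hcon ⟨D, hD, hh⟩
  · intro D hD
    obtain ⟨u, v, a1, a2, a3, a4, a5⟩ := red_all X.kg Y.kg Y'.kg h1 h2 hsub hD
    rw [hP] at a3 a4
    exact ⟨u, v, a1, a2, a3, not_le.1 a4, a5⟩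

/-- axiom `compl` -/
theorem hf_compl (X Y Y' : Hf g) (h1 : X ≤ Y) (h2 : Y ≤ Y') (h3 : Y' ≤ Hf.tIso g X)
    (hsub : fr Y ⊆ fr X ∪ fr Y') :
    ∃ Z, Y ⊓ Z = X ∧ Y ⊔ Z = Y' ∧ fr Y ∪ fr Z = fr X ∪ fr Y' ∧ fr Y ∩ fr Z = fr X ∩ fr Y' := by
  have hs : ∀ D, Ln Y.E D → Ln X.E D ∨ Ln Y'.E D := by
    intro D hD
    have hk := Y.kg.kcut hD.1
    have := hsub ((cv_mem_fr hk).2 hD)
    rw [Finset.mem_union, cv_mem_fr, cv_mem_fr] at this
    exact this
  have j1 := Hf.J_le h1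
  have j2 := Hf.J_le h2
  have j3 := Hf.J_le h3
  rw [J_tIso] at j3
  have hF := fam_z h1 h2 j3 hs
  have hZJ : (ofL hF).J = X.J + Y'.J - Y.J := rfl
  have hmemL : ∀ D, Ln (ofL hF).E D ↔ ((Ln X.E D ∨ Ln Y'.E D) ∧ ¬ Ln Y.E D) ∨ (Ln X.E D ∧ Ln Y'.E D) := fun D =>
    ln_ofL hF
  refine ⟨ofL hF, ?_, ?_, ?_, ?_⟩
  · apply le_antisymm
    · refine ⟨?_, ?_⟩
      · intro x hx
        rw [(Y ⊓ ofL hF).lev, Hf.J_inf] at hx
        rw [X.lev]
        omega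
      · intro x y hx hxy
        have hx' : x ∈ Y.E.P ∩ (ofL hF).E.P := hx
        have hxy' : (Y.E ⊓ (ofL hF).E).S x y := hxy
        rw [inf_S hx'] at hxy'
        show X.E.S x y
        rw [S_iff_ln X.lf]
        intro D hD
        by_cases hY : Ln Y.E D
        · exact hY.1.sat _ _ hxy'.1
        · exact hxy'.2.2 D (Or.inl ⟨Or.inl hD, hY⟩)
    · refine _root_.le_inf h1 ⟨?_, ?_⟩
      · intro x hx
        rw [X.lev] at hx
        rw [(ofL hF).lev]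
        omega
      · intro x y hx hxy
        have hy := (GP.col hxy).1 hx
        rw [X.lev] at hx hy
        refine ⟨iff_of_true (by omega) (by omega), ?_⟩
        intro D hD
        have key : Ln X.E D ∨ Ln Y'.E D := by
          rcases hD with h | h
          · exact h.1
          · exact Or.inl h.1
        rcases key with h | h
        · exact h.1.sat _ _ hxy
        · exact h.1.sat _ _ ((h1.trans h2).2 _ _ ((X.lev x).2 hx) hxy)
  · apply le_antisymm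
    · refine _root_.sup_le h2 ?_
      rw [Hf.le_iff, ← dual_le_iff]
      refine ⟨?_, ?_⟩
      · rw [GP.dual_P, GP.dual_P, Set.compl_subset_compl]
        intro x hx
        rw [(ofL hF).lev] at hx
        rw [Y'.lev]
        omega
      · intro x y hx hxy
        have hx1 : x ∉ Y'.E.P := hx
        have hxy' : Y'.E.S x y := hxy
        have hy1 : y ∉ Y'.E.P := fun hh => hx1 ((GP.col hxy').2 hh)
        have hx2 := hx1
        rw [Y'.lev] at hx2 hy1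
        refine ⟨iff_of_false (by omega) (by omega), ?_⟩
        intro D hD
        have key : Ln X.E D ∨ Ln Y'.E D := by
          rcases hD with h | h
          · exact h.1
          · exact Or.inl h.1
        rcases key with h | h
        · exact h.1.sat _ _ (S_of_le' (E' := Y'.E) (h1.trans h2) hx1 hxy')
        · exact h.1.sat _ _ hxy'
    · rw [Hf.le_iff, ← dual_le_iff]
      refine ⟨?_, ?_⟩
      · rw [GP.dual_P, GP.dual_P, Set.compl_subset_compl]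
        intro x hx
        rw [Y'.lev] at hx
        rw [(Y ⊔ ofL hF).lev, Hf.J_sup]
        omega
      · intro x y hx hxy
        have hx1 : x ∉ Y.E.P ∪ (ofL hF).E.P := by
          intro hh
          apply hx
          rw [Hf.sup_E, sup_P]
          exact hh
        have hxy' : (Y.E ⊔ (ofL hF).E).S x y := hxy
        rw [sup_S hx1] at hxy'
        show Y'.E.S x y
        rw [S_iff_ln Y'.lf]
        intro D hD
        by_cases hY : Ln Y.E D
        · exact hY.1.sat _ _ hxy'.1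
        · exact hxy'.2.2 D (Or.inl ⟨Or.inr hD, hY⟩)
  · ext c
    obtain ⟨D, hD, rfl⟩ := c.rep
    rw [Finset.mem_union, Finset.mem_union, cv_mem_fr, cv_mem_fr, cv_mem_fr, cv_mem_fr, hmemL]
    have a2 := hs D
    tauto
  · ext c
    obtain ⟨D, hD, rfl⟩ := c.rep
    rw [Finset.mem_inter, Finset.mem_inter, cv_mem_fr, cv_mem_fr, cv_mem_fr, cv_mem_fr, hmemL]
    have a1 : Ln X.E D → Ln Y'.E D → Ln Y.E D := fun ha hb => ln_conv X.kg Y.kg h1 h2 ha hb
    tauto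

end TorL
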