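import Mathlib
import Pool.Agent.Lib.MP_05cdf2_gt.L.Compl

/-! MP_05cdf2_gt, stream L (helper49): axiom `conn`.

If `X ≤ Y ≤ t X` and the frontier of `Y` is obtained from that of `X` by replacing `e` by `t^k e ∉ fr X`, `k ≥ 1`, then
`fr X = {e}`. Signed counts: the signed number of lines of `e` between two points depends only on their levels. -/

set_option autoImplicit false
set_option linter.unusedSectionVars false

namespace TorL
open TorM TorG

variable {g : ℕ} [NeZero g]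

/-- signed number of lines of an orbit -/
noncomputable def cnt (D : Set (F g)) (x y : F g) : ℤ := ws (orbK D) (fun _ => (1 : ℤ)) x y

/-- translates as an equivalence of sets -/
def trE (h : F g) : Set (F g) ≃ Set (F g) where
  toFun := tr h
  invFun := tr h⁻¹
  left_inv A := by rw [tr_tr, inv_mul_cancel, tr_one]
  right_inv A := by rw [tr_tr, mul_inv_cancel, tr_one]

theorem ch_tr (h : F g) (A : Set (F g)) (x y : F g) : ch (tr h A) x y = ch A (h⁻¹ * x) (h⁻¹ * y) := rfl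

theorem mem_orbK_tr (h : F g) {A D : Set (F g)} : tr h A ∈ orbK (tr h D) ↔ A ∈ orbK D := by
  rw [← trO_orbK]
  show tr h⁻¹ (tr h A) ∈ orbK D ↔ _
  rw [tr_tr, inv_mul_cancel, tr_one]

theorem cnt_tr (h : F g) (D : Set (F g)) (x y : F g) : cnt (tr h D) x y = cnt D (h⁻¹ * x) (h⁻¹ * y) := by
  classical
  unfold cnt ws
  rw [← finsum_comp_equiv (trE h)]
  refine finsum_congr fun A => ?_
  show (if tr h A ∈ orbK (tr h D) then ch (tr h A) x y • (1 : ℤ) else 0) = _
  by_cases hA : A ∈ orbK D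
  · rw [if_pos hA, if_pos ((mem_orbK_tr h).2 hA), ch_tr]
  · rw [if_neg hA, if_neg (fun hh => hA ((mem_orbK_tr h).1 hh))]

theorem KCut.orb_lf {D : Set (F g)} (hD : KCut D) : LFm (orbK D) := fun x y => hD.kfin x y

/-- far translates of a chord do not meet the lines of an orbit -/
theorem KCut.cnt_far {D : Set (F g)} (hD : KCut D) (x y : F g) :
    ∃ n0 : ℤ, ∀ h : F g, n0 ≤ |ph h| → cnt D (h * x) (h * y) = 0 := by
  obtain ⟨M, N, hMN⟩ := hD.bd
  obtain ⟨R, hR⟩ := path_edge (g := g) (x⁻¹ * y)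
  refine ⟨|M| + |N| + |ph x| + |R| + 1, fun h hh => ?_⟩
  apply ws_zero
  rintro A ⟨k, hk, rfl⟩
  by_contra hcon
  obtain ⟨z, l, hz, hl⟩ := hR (h * x) (TorG.tr k D) (by
    have e : h * x * (x⁻¹ * y) = h * y := by group
    rwa [e])
  rw [mem_tr, mem_tr, ← mul_assoc] at hl
  have h1 := hMN _ l hl
  rw [ph_mul, ph_inv, hk] at h1
  rw [ph_mul] at hz
  have a1 := neg_abs_le M
  have a2 := le_abs_self N
  have a3 := neg_abs_le (ph x)
  have a4 := le_abs_self (ph x)
  have a5 := le_abs_self R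
  rw [abs_le] at hz
  rcases abs_cases (ph h) with ⟨a6, a7⟩ | ⟨a6, a7⟩
  · have a8 := abs_nonneg M
    omega
  · have a8 := abs_nonneg N
    omega

theorem const_zero {u : ℕ → ℤ} (h : ∀ n, u n = u (n + 1)) (hz : ∃ n, u n = 0) : u 0 = 0 := by
  obtain ⟨n, hn⟩ := hz
  have key : ∀ n, u 0 = u n := by
    intro n
    induction n with
    | zero => rfl
    | succ n ih => rw [ih, h]
  rw [key n, hn]

open Classical in
/-- axiom `conn` -/
theorem hf_conn (X Y : Hf g) (e : Cv g) (k : ℕ) (h1 : X ≤ Y) (h2 : Y ≤ Hf.tIso g X) (hk : 1 ≤ k)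
    (he : e ∈ fr X) (hne : (tcv g ^ k) e ∉ fr X)
    (hfr : ∀ c, c ∈ fr Y ↔ (c ∈ fr X ∧ c ≠ e) ∨ c = (tcv g ^ k) e) : fr X = {e} := by
  obtain ⟨D, hD, rfl⟩ := e.rep
  have j1 := Hf.J_le h1
  have j2 := Hf.J_le h2
  rw [J_tIso] at j2
  have hpow : (tcv g ^ k) (cv D hD) = cv (tr (t0 ^ k) D) (hD.tr _) := by
    have := tcv_zpow (g := g) (k : ℤ)
    rw [zpow_natCast, zpow_natCast] at this
    rw [this, cact_cv]
  rw [hpow] at hne hfr
  have hLD : Ln X.E D := (cv_mem_fr hD).1 he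
  have hLk : ¬ Ln X.E (tr (t0 ^ k) D) := fun hh => hne ((cv_mem_fr _).2 hh)
  -- membership
  have m1 : ∀ S, S ∈ orbK D → S ∈ LnS X.E := by
    rintro S ⟨m, hm, rfl⟩
    exact (X.kg.ln_tr hm).2 hLD
  have m2 : ∀ S, S ∈ orbK (tr (t0 ^ k) D) → S ∉ LnS X.E := by
    rintro S ⟨m, hm, rfl⟩ hh
    exact hLk ((X.kg.ln_tr hm).1 hh)
  have m3 : ∀ S, S ∈ LnS Y.E ↔ (S ∈ LnS X.E ∧ S ∉ orbK D) ∨ S ∈ orbK (tr (t0 ^ k) D) := by
    intro S
    have key : ∀ hS : KCut S, S ∈ LnS Y.E ↔ (S ∈ LnS X.E ∧ S ∉ orbK D) ∨ S ∈ orbK (tr (t0 ^ k) D) := by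
      intro hS
      have := hfr (cv S hS)
      rw [cv_mem_fr, cv_mem_fr, Ne, cv_eq_iff, cv_eq_iff] at this
      exact this
    constructor
    · intro hh
      exact (key (Y.kg.kcut hh.1)).1 hh
    · intro hh
      have hS : KCut S := by
        rcases hh with hh | hh
        · exact X.kg.kcut hh.1.1
        · obtain ⟨m, hm, rfl⟩ := hh
          exact (hD.tr _).tr _
      exact (key hS).2 hh
  have hO := hD.orb_lf
  have hOk := (hD.tr (t0 ^ k)).orb_lf
  have star0 : ∀ a b, ws (LnS Y.E) (fun _ => (1 : ℤ)) a b + cnt D a b =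
      ws (LnS X.E) (fun _ => (1 : ℤ)) a b + cnt (tr (t0 ^ k) D) a b := by
    intro a b
    refine ws_four (LnS_lf Y.lf) hO (LnS_lf X.lf) hOk _ ?_ a b
    intro S
    have a1 := m1 S
    have a2 := m2 S
    have a3 := m3 S
    by_cases b1 : S ∈ orbK D
    · have b2 : S ∉ orbK (tr (t0 ^ k) D) := fun hh => a2 hh (a1 b1)
      have b3 : S ∉ LnS Y.E := by
        rw [a3]
        rintro (hh | hh)
        · exact hh.2 b1
        · exact b2 hh
      simp [b1, b2, b3, a1 b1]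
    · by_cases b2 : S ∈ orbK (tr (t0 ^ k) D)
      · have b3 : S ∈ LnS Y.E := a3.2 (Or.inr b2)
        simp [b1, b2, b3, a2 b2]
      · have b3 : S ∈ LnS Y.E ↔ S ∈ LnS X.E := by
          rw [a3]
          exact ⟨fun hh => (hh.resolve_right b2).1, fun hh => Or.inl ⟨hh, b1⟩⟩
        by_cases b4 : S ∈ LnS X.E
        · simp [b1, b2, b3.2 b4, b4]
        · have b5 : S ∉ LnS Y.E := fun hh => b4 (b3.1 hh)
          simp [b1, b2, b4, b5]
  have star : ∀ a b, cnt D a b - cnt D ((t0 ^ k)⁻¹ * a) ((t0 ^ k)⁻¹ * b) =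
      ((if ph b ≤ Y.J then (1 : ℤ) else 0) - (if ph b ≤ X.J then 1 else 0)) -
        ((if ph a ≤ Y.J then (1 : ℤ) else 0) - (if ph a ≤ X.J then 1 else 0)) := by
    intro a b
    have h3 := star0 a b
    rw [signed Y.lf, signed X.lf, cnt_tr] at h3
    simp only [X.lev, Y.lev] at h3
    linarith
  -- powers
  have hph : ∀ (n : ℕ) (a : F g), ph ((t0 ^ (n * k))⁻¹ * a) = ph a - n * k := by
    intro n a
    rw [ph_mul, ph_inv, ← zpow_natCast, ph_zpow, ph_t0]
    push_cast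
    ring
  have hph' : ∀ (n : ℕ) (a : F g), ph (t0 ^ (n * k) * a) = ph a + n * k := by
    intro n a
    rw [ph_mul, ← zpow_natCast, ph_zpow, ph_t0]
    push_cast
    ring
  have hstep : ∀ (n : ℕ) (a : F g), (t0 ^ k)⁻¹ * ((t0 ^ (n * k))⁻¹ * a) = (t0 ^ ((n + 1) * k))⁻¹ * a := by
    intro n a
    rw [add_mul, one_mul, pow_add, mul_inv_rev, mul_assoc]
  have hstep' : ∀ (n : ℕ) (a : F g), (t0 ^ k)⁻¹ * (t0 ^ ((n + 1) * k) * a) = t0 ^ (n * k) * a := by
    intro n a
    rw [add_mul, one_mul, add_comm (n * k) k, pow_add]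
    group
  have hkz : (1 : ℤ) ≤ k := by exact_mod_cast hk
  have far_dn : ∀ a b : F g, ∃ n : ℕ, ∀ m : ℕ, n ≤ m →
      cnt D ((t0 ^ (m * k))⁻¹ * a) ((t0 ^ (m * k))⁻¹ * b) = 0 := by
    intro a b
    obtain ⟨n0, hn0⟩ := hD.cnt_far a b
    refine ⟨n0.toNat, fun m hm => hn0 _ ?_⟩
    rw [ph_inv, ← zpow_natCast, ph_zpow, ph_t0, mul_one, abs_neg, abs_of_nonneg (by positivity)]
    have h3 := Int.self_le_toNat n0
    push_cast
    have h4 : (n0.toNat : ℤ) ≤ m := by exact_mod_cast hm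
    nlinarith
  have far_up : ∀ a b : F g, ∃ n : ℕ, ∀ m : ℕ, n ≤ m →
      cnt D (t0 ^ (m * k) * a) (t0 ^ (m * k) * b) = 0 := by
    intro a b
    obtain ⟨n0, hn0⟩ := hD.cnt_far a b
    refine ⟨n0.toNat, fun m hm => hn0 _ ?_⟩
    rw [← zpow_natCast, ph_zpow, ph_t0, mul_one, abs_of_nonneg (by positivity)]
    have h3 := Int.self_le_toNat n0
    push_cast
    have h4 : (n0.toNat : ℤ) ≤ m := by exact_mod_cast hm
    nlinarith
  -- the adjacent pair
  obtain ⟨p, q, hpq, hp, hq⟩ := hLD.adj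
  have hone : cnt D p q = 1 := by
    unfold cnt
    rw [ws_single (D := D) _ (mem_orbK_self D), ch_one hpq.out hpq.inn, one_smul]
    intro D' hD' hne'
    have hD'' := m1 D' hD'
    refine hpq.only X.lf hLD.1 hD''.1 hne' ?_
    rintro rfl
    exact ln_not X.lf hLD hD''
  have hJ : Y.J = X.J + 1 := by
    by_contra hcon
    have hJ2 : Y.J = X.J := by omega
    have h4 : cnt D ((t0 ^ (0 * k))⁻¹ * p) ((t0 ^ (0 * k))⁻¹ * q) = 0 := by
      refine const_zero (u := fun n => cnt D ((t0 ^ (n * k))⁻¹ * p) ((t0 ^ (n * k))⁻¹ * q)) ?_ ?_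
      · intro n
        have h5 := star ((t0 ^ (n * k))⁻¹ * p) ((t0 ^ (n * k))⁻¹ * q)
        rw [hstep, hstep, hJ2] at h5
        linarith
      · obtain ⟨n, hn⟩ := far_dn p q
        exact ⟨n, hn n le_rfl⟩
    rw [zero_mul, pow_zero, inv_one, one_mul, one_mul, hone] at h4
    omega
  have hk1 : k = 1 := by
    by_contra hcon
    have hk2 : (2 : ℤ) ≤ k := by
      have : 2 ≤ k := by omega
      exact_mod_cast this
    let a : F g := t0 ^ Y.J
    let b : F g := t0 ^ (Y.J + 1)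
    have ha : ph a = Y.J := by
      show ph (t0 ^ Y.J) = _
      rw [ph_zpow, ph_t0, mul_one]
    have hb : ph b = Y.J + 1 := by
      show ph (t0 ^ (Y.J + 1)) = _
      rw [ph_zpow, ph_t0, mul_one]
    have h4 : cnt D ((t0 ^ ((0 + 1) * k))⁻¹ * a) ((t0 ^ ((0 + 1) * k))⁻¹ * b) = 0 := by
      refine const_zero (u := fun n => cnt D ((t0 ^ ((n + 1) * k))⁻¹ * a) ((t0 ^ ((n + 1) * k))⁻¹ * b)) ?_ ?_
      · intro n
        have h5 := star ((t0 ^ ((n + 1) * k))⁻¹ * a) ((t0 ^ ((n + 1) * k))⁻¹ * b)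
        rw [hstep, hstep, hph, hph, ha, hb, hJ] at h5
        push_cast at h5
        have h6 : (0 : ℤ) ≤ n * k := by positivity
        rw [if_pos (by nlinarith), if_pos (by nlinarith), if_pos (by nlinarith), if_pos (by nlinarith)] at h5
        show cnt D ((t0 ^ ((n + 1) * k))⁻¹ * a) ((t0 ^ ((n + 1) * k))⁻¹ * b) =
          cnt D ((t0 ^ ((n + 1 + 1) * k))⁻¹ * a) ((t0 ^ ((n + 1 + 1) * k))⁻¹ * b)
        linarith
      · obtain ⟨n, hn⟩ := far_dn a b
        exact ⟨n, hn (n + 1) (by omega)⟩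
    have h5 : cnt D (t0 ^ (0 * k) * a) (t0 ^ (0 * k) * b) = 0 := by
      refine const_zero (u := fun n => cnt D (t0 ^ (n * k) * a) (t0 ^ (n * k) * b)) ?_ ?_
      · intro n
        have h5 := star (t0 ^ ((n + 1) * k) * a) (t0 ^ ((n + 1) * k) * b)
        rw [hstep', hstep', hph', hph', ha, hb, hJ] at h5
        push_cast at h5
        have h6 : (0 : ℤ) ≤ n * k := by positivity
        rw [if_neg (by nlinarith), if_neg (by nlinarith), if_neg (by nlinarith), if_neg (by nlinarith)] at h5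
        show cnt D (t0 ^ (n * k) * a) (t0 ^ (n * k) * b) = cnt D (t0 ^ ((n + 1) * k) * a) (t0 ^ ((n + 1) * k) * b)
        linarith
      · obtain ⟨n, hn⟩ := far_up a b
        exact ⟨n, hn n le_rfl⟩
    rw [zero_mul, pow_zero, one_mul, one_mul] at h5
    rw [zero_add, one_mul] at h4
    have h6 := star a b
    rw [h4, h5, ha, hb, hJ] at h6
    rw [if_neg (by omega), if_neg (by omega), if_pos (by omega), if_neg (by omega)] at h6
    omega
  subst hk1
  have hval : ∀ a b, cnt D a b = ws (LnS X.E) (fun _ => (1 : ℤ)) a b := by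
    intro a b
    have h4 := const_zero (u := fun n => cnt D ((t0 ^ (n * 1))⁻¹ * a) ((t0 ^ (n * 1))⁻¹ * b) -
      ((if ph a - n ≤ X.J then (1 : ℤ) else 0) - (if ph b - n ≤ X.J then 1 else 0))) ?_ ?_
    · simp only [zero_mul, pow_zero, inv_one, one_mul, Nat.cast_zero, sub_zero] at h4
      rw [signed X.lf]
      simp only [X.lev]
      linarith
    · intro n
      have h5 := star ((t0 ^ (n * 1))⁻¹ * a) ((t0 ^ (n * 1))⁻¹ * b)
      rw [hstep, hstep, hph, hph, hJ] at h5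
      push_cast at h5 ⊢
      simp only [mul_one] at h5 ⊢
      have e1 : ∀ z : ℤ, (if z - (n + 1) ≤ X.J then (1 : ℤ) else 0) = if z - n ≤ X.J + 1 then 1 else 0 := by
        intro z
        by_cases hz : z - (n + 1) ≤ X.J
        · rw [if_pos hz, if_pos (by omega)]
        · rw [if_neg hz, if_neg (by omega)]
      rw [e1, e1]
      linarith
    · obtain ⟨n, hn⟩ := far_dn a b
      refine ⟨max n (max (ph a - X.J).toNat (ph b - X.J).toNat), ?_⟩
      have h5 := hn (max n (max (ph a - X.J).toNat (ph b - X.J).toNat)) (le_max_left _ _)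
      have h6 : ((max n (max (ph a - X.J).toNat (ph b - X.J).toNat) : ℕ) : ℤ) ≥ ph a - X.J := by
        have := Int.self_le_toNat (ph a - X.J)
        push_cast
        omega
      have h7 : ((max n (max (ph a - X.J).toNat (ph b - X.J).toNat) : ℕ) : ℤ) ≥ ph b - X.J := by
        have := Int.self_le_toNat (ph b - X.J)
        push_cast
        omega
      show cnt D _ _ - _ = 0
      rw [h5, if_pos (by omega), if_pos (by omega)]
      ring
  -- no other curve
  refine Finset.eq_singleton_iff_unique_mem.2 ⟨he, ?_⟩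
  intro c hc
  obtain ⟨D', hD', rfl⟩ := c.rep
  rw [cv_mem_fr] at hc
  by_contra hcne
  rw [cv_eq_iff] at hcne
  obtain ⟨p', q', hpq', hp', hq'⟩ := hc.adj
  have h5 := hval p' q'
  have h6 : ws (LnS X.E) (fun _ => (1 : ℤ)) p' q' = 1 := by
    rw [signed X.lf, if_pos hp', if_neg hq']
    ring
  have h7 : cnt D p' q' = 0 := by
    apply ws_zero
    intro S hS
    have hS' := m1 S hS
    refine hpq'.only X.lf hc.1 hS'.1 ?_ ?_
    · rintro rfl
      exact hcne hS
    · rintro rfl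
      exact ln_not X.lf hc hS'
  omega

end TorL
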