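import Mathlib
import Pool.Agent.Lib.MP_05cdf2_gt.L.Conn

/-! MP_05cdf2_gt, stream L (helper49): frontiers of infima and suprema of coherent half spaces.

`Cohr x y Z`: all lines of `x` and `y` are lines of members of a totally ordered family `Z`. Then every line of `x` or `y`
which is not common is a line of exactly one of `x ⊓ y`, `x ⊔ y`, the common lines are lines of both, and there are no
other lines. `Near E D`: near `D`, outside, there is the region of `E`. `Out M D u`: `u ∉ D` is not separated from `D` by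
a member of `M`. -/

set_option autoImplicit false
set_option linter.unusedSectionVars false

namespace TorL
open TorM TorG

section gp
variable {α : Type} [LinearOrder α] {E E' : GP α}

theorem inf_S_of {x y : α} (h : E.S x y) (h' : E'.S x y) : (E ⊓ E').S x y := by
  by_cases hx : x ∈ E.P
  · by_cases hx' : x ∈ E'.P
    · exact (inf_S ⟨hx, hx'⟩).2 ⟨h, h'⟩
    · exact S_of_le' inf_le_right hx' h'
  · exact S_of_le' inf_le_left hx h

/-- near `D`, outside, there is the region of `E` -/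
def Near (E : GP α) (D : Set α) : Prop :=
  ∃ a b, a ∈ D ∧ b ∉ D ∧ b ∈ E.P ∧ ∀ D', Sat E D' → D' ≠ D → D' ≠ Dᶜ → (a ∈ D' ↔ b ∈ D')

theorem near_of_ln (hE : LF E) {D : Set α} (h : Ln E D) : Near E D := by
  obtain ⟨k, l, hkl, hk, -⟩ := h.adj
  exact ⟨l, k, hkl.inn, hkl.out, hk, fun D' hD' h1 h2 => (hkl.only hE h.1 hD' h1 h2).symm⟩

theorem near_of_pair {D : Set α} {a b : α} (h : E.S a b) (ha : a ∈ E.P) (hs : ¬ (a ∈ D ↔ b ∈ D)) : Near E D := by
  by_cases haD : a ∈ D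
  · exact ⟨a, b, haD, fun hh => hs (iff_of_true haD hh), (GP.col h).1 ha, fun D' hD' _ _ => hD'.sat _ _ h⟩
  · have hbD : b ∈ D := by
      by_contra hh
      exact hs (iff_of_false haD hh)
    exact ⟨b, a, hbD, haD, ha, fun D' hD' _ _ => (hD'.sat _ _ h).symm⟩

/-- a point outside of the other colour is separated from `D` -/
theorem Near.sep {D : Set α} (h : Near E D) (hn : ∀ D', Sat E D' → Nst D D') {q : α} (hq : q ∉ D) (hqP : q ∉ E.P) :
    ∃ A, Sat E A ∧ (∀ z ∈ D, z ∉ A) ∧ q ∈ A ∧ A ≠ Dᶜ := by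
  obtain ⟨a, b, ha, hb, hbP, hab⟩ := h
  have h1 : ¬ E.S b q := fun hh => hqP ((GP.col hh).1 hbP)
  rw [S_iff] at h1
  push Not at h1
  obtain ⟨D', hD', h2⟩ := h1
  obtain ⟨A, hA, hqA, hbA⟩ : ∃ A, Sat E A ∧ q ∈ A ∧ b ∉ A := by
    rcases h2 with ⟨h3, h4⟩ | ⟨h3, h4⟩
    · exact ⟨D'ᶜ, hD'.compl, h4, fun hh => hh h3⟩
    · exact ⟨D', hD', h4, h3⟩
  have hAD : A ≠ D := by
    rintro rfl
    exact hq hqA
  have hAD' : A ≠ Dᶜ := by
    rintro rfl
    exact hbA hb
  have haA : a ∉ A := fun hh => hbA ((hab A hA hAD hAD').1 hh)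
  refine ⟨A, hA, ?_, hqA, hAD'⟩
  rcases hn A hA with h3 | h3 | h3 | h3
  · exact absurd (h3 ha) haA
  · exact absurd (h3 hqA) hq
  · exact fun z hz hzA => h3 z ⟨hz, hzA⟩
  · exact absurd (h3 b) (by simp [hb, hbA])

/-- the first line outside cannot be reversed -/
theorem Near.next (hE : LF E) {D D1 : Set α} (h : Near E D) (hn : ∀ D', Sat E D' → Nst D D') (hD1 : Ln E D1)
    (hs : D ⊆ D1) (hne : D ≠ D1) :
    ∃ A, Sat E A ∧ (∀ z ∈ D, z ∉ A) ∧ D1ᶜ ⊆ A ∧ (∃ w ∈ A, w ∈ D1) ∧ A ≠ Dᶜ := by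
  obtain ⟨k1, l1, hkl, hk, hl⟩ := hD1.adj
  by_cases hl1 : l1 ∈ D
  · exfalso
    obtain ⟨a, b, ha, hb, hbP, hab⟩ := h
    have hne2 : D1 ≠ Dᶜ := by
      rintro rfl
      exact hs ha ha
    have hbD1 : b ∈ D1 := (hab D1 hD1.1 hne.symm hne2).1 (hs ha)
    have h1 : ¬ E.S b l1 := fun hh => hl ((GP.col hh).1 hbP)
    rw [S_iff] at h1
    push Not at h1
    obtain ⟨D', hD', h2⟩ := h1
    obtain ⟨A, hA, hlA, hbA⟩ : ∃ A, Sat E A ∧ l1 ∈ A ∧ b ∉ A := by
      rcases h2 with ⟨h3, h4⟩ | ⟨h3, h4⟩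
      · exact ⟨D'ᶜ, hD'.compl, h4, fun hh => hh h3⟩
      · exact ⟨D', hD', h4, h3⟩
    have e1 : A ≠ D1 := by
      rintro rfl
      exact hbA hbD1
    have e2 : A ≠ D1ᶜ := by
      rintro rfl
      exact hlA hkl.inn
    have hkA : k1 ∈ A := (hkl.only hE hD1.1 hA e1 e2).2 hlA
    have hkD : k1 ∉ D := fun hh => hkl.out (hs hh)
    have e3 : A ≠ D := by
      rintro rfl
      exact hkD hkA
    have e4 : A ≠ Dᶜ := by
      rintro rfl
      exact hlA hl1
    have haA : a ∉ A := fun hh => hbA ((hab A hA e3 e4).1 hh)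
    rcases hn A hA with h3 | h3 | h3 | h3
    · exact haA (h3 ha)
    · exact hkD (h3 hkA)
    · exact h3 l1 ⟨hl1, hlA⟩
    · exact absurd (h3 b) (by simp [hb, hbA])
  · obtain ⟨A, hA, hdis, hlA, hAD⟩ := h.sep hn hl1 hl
    obtain ⟨a, b, ha, -⟩ := h
    have e1 : A ≠ D1 := by
      rintro rfl
      exact hdis a ha (hs ha)
    have e2 : A ≠ D1ᶜ := by
      rintro rfl
      exact hlA hkl.inn
    have hkA : k1 ∈ A := (hkl.only hE hD1.1 hA e1 e2).2 hlA
    refine ⟨A, hA, hdis, ?_, ⟨l1, hlA, hkl.inn⟩, hAD⟩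
    rcases nest_sat hE hA hD1.1 with h3 | h3 | h3 | h3
    · exact absurd (h3 hkA) hkl.out
    · exact absurd (h3 (hs ha)) (hdis a ha)
    · exact absurd ⟨hlA, hkl.inn⟩ (h3 l1)
    · intro z hz
      exact (h3 z).resolve_right hz

/-- `u` is outside `D` and not separated from `D` by a member of `M` -/
def Out (M : Set (Set α)) (D : Set α) (u : α) : Prop :=
  u ∉ D ∧ ∀ D' ∈ M, D' ≠ D → (D ⊆ D' → u ∈ D') ∧ ((∀ z ∈ D, z ∉ D') → u ∉ D')

end gp

variable {g : ℕ} [NeZero g]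

theorem KG.inf {E E' : GP (F g)} (h : KG E) (h' : KG E') : KG (E ⊓ E') where
  inv k hk := by rw [map_inf', h.inv k hk, h'.inv k hk]
  lf := h.lf.inf h'.lf
  lo := by
    obtain ⟨M, hM⟩ := h.lo
    obtain ⟨N, hN⟩ := h'.lo
    refine ⟨min M N, fun x l h1 h2 => ?_⟩
    rw [le_min_iff] at h1 h2
    exact inf_S_of (hM x l h1.1 h2.1) (hN x l h1.2 h2.2)
  hi := by
    obtain ⟨M, hM⟩ := h.hi
    obtain ⟨N, hN⟩ := h'.hi
    refine ⟨max M N, fun x l h1 h2 => ?_⟩
    rw [max_le_iff] at h1 h2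
    exact inf_S_of (hM x l h1.1 h2.1) (hN x l h1.2 h2.2)

/-- coherent pairs -/
structure Cohr (x y : GP (F g)) (Z : Set (GP (F g))) : Prop where
  kx : KG x
  ky : KG y
  kz : ∀ z ∈ Z, KG z
  tot : ∀ z ∈ Z, ∀ z' ∈ Z, z ≤ z' ∨ z' ≤ z
  cov : ∀ D, Ln x D ∨ Ln y D → ∃ z ∈ Z, Ln z D
  fin : {z | z ∈ Z ∧ ∃ D, (Ln x D ∨ Ln y D) ∧ Ln z D}.Finite

variable {x y : GP (F g)} {Z : Set (GP (F g))}

theorem Cohr.symm (h : Cohr x y Z) : Cohr y x Z where
  kx := h.ky
  ky := h.kx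
  kz := h.kz
  tot := h.tot
  cov D hD := h.cov D hD.symm
  fin := by
    refine h.fin.subset ?_
    rintro z ⟨h1, D, h2, h3⟩
    exact ⟨h1, D, h2.symm, h3⟩

theorem Cohr.dual (h : Cohr x y Z) : Cohr x.dual y.dual {z | z.dual ∈ Z} where
  kx := h.kx.dual
  ky := h.ky.dual
  kz z hz := by
    have := (h.kz _ hz).dual
    rwa [dual_dual] at this
  tot z hz z' hz' := by
    rcases h.tot _ hz _ hz' with h1 | h1
    · exact Or.inr (dual_le_iff.1 h1)
    · exact Or.inl (dual_le_iff.1 h1)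
  cov D hD := by
    rw [ln_dual, ln_dual] at hD
    obtain ⟨z, hz, h1⟩ := h.cov _ hD
    refine ⟨z.dual, ?_, ?_⟩
    · show z.dual.dual ∈ Z
      rwa [dual_dual]
    · rwa [ln_dual]
  fin := by
    refine (h.fin.image GP.dual).subset ?_
    rintro z ⟨h1, D, h2, h3⟩
    refine ⟨z.dual, ⟨h1, Dᶜ, ?_, ?_⟩, dual_dual z⟩
    · rw [ln_dual, ln_dual] at h2
      exact h2
    · rw [ln_dual, compl_compl]
      exact h3

/-- the lines of `x` and `y` -/
def MM (x y : GP (F g)) : Set (Set (F g)) := {D | Ln x D ∨ Ln y D}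

theorem Cohr.nst (h : Cohr x y Z) {D D' : Set (F g)} (hD : D ∈ MM x y) (hD' : D' ∈ MM x y) : Nst D D' := by
  obtain ⟨z, hz, h1⟩ := h.cov _ hD
  obtain ⟨z', hz', h1'⟩ := h.cov _ hD'
  rcases h.tot z hz z' hz' with h2 | h2
  · exact nest_of_le (h.kz z hz).lf h2 h1.1 h1'.1
  · exact (nest_of_le (h.kz z' hz').lf h2 h1'.1 h1.1).symm

theorem Cohr.norev (h : Cohr x y Z) {D : Set (F g)} (hD : D ∈ MM x y) : Dᶜ ∉ MM x y := by
  intro hD'
  obtain ⟨z, hz, h1⟩ := h.cov _ hD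
  obtain ⟨z', hz', h1'⟩ := h.cov _ hD'
  rcases h.tot z hz z' hz' with h2 | h2
  · exact not_rev (h.kz z hz) (h.kz z' hz') h2 h1 h1'
  · exact not_rev' (h.kz z' hz') (h.kz z hz) h2 h1' h1

theorem Cohr.lfm (h : Cohr x y Z) : LFm (MM x y) := (LnS_lf h.kx.lf).union (LnS_lf h.ky.lf)

theorem Cohr.nst_sat (h : Cohr x y Z) {D A : Set (F g)} (hD : D ∈ MM x y) (hA : A ∈ MM x y ∨ Aᶜ ∈ MM x y) :
    Nst D A := by
  rcases hA with h1 | h1
  · exact h.nst hD h1
  · have := (h.nst hD h1).compl_right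
    rwa [compl_compl] at this

theorem Cohr.mem_of_sat (h : Cohr x y Z) {E : GP (F g)} (hE : E = x ∨ E = y) {A : Set (F g)} (hA : Sat E A) :
    A ∈ MM x y ∨ Aᶜ ∈ MM x y := by
  have hlf : LF E := by
    rcases hE with rfl | rfl
    · exact h.kx.lf
    · exact h.ky.lf
  rcases ln_or hlf hA with h1 | h1
  · left
    rcases hE with rfl | rfl
    · exact Or.inl h1
    · exact Or.inr h1
  · right
    rcases hE with rfl | rfl
    · exact Or.inl h1
    · exact Or.inr h1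

theorem Cohr.near_or (h : Cohr x y Z) {E : GP (F g)} (hE : E = x ∨ E = y) {A : Set (F g)} (hA : A ∈ MM x y)
    (hn : ¬ Near E A) : ∃ a b, E.S a b ∧ a ∉ E.P ∧ b ∉ E.P ∧ a ∈ A ∧ b ∉ A := by
  have hlf : LF E := by
    rcases hE with rfl | rfl
    · exact h.kx.lf
    · exact h.ky.lf
  have hne : A.Nonempty ∧ Aᶜ.Nonempty ∧ Cvx A := by
    rcases hA with h1 | h1
    · exact ⟨h1.1.ne, h1.1.ne', h1.1.cvx⟩
    · exact ⟨h1.1.ne, h1.1.ne', h1.1.cvx⟩
  have hnS : ¬ Sat E A := by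
    intro hS
    rcases ln_or hlf hS with h1 | h1
    · exact hn (near_of_ln hlf h1)
    · refine h.norev hA ?_
      rcases hE with rfl | rfl
      · exact Or.inl h1
      · exact Or.inr h1
  have h2 : ∃ a b, E.S a b ∧ ¬ (a ∈ A ↔ b ∈ A) := by
    by_contra hcon
    apply hnS
    refine ⟨hne.1, hne.2.1, hne.2.2, fun a b hab => ?_⟩
    by_contra hh
    exact hcon ⟨a, b, hab, hh⟩
  obtain ⟨a, b, hab, hs⟩ := h2
  have haP : a ∉ E.P := fun hh => hn (near_of_pair hab hh hs)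
  have hbP : b ∉ E.P := fun hh => haP ((GP.col hab).2 hh)
  by_cases ha : a ∈ A
  · exact ⟨a, b, hab, haP, hbP, ha, fun hh => hs (iff_of_true ha hh)⟩
  · have hb : b ∈ A := by
      by_contra hh
      exact hs (iff_of_false ha hh)
    exact ⟨b, a, GP.symm hab, hbP, haP, hb, ha⟩

/-- the far sides -/
def Far (x y : GP (F g)) (D : Set (F g)) (k : F g) : Set (Set (F g)) :=
  {A | (A ∈ MM x y ∨ Aᶜ ∈ MM x y) ∧ (∀ z ∈ D, z ∉ A) ∧ k ∈ A ∧ A ≠ Dᶜ}

theorem Cohr.far_fin (h : Cohr x y Z) {D : Set (F g)} (hD : D.Nonempty) (k : F g) : (Far x y D k).Finite := by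
  obtain ⟨d, hd⟩ := hD
  refine ((h.lfm d k).union ((h.lfm d k).image compl)).subset ?_
  rintro A ⟨h1 | h1, h2, h3, -⟩
  · exact Or.inl ⟨h1, fun hh => h2 d hd (hh.2 h3)⟩
  · refine Or.inr ⟨Aᶜ, ⟨h1, fun hh => ?_⟩, compl_compl A⟩
    exact hh.1 (h2 d hd) h3

/-- lines of larger members do not separate -/
theorem line_Y {z z' : GP (F g)} (hz : KG z) (hle : z ≤ z') {D D' : Set (F g)} (hD : Ln z D)
    {k l : F g} (hkl : Adj z D k l) (hk : k ∈ z.P) (hD' : Ln z' D') (hne : D' ≠ D) (hne' : D' ≠ Dᶜ) :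
    (D ⊆ D' → k ∈ D') ∧ ((∀ w ∈ D, w ∉ D') → k ∉ D') := by
  have hw := hz.wcut hD.1
  have ho : OrbS z' D k := (hz.orb_out hD.1 hkl).mono hle hk
  have ho' : OrbS z' Dᶜ k := (orbS_compl hw).2 ho
  obtain ⟨d, hd⟩ := hD.1.ne
  constructor
  · intro hs
    by_contra hkD
    obtain ⟨p, hp, hpD⟩ : ∃ p, p ∈ D' ∧ p ∉ D := by
      by_contra hcon
      push Not at hcon
      exact hne (Set.Subset.antisymm hcon hs)
    obtain ⟨n, m, hcr⟩ := cross_orbit hw.compl (show k ∈ Dᶜ from hkl.out) (show p ∈ Dᶜ from hpD)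
      (show d ∉ Dᶜ from fun hh => hh hd)
    have h1 : gn Dᶜ ^ n * k ∉ D' := fun hh => hkD ((hD'.1.sat _ _ (ho' n)).2 hh)
    have h2 : gn Dᶜ ^ m * k ∉ D' := fun hh => hkD ((hD'.1.sat _ _ (ho' m)).2 hh)
    exact hD'.1.cvx d (hs hd) p hp _ h1 _ h2 (cr_comm.1 hcr)
  · intro hdis hkD
    obtain ⟨p, hp, hpD⟩ : ∃ p, p ∉ D' ∧ p ∉ D := by
      by_contra hcon
      push Not at hcon
      apply hne'
      ext w
      constructor
      · exact fun hw hwD => hdis w hwD hw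
      · intro hw
        by_contra hh
        exact hw (hcon w hh)
    obtain ⟨n, m, hcr⟩ := cross_orbit hw.compl (show k ∈ Dᶜ from hkl.out) (show p ∈ Dᶜ from hpD)
      (show d ∉ Dᶜ from fun hh => hh hd)
    have h1 : gn Dᶜ ^ n * k ∈ D' := (hD'.1.sat _ _ (ho' n)).1 hkD
    have h2 : gn Dᶜ ^ m * k ∈ D' := (hD'.1.sat _ _ (ho' m)).1 hkD
    exact hD'.1.cvx _ h1 _ h2 d (hdis d hd) p hp hcr

theorem Cohr.exists_out (h : Cohr x y Z) {D : Set (F g)} (hD : D ∈ MM x y) (hx : Near x D) (hy : Near y D) :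
    ∃ u, Out (MM x y) D u := by
  classical
  have key : ∀ (n : ℕ) (z : GP (F g)), z ∈ Z →
      {z' | (z' ∈ Z ∧ ∃ D, (Ln x D ∨ Ln y D) ∧ Ln z' D) ∧ z' < z}.ncard = n →
      ∀ D, D ∈ MM x y → Ln z D → Near x D → Near y D → ∃ u, Out (MM x y) D u := by
    intro n
    induction n using Nat.strong_induction_on with
    | _ n ih =>
      intro z hz hn D hD hzD hx hy
      obtain ⟨k, l, hkl, hk, hl⟩ := hzD.adj
      by_cases hout : Out (MM x y) D k
      · exact ⟨k, hout⟩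
      have hsat : ∀ E, (E = x ∨ E = y) → ∀ D', Sat E D' → Nst D D' := fun E hE D' hD' =>
        h.nst_sat hD (h.mem_of_sat hE hD')
      have hnear : ∀ E, (E = x ∨ E = y) → Near E D := by
        rintro E (rfl | rfl)
        · exact hx
        · exact hy
      have hDne : D.Nonempty := hzD.1.ne
      -- the set of the far sides is nonempty
      have hfar : (Far x y D k).Nonempty := by
        by_contra hcon
        rw [Set.not_nonempty_iff_eq_empty] at hcon
        apply hout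
        refine ⟨hkl.out, fun D' hD' hne => ⟨fun hs => ?_, fun hdis hkD => ?_⟩⟩
        · by_contra hkD
          have : D'ᶜ ∈ Far x y D k := ⟨Or.inr (by rwa [compl_compl]), fun z hz hzD => hzD (hs hz), hkD,
            fun hh => hne (compl_inj_iff.1 hh)⟩
          rw [hcon] at this
          exact this
        · have : D' ∈ Far x y D k := ⟨Or.inl hD', hdis, hkD, fun hh => h.norev hD (hh ▸ hD')⟩
          rw [hcon] at this
          exact this
      obtain ⟨A, ⟨hA, hdis, hkA, hAD⟩, hmax⟩ := (h.far_fin hDne k).exists_maximal hfar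
      have hmax' : ∀ B, B ∈ Far x y D k → A ⊆ B → B ⊆ A := fun B hB hAB => hmax hB hAB
      obtain ⟨d, hd⟩ := hDne
      -- orientation
      have hAM : A ∈ MM x y := by
        by_contra hAM
        have hA1 := hA.resolve_left hAM
        obtain ⟨E, hE, hlf, hLn⟩ : ∃ E, (E = x ∨ E = y) ∧ LF E ∧ Ln E Aᶜ := by
          rcases hA1 with h1 | h1
          · exact ⟨x, Or.inl rfl, h.kx.lf, h1⟩
          · exact ⟨y, Or.inr rfl, h.ky.lf, h1⟩
        obtain ⟨A', hA', hdis', hs', ⟨w, hw1, hw2⟩, hne'⟩ := (hnear E hE).next hlf (hsat E hE) hLn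
          (fun z hz hzA => hdis z hz hzA) (fun hh => hAD (by rw [hh, compl_compl]))
        rw [compl_compl] at hs'
        have : A' ∈ Far x y D k := ⟨h.mem_of_sat hE hA', hdis', hs' hkA, hne'⟩
        exact hw2 (hmax' A' this hs' hw1)
      have hnearA : ∀ E, (E = x ∨ E = y) → Near E A := by
        intro E hE
        by_contra hcon
        obtain ⟨a', b', hab, haP, hbP, ha, hb⟩ := h.near_or hE hAM hcon
        obtain ⟨A'', hA'', hdis'', ha'', hne''⟩ := (hnear E hE).sep (hsat E hE)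
          (q := a') (fun hh => hdis a' hh ha) haP
        have hb'' : b' ∈ A'' := (hA''.sat _ _ hab).1 ha''
        have hsub : A ⊆ A'' := by
          rcases h.nst_sat hAM (h.mem_of_sat hE hA'') with h3 | h3 | h3 | h3
          · exact h3
          · exact absurd (h3 hb'') hb
          · exact absurd ⟨ha, ha''⟩ (h3 a')
          · exact absurd (h3 d) (by simp [hdis d hd, hdis'' d hd])
        have : A'' ∈ Far x y D k := ⟨h.mem_of_sat hE hA'', hdis'', hsub hkA, hne''⟩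
        exact hb (hmax' A'' this hsub hb'')
      -- `A` is a line of a smaller member
      obtain ⟨z', hz', hzA⟩ := h.cov A hAM
      have hnle : ¬ z ≤ z' := by
        intro hle
        have hneD : A ≠ D := by
          rintro rfl
          exact hdis k hkA hkA
        exact (line_Y (h.kz z hz) hle hzD hkl hk hzA hneD hAD).2 hdis hkA
      have hlt : z' < z := lt_of_le_not_ge ((h.tot z hz z' hz').resolve_left hnle) hnle
      have hcard : {w | (w ∈ Z ∧ ∃ D, (Ln x D ∨ Ln y D) ∧ Ln w D) ∧ w < z'}.ncard < n := by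
        rw [← hn]
        refine Set.ncard_lt_ncard ⟨fun w hw => ⟨hw.1, hw.2.trans hlt⟩, fun hh => ?_⟩
          (h.fin.subset fun w hw => hw.1)
        exact lt_irrefl _ (hh ⟨⟨hz', A, hAM, hzA⟩, hlt⟩).2
      obtain ⟨u, hu1, hu2⟩ := ih _ hcard z' hz' rfl A hAM hzA (hnearA x (Or.inl rfl)) (hnearA y (Or.inr rfl))
      have hDA : D ≠ A := by
        rintro rfl
        exact hdis k hkA hkA
      refine ⟨u, (hu2 D hD hDA).2 fun w hw hwD => hdis w hwD hw, fun D' hD' hne => ⟨fun hs => ?_, fun hdis' => ?_⟩⟩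
      · by_contra huD
        rcases h.nst hD' hAM with h3 | h3 | h3 | h3
        · exact hdis d hd (h3 (hs hd))
        · have hne2 : D' ≠ A := by
            rintro rfl
            exact hdis d hd (hs hd)
          exact huD ((hu2 D' hD' hne2).1 h3)
        · have hsub : A ⊆ D'ᶜ := fun w hw hwD => h3 w ⟨hwD, hw⟩
          have : D'ᶜ ∈ Far x y D k := ⟨Or.inr (by rwa [compl_compl]), fun z hz hzD => hzD (hs hz), hsub hkA,
            fun hh => hne (compl_inj_iff.1 hh)⟩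
          have hEq : D'ᶜ = A := Set.Subset.antisymm (hmax' _ this hsub) hsub
          apply h.norev hD'
          rw [hEq]
          exact hAM
        · exact (h3 u).elim huD hu1
      · intro huD
        have hne2 : D' ≠ A := by
          rintro rfl
          exact hu1 huD
        rcases h.nst hD' hAM with h3 | h3 | h3 | h3
        · exact hu1 (h3 huD)
        · have : D' ∈ Far x y D k := ⟨Or.inl hD', hdis', h3 hkA, fun hh => h.norev hD (hh ▸ hD')⟩
          exact hu1 (hmax' _ this h3 huD)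
        · exact (hu2 D' hD' hne2).2 (fun w hw hwD => h3 w ⟨hwD, hw⟩) huD
        · exact (h3 d).elim (hdis' d hd) (hdis d hd)
  obtain ⟨z, hz, hzD⟩ := h.cov D hD
  exact key _ z hz rfl D hD hzD hx hy

/-- translates of outer points -/
theorem Cohr.out_tr (h : Cohr x y Z) {D : Set (F g)} {u γ : F g} (hγ : γ ∈ stD D) (hph : ph γ = 0)
    (hu : Out (MM x y) D u) : Out (MM x y) D (γ * u) := by
  refine ⟨fun hh => hu.1 ((mul_mem_iff hγ).1 hh), fun D' hD' hne => ?_⟩
  have hM : tr γ⁻¹ D' ∈ MM x y := by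
    show Ln x (tr γ⁻¹ D') ∨ Ln y (tr γ⁻¹ D')
    rw [h.kx.ln_tr (by simp [hph]), h.ky.ln_tr (by simp [hph])]
    exact hD'
  have hγ' : tr γ⁻¹ D = D := mem_stD.1 ((stD D).inv_mem hγ)
  have hne' : tr γ⁻¹ D' ≠ D := by
    intro hh
    rw [← hγ'] at hh
    exact hne (tr_inj hh)
  have h1 := hu.2 _ hM hne'
  have e : ∀ w, w ∈ tr γ⁻¹ D' ↔ γ * w ∈ D' := by
    intro w
    rw [mem_tr, _root_.inv_inv]
  rw [e] at h1
  refine ⟨fun hs => h1.1 fun w hw => (e w).2 (hs ((mul_mem_iff hγ).2 hw)), fun hdis => h1.2 fun w hw hw2 => ?_⟩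
  exact hdis _ ((mul_mem_iff hγ).2 hw) ((e w).1 hw2)

theorem Cohr.out_mem (h : Cohr x y Z) {D D' : Set (F g)} (hD : D ∈ MM x y) (hD' : D' ∈ MM x y) {u v : F g}
    (hDne : D.Nonempty) (hu : Out (MM x y) D u) (hv : Out (MM x y) D v) : u ∈ D' ↔ v ∈ D' := by
  by_cases hne : D' = D
  · rw [hne]
    exact iff_of_false hu.1 hv.1
  have h1 := hu.2 D' hD' hne
  have h2 := hv.2 D' hD' hne
  rcases h.nst hD hD' with h3 | h3 | h3 | h3
  · exact iff_of_true (h1.1 h3) (h2.1 h3)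
  · exact iff_of_false (fun hh => hu.1 (h3 hh)) (fun hh => hv.1 (h3 hh))
  · have h4 : ∀ z ∈ D, z ∉ D' := fun z hz hz' => h3 z ⟨hz, hz'⟩
    exact iff_of_false (h1.2 h4) (h2.2 h4)
  · exact iff_of_true ((h3 u).resolve_left hu.1) ((h3 v).resolve_left hv.1)

theorem Cohr.out_orb (h : Cohr x y Z) {E : GP (F g)} (hE : E = x ∨ E = y) {D : Set (F g)} (hD : D ∈ MM x y)
    {u : F g} (hu : Out (MM x y) D u) : OrbS E D u := by
  intro n
  have hk : KCut D := by
    rcases hD with h1 | h1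
    · exact h.kx.kcut h1.1
    · exact h.ky.kcut h1.1
  have hlf : LF E := by
    rcases hE with rfl | rfl
    · exact h.kx.lf
    · exact h.ky.lf
  rw [S_iff_ln hlf]
  intro D' hD'
  have hM : D' ∈ MM x y := by
    rcases hE with rfl | rfl
    · exact Or.inl hD'
    · exact Or.inr hD'
  exact h.out_mem hD hM hk.ne hu (h.out_tr (pow_mem_stD (gn_spec hk.wcut).mem n) (hk.ph_gn_pow n) hu)

theorem Cohr.out_P (h : Cohr x y Z) {E : GP (F g)} (hE : E = x ∨ E = y) {D : Set (F g)} (hD : D ∈ MM x y)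
    (hn : Near E D) {u : F g} (hu : Out (MM x y) D u) : u ∈ E.P := by
  by_contra huP
  obtain ⟨A, hA, hdis, huA, hne⟩ := hn.sep (fun D' hD' => h.nst_sat hD (h.mem_of_sat hE hD')) hu.1 huP
  rcases h.mem_of_sat hE hA with h1 | h1
  · refine (hu.2 A h1 ?_).2 hdis huA
    rintro rfl
    exact hu.1 huA
  · refine (hu.2 Aᶜ h1 ?_).1 (fun z hz hzA => hdis z hz hzA) huA
    intro hh
    exact hne (by rw [← hh, compl_compl])

/-- lines of the infimum -/
theorem Cohr.ln_inf (h : Cohr x y Z) {D : Set (F g)} (hD : D ∈ MM x y) (hx : Near x D) (hy : Near y D) :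
    Ln (x ⊓ y) D := by
  obtain ⟨u, hu⟩ := h.exists_out hD hx hy
  have ux := h.out_P (Or.inl rfl) hD hx hu
  have uy := h.out_P (Or.inr rfl) hD hy hu
  have ox := h.out_orb (Or.inl rfl) hD hu
  have oy := h.out_orb (Or.inr rfl) hD hu
  have hP : u ∈ (x ⊓ y).P := ⟨ux, uy⟩
  have oi : OrbS (x ⊓ y) D u := fun n => inf_S_of (ox n) (oy n)
  have hk : KCut D := by
    rcases hD with h1 | h1
    · exact h.kx.kcut h1.1
    · exact h.ky.kcut h1.1
  have hw := hk.wcut
  have hS : Sat (x ⊓ y) D := by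
    refine ⟨hk.ne, hk.ne', hk.cvx, fun p q hpq => ?_⟩
    by_cases hp : p ∈ x.P ∩ y.P
    · have h1 := (inf_S hp).1 hpq
      rcases hD with h2 | h2
      · exact h2.1.sat _ _ h1.1
      · exact h2.1.sat _ _ h1.2
    · have hq : q ∉ (x ⊓ y).P := fun hh => hp ((GP.col hpq).2 hh)
      by_contra hs
      by_cases hpD : p ∈ D
      · have hqD : q ∉ D := fun hh => hs (iff_of_true hpD hh)
        have := oi.cross hw (GP.symm hpq) hqD hpD
        exact hq ((GP.col this).1 hP)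
      · have hqD : q ∈ D := by
          by_contra hh
          exact hs (iff_of_false hpD hh)
        have := oi.cross hw hpq hpD hqD
        exact hp ((GP.col this).1 hP)
  have hkg := h.kx.inf h.ky
  refine (ln_or hkg.lf hS).resolve_right ?_
  intro hc
  obtain ⟨k', l', hkl, hk', hl'⟩ := hc.adj
  have ol : OrbS (x ⊓ y) D l' := (orbS_compl hw).1 (hkg.orb_inn hc.1 hkl)
  have := oi.same hw ol (iff_of_false hu.1 hkl.inn)
  exact hl' ((GP.col this).1 hP)

/-- lines of the supremum -/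
theorem Cohr.ln_sup (h : Cohr x y Z) {D : Set (F g)} (hD : D ∈ MM x y) (hx : Near x.dual Dᶜ)
    (hy : Near y.dual Dᶜ) : Ln (x ⊔ y) D := by
  have hD' : Dᶜ ∈ MM x.dual y.dual := by
    show Ln x.dual Dᶜ ∨ Ln y.dual Dᶜ
    rw [ln_dual, ln_dual, compl_compl]
    exact hD
  have := h.dual.ln_inf hD' hx hy
  rw [← sup_dual, ln_dual, compl_compl] at this
  exact this

/-- no other lines of the infimum -/
theorem Cohr.inf_sub_aux (h : Cohr x y Z) {D : Set (F g)} {k l : F g} (hS : Sat (x ⊓ y) D)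
    (hkl : Adj (x ⊓ y) D k l) (hk : k ∈ (x ⊓ y).P) (hl : l ∉ x.P) : D ∈ MM x y := by
  have hkx : k ∈ x.P := hk.1
  have hky : k ∈ y.P := hk.2
  have hlf := (h.kx.inf h.ky).lf
  have hnS : ¬ x.S k l := fun hh => hl ((GP.col hh).1 hkx)
  have hD' := ln_gap h.kx.lf hkx hnS
  have hkD' : k ∉ gap x k l := notMem_gap (GP.refl k)
  have hlD' : l ∈ gap x k l := mem_gap_self hnS
  by_cases hy : Near y (gap x k l)
  · have h1 := h.ln_inf (Or.inl hD') (near_of_ln h.kx.lf hD') hy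
    have h2 := hkl.unique hlf hS h1.1 hkD' hlD'
    rw [← h2]
    exact Or.inl hD'
  · obtain ⟨c', d', hcd, hcP, hdP, hc, hd⟩ := h.near_or (Or.inr rfl) (Or.inl hD') hy
    have hnS2 : ¬ y.S k c' := fun hh => hcP ((GP.col hh).1 hky)
    have hD2 := ln_gap h.ky.lf hky hnS2
    have hkD2 : k ∉ gap y k c' := notMem_gap (GP.refl k)
    have hcD2 : c' ∈ gap y k c' := mem_gap_self hnS2
    have hdD2 : d' ∈ gap y k c' := (hD2.1.sat _ _ hcd).1 hcD2
    have hsub : gap x k l ⊆ gap y k c' := by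
      rcases h.nst (Or.inl hD') (Or.inr hD2) with h3 | h3 | h3 | h3
      · exact h3
      · exact absurd (h3 hdD2) hd
      · exact absurd ⟨hc, hcD2⟩ (h3 c')
      · exact absurd (h3 k) (by simp [hkD', hkD2])
    by_cases hx : Near x (gap y k c')
    · have h1 := h.ln_inf (Or.inr hD2) hx (near_of_ln h.ky.lf hD2)
      have h2 := hkl.unique hlf hS h1.1 hkD2 (hsub hlD')
      rw [← h2]
      exact Or.inr hD2
    · exfalso
      obtain ⟨c'', d'', hcd2, hcP2, hdP2, hc2, hd2⟩ := h.near_or (Or.inl rfl) (Or.inr hD2) hx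
      have hnS3 : ¬ x.S k c'' := fun hh => hcP2 ((GP.col hh).1 hkx)
      have hD3 := ln_gap h.kx.lf hkx hnS3
      have hkD3 : k ∉ gap x k c'' := notMem_gap (GP.refl k)
      have hcD3 : c'' ∈ gap x k c'' := mem_gap_self hnS3
      have hdD3 : d'' ∈ gap x k c'' := (hD3.1.sat _ _ hcd2).1 hcD3
      have hsub2 : gap y k c' ⊆ gap x k c'' := by
        rcases h.nst (Or.inr hD2) (Or.inl hD3) with h3 | h3 | h3 | h3
        · exact h3
        · exact absurd (h3 hdD3) hd2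
        · exact absurd ⟨hc2, hcD3⟩ (h3 c'')
        · exact absurd (h3 k) (by simp [hkD2, hkD3])
      have h4 := gap_congr hnS3 (hsub2 (hsub hlD'))
      rw [← h4] at hsub2
      exact hd (hsub2 hdD2)

theorem Cohr.inf_sub (h : Cohr x y Z) {D : Set (F g)} (hD : Ln (x ⊓ y) D) : D ∈ MM x y := by
  obtain ⟨k, l, hkl, hk, hl⟩ := hD.adj
  by_cases hlx : l ∈ x.P
  · have hly : l ∉ y.P := fun hh => hl ⟨hlx, hh⟩
    have h1 := h.symm.inf_sub_aux (D := D) (k := k) (l := l) (by rw [inf_comm]; exact hD.1)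
      (by rw [inf_comm]; exact hkl) (by rw [inf_comm]; exact hk) hly
    exact h1.symm
  · exact h.inf_sub_aux hD.1 hkl hk hlx

theorem Cohr.sup_sub (h : Cohr x y Z) {D : Set (F g)} (hD : Ln (x ⊔ y) D) : D ∈ MM x y := by
  have h1 : Ln (x.dual ⊓ y.dual) Dᶜ := by
    rw [← sup_dual, ln_dual, compl_compl]
    exact hD
  have h2 := h.dual.inf_sub h1
  have h3 : Ln x.dual Dᶜ ∨ Ln y.dual Dᶜ := h2
  rw [ln_dual, ln_dual, compl_compl] at h3
  exact h3

theorem dual_near_of_ln {E : GP (F g)} (hE : LF E) {D : Set (F g)} (h : Ln E D) : Near E.dual Dᶜ :=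
  near_of_ln hE.dual (by rw [ln_dual, compl_compl]; exact h)

/-- a line of `x` only is a line of exactly one of the two -/
theorem Cohr.ln_one (h : Cohr x y Z) {D : Set (F g)} (hD : Ln x D) (hn : ¬ Ln y D) :
    (Ln (x ⊓ y) D ∧ ¬ Ln (x ⊔ y) D) ∨ (¬ Ln (x ⊓ y) D ∧ Ln (x ⊔ y) D) := by
  have hM : D ∈ MM x y := Or.inl hD
  have hnS : ¬ Sat y D := by
    intro hS
    rcases ln_or h.ky.lf hS with h1 | h1
    · exact hn h1
    · exact h.norev hM (Or.inr h1)
  obtain ⟨a, b, hab, hs⟩ : ∃ a b, y.S a b ∧ ¬ (a ∈ D ↔ b ∈ D) := by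
    by_contra hcon
    apply hnS
    refine ⟨hD.1.ne, hD.1.ne', hD.1.cvx, fun a b hab => ?_⟩
    by_contra hh
    exact hcon ⟨a, b, hab, hh⟩
  by_cases ha : a ∈ y.P
  · left
    refine ⟨h.ln_inf hM (near_of_ln h.kx.lf hD) (near_of_pair hab ha hs), fun hh => ?_⟩
    exact hs (hh.1.sat _ _ ((le_sup_right : y ≤ x ⊔ y).2 _ _ ha hab))
  · right
    refine ⟨fun hh => ?_, h.ln_sup hM (dual_near_of_ln h.kx.lf hD) ?_⟩
    · exact hs (hh.1.sat _ _ (S_of_le' (inf_le_right : x ⊓ y ≤ y) ha hab))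
    · refine near_of_pair (E := y.dual) (a := a) (b := b) hab ha ?_
      exact fun hh => hs (not_iff_not.1 hh)

open Classical in
/-- the lines of the infimum and of the supremum -/
theorem Cohr.count (h : Cohr x y Z) (D : Set (F g)) :
    ((if Ln (x ⊔ y) D then 1 else 0) + (if Ln (x ⊓ y) D then 1 else 0) : ℤ) =
      (if Ln x D then 1 else 0) + (if Ln y D then 1 else 0) := by
  by_cases hx : Ln x D
  · by_cases hy : Ln y D
    · have h1 := h.ln_inf (Or.inl hx) (near_of_ln h.kx.lf hx) (near_of_ln h.ky.lf hy)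
      have h2 := h.ln_sup (Or.inl hx) (dual_near_of_ln h.kx.lf hx) (dual_near_of_ln h.ky.lf hy)
      rw [if_pos hx, if_pos hy, if_pos h1, if_pos h2]
    · rcases h.ln_one hx hy with ⟨h1, h2⟩ | ⟨h1, h2⟩
      · rw [if_pos hx, if_neg hy, if_pos h1, if_neg h2]
        ring
      · rw [if_pos hx, if_neg hy, if_neg h1, if_pos h2]
  · by_cases hy : Ln y D
    · have h3 := h.symm.ln_one hy hx
      rw [inf_comm, sup_comm] at h3
      rcases h3 with ⟨h1, h2⟩ | ⟨h1, h2⟩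
      · rw [if_neg hx, if_pos hy, if_pos h1, if_neg h2]
      · rw [if_neg hx, if_pos hy, if_neg h1, if_pos h2]
        ring
    · have h1 : ¬ Ln (x ⊓ y) D := fun hh => (h.inf_sub hh).elim hx hy
      have h2 : ¬ Ln (x ⊔ y) D := fun hh => (h.sup_sub hh).elim hx hy
      rw [if_neg hx, if_neg hy, if_neg h1, if_neg h2]

end TorL
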