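import Mathlib
import Pool.Agent.Lib.MP_05cdf2_gt.L.Coh

/-! MP_05cdf2_gt, stream L (helper49): the frontier half of axiom `coh`. -/

set_option autoImplicit false
set_option linter.unusedSectionVars false

namespace TorL
open TorM TorG

variable {g : ℕ} [NeZero g]

theorem act_t_succ (X : Hf g) (a : ℤ) : X.act (t0 ^ (a + 1)) = (Hf.tIso g X).act (t0 ^ a) := by
  rw [Hf.tIso_apply, ← Hf.act_mul, zpow_add_one]

theorem act_mono {X : Hf g} (hX : X ≤ Hf.tIso g X) {a b : ℤ} (hab : a ≤ b) :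
    X.act (t0 ^ a) ≤ X.act (t0 ^ b) := by
  induction b, hab using Int.leInduction with
  | base => exact le_refl _
  | succ b _ ih =>
    rw [act_t_succ]
    exact ih.trans ((Hf.act_le_iff _).2 hX)

/-- the translates of the members of a list -/
def ZZ (l : List (Hf g)) : Set (GP (F g)) := {E | ∃ z ∈ l, ∃ k : ℤ, E = (z.act (t0 ^ k)).E}

theorem cohr_of_list (l : List (Hf g)) (hp : l.Pairwise (fun x y => x ≤ y ∧ y ≤ Hf.tIso g x))
    (hg : ∀ x ∈ l, x ≤ Hf.tIso g x) (x y : Hf g)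
    (hx : ∀ c ∈ fr x, ∃ z ∈ l, ∃ k : ℤ, (tcv g ^ k) c ∈ fr z)
    (hy : ∀ c ∈ fr y, ∃ z ∈ l, ∃ k : ℤ, (tcv g ^ k) c ∈ fr z) : Cohr x.E y.E (ZZ l) where
  kx := x.kg
  ky := y.kg
  kz := by
    rintro _ ⟨z, -, k, rfl⟩
    exact (z.act _).kg
  tot := by
    have hall : ∀ z ∈ l, ∀ z' ∈ l, (z ≤ z' ∧ z' ≤ Hf.tIso g z) ∨ (z' ≤ z ∧ z ≤ Hf.tIso g z') := by
      intro z hz z' hz'
      let R : Hf g → Hf g → Prop := fun z z' => (z ≤ z' ∧ z' ≤ Hf.tIso g z) ∨ (z' ≤ z ∧ z ≤ Hf.tIso g z')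
      haveI : Std.Symm R := ⟨fun _ _ h => h.symm⟩
      have h1 : l.Pairwise R := hp.imp fun h => Or.inl h
      exact List.Pairwise.forall_of_forall (R := R) (fun z hz => Or.inl ⟨le_refl z, hg z hz⟩) h1 hz hz'
    have key : ∀ (z z' : Hf g) (a b : ℤ), z ∈ l → z' ∈ l → z ≤ z' → z' ≤ Hf.tIso g z →
        z.act (t0 ^ a) ≤ z'.act (t0 ^ b) ∨ z'.act (t0 ^ b) ≤ z.act (t0 ^ a) := by
      intro z z' a b hz hz' h1 h2
      rcases le_or_gt a b with h3 | h3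
      · left
        exact ((Hf.act_le_iff _).2 h1).trans (act_mono (hg z' hz') h3)
      · right
        have h4 : z'.act (t0 ^ b) ≤ z.act (t0 ^ (b + 1)) := by
          rw [act_t_succ]
          exact (Hf.act_le_iff _).2 h2
        exact h4.trans (act_mono (hg z hz) h3)
    rintro _ ⟨z, hz, a, rfl⟩ _ ⟨z', hz', b, rfl⟩
    rcases hall z hz z' hz' with h1 | h1
    · exact key z z' a b hz hz' h1.1 h1.2
    · exact (key z' z b a hz' hz h1.1 h1.2).symm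
  cov := by
    have key : ∀ x : Hf g, (∀ c ∈ fr x, ∃ z ∈ l, ∃ k : ℤ, (tcv g ^ k) c ∈ fr z) → ∀ D, Ln x.E D →
        ∃ z ∈ ZZ l, Ln z D := by
      intro x hx D hD
      have hk := x.kg.kcut hD.1
      obtain ⟨z, hz, k, h1⟩ := hx _ ((cv_mem_fr hk).2 hD)
      rw [tcv_zpow, cact_cv, cv_mem_fr] at h1
      refine ⟨_, ⟨z, hz, -k, rfl⟩, ?_⟩
      rw [Hf.act_E]
      have h2 := ln_map (E := z.E) (D := tr (t0 ^ k) D) (lt (t0 ^ (-k)))
      rw [mp_lt, tr_tr, ← zpow_add, neg_add_cancel, zpow_zero, tr_one] at h2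
      exact h2.2 h1
    intro D hD
    rcases hD with h | h
    · exact key x hx D h
    · exact key y hy D h
  fin := by
    obtain ⟨M, N, hMN⟩ := x.kg.bd
    obtain ⟨M', N', hMN'⟩ := y.kg.bd
    have hbd : ∀ z : Hf g, ∃ P Q : ℤ, ∀ D, Sat z.E D → ∀ x (l : Ltr g), ¬ (x ∈ D ↔ x * le l ∈ D) →
        P ≤ ph x ∧ ph x ≤ Q := fun z => z.kg.bd
    choose P Q hPQ using hbd
    refine ((List.finite_toSet l).biUnion (t := fun z =>
      (fun k : ℤ => (z.act (t0 ^ k)).E) '' Set.Icc (min M M' - Q z) (max N N' - P z)) fun z _ =>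
        (Set.finite_Icc _ _).image _).subset ?_
    rintro _ ⟨⟨z, hz, k, rfl⟩, D, hD, hDz⟩
    refine Set.mem_biUnion hz ⟨k, ?_, rfl⟩
    obtain ⟨w, m, hw⟩ := ((z.act (t0 ^ k)).kg.kcut hDz.1).letter
    have h1 : min M M' ≤ ph w ∧ ph w ≤ max N N' := by
      rcases hD with h | h
      · have := hMN D h.1 w m hw
        omega
      · have := hMN' D h.1 w m hw
        omega
    have h2 : Sat z.E (tr (t0 ^ (-k)) D) := by
      have h3 := sat_map (E := (z.act (t0 ^ k)).E) (D := D) (lt (t0 ^ (-k)))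
      rw [Hf.act_E, ← map_mul', ← lt_mul, ← zpow_add, neg_add_cancel, zpow_zero, lt_one, map_one', mp_lt] at h3
      exact h3.2 hDz.1
    have h3 := hPQ z _ h2 (t0 ^ (-k) * w) m (by
      rw [mul_mem_tr, mul_assoc, mul_mem_tr]
      exact hw)
    rw [ph_mul, ph_zpow, ph_t0] at h3
    rw [Set.mem_Icc]
    omega

open Classical in
/-- the frontier half of axiom `coh` -/
theorem hf_coh (l : List (Hf g)) (hp : l.Pairwise (fun x y => x ≤ y ∧ y ≤ Hf.tIso g x))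
    (hg : ∀ x ∈ l, x ≤ Hf.tIso g x) (x y : Hf g)
    (hx : ∀ c ∈ fr x, ∃ z ∈ l, ∃ k : ℤ, (tcv g ^ k) c ∈ fr z)
    (hy : ∀ c ∈ fr y, ∃ z ∈ l, ∃ k : ℤ, (tcv g ^ k) c ∈ fr z) (c : Cv g) :
    ((if c ∈ fr (x ⊔ y) then 1 else 0) + (if c ∈ fr (x ⊓ y) then 1 else 0) : ℤ) =
      (if c ∈ fr x then 1 else 0) + (if c ∈ fr y then 1 else 0) := by
  obtain ⟨D, hD, rfl⟩ := c.rep
  have h1 := (cohr_of_list l hp hg x y hx hy).count D
  have e1 : (cv D hD ∈ fr (x ⊔ y)) = (Ln (x.E ⊔ y.E) D) := propext (cv_mem_fr hD)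
  have e2 : (cv D hD ∈ fr (x ⊓ y)) = (Ln (x.E ⊓ y.E) D) := propext (cv_mem_fr hD)
  have e3 : (cv D hD ∈ fr x) = (Ln x.E D) := propext (cv_mem_fr hD)
  have e4 : (cv D hD ∈ fr y) = (Ln y.E D) := propext (cv_mem_fr hD)
  simp only [e1, e2, e3, e4]
  exact h1

end TorL
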