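import Mathlib
import Pool.Agent.Lib.MP_05cdf2_gt.L.HCoh
import Pool.Agent.Lib.MP_05cdf2_gt.G.Gen

/-! MP_05cdf2_gt, stream L (helper49): the action of the mapping classes which preserve `ph` on half spaces, and the
homology class of the frontier of a half space with one frontier curve. -/

set_option autoImplicit false
set_option linter.unusedSectionVars false

namespace TorL
open TorM TorG

section ws
variable {α : Type}

theorem ws_levels {G : Type} [AddCommGroup G] {Fm : Set (Set α)} (hF : LFm Fm) (Gn : ℤ → Set (Set α))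
    (hG : ∀ D, D ∈ Fm ↔ ∃ n, D ∈ Gn n) (hdis : ∀ n m D, D ∈ Gn n → D ∈ Gn m → n = m) (a : Set α → G)
    (x y : α) (I : Finset ℤ) (hI : ∀ n, ∀ D ∈ Gn n, ¬ (x ∈ D ↔ y ∈ D) → n ∈ I) :
    ws Fm a x y = ∑ n ∈ I, ws (Gn n) a x y := by
  classical
  let S := (hF x y).toFinset
  have e1 : ws Fm a x y = ∑ D ∈ S, if D ∈ Fm then ch D x y • a D else 0 := by
    unfold ws
    refine finsum_eq_sum_of_support_subset _ ?_
    intro D hD
    rw [Function.mem_support] at hD
    rw [Finset.mem_coe, Set.Finite.mem_toFinset]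
    by_cases hF' : D ∈ Fm
    · rw [if_pos hF'] at hD
      refine ⟨hF', fun hh => hD ?_⟩
      rw [ch_zero hh, zero_smul]
    · rw [if_neg hF'] at hD
      exact absurd rfl hD
  have e2 : ∀ n, ws (Gn n) a x y = ∑ D ∈ S, if D ∈ Gn n then ch D x y • a D else 0 := by
    intro n
    unfold ws
    refine finsum_eq_sum_of_support_subset _ ?_
    intro D hD
    rw [Function.mem_support] at hD
    rw [Finset.mem_coe, Set.Finite.mem_toFinset]
    by_cases hF' : D ∈ Gn n
    · rw [if_pos hF'] at hD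
      refine ⟨(hG D).2 ⟨n, hF'⟩, fun hh => hD ?_⟩
      rw [ch_zero hh, zero_smul]
    · rw [if_neg hF'] at hD
      exact absurd rfl hD
  rw [e1, Finset.sum_congr rfl fun n _ => e2 n, Finset.sum_comm]
  refine Finset.sum_congr rfl fun D hD => ?_
  rw [Set.Finite.mem_toFinset] at hD
  obtain ⟨n, hn⟩ := (hG D).1 hD.1
  rw [if_pos hD.1, Finset.sum_eq_single n]
  · rw [if_pos hn]
  · intro m _ hm
    rw [if_neg fun hh => hm (hdis _ _ _ hh hn)]
  · intro hnI
    exact absurd (hI n D hn hD.2) hnI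

end ws

variable {g : ℕ} [NeZero g]

/-- mapping classes which preserve `ph` -/
def Hph (g : ℕ) [NeZero g] : Subgroup (Gam g) where
  carrier := {φ | ∀ x, ph ((φ : MulAut (F g)) x) = ph x}
  one_mem' _ := rfl
  mul_mem' {a b} ha hb x := by
    show ph ((a : MulAut (F g)) ((b : MulAut (F g)) x)) = ph x
    rw [ha, hb]
  inv_mem' {a} ha x := by
    have h := ha ((a : MulAut (F g)).symm x)
    rw [MulEquiv.apply_symm_apply] at h
    exact h.symm

theorem ph_symm (φ : Hph g) (x : F g) : ph (((φ : Gam g) : MulAut (F g)).symm x) = ph x := by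
  have h := φ.2 (((φ : Gam g) : MulAut (F g)).symm x)
  rw [MulEquiv.apply_symm_apply] at h
  exact h.symm

/-- an automorphism preserves crossing -/
def auC (φ : Gam g) : CrAut (F g) :=
  ⟨(φ : MulAut (F g)).toEquiv, fun _ _ _ _ => aut_cr (φ : MulAut (F g)) φ.2⟩

theorem mp_auC (φ : Gam g) (D : Set (F g)) : mp (auC φ) D = im (φ : MulAut (F g)) D := rfl

theorem auC_symm (φ : Gam g) (x : F g) : (auC φ : Equiv.Perm (F g)).symm x = (φ : MulAut (F g)).symm x := rfl

theorem auC_mul (φ ψ : Gam g) : auC (φ * ψ) = auC φ * auC ψ := rfl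

theorem auC_one : auC (1 : Gam g) = 1 := rfl

theorem auC_lt (φ : Gam g) (h : F g) : auC φ * lt h = lt ((φ : MulAut (F g)) h) * auC φ := by
  apply Subtype.ext
  apply Equiv.ext
  intro x
  show (φ : MulAut (F g)) (h * x) = (φ : MulAut (F g)) h * (φ : MulAut (F g)) x
  exact map_mul _ _ _

/-- edges of far left points are related, also for longer edges -/
theorem far_rel (w : F g) : ∃ R : ℤ, ∀ (E : GP (F g)) (y : F g),
    (∀ z (l : Ltr g), |ph z - ph y| ≤ R → E.S z (z * le l)) → E.S y (y * w) := by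
  obtain ⟨R, hR⟩ := path_edge (g := g) w
  refine ⟨R, fun E y h => ?_⟩
  by_contra hcon
  obtain ⟨z, l, hz, hl⟩ := hR y (cl E y) (fun hh => hcon (hh.1 (GP.refl y)))
  apply hl
  have h1 := h z l hz
  exact ⟨fun h2 => GP.trans h2 h1, fun h2 => GP.trans h2 (GP.symm h1)⟩

theorem far_rel_all (φ : Gam g) : ∃ R : ℤ, 0 ≤ R ∧ ∀ (l : Ltr g) (E : GP (F g)) (y : F g),
    (∀ z (l : Ltr g), |ph z - ph y| ≤ R → E.S z (z * le l)) →
      E.S y (y * (φ : MulAut (F g)).symm (le l)) := by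
  have h : ∀ l : Ltr g, ∃ R : ℤ, ∀ (E : GP (F g)) (y : F g),
    (∀ z (l : Ltr g), |ph z - ph y| ≤ R → E.S z (z * le l)) →
      E.S y (y * (φ : MulAut (F g)).symm (le l)) := fun l => far_rel _
  choose R hR using h
  refine ⟨∑ l : Ltr g, |R l|, Finset.sum_nonneg fun _ _ => abs_nonneg _, fun l E y hy => hR l E y fun z m hz => ?_⟩
  refine hy z m (hz.trans ((le_abs_self _).trans ?_))
  exact Finset.single_le_sum (f := fun l => |R l|) (fun _ _ => abs_nonneg _) (Finset.mem_univ l)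

/-- the action on half spaces -/
noncomputable def Hf.hm (φ : Hph g) (X : Hf g) : Hf g where
  E := X.E.map (auC (φ : Gam g))
  J := X.J
  lev x := by
    rw [map_P, mem_mp, auC_symm, X.lev, ph_symm]
  inv k hk := by
    have h1 : lt k * auC (φ : Gam g) = auC (φ : Gam g) * lt (((φ : Gam g) : MulAut (F g)).symm k) := by
      rw [auC_lt, MulEquiv.apply_symm_apply]
    rw [← map_mul', h1, map_mul', X.inv _ (by rw [ph_symm, hk])]
  lf := X.lf.map _
  lo := by
    obtain ⟨M, hM⟩ := X.lo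
    obtain ⟨R, hR0, hR⟩ := far_rel_all (φ : Gam g)
    refine ⟨M - R - 1, fun x l h1 h2 => ?_⟩
    show X.E.S (((φ : Gam g) : MulAut (F g)).symm x) (((φ : Gam g) : MulAut (F g)).symm (x * le l))
    rw [map_mul]
    refine hR l X.E _ fun z m hz => ?_
    rw [ph_symm, abs_le] at hz
    have h3 := ph_le (g := g) m
    exact hM z m (by omega) (by rw [ph_mul]; omega)
  hi := by
    obtain ⟨M, hM⟩ := X.hi
    obtain ⟨R, hR0, hR⟩ := far_rel_all (φ : Gam g)
    refine ⟨M + R + 1, fun x l h1 h2 => ?_⟩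
    show X.E.S (((φ : Gam g) : MulAut (F g)).symm x) (((φ : Gam g) : MulAut (F g)).symm (x * le l))
    rw [map_mul]
    refine hR l X.E _ fun z m hz => ?_
    rw [ph_symm, abs_le] at hz
    have h3 := ph_le (g := g) m
    exact hM z m (by omega) (by rw [ph_mul]; omega)

noncomputable instance : MulAction (Hph g) (Hf g) where
  smul := Hf.hm
  one_smul X := Hf.E_inj rfl
  mul_smul φ ψ X := Hf.E_inj rfl

theorem smul_E (φ : Hph g) (X : Hf g) : (φ • X).E = X.E.map (auC (φ : Gam g)) := rfl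

theorem smul_J (φ : Hph g) (X : Hf g) : (φ • X).J = X.J := rfl

theorem smul_le_iff (φ : Hph g) {X Y : Hf g} : φ • X ≤ φ • Y ↔ X ≤ Y := map_le_iff _

theorem smul_t (φ : Hph g) (X : Hf g) : φ • (Hf.tIso g X) = Hf.tIso g (φ • X) := by
  rw [Hf.tIso_apply, Hf.tIso_apply]
  have h1 : φ • (X.act t0) = (φ • X).act (((φ : Gam g) : MulAut (F g)) t0) := by
    apply Hf.E_inj
    rw [smul_E, Hf.act_E, Hf.act_E, smul_E, ← map_mul', ← map_mul', auC_lt]
  rw [h1]
  exact Hf.act_eq (by rw [φ.2]) _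

theorem smul_ln (φ : Hph g) {X : Hf g} {D : Set (F g)} :
    Ln (φ • X).E (im ((φ : Gam g) : MulAut (F g)) D) ↔ Ln X.E D := ln_map (auC (φ : Gam g))

/-- half spaces with one frontier curve -/
def One (X : Hf g) (D : Set (F g)) : Prop := Ln X.E D ∧ ∀ D', Ln X.E D' → D' ∈ orbK D

theorem card_one_iff {X : Hf g} : (fr X).card = 1 ↔ ∃ D, One X D := by
  constructor
  · intro h
    obtain ⟨c, hc⟩ := Finset.card_eq_one.1 h
    obtain ⟨D, hD, rfl⟩ := c.rep
    refine ⟨D, (cv_mem_fr hD).1 (by rw [hc]; exact Finset.mem_singleton_self _), fun D' hD' => ?_⟩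
    have h1 := (cv_mem_fr (X.kg.kcut hD'.1)).2 hD'
    rw [hc, Finset.mem_singleton, cv_eq_iff] at h1
    exact h1
  · rintro ⟨D, hD, hD2⟩
    have hk := X.kg.kcut hD.1
    rw [Finset.card_eq_one]
    refine ⟨cv D hk, Finset.eq_singleton_iff_unique_mem.2 ⟨(cv_mem_fr hk).2 hD, fun c hc => ?_⟩⟩
    obtain ⟨D', hD', rfl⟩ := c.rep
    rw [cv_mem_fr] at hc
    rw [cv_eq_iff]
    exact hD2 D' hc

theorem One.smul {X : Hf g} {D : Set (F g)} (h : One X D) (φ : Hph g) :
    One (φ • X) (im ((φ : Gam g) : MulAut (F g)) D) := by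
  refine ⟨(smul_ln φ).2 h.1, fun D' hD' => ?_⟩
  have h1 : D' = im ((φ : Gam g) : MulAut (F g)) (im ((φ : Gam g) : MulAut (F g))⁻¹ D') := (im_im_inv _ _).symm
  rw [h1, smul_ln] at hD'
  obtain ⟨k, hk, h2⟩ := h.2 _ hD'
  refine ⟨((φ : Gam g) : MulAut (F g)) k, by rw [φ.2, hk], ?_⟩
  rw [h1, h2, im_tr]

theorem One.uniq {X : Hf g} {D D' : Set (F g)} (h : One X D) (h' : One X D') : D' ∈ orbK D := h.2 _ h'.1

theorem tot_act {X Y : Hf g} (hX : X ≤ Hf.tIso g X) (hY : Y ≤ Hf.tIso g Y) (h1 : X ≤ Y) (h2 : Y ≤ Hf.tIso g X)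
    (a b : ℤ) : X.act (t0 ^ a) ≤ Y.act (t0 ^ b) ∨ Y.act (t0 ^ b) ≤ X.act (t0 ^ a) := by
  rcases le_or_gt a b with h3 | h3
  · left
    exact ((Hf.act_le_iff _).2 h1).trans (act_mono hY h3)
  · right
    have h4 : Y.act (t0 ^ b) ≤ X.act (t0 ^ (b + 1)) := by
      rw [act_t_succ]
      exact (Hf.act_le_iff _).2 h2
    exact h4.trans (act_mono hX h3)

theorem ln_act {X : Hf g} {D : Set (F g)} (h : Ln X.E D) (k : F g) : Ln (X.act k).E (tr k D) := ln_map' h (lt k)

/-- translates of lines of two members of a cyclic chain are nested -/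
theorem nest_act {X Y : Hf g} (hX : X ≤ Hf.tIso g X) (hY : Y ≤ Hf.tIso g Y) (h1 : X ≤ Y) (h2 : Y ≤ Hf.tIso g X)
    {D D' : Set (F g)} (hD : Ln X.E D) (hD' : Ln Y.E D') (k k' : F g) : Nest (tr k D) (tr k' D') := by
  have a1 := ln_act hD k
  have a2 := ln_act hD' k'
  have e1 : X.act k = X.act (t0 ^ ph k) := Hf.act_eq (by rw [ph_zpow, ph_t0, mul_one]) X
  have e2 : Y.act k' = Y.act (t0 ^ ph k') := Hf.act_eq (by rw [ph_zpow, ph_t0, mul_one]) Y
  rw [e1] at a1
  rw [e2] at a2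
  rcases tot_act hX hY h1 h2 (ph k) (ph k') with h3 | h3
  · exact nest_of_le (X.act _).lf h3 a1.1 a2.1
  · exact (nest_of_le (Y.act _).lf h3 a2.1 a1.1).symm

theorem ccut_of {X : Hf g} (hX : X ≤ Hf.tIso g X) {D : Set (F g)} (hD : Ln X.E D) : CCut D where
  toWCut := X.kg.wcut hD.1
  nest h := by
    have := nest_act hX hX (le_refl X) hX hD hD h 1
    rwa [tr_one] at this

theorem One.lines {X : Hf g} {D : Set (F g)} (h : One X D) (n : ℤ) :
    LnS (X.act (t0 ^ n)).E = orbK (tr (t0 ^ n) D) := by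
  ext A
  constructor
  · intro hA
    have h1 : Ln X.E (tr (t0 ^ n)⁻¹ A) := by
      have h2 := ln_map (E := X.E) (D := tr (t0 ^ n)⁻¹ A) (lt (t0 ^ n))
      rw [mp_lt, tr_tr, mul_inv_cancel, tr_one] at h2
      exact h2.1 hA
    have h2 := h.2 _ h1
    rw [← mem_orbK_tr (t0 ^ n), tr_tr, mul_inv_cancel, tr_one] at h2
    exact h2
  · intro hA
    obtain ⟨k, hk, rfl⟩ := hA
    exact ((X.act (t0 ^ n)).kg.ln_tr hk).2 (ln_act h.1 _)

/-- the class of the frontier curve -/
theorem One.class {X : Hf g} (hJ : X.J = 0) {D : Set (F g)} (h : One X D) :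
    abv (gn D) = v0 g := by
  classical
  have hk := X.kg.kcut h.1.1
  have hw := hk.wcut
  have hF : LFm {A | ∃ h, A = tr h D} := fun x y => hw.fin x y
  have key : ∀ x : F g, (ph x = 0 → om (abv (gn D)) (abv x) = 0) ∧ (ph x = 1 → om (abv (gn D)) (abv x) = 1) := by
    intro x
    have h1 := cross_formula hw (gn_spec hw) x
    have h2 := ws_card hF (1 : F g) x
    have h3 : ws {A | ∃ h, A = tr h D} (fun _ => (1 : ℤ)) 1 x = om (abv (gn D)) (abv x) := by
      rw [h2]
      exact h1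
    -- the levels of the separating translates
    have hdis : ∀ (n m : ℤ) (A : Set (F g)), A ∈ orbK (tr (t0 ^ n) D) → A ∈ orbK (tr (t0 ^ m) D) → n = m := by
      rintro n m A ⟨k, hk', rfl⟩ ⟨k', hk'', h4⟩
      rw [tr_tr, tr_tr] at h4
      have h5 : (k' * t0 ^ m)⁻¹ * (k * t0 ^ n) ∈ stD D := by
        rw [mem_stD, ← tr_tr, h4, tr_tr, inv_mul_cancel, tr_one]
      have h6 := hk.st h5
      rw [ph_mul, ph_inv, ph_mul, ph_mul, hk', hk'', ph_zpow, ph_zpow, ph_t0] at h6
      omega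
    have hcov : ∀ A : Set (F g), A ∈ {A | ∃ h, A = tr h D} ↔ ∃ n : ℤ, A ∈ orbK (tr (t0 ^ n) D) := by
      intro A
      constructor
      · rintro ⟨h, rfl⟩
        refine ⟨ph h, h * (t0 ^ ph h)⁻¹, ?_, ?_⟩
        · rw [ph_mul, ph_inv, ph_zpow, ph_t0]
          ring
        · rw [tr_tr, inv_mul_cancel_right]
      · rintro ⟨n, k, -, rfl⟩
        exact ⟨_, tr_tr _ _ _⟩
    have hfin : {n : ℤ | ∃ A ∈ orbK (tr (t0 ^ n) D), ¬ ((1 : F g) ∈ A ↔ x ∈ A)}.Finite := by
      refine Set.Finite.of_finite_image (f := fun n : ℤ => {A | A ∈ orbK (tr (t0 ^ n) D) ∧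
        ¬ ((1 : F g) ∈ A ↔ x ∈ A)}) ((hF 1 x).finite_subsets.subset ?_) ?_
      · rintro _ ⟨n, -, rfl⟩ A hA
        exact ⟨(hcov A).2 ⟨n, hA.1⟩, hA.2⟩
      · rintro n ⟨A, hA, hA2⟩ m - hnm
        have h4 : A ∈ {A | A ∈ orbK (tr (t0 ^ n) D) ∧ ¬ ((1 : F g) ∈ A ↔ x ∈ A)} := ⟨hA, hA2⟩
        simp only at hnm
        rw [hnm] at h4
        exact hdis n m A hA h4.1
    have h4 := ws_levels hF (fun n : ℤ => orbK (tr (t0 ^ n) D)) hcov hdis (fun _ => (1 : ℤ)) 1 x
      (insert 0 hfin.toFinset) (by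
        intro n A hA hA2
        rw [Finset.mem_insert, Set.Finite.mem_toFinset]
        exact Or.inr ⟨A, hA, hA2⟩)
    have h5 : ∀ n : ℤ, ws (orbK (tr (t0 ^ n) D)) (fun _ => (1 : ℤ)) 1 x =
        (if 0 ≤ n then 1 else 0) - (if ph x ≤ n then 1 else 0) := by
      intro n
      rw [← h.lines n, signed (X.act (t0 ^ n)).lf]
      simp only [(X.act (t0 ^ n)).lev, Hf.act_J, hJ, ph_zpow, ph_t0, ph_one, mul_one, zero_add]
    rw [h3, Finset.sum_congr rfl fun n _ => h5 n] at h4
    constructor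
    · intro h0
      rw [h4]
      refine Finset.sum_eq_zero fun n _ => ?_
      rw [h0, sub_self]
    · intro h0
      rw [h4, Finset.sum_eq_single 0]
      · rw [h0]
        simp
      · intro n _ hn
        rw [h0]
        by_cases h6 : 0 ≤ n
        · rw [if_pos h6, if_pos (by omega), sub_self]
        · rw [if_neg h6, if_neg (by omega), sub_self]
      · intro h6
        exact absurd (Finset.mem_insert_self _ _) h6
  have om_inl : ∀ j : Fin g, om (abv (gn D)) (Pi.single (Sum.inl j) 1) = - abv (gn D) (Sum.inr j) := by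
    intro j
    unfold om
    rw [Finset.sum_eq_single j]
    · simp
    · intro b _ hb
      simp [hb]
    · simp
  have om_inr : ∀ j : Fin g, om (abv (gn D)) (Pi.single (Sum.inr j) 1) = abv (gn D) (Sum.inl j) := by
    intro j
    unfold om
    rw [Finset.sum_eq_single j]
    · simp
    · intro b _ hb
      simp [hb]
    · simp
  unfold v0
  ext i
  rcases i with j | j
  · rw [← om_inr j, ← abv_of]
    by_cases hj : j = 0
    · subst hj
      rw [(key (FreeGroup.of (Sum.inr 0))).2 ph_t0]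
      simp
    · have h0 : ph (FreeGroup.of (Sum.inr j) : F g) = 0 := by
        unfold ph
        rw [abv_of, Pi.single_apply, if_neg (by
          intro hh
          exact hj (Sum.inr_injective hh).symm)]
      rw [(key _).1 h0, Pi.single_apply, if_neg (by
        intro hh
        exact hj (Sum.inl_injective hh))]
  · have h0 : ph (FreeGroup.of (Sum.inl j) : F g) = 0 := by
      unfold ph
      rw [abv_of, Pi.single_apply, if_neg (by simp)]
    have h1 := (key _).1 h0
    rw [abv_of, om_inl] at h1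
    rw [Pi.single_apply, if_neg (by simp)]
    omega

end TorL
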