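import Pool.Agent.Lib.MP_05cdf2_gt.L.UD
import Pool.Agent.Lib.MP_05cdf2_gt.T.Fin

/-! MP_05cdf2_gt, stream A, assembly: `HLat (Hf g) (Cv g)` from the numbers `nn`, `rho` (structure `Nums`) and the arc systems (`HN`).

`Chy X Y`: all lines of `X` and `Y` belong to a totally ordered family of regions (so they do not cross).
`Nums g`: the numbers; `rho` is strictly monotone and modular on pairs with `Chy`, `nn` is subadditive.
`slb N`: the structure `TorT.Slb` of `Hf g`, `ok X Y := Y ≤ t X`; `hlat N hN`: the structure `TorA.HLat`.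
`hasUData_of_nums`. -/

set_option autoImplicit false

namespace TorL
open TorG Tor

variable {g : ℕ} [NeZero g]

/-- all lines of `X` and `Y` are lines of a totally ordered family of regions -/
def Chy (X Y : Hf g) : Prop := ∃ Z, Cohr X.E Y.E Z

variable (g) in
/-- the numbers of regions -/
structure Nums where
  /-- the genus number of a slab -/
  nn : Hf g → Hf g → ℤ
  /-- the area -/
  rho : Hf g → ℤ
  /-- the total area -/
  P : ℤ
  /-- the total genus number -/
  G : ℕ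
  rho_t : ∀ X, rho (Hf.tIso g X) = rho X + P
  nn_sub : ∀ X Y Z, X ≤ Y → Y ≤ Z → Z ≤ Hf.tIso g X → nn X Z ≤ nn X Y + nn Y Z
  nn_self : ∀ X, nn X X ≤ 0
  nn_G : ∀ X, X ≤ Hf.tIso g X → (G : ℤ) ≤ nn X (Hf.tIso g X)
  rho_lt : ∀ X Y, X < Y → rho X < rho Y
  rho_md : ∀ X Y, Chy X Y → rho (X ⊔ Y) + rho (X ⊓ Y) = rho X + rho Y

open Classical in
theorem chy_of_list (l : List (Hf g)) (hp : l.Pairwise (fun x y => x ≤ y ∧ y ≤ Hf.tIso g x))
    (hg : ∀ x ∈ l, x ≤ Hf.tIso g x) (x y : Hf g)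
    (hx : ∀ c ∈ fr x, ∃ z ∈ l, ∃ k : ℤ, (tcv g ^ k) c ∈ fr z)
    (hy : ∀ c ∈ fr y, ∃ z ∈ l, ∃ k : ℤ, (tcv g ^ k) c ∈ fr z) : Chy x y :=
  ⟨_, cohr_of_list l hp hg x y hx hy⟩

open Classical in
/-- the structure of slabs -/
noncomputable def slb (N : Nums g) : TorT.Slb (Hf g) (Cv g) where
  ok X Y := Y ≤ Hf.tIso g X
  fr := fr
  nu := N.nn
  rk := N.rho
  ok_sub := by
    intro a b a' b' h h1 h2 h3
    exact h3.trans (h.trans ((Hf.tIso g).monotone h1))
  rk_lt := N.rho_lt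
  inj _ _ _ h := fr_inj h
  conv _ _ _ _ h1 h2 h3 h4 := fr_conv h1 h2 h3 h4
  compl x y y' h h1 h2 h3 := hf_compl x y y' h1 h2 h h3
  coh := by
    intro a e b x y hok h1 h2 h3 h4 h5 h6 hx hy
    have hab : a ≤ b := h1.trans h2
    have ta : a ≤ Hf.tIso g a := hab.trans hok
    have hl : [a, e, b].Pairwise (fun x y => x ≤ y ∧ y ≤ Hf.tIso g x) := by
      simp only [List.pairwise_cons, List.mem_cons, List.not_mem_nil, or_false,
        forall_eq_or_imp, forall_eq, List.Pairwise.nil, and_true]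
      refine ⟨⟨⟨h1, h2.trans hok⟩, ⟨hab, hok⟩⟩, ⟨⟨h2, hok.trans ((Hf.tIso g).monotone h1)⟩, ?_⟩⟩
      intro x hx
      exact hx.elim
    have hg : ∀ x ∈ [a, e, b], x ≤ Hf.tIso g x := by
      intro x hx
      simp only [List.mem_cons, List.not_mem_nil, or_false] at hx
      rcases hx with rfl | rfl | rfl
      · exact ta
      · exact h2.trans (hok.trans ((Hf.tIso g).monotone h1))
      · exact hok.trans ((Hf.tIso g).monotone hab)
    have key : ∀ x : Hf g, fr x ⊆ fr a ∪ fr e ∪ fr b →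
        ∀ c ∈ fr x, ∃ z ∈ [a, e, b], ∃ k : ℤ, (tcv g ^ k) c ∈ fr z := by
      intro x hx c hc
      have h7 := hx hc
      rw [Finset.mem_union, Finset.mem_union] at h7
      rcases h7 with (h7 | h7) | h7
      · exact ⟨a, by simp, 0, by simpa using h7⟩
      · exact ⟨e, by simp, 0, by simpa using h7⟩
      · exact ⟨b, by simp, 0, by simpa using h7⟩
    exact fun c => hf_coh _ hl hg x y (key x hx) (key y hy) c
  nu_sub a e b h h1 h2 := N.nn_sub a e b h1 h2 h
  nu_self := N.nn_self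

open Classical in
/-- the lattice of the cyclic step -/
noncomputable def hlat (N : Nums g) (hN : (slb N).HN) : TorA.HLat (Hf g) (Cv g) where
  t := Hf.tIso g
  tc := tcv g
  fr := fr
  J := Hf.J
  rho := N.rho
  nn := N.nn
  P := N.P
  G := N.G
  fr_t := fr_tIso
  J_t := J_tIso
  rho_t := N.rho_t
  nn_sub := N.nn_sub
  nn_G := N.nn_G
  free := tcv_free
  J_sup := Hf.J_sup
  J_inf := Hf.J_inf
  base := ⟨bs g, bs_le⟩
  arch := hf_arch
  fr_ne := fr_nonempty
  rho_lt := N.rho_lt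
  inj _ _ _ h := fr_inj h
  conv _ _ _ _ h1 h2 h3 h4 := fr_conv h1 h2 h3 h4
  compl := hf_compl
  coh l hp hg x y _ _ hx hy := ⟨fun c => hf_coh l hp hg x y hx hy c,
    N.rho_md x y (chy_of_list l hp hg x y hx hy)⟩
  conn := hf_conn
  In1 x y h hok hw hc h2 := TorT.Slb.In1 (slb N) hN x y h hok hw hc h2
  In2 x y h hok hw hc h2 := TorT.Slb.In2 (slb N) hN x y h hok hw hc h2

/-- **the final reduction** -/
theorem hasUData_of_nums (N : Nums g) (hN : (slb N).HN) {k : ℕ} (hk : k + 1 ≤ N.G) : HasUData g k :=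
  hasUData_of_HLat k (hlat N hN) rfl rfl rfl hk

end TorL
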