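import Mathlib
import Pool.Agent.Lib.MP_05cdf2_gt.L.Hf

/-! MP_05cdf2_gt, stream L (helper49): the translates of the fundamental polygon fill the disc.

`pv i`: the prefix of length `i` of the word of `zeta`, the vertices of the polygon, `i ≤ nz = 4 g`.
`FZ Z`: `Z` is a symmetric relation on triples which contains the degenerate triples, is closed under flips of crossing
diagonals and contains the triples of vertices of every translate of the polygon. Then `Z` holds always (`FZ.all`). -/

set_option autoImplicit false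
set_option linter.unusedSectionVars false

namespace TorL
open TorM TorG

variable {g : ℕ} [NeZero g]

/-- number of sides -/
def nz (g : ℕ) : ℕ := (zetaWord g).length

/-- vertices of the polygon -/
def pv (i : ℕ) : F g := FreeGroup.mk ((zetaWord g).take i)

theorem pv_zero : (pv 0 : F g) = 1 := rfl

theorem pv_nz : (pv (nz g) : F g) = zeta g := by
  unfold pv nz
  rw [List.take_length, ← toWord_zeta, FreeGroup.mk_toWord]

theorem pv_toWord (i : ℕ) : (pv i : F g).toWord = (zetaWord g).take i := by
  unfold pv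
  have h : FreeGroup.IsReduced (zetaWord g) := by
    rw [← toWord_zeta]
    exact FreeGroup.isReduced_toWord
  rw [FreeGroup.toWord_mk]
  exact (redSub h (List.take_prefix _ _).isInfix).reduce_eq

theorem pv_inj {i j : ℕ} (hi : i ≤ nz g) (hj : j ≤ nz g) (h : (pv i : F g) = pv j) : i = j := by
  have h1 := congrArg (fun x => (FreeGroup.toWord x).length) h
  simp only [pv_toWord, List.length_take] at h1
  unfold nz at hi hj
  omega

theorem zeta_split (u v : List (Ltr g)) (m : Ltr g) (h : zetaWord g = u ++ m :: v) :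
    pos (4 * g) (lastc (4 * g) u) (rk m) = 1 := by
  have hg : 0 < g := Nat.pos_of_ne_zero (NeZero.ne g)
  have h1 := key_zeta hg
  unfold key at h1
  rw [toWord_zeta, h, keyAux_append] at h1
  have h2 : pos (4 * g) (lastc (4 * g) u) (rk m) ∈ List.replicate (4 * g + 1) 1 := by
    rw [← h1]
    refine List.mem_append_right _ ?_
    show _ ∈ pos (4 * g) (lastc (4 * g) u) (rk m) :: keyAux (rk (inv m)) v
    exact List.mem_cons_self
  exact (List.mem_replicate.1 h2).2

theorem lastc_lt (u : List (Ltr g)) (c : ℕ) (hu : u ≠ []) : lastc c u < 4 * g := by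
  induction u generalizing c with
  | nil => exact absurd rfl hu
  | cons l t ih =>
    show lastc (rk (inv l)) t < 4 * g
    by_cases ht : t = []
    · subst ht
      exact rk_lt _
    · exact ih _ ht

theorem app_lt (a b c : List ℕ) (h : b < c) : a ++ b < a ++ c := by
  induction a with
  | nil => exact h
  | cons x t ih =>
    rw [List.cons_append, List.cons_append, List.cons_lt_cons_iff]
    exact Or.inr ⟨rfl, ih⟩

/-- the vertices are in decreasing order after `1` -/
theorem pv_lt {i j : ℕ} (hi : 0 < i) (hij : i < j) (hj : j ≤ nz g) : (pv j : F g) < pv i := by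
  unfold nz at hj
  have hi' : i < (zetaWord g).length := by omega
  have e1 : zetaWord g = (zetaWord g).take i ++ (zetaWord g)[i] :: (zetaWord g).drop (i + 1) := by
    rw [← List.drop_eq_getElem_cons hi', List.take_append_drop]
  have h1 := zeta_split _ _ _ e1
  have hne : (zetaWord g).take i ≠ [] := by
    intro h
    have := congrArg List.length h
    rw [List.length_take, List.length_nil] at this
    omega
  have h2 := lastc_lt _ (4 * g) hne
  obtain ⟨s, hs⟩ : ∃ s, (zetaWord g).take j = (zetaWord g).take i ++ (zetaWord g)[i] :: s := by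
    refine ⟨((zetaWord g).drop (i + 1)).take (j - i - 1), ?_⟩
    conv_lhs => rw [e1]
    rw [List.take_append]
    have h3 : ((zetaWord g).take i).length = i := by
      rw [List.length_take]
      omega
    rw [h3, List.take_of_length_le (by omega)]
    have h4 : j - i = (j - i - 1) + 1 := by omega
    conv_lhs => rw [h4]
    rw [List.take_succ_cons]
  rw [lt_iff]
  unfold key
  rw [pv_toWord, pv_toWord, hs, keyAux_append]
  have h5 := keyAux_append (4 * g) ((zetaWord g).take i) []
  rw [List.append_nil] at h5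
  rw [h5]
  apply app_lt
  show pos (4 * g) (lastc (4 * g) ((zetaWord g).take i)) (rk (zetaWord g)[i]) :: keyAux _ s <
    [pos (4 * g) (lastc (4 * g) ((zetaWord g).take i)) (4 * g)]
  rw [List.cons_lt_cons_iff, h1]
  left
  have h6 := rk_lt (zetaWord g)[i]
  generalize rk (zetaWord g)[i] = r at h1 h6
  generalize lastc (4 * g) ((zetaWord g).take i) = c at h1 h2
  unfold pos at h1 ⊢
  split_ifs at h1 ⊢ <;> omega

theorem nz_pos : 0 < nz g := by
  by_contra h
  have h1 : nz g = 0 := by omega
  have h2 := pv_nz (g := g)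
  rw [h1, pv_zero] at h2
  exact zeta_ne_one (Nat.pos_of_ne_zero (NeZero.ne g)) h2.symm

theorem one_lt_pv {i : ℕ} (hi : 0 < i) (hj : i ≤ nz g) : (1 : F g) < pv i := by
  apply one_lt
  intro h
  rw [← pv_zero] at h
  have := pv_inj hj (Nat.zero_le _) h
  omega

/-- a point which is not a vertex lies behind one side -/
theorem side (p : F g) (hp : ∀ i ≤ nz g, p ≠ pv i) :
    ∃ i < nz g, Cyc (pv (i + 1)) p (pv i) ∧ ∀ j ≤ nz g, ¬ Cyc (pv (i + 1) : F g) (pv j) (pv i) := by
  have hn := nz_pos (g := g)
  have hp1 : p ≠ 1 := by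
    have := hp 0 (Nat.zero_le _)
    rwa [pv_zero] at this
  have hpz : pv (nz g) < p := by
    refine lt_of_le_of_ne ?_ (Ne.symm (hp _ le_rfl))
    rw [pv_nz]
    exact zeta_le hp1
  have one := one_lt hp1
  by_cases h1 : pv 1 < p
  · refine ⟨0, hn, ?_, ?_⟩
    · rw [pv_zero]
      exact Or.inr (Or.inr ⟨one_lt_pv Nat.one_pos hn, h1⟩)
    · intro j hj hc
      rw [pv_zero] at hc
      rcases Nat.eq_zero_or_pos j with rfl | hj0
      · rw [pv_zero] at hc
        rcases hc with h | h | h
        · exact lt_irrefl _ h.2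
        · exact lt_irrefl _ h.1
        · exact lt_asymm h.1 h.2
      · have h2 : (pv j : F g) ≤ pv 1 := by
          rcases Nat.lt_or_ge 1 j with h | h
          · exact (pv_lt Nat.one_pos h hj).le
          · have : j = 1 := by omega
            rw [this]
        have h3 := one_lt_pv hj0 hj
        rcases hc with h | h | h
        · exact absurd h.1 (not_lt.2 h2)
        · exact lt_asymm h3 h.1
        · exact absurd h.2 (not_lt.2 h2)
  · have h1' : p < pv 1 := lt_of_le_of_ne (not_lt.1 h1) (hp 1 hn)
    have hex : ∃ i, 0 < i ∧ i ≤ nz g ∧ pv i < p := ⟨nz g, hn, le_rfl, hpz⟩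
    classical
    have hspec := Nat.find_spec hex
    have hmin : ∀ j < Nat.find hex, ¬ (0 < j ∧ j ≤ nz g ∧ pv j < p) := fun j hj => Nat.find_min hex hj
    generalize Nat.find hex = i0 at hspec hmin
    obtain ⟨hi0, hi1, hi2⟩ := hspec
    have hi3 : 1 < i0 := by
      by_contra hcon
      have : i0 = 1 := by omega
      rw [this] at hi2
      exact h1 hi2
    obtain ⟨i, rfl⟩ : ∃ i, i0 = i + 1 := ⟨i0 - 1, by omega⟩
    have hi4 : p < pv i := by
      refine lt_of_le_of_ne (not_lt.1 fun hh => hmin i (by omega) ⟨by omega, by omega, hh⟩) (hp i (by omega))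
    refine ⟨i, by omega, Or.inl ⟨hi2, hi4⟩, ?_⟩
    intro j hj hc
    have h5 : (pv (i + 1) : F g) < pv i := pv_lt (by omega) (by omega) hi1
    have h6 : (pv (i + 1) : F g) < pv j ∧ (pv j : F g) < pv i := by
      rcases hc with h | h | h
      · exact h
      · exact absurd h.2 (not_lt.2 h5.le)
      · exact absurd h.1 (not_lt.2 h5.le)
    rcases Nat.eq_zero_or_pos j with rfl | hj0
    · rw [pv_zero] at h6
      exact lt_asymm h6.1 (one_lt_pv (by omega) hi1)
    · rcases lt_trichotomy j i with h | h | h
      · exact lt_asymm h6.2 (pv_lt hj0 h (by omega))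
      · subst h
        exact lt_irrefl _ h6.2
      · rcases Nat.lt_or_ge (i + 1) j with h7 | h7
        · exact lt_asymm h6.1 (pv_lt (by omega) h7 hj)
        · have : j = i + 1 := by omega
          subst this
          exact lt_irrefl _ h6.1

/-- consecutive vertices differ by a letter -/
theorem pv_succ {i : ℕ} (hi : i < nz g) : ∃ l : Ltr g, (pv (i + 1) : F g) = pv i * le l := by
  unfold nz at hi
  refine ⟨(zetaWord g)[i], ?_⟩
  unfold pv le
  rw [FreeGroup.mul_mk, List.take_add_one, List.getElem?_eq_getElem hi]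
  rfl

/-- every oriented edge is a side -/
theorem edge_side (x : F g) (l : Ltr g) :
    ∃ h : F g, ∃ i < nz g, x = h * pv i ∧ x * le l = h * pv (i + 1) := by
  obtain ⟨a, b, hab⟩ := zeta_letter l
  rw [toWord_zeta] at hab
  have h1 : (pv a.length : F g) = FreeGroup.mk a := by
    unfold pv
    rw [hab, List.take_left']
    rfl
  have h2 : (pv (a.length + 1) : F g) = FreeGroup.mk a * le l := by
    unfold pv le
    have e : a ++ l :: b = (a ++ [l]) ++ b := by simp
    rw [hab, e, List.take_left' (by simp), FreeGroup.mul_mk]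
  refine ⟨x * (FreeGroup.mk a)⁻¹, a.length, ?_, ?_, ?_⟩
  · unfold nz
    rw [hab, List.length_append, List.length_cons]
    omega
  · rw [h1]
    group
  · rw [h2]
    group

/-- relations on triples which are closed under flips and contain the polygons -/
structure FZ (Z : F g → F g → F g → Prop) : Prop where
  sw : ∀ p q r, Z p q r → Z q p r
  sw' : ∀ p q r, Z p q r → Z p r q
  dg : ∀ p q, Z p p q
  flip : ∀ a b p y, Cr a b p y → Z a b p → Z a b y → Z p y a ∧ Z p y b
  pol : ∀ h i j k, i ≤ nz g → j ≤ nz g → k ≤ nz g → Z (h * pv i) (h * pv j) (h * pv k)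

theorem FZ.tr {Z : F g → F g → F g → Prop} (h : FZ Z) (p : F g) :
    FZ (fun q r s => Z (p * q) (p * r) (p * s)) where
  sw _ _ _ hh := h.sw _ _ _ hh
  sw' _ _ _ hh := h.sw' _ _ _ hh
  dg _ _ := h.dg _ _
  flip a b q y hc h1 h2 := h.flip _ _ _ _ ((cr_mul p a b q y).2 hc) h1 h2
  pol k i j l hi hj hl := by
    have := h.pol (p * k) i j l hi hj hl
    rwa [mul_assoc, mul_assoc, mul_assoc] at this

theorem cr_four {α : Type} [LinearOrder α] {a b c d : α} (h1 : a ≠ b) (h2 : a ≠ c) (h3 : a ≠ d) (h4 : b ≠ c)
    (h5 : b ≠ d) (h6 : c ≠ d) : Cr a b c d ∨ Cr a c b d ∨ Cr a d b c := by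
  unfold Cr Cyc
  grind

theorem FZ.tet {Z : F g → F g → F g → Prop} (h : FZ Z) {a b c d : F g} (h1 : Z a b c) (h2 : Z a b d)
    (h3 : Z a c d) : Z b c d := by
  by_cases e1 : a = b
  · subst e1
    exact h3
  by_cases e2 : a = c
  · subst e2
    exact h.sw _ _ _ h2
  by_cases e3 : a = d
  · subst e3
    exact h.sw' _ _ _ (h.sw _ _ _ h1)
  by_cases e4 : b = c
  · subst e4
    exact h.dg _ _
  by_cases e5 : b = d
  · subst e5
    exact h.sw' _ _ _ (h.dg _ _)
  by_cases e6 : c = d
  · subst e6
    exact h.sw _ _ _ (h.sw' _ _ _ (h.dg _ _))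
  rcases cr_four e1 e2 e3 e4 e5 e6 with hc | hc | hc
  · have := (h.flip _ _ _ _ hc h1 h2).2
    exact h.sw _ _ _ (h.sw' _ _ _ this)
  · have := (h.flip _ _ _ _ hc (h.sw' _ _ _ h1) h3).2
    exact h.sw' _ _ _ this
  · exact (h.flip _ _ _ _ hc (h.sw' _ _ _ h2) (h.sw' _ _ _ h3)).2

/-- the apex `1` -/
theorem FZ.one_edge {Z : F g → F g → F g → Prop} (h : FZ Z) (x : F g) (l : Ltr g) (h1 : 1 < x * le l)
    (h2 : x * le l < x) : Z 1 x (x * le l) := by
  classical
  have fin : ∀ x y : F g, y < x → {q : F g × Ltr g | 1 < q.1 * le q.2 ∧ q.1 * le q.2 ≤ y ∧ x ≤ q.1}.Finite := by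
    intro x y hxy
    have hU : (⋃ m : Ltr g, {w : F g | ¬ (w ≤ y ↔ w * le m ≤ y)} ×ˢ ({m} : Set (Ltr g))).Finite :=
      Set.finite_iUnion fun m => (sep_finite y (le m)).prod (Set.finite_singleton m)
    refine hU.subset ?_
    rintro ⟨w, m⟩ ⟨-, h3, h4⟩
    refine Set.mem_iUnion.2 ⟨m, ?_, rfl⟩
    intro hh
    exact absurd (hh.2 h3) (not_le.2 (lt_of_lt_of_le hxy h4))
  induction hn : {q : F g × Ltr g | 1 < q.1 * le q.2 ∧ q.1 * le q.2 ≤ x * le l ∧ x ≤ q.1}.ncard using
    Nat.strong_induction_on generalizing x l with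
  | _ n ih =>
    subst hn
    obtain ⟨k, i, hi, hx, hy⟩ := edge_side x l
    generalize hyy : x * le l = y at *
    by_cases hv : ∃ j ≤ nz g, k⁻¹ = pv j
    · obtain ⟨j, hj, hj2⟩ := hv
      have h3 := h.pol k j i (i + 1) hj (by omega) (by omega)
      rw [← hj2, ← hx, ← hy, mul_inv_cancel] at h3
      exact h3
    · push Not at hv
      obtain ⟨j, hj, hc, hall⟩ := side k⁻¹ hv
      have hc' : Cyc (k * pv (j + 1)) 1 (k * pv j) := by
        have := (cyc_mul k _ _ _).2 hc
        rwa [mul_inv_cancel] at this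
      have hall' : ∀ a ≤ nz g, ¬ Cyc (k * pv (j + 1)) (k * pv a) (k * pv j) := fun a ha hh =>
        hall a ha ((cyc_mul k _ _ _).1 hh)
      obtain ⟨m, hm⟩ := pv_succ hj
      have hv' : k * pv j = k * pv (j + 1) * le (inv m) := by
        rw [hm, le_inv]
        group
      have hx1 := hall' i (by omega)
      have hy1 := hall' (i + 1) (by omega)
      rw [← hx] at hx1
      rw [← hy] at hy1
      have hpv := h.pol k (j + 1) j i (by omega) (by omega) (by omega)
      have hpv2 := h.pol k (j + 1) j (i + 1) (by omega) (by omega) (by omega)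
      have hpv3 := h.pol k (j + 1) i (i + 1) (by omega) (by omega) (by omega)
      rw [← hx] at hpv hpv3
      rw [← hy] at hpv2 hpv3
      have hne : ¬ (k * pv j = y ∧ k * pv (j + 1) = x) := by
        rintro ⟨e1, e2⟩
        rw [hy] at e1
        rw [hx] at e2
        have e1' := pv_inj (by omega) (by omega) (mul_left_cancel e1)
        have e2' := pv_inj (by omega) (by omega) (mul_left_cancel e2)
        omega
      generalize hvv : k * pv (j + 1) = v at *
      generalize hww : k * pv j = v' at *
      have o1 := one_le v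
      have o2 := one_le v'
      have hlt : 1 < v' ∧ v' < v := by
        rcases hc' with hh | hh | hh
        · exact absurd hh.1 (not_lt.2 o1)
        · exact hh
        · exact absurd hh.2 (not_lt.2 o1)
      have bx : v' ≤ x ∧ x ≤ v := by
        constructor
        · by_contra hh
          exact hx1 (Or.inr (Or.inl ⟨not_le.1 hh, hlt.2⟩))
        · by_contra hh
          exact hx1 (Or.inr (Or.inr ⟨hlt.2, not_le.1 hh⟩))
      have by' : v' ≤ y ∧ y ≤ v := by
        constructor
        · by_contra hh
          exact hy1 (Or.inr (Or.inl ⟨not_le.1 hh, hlt.2⟩))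
        · by_contra hh
          exact hy1 (Or.inr (Or.inr ⟨hlt.2, not_le.1 hh⟩))
      have hih : Z 1 v v' := by
        have h5 := ih _ ?_ v (inv m) (by rw [← hv']; exact hlt.1) (by rw [← hv']; exact hlt.2) rfl
        · rw [← hv'] at h5
          exact h5
        · rw [← hv']
          refine Set.ncard_lt_ncard ⟨?_, ?_⟩ (fin x y h2)
          · rintro ⟨w, m'⟩ ⟨a1, a2, a3⟩
            exact ⟨a1, a2.trans by'.1, bx.2.trans a3⟩
          · intro hh
            have hmem : (x, l) ∈ {q : F g × Ltr g | 1 < q.1 * le q.2 ∧ q.1 * le q.2 ≤ y ∧ x ≤ q.1} := by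
              refine ⟨?_, ?_, le_rfl⟩
              · show 1 < x * le l
                rw [hyy]
                exact h1
              · show x * le l ≤ y
                rw [hyy]
            obtain ⟨-, a2, a3⟩ := hh hmem
            have a2' : x * le l ≤ v' := a2
            have a3' : v ≤ x := a3
            rw [hyy] at a2'
            exact hne ⟨le_antisymm by'.1 a2', le_antisymm a3' bx.2⟩
      have glue : ∀ z, v' ≤ z → z ≤ v → Z v v' z → Z v 1 z := by
        intro z hz1 hz2 hz
        by_cases e1 : z = v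
        · subst e1
          exact h.sw' _ _ _ (h.dg _ _)
        by_cases e2 : z = v'
        · subst e2
          exact h.sw _ _ _ hih
        have h6 : v' < z := lt_of_le_of_ne hz1 (Ne.symm e2)
        have h7 : z < v := lt_of_le_of_ne hz2 e1
        have hcr : Cr v v' 1 z := by
          unfold Cr Cyc
          have := hlt.1
          have := hlt.2
          left
          exact ⟨Or.inr (Or.inl ⟨hlt.1, hlt.2⟩), Or.inl ⟨h6, h7⟩⟩
        have h8 := (h.flip _ _ _ _ hcr (h.sw' _ _ _ (h.sw _ _ _ hih)) hz).1
        exact h.sw _ _ _ (h.sw' _ _ _ h8)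
      have zx := glue x bx.1 bx.2 hpv
      have zy := glue y by'.1 by'.2 hpv2
      exact h.tet zx zy hpv3

/-- all apices -/
theorem FZ.edge {Z : F g → F g → F g → Prop} (h : FZ Z) (p x : F g) (l : Ltr g) : Z p x (x * le l) := by
  have h' := h.tr p
  have key : Z (p * 1) (p * (p⁻¹ * x)) (p * (p⁻¹ * x * le l)) := by
    generalize p⁻¹ * x = z
    by_cases e1 : z = 1
    · subst e1
      exact h.dg _ _
    by_cases e2 : z * le l = 1
    · rw [e2]
      exact h.sw' _ _ _ (h.dg _ _)
    rcases lt_trichotomy z (z * le l) with h3 | h3 | h3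
    · have h4 := h'.one_edge (z * le l) (inv l)
      have e3 : z * le l * le (inv l) = z := by
        rw [le_inv]
        group
      rw [e3] at h4
      exact h.sw' _ _ _ (h4 (one_lt e1) h3)
    · rw [← h3]
      exact h.sw _ _ _ (h.sw' _ _ _ (h.dg _ _))
    · exact h'.one_edge z l (one_lt e2) h3
  have e4 : p * (p⁻¹ * x * le l) = x * le l := by group
  rw [mul_one, mul_inv_cancel_left, e4] at key
  exact key

theorem FZ.all {Z : F g → F g → F g → Prop} (h : FZ Z) (p q r : F g) : Z p q r := by
  have key : ∀ (L : List (Ltr g)) (p q : F g), Z p q (q * FreeGroup.mk L) := by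
    intro L
    induction L with
    | nil =>
      intro p q
      have : (FreeGroup.mk [] : F g) = 1 := rfl
      rw [this, mul_one]
      exact h.sw _ _ _ (h.sw' _ _ _ (h.dg _ _))
    | cons l L ih =>
      intro p q
      have h1 : (FreeGroup.mk (l :: L) : F g) = le l * FreeGroup.mk L := by
        rw [le, FreeGroup.mul_mk]
        rfl
      rw [h1, ← mul_assoc]
      have h2 := ih p (q * le l)
      have h3 := h.edge p q l
      have h4 := h.edge (q * le l * FreeGroup.mk L) q l
      refine h.tet (a := q * le l) ?_ ?_ ?_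
      · exact h.sw _ _ _ (h.sw' _ _ _ h3)
      · exact h.sw _ _ _ h2
      · exact h.sw' _ _ _ (h.sw _ _ _ (h.sw' _ _ _ h4))
  have h1 := key (q⁻¹ * r).toWord p q
  rw [FreeGroup.mk_toWord, mul_inv_cancel_left] at h1
  exact h1

end TorL
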