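import Mathlib
import Pool.Agent.Lib.MP_05cdf2_gt.L.Coh

/-! MP_05cdf2_gt, stream L (helper49): medians of three points with respect to a locally finite Galois pair.

`Maj D p q r`: at least two of the points are in `D`. `IsMed E p q r m`: `m` is on the side of the majority, for every
saturated cut. Medians exist (`med_exists`), they are unique up to `E.S`; `Cen E p q r`: the median has colour `P`.
`cen_val`: the value of `Cen` as a signed count of lines; `cen_flip`, `Cohr.cen`: modularity. -/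

set_option autoImplicit false
set_option linter.unusedSectionVars false

namespace TorL
open TorM TorG

section gp
variable {α : Type} [LinearOrder α] {E E' : GP α}

/-- majority -/
def Maj (D : Set α) (p q r : α) : Prop := (p ∈ D ∧ q ∈ D) ∨ (q ∈ D ∧ r ∈ D) ∨ (p ∈ D ∧ r ∈ D)

theorem maj_compl {D : Set α} {p q r : α} : Maj Dᶜ p q r ↔ ¬ Maj D p q r := by
  unfold Maj
  simp only [Set.mem_compl_iff]
  tauto

theorem maj_swap {D : Set α} {p q r : α} : Maj D p q r ↔ Maj D q p r := by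
  unfold Maj
  tauto

theorem maj_swap' {D : Set α} {p q r : α} : Maj D p q r ↔ Maj D p r q := by
  unfold Maj
  tauto

/-- medians -/
def IsMed (E : GP α) (p q r m : α) : Prop := ∀ D, Sat E D → (m ∈ D ↔ Maj D p q r)

theorem IsMed.swap {p q r m : α} (h : IsMed E p q r m) : IsMed E q p r m :=
  fun D hD => (h D hD).trans maj_swap

theorem IsMed.swap' {p q r m : α} (h : IsMed E p q r m) : IsMed E p r q m :=
  fun D hD => (h D hD).trans maj_swap'

theorem IsMed.uniq {p q r m m' : α} (h : IsMed E p q r m) (h' : IsMed E p q r m') : E.S m m' :=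
  S_iff.2 fun D hD => (h D hD).trans (h' D hD).symm

theorem isMed_of_S {p q r : α} (h : E.S p q) : IsMed E p q r p := by
  intro D hD
  have h1 := hD.sat _ _ h
  unfold Maj
  tauto

theorem med_exists (hE : LF E) (p q r : α) : ∃ m, IsMed E p q r m := by
  by_cases h0 : {D | Sat E D ∧ p ∉ D ∧ q ∈ D ∧ r ∈ D}.Nonempty
  · have hfin : {D | Sat E D ∧ p ∉ D ∧ q ∈ D ∧ r ∈ D}.Finite :=
      (sat_fin hE p q).subset fun D hD => ⟨hD.1, hD.2.1, hD.2.2.1⟩
    obtain ⟨D0, hD0⟩ := hfin.exists_minimal h0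
    obtain ⟨⟨hS, hp, hq, hr⟩, hmin⟩ := hD0
    have hmin' : ∀ D, Sat E D → p ∉ D → q ∈ D → r ∈ D → D ⊆ D0 → D = D0 := fun D h1 h2 h3 h4 h5 =>
      Set.Subset.antisymm h5 (hmin ⟨h1, h2, h3, h4⟩ h5)
    obtain ⟨k, l, hkl⟩ := exists_adj hE hS
    refine ⟨l, fun D hD => ?_⟩
    by_cases e1 : D = D0
    · subst e1
      exact iff_of_true hkl.inn (Or.inr (Or.inl ⟨hq, hr⟩))
    by_cases e2 : D = D0ᶜ
    · subst e2
      rw [maj_compl]
      exact iff_of_false (fun hh => hh hkl.inn) (fun hh => hh (Or.inr (Or.inl ⟨hq, hr⟩)))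
    have h1 := hkl.only hE hS hD e1 e2
    rcases nest_sat hE hS hD with h | h | h | h
    · exact iff_of_true (h hkl.inn) (Or.inr (Or.inl ⟨h hq, h hr⟩))
    · refine iff_of_false (fun hh => hkl.out (h (h1.2 hh))) ?_
      rintro (⟨h2, -⟩ | ⟨h2, h3⟩ | ⟨h2, -⟩)
      · exact hp (h h2)
      · exact e1 (hmin' D hD (fun hh => hp (h hh)) h2 h3 h)
      · exact hp (h h2)
    · refine iff_of_false (fun hh => h l ⟨hkl.inn, hh⟩) ?_
      rintro (⟨-, h2⟩ | ⟨h2, -⟩ | ⟨-, h2⟩)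
      · exact h q ⟨hq, h2⟩
      · exact h q ⟨hq, h2⟩
      · exact h r ⟨hr, h2⟩
    · have hpD : p ∈ D := (h p).resolve_left hp
      have hkD : k ∈ D := (h k).resolve_left hkl.out
      refine iff_of_true (h1.1 hkD) ?_
      by_contra hcon
      have hqD : q ∉ D := fun hh => hcon (Or.inl ⟨hpD, hh⟩)
      have hrD : r ∉ D := fun hh => hcon (Or.inr (Or.inr ⟨hpD, hh⟩))
      refine e2 ?_
      have h2 := hmin' Dᶜ hD.compl (fun hh => hh hpD) hqD hrD fun x hx => (h x).resolve_right hx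
      rw [← h2, compl_compl]
  · refine ⟨p, fun D hD => ?_⟩
    constructor
    · intro hpD
      by_contra hcon
      have hqD : q ∉ D := fun hh => hcon (Or.inl ⟨hpD, hh⟩)
      have hrD : r ∉ D := fun hh => hcon (Or.inr (Or.inr ⟨hpD, hh⟩))
      exact h0 ⟨Dᶜ, hD.compl, fun hh => hh hpD, hqD, hrD⟩
    · intro hM
      by_contra hpD
      rcases hM with ⟨h2, -⟩ | ⟨h2, h3⟩ | ⟨h2, -⟩
      · exact hpD h2
      · exact h0 ⟨D, hD, hpD, h2, h3⟩
      · exact hpD h2

/-- the median has colour `P` -/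
def Cen (E : GP α) (p q r : α) : Prop := ∃ m ∈ E.P, IsMed E p q r m

theorem cen_iff {p q r m : α} (hm : IsMed E p q r m) : Cen E p q r ↔ m ∈ E.P := by
  constructor
  · rintro ⟨m', h1, h2⟩
    exact (GP.col (h2.uniq hm)).1 h1
  · intro h
    exact ⟨m, h, hm⟩

theorem cen_swap {p q r : α} : Cen E p q r ↔ Cen E q p r := by
  constructor
  · rintro ⟨m, h1, h2⟩
    exact ⟨m, h1, h2.swap⟩
  · rintro ⟨m, h1, h2⟩
    exact ⟨m, h1, h2.swap⟩

theorem cen_swap' {p q r : α} : Cen E p q r ↔ Cen E p r q := by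
  constructor
  · rintro ⟨m, h1, h2⟩
    exact ⟨m, h1, h2.swap'⟩
  · rintro ⟨m, h1, h2⟩
    exact ⟨m, h1, h2.swap'⟩

theorem cen_of_S {p q r : α} (h : E.S p q) : Cen E p q r ↔ p ∈ E.P := cen_iff (isMed_of_S h)

theorem IsMed.mono (h : E ≤ E') {p q r m : α} (hm : m ∈ E.P) (h1 : IsMed E p q r m) : IsMed E' p q r m := by
  have key : ∀ D', Sat E' D' → m ∉ D' → ¬ Maj D' p q r := by
    intro D' hD' hmD hM
    have hout : ∀ z, E.S m z → z ∉ D' := fun z hz hzD => hmD ((hD'.sat m z (h.2 m z hm hz)).2 hzD)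
    have hg : ∀ y, y ∈ D' → D' ⊆ gap E m y ∧ Sat E (gap E m y) := by
      intro y hy
      have hy' : ¬ E.S m y := fun hh => hout y hh hy
      exact ⟨sub_gap hD'.cvx hy hout, gap_sat hy'⟩
    have hfin : ∀ y, y ∈ D' → ¬ Maj (gap E m y) p q r := by
      intro y hy hM'
      exact notMem_gap (GP.refl m) ((h1 _ (hg y hy).2).2 hM')
    rcases hM with ⟨h2, h3⟩ | ⟨h2, h3⟩ | ⟨h2, h3⟩
    · exact hfin _ h2 (Or.inl ⟨(hg _ h2).1 h2, (hg _ h2).1 h3⟩)
    · exact hfin _ h2 (Or.inr (Or.inl ⟨(hg _ h2).1 h2, (hg _ h2).1 h3⟩))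
    · exact hfin _ h2 (Or.inr (Or.inr ⟨(hg _ h2).1 h2, (hg _ h2).1 h3⟩))
  intro D' hD'
  by_cases hmD : m ∈ D'
  · refine iff_of_true hmD ?_
    by_contra hcon
    exact key D'ᶜ hD'.compl (fun hh => hh hmD) (maj_compl.2 hcon)
  · exact iff_of_false hmD (key D' hD' hmD)

theorem cen_mono (h : E ≤ E') {p q r : α} (h1 : Cen E p q r) : Cen E' p q r := by
  obtain ⟨m, hm, h2⟩ := h1
  exact ⟨m, h.1 hm, h2.mono h hm⟩

theorem IsMed.map {p q r m : α} (h : IsMed E p q r m) (e : CrAut α) :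
    IsMed (E.map e) ((e : Equiv.Perm α) p) ((e : Equiv.Perm α) q) ((e : Equiv.Perm α) r)
      ((e : Equiv.Perm α) m) := by
  intro D hD
  have h1 := sat_map' hD e⁻¹
  rw [map_inv_map] at h1
  have h2 := h _ h1
  have h3 : ∀ x, x ∈ mp e⁻¹ D ↔ (e : Equiv.Perm α) x ∈ D := fun x => Iff.rfl
  unfold Maj at h2 ⊢
  rw [h3, h3, h3, h3] at h2
  exact h2

theorem cen_map {p q r : α} (e : CrAut α) :
    Cen (E.map e) ((e : Equiv.Perm α) p) ((e : Equiv.Perm α) q) ((e : Equiv.Perm α) r) ↔ Cen E p q r := by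
  constructor
  · rintro ⟨m, h1, h2⟩
    have h3 := h2.map e⁻¹
    rw [map_inv_map] at h3
    have e1 : ∀ x, ((e⁻¹ : CrAut α) : Equiv.Perm α) ((e : Equiv.Perm α) x) = x := fun x =>
      Equiv.symm_apply_apply _ x
    rw [e1, e1, e1] at h3
    refine ⟨_, ?_, h3⟩
    exact h1
  · rintro ⟨m, h1, h2⟩
    exact ⟨_, app_mem_mp.2 h1, h2.map e⟩

open Classical in
/-- majority minus the indicator at a base point -/
noncomputable def mj (D : Set α) (o p q r : α) : ℤ :=
  (if Maj D p q r then 1 else 0) - (if o ∈ D then 1 else 0)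

theorem mj_zero {D : Set α} {o p q r : α} (h1 : o ∈ D ↔ p ∈ D) (h2 : o ∈ D ↔ q ∈ D) (h3 : o ∈ D ↔ r ∈ D) :
    mj D o p q r = 0 := by
  unfold mj Maj
  by_cases h : o ∈ D
  · rw [if_pos h, if_pos (Or.inl ⟨h1.1 h, h2.1 h⟩), sub_self]
  · rw [if_neg h, if_neg, sub_self]
    tauto

open Classical in
theorem mj_supp (hE : LF E) (o p q r : α) :
    (Function.support fun D => if Ln E D then mj D o p q r else 0).Finite := by
  refine (((LnS_lf hE o p).union (LnS_lf hE o q)).union (LnS_lf hE o r)).subset fun D hD => ?_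
  rw [Function.mem_support] at hD
  by_cases hL : Ln E D
  · rw [if_pos hL] at hD
    by_contra hcon
    refine hD (mj_zero ?_ ?_ ?_)
    · by_contra hh
      exact hcon (Or.inl (Or.inl ⟨hL, hh⟩))
    · by_contra hh
      exact hcon (Or.inl (Or.inr ⟨hL, hh⟩))
    · by_contra hh
      exact hcon (Or.inr ⟨hL, hh⟩)
  · rw [if_neg hL] at hD
    exact absurd rfl hD

open Classical in
/-- the value of `Cen` -/
theorem cen_val (hE : LF E) (o p q r : α) :
    (if Cen E p q r then (1 : ℤ) else 0) =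
      (if o ∈ E.P then 1 else 0) - ∑ᶠ D, (if Ln E D then mj D o p q r else 0) := by
  obtain ⟨m, hm⟩ := med_exists hE p q r
  have h1 := signed hE o m
  have h2 : (if Cen E p q r then (1 : ℤ) else 0) = if m ∈ E.P then 1 else 0 := by
    by_cases h : m ∈ E.P
    · rw [if_pos h, if_pos ((cen_iff hm).2 h)]
    · rw [if_neg h, if_neg (fun hh => h ((cen_iff hm).1 hh))]
  have h3 : ws (LnS E) (fun _ => (1 : ℤ)) o m = ∑ᶠ D, (if Ln E D then mj D o p q r else 0) := by
    unfold ws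
    refine finsum_congr fun D => ?_
    by_cases hL : Ln E D
    · have hL' : D ∈ LnS E := hL
      rw [if_pos hL', if_pos hL]
      have h4 := hm D hL.1
      unfold ch mj
      by_cases h5 : m ∈ D
      · rw [if_pos h5, if_pos (h4.1 h5)]
        simp
      · rw [if_neg h5, if_neg (fun hh => h5 (h4.2 hh))]
        simp
    · have hL' : D ∉ LnS E := hL
      rw [if_neg hL', if_neg hL]
  rw [h2, ← h3, h1]
  ring

theorem maj_flip {D : Set α} (hD : Cvx D) {a b p y : α} (h : Cr a b p y) (o : α) :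
    mj D o a b p + mj D o a b y = mj D o p y a + mj D o p y b := by
  classical
  have h1 : ¬ (a ∈ D ∧ b ∈ D ∧ p ∉ D ∧ y ∉ D) := fun hh => hD a hh.1 b hh.2.1 p hh.2.2.1 y hh.2.2.2 h
  have h2 : ¬ (p ∈ D ∧ y ∈ D ∧ a ∉ D ∧ b ∉ D) := fun hh =>
    hD p hh.1 y hh.2.1 a hh.2.2.1 b hh.2.2.2 (cr_comm.1 h)
  unfold mj Maj
  generalize (if o ∈ D then (1 : ℤ) else 0) = c
  by_cases ha : a ∈ D <;> by_cases hb : b ∈ D <;> by_cases hp : p ∈ D <;> by_cases hy : y ∈ D <;>
    simp_all <;> ring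

open Classical in
/-- the four point identity -/
theorem cen_flip (hE : LF E) {a b p y : α} (h : Cr a b p y) :
    (if Cen E a b p then (1 : ℤ) else 0) + (if Cen E a b y then 1 else 0) =
      (if Cen E p y a then 1 else 0) + (if Cen E p y b then 1 else 0) := by
  rw [cen_val hE a a b p, cen_val hE a a b y, cen_val hE a p y a, cen_val hE a p y b]
  have h1 : (∑ᶠ D, (if Ln E D then mj D a a b p else 0)) + ∑ᶠ D, (if Ln E D then mj D a a b y else 0) =
      (∑ᶠ D, (if Ln E D then mj D a p y a else 0)) + ∑ᶠ D, (if Ln E D then mj D a p y b else 0) := by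
    rw [← finsum_add_distrib (mj_supp hE _ _ _ _) (mj_supp hE _ _ _ _),
      ← finsum_add_distrib (mj_supp hE _ _ _ _) (mj_supp hE _ _ _ _)]
    refine finsum_congr fun D => ?_
    by_cases hL : Ln E D
    · rw [if_pos hL, if_pos hL, if_pos hL, if_pos hL, maj_flip hL.1.cvx h]
    · rw [if_neg hL, if_neg hL, if_neg hL, if_neg hL]
  linarith

/-- two comparable pairs with different medians somewhere -/
theorem cen_strict (hE : LF E) (h : E ≤ E') (hP : E.P = E'.P) (hne : E ≠ E') :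
    ∃ p q r, Cen E' p q r ∧ ¬ Cen E p q r := by
  have h1 : ∃ u v, u ∈ E.P ∧ E'.S u v ∧ ¬ E.S u v := by
    by_contra hcon
    push Not at hcon
    refine hne (le_antisymm h ⟨hP.ge, fun x y hx hxy => hcon x y (hP ▸ hx) hxy⟩)
  obtain ⟨u, v, hu, huv, hn⟩ := h1
  have key : ∀ (D : Set α) (u v k z : α), Sat E D → u ∈ E.P → E'.S u v → u ∉ D → v ∈ D → Adj E D k z → z ∉ E.P →
      ∃ p q r, Cen E' p q r ∧ ¬ Cen E p q r := by
    intro D u v k z hD hu huv huD hvD hkz hz
    refine ⟨u, v, z, (cen_of_S huv).2 (h.1 hu), ?_⟩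
    rintro ⟨m, hm, hmed⟩
    have h2 : ¬ E.S m z := fun hh => hz ((GP.col hh).1 hm)
    rw [S_iff] at h2
    push Not at h2
    obtain ⟨D1, hD1, hmD1, hzD1⟩ : ∃ D1, Sat E D1 ∧ m ∈ D1 ∧ z ∉ D1 := by
      obtain ⟨D1, hD1, h3⟩ := h2
      rcases h3 with ⟨h4, h5⟩ | ⟨h4, h5⟩
      · exact ⟨D1, hD1, h4, h5⟩
      · exact ⟨D1ᶜ, hD1.compl, h4, fun hh => hh h5⟩
    have hM := (hmed D1 hD1).1 hmD1
    have huv1 : u ∈ D1 ∧ v ∈ D1 := by
      rcases hM with h3 | h3 | h3
      · exact h3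
      · exact absurd h3.2 hzD1
      · exact absurd h3.2 hzD1
    have e1 : D1 ≠ D := by
      rintro rfl
      exact huD huv1.1
    have e2 : D1 ≠ Dᶜ := by
      rintro rfl
      exact huv1.2 hvD
    have hk : k ∉ D1 := fun hh => hzD1 ((hkz.only hE hD hD1 e1 e2).1 hh)
    rcases nest_sat hE hD hD1 with h3 | h3 | h3 | h3
    · exact hzD1 (h3 hkz.inn)
    · exact huD (h3 huv1.1)
    · exact h3 v ⟨hvD, huv1.2⟩
    · exact (h3 k).elim hkz.out hk
  have hn' := hn
  rw [S_iff] at hn'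
  push Not at hn'
  obtain ⟨D, hD, huD, hvD⟩ : ∃ D, Sat E D ∧ u ∉ D ∧ v ∈ D := by
    obtain ⟨D, hD, h3⟩ := hn'
    rcases h3 with ⟨h4, h5⟩ | ⟨h4, h5⟩
    · exact ⟨Dᶜ, hD.compl, fun hh => hh h4, h5⟩
    · exact ⟨D, hD, h4, h5⟩
  obtain ⟨k, l, hkl⟩ := exists_adj hE hD
  have hv : v ∈ E.P := by
    rw [hP] at hu ⊢
    exact (GP.col huv).1 hu
  by_cases hl : l ∈ E.P
  · have hk : k ∉ E.P := fun hh => hkl.col.1 hh hl
    exact key Dᶜ v u l k hD.compl hv (GP.symm huv) (fun hh => hh hvD) huD hkl.compl hk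
  · exact key D u v k l hD hu huv huD hvD hkl hl

end gp

variable {g : ℕ} [NeZero g] {x y : GP (F g)} {Z : Set (GP (F g))}

open Classical in
/-- modularity of `Cen` on coherent pairs -/
theorem Cohr.cen (h : Cohr x y Z) (p q r : F g) :
    (if Cen (x ⊔ y) p q r then (1 : ℤ) else 0) + (if Cen (x ⊓ y) p q r then 1 else 0) =
      (if Cen x p q r then 1 else 0) + (if Cen y p q r then 1 else 0) := by
  have lx := h.kx.lf
  have ly := h.ky.lf
  rw [cen_val (lx.sup ly) p p q r, cen_val (lx.inf ly) p p q r, cen_val lx p p q r, cen_val ly p p q r]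
  have h1 : (∑ᶠ D, (if Ln (x ⊔ y) D then mj D p p q r else 0)) + ∑ᶠ D, (if Ln (x ⊓ y) D then mj D p p q r else 0) =
      (∑ᶠ D, (if Ln x D then mj D p p q r else 0)) + ∑ᶠ D, (if Ln y D then mj D p p q r else 0) := by
    rw [← finsum_add_distrib (mj_supp (lx.sup ly) _ _ _ _) (mj_supp (lx.inf ly) _ _ _ _),
      ← finsum_add_distrib (mj_supp lx _ _ _ _) (mj_supp ly _ _ _ _)]
    refine finsum_congr fun D => ?_
    have h2 := h.count D
    have h3 : ∀ (E : GP (F g)), (if Ln E D then mj D p p q r else 0) =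
        (if Ln E D then (1 : ℤ) else 0) * mj D p p q r := by
      intro E
      by_cases hL : Ln E D
      · rw [if_pos hL, if_pos hL, one_mul]
      · rw [if_neg hL, if_neg hL, zero_mul]
    rw [h3, h3, h3, h3, ← add_mul, ← add_mul, h2]
  have h4 : (if p ∈ (x ⊔ y).P then (1 : ℤ) else 0) + (if p ∈ (x ⊓ y).P then 1 else 0) =
      (if p ∈ x.P then 1 else 0) + (if p ∈ y.P then 1 else 0) := by
    rw [sup_P, inf_P]
    by_cases h5 : p ∈ x.P <;> by_cases h6 : p ∈ y.P <;> simp [h5, h6]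
  linarith

end TorL
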