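import Mathlib
import Pool.Agent.Lib.MP_05cdf2_gt.L.Med
import Pool.Agent.Lib.MP_05cdf2_gt.L.Fill

/-! MP_05cdf2_gt, stream L (helper49): the rank function `rho` of half spaces.

`cn E n`: the number of triples of vertices of the polygon of level `n` whose median has colour `P`. `ar X`: the sum of
`cn X n - [n ≤ 0] TT`. `rho X = ar X + J X`. `rho` is strictly increasing (`rho_lt`), modular on coherent pairs
(`rho_md`), and increases by `TT + 1` under the shift (`rho_t`). -/

set_option autoImplicit false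
set_option linter.unusedSectionVars false

namespace TorL
open TorM TorG

variable {g : ℕ} [NeZero g] {E E' : GP (F g)}

/-- triples of indices -/
def TV (g : ℕ) : Finset (ℕ × ℕ × ℕ) :=
  Finset.range (nz g + 1) ×ˢ (Finset.range (nz g + 1) ×ˢ Finset.range (nz g + 1))

/-- number of triples -/
def TT (g : ℕ) : ℤ := (TV g).card

open Classical in
/-- number of triples of level `n` with median of colour `P` -/
noncomputable def cn (E : GP (F g)) (n : ℤ) : ℤ :=
  ∑ τ ∈ TV g, if Cen E (t0 ^ n * pv τ.1) (t0 ^ n * pv τ.2.1) (t0 ^ n * pv τ.2.2) then 1 else 0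

theorem cen_lt (h : F g) (p q r : F g) : Cen (E.map (lt h)) (h * p) (h * q) (h * r) ↔ Cen E p q r :=
  cen_map (lt h)

theorem cn_mono (h : E ≤ E') (n : ℤ) : cn E n ≤ cn E' n := by
  classical
  refine Finset.sum_le_sum fun τ _ => ?_
  by_cases h1 : Cen E (t0 ^ n * pv τ.1) (t0 ^ n * pv τ.2.1) (t0 ^ n * pv τ.2.2)
  · rw [if_pos h1, if_pos (cen_mono h h1)]
  · rw [if_neg h1]
    split_ifs <;> norm_num

theorem cn_strict (h : E ≤ E') (n : ℤ) {i j k : ℕ} (hi : i ≤ nz g) (hj : j ≤ nz g) (hk : k ≤ nz g)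
    (h1 : Cen E' (t0 ^ n * pv i) (t0 ^ n * pv j) (t0 ^ n * pv k))
    (h2 : ¬ Cen E (t0 ^ n * pv i) (t0 ^ n * pv j) (t0 ^ n * pv k)) : cn E n < cn E' n := by
  classical
  refine Finset.sum_lt_sum (fun τ _ => ?_) ⟨(i, j, k), ?_, ?_⟩
  · by_cases h1 : Cen E (t0 ^ n * pv τ.1) (t0 ^ n * pv τ.2.1) (t0 ^ n * pv τ.2.2)
    · rw [if_pos h1, if_pos (cen_mono h h1)]
    · rw [if_neg h1]
      split_ifs <;> norm_num
  · unfold TV
    simp only [Finset.mem_product, Finset.mem_range]
    omega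
  · show (if Cen E (t0 ^ n * pv i) (t0 ^ n * pv j) (t0 ^ n * pv k) then (1 : ℤ) else 0) <
      if Cen E' (t0 ^ n * pv i) (t0 ^ n * pv j) (t0 ^ n * pv k) then (1 : ℤ) else 0
    rw [if_pos h1, if_neg h2]
    norm_num

theorem cn_map (E : GP (F g)) (n : ℤ) : cn (E.map (lt t0)) (n + 1) = cn E n := by
  classical
  refine Finset.sum_congr rfl fun τ _ => ?_
  have e : ∀ x : F g, t0 ^ (n + 1) * x = t0 * (t0 ^ n * x) := by
    intro x
    rw [zpow_add_one, (Commute.refl (t0 : F g)).zpow_left n |>.eq, mul_assoc]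
  have h := cen_lt (E := E) t0 (t0 ^ n * pv τ.1) (t0 ^ n * pv τ.2.1) (t0 ^ n * pv τ.2.2)
  rw [← e, ← e, ← e] at h
  by_cases h1 : Cen E (t0 ^ n * pv τ.1) (t0 ^ n * pv τ.2.1) (t0 ^ n * pv τ.2.2)
  · rw [if_pos h1, if_pos (h.2 h1)]
  · rw [if_neg h1, if_neg (fun hh => h1 (h.1 hh))]

/-- points far away in bounded position are related -/
theorem KG.far (h : KG E) (w : F g) : ∃ R : ℤ, ∀ x : F g, (ph x ≤ -R ∨ R ≤ ph x) → E.S x (x * w) := by
  obtain ⟨M, N, hMN⟩ := h.bd
  obtain ⟨R, hR⟩ := path_edge w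
  refine ⟨|M| + |N| + |R| + 1, fun x hx => ?_⟩
  rw [S_iff]
  intro D hD
  by_contra hcon
  obtain ⟨z, l, hz, hl⟩ := hR x D hcon
  have h1 := hMN D hD z l hl
  have h2 := abs_le.1 hz
  have a1 := neg_abs_le M
  have a2 := le_abs_self N
  have a3 := le_abs_self R
  have a4 := abs_nonneg M
  have a5 := abs_nonneg N
  omega

theorem cn_far (h : KG E) {J : ℤ} (hJ : ∀ x, x ∈ E.P ↔ ph x ≤ J) :
    ∃ R : ℤ, (∀ n ≤ -R, cn E n = TT g) ∧ (∀ n ≥ R, cn E n = 0) := by
  classical
  -- uniform constant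
  have hex : ∃ R : ℤ, ∀ i ≤ nz g, ∀ x : F g, (ph x ≤ -R ∨ R ≤ ph x) → E.S x (x * pv i) := by
    choose R hR using fun i : ℕ => h.far (pv i : F g)
    refine ⟨∑ i ∈ Finset.range (nz g + 1), |R i|, fun i hi x hx => hR i x ?_⟩
    have h1 : |R i| ≤ ∑ i ∈ Finset.range (nz g + 1), |R i| :=
      Finset.single_le_sum (f := fun i => |R i|) (fun _ _ => abs_nonneg _) (Finset.mem_range.2 (by omega))
    have h2 := le_abs_self (R i)
    omega
  obtain ⟨R, hR⟩ := hex
  refine ⟨|R| + |J| + 1, ?_, ?_⟩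
  · intro n hn
    unfold cn TT
    rw [Finset.card_eq_sum_ones]
    push_cast
    refine Finset.sum_congr rfl fun τ hτ => ?_
    unfold TV at hτ
    simp only [Finset.mem_product, Finset.mem_range] at hτ
    have hph : ph (t0 ^ n : F g) = n := by rw [ph_zpow, ph_t0, mul_one]
    have a1 := le_abs_self R
    have a2 := neg_abs_le J
    have a3 := abs_nonneg R
    have a4 := abs_nonneg J
    have s1 := hR τ.1 (by omega) (t0 ^ n) (Or.inl (by rw [hph]; omega))
    have s2 := hR τ.2.1 (by omega) (t0 ^ n) (Or.inl (by rw [hph]; omega))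
    rw [if_pos]
    rw [cen_of_S (GP.trans (GP.symm s1) s2), ← GP.col s1, hJ, hph]
    omega
  · intro n hn
    unfold cn
    refine Finset.sum_eq_zero fun τ hτ => ?_
    unfold TV at hτ
    simp only [Finset.mem_product, Finset.mem_range] at hτ
    have hph : ph (t0 ^ n : F g) = n := by rw [ph_zpow, ph_t0, mul_one]
    have a1 := le_abs_self R
    have a2 := le_abs_self J
    have a3 := abs_nonneg R
    have a4 := abs_nonneg J
    have s1 := hR τ.1 (by omega) (t0 ^ n) (Or.inr (by rw [hph]; omega))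
    have s2 := hR τ.2.1 (by omega) (t0 ^ n) (Or.inr (by rw [hph]; omega))
    rw [if_neg]
    rw [cen_of_S (GP.trans (GP.symm s1) s2), ← GP.col s1, hJ, hph]
    omega

/-- the summand -/
noncomputable def an (E : GP (F g)) (n : ℤ) : ℤ := cn E n - if n ≤ 0 then TT g else 0

theorem an_supp (X : Hf g) : (Function.support (an X.E)).Finite := by
  obtain ⟨R, h1, h2⟩ := cn_far X.kg X.lev
  refine (Set.finite_Icc (-(|R|)) (|R|)).subset fun n hn => ?_
  rw [Function.mem_support] at hn
  by_contra hcon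
  rw [Set.mem_Icc, not_and_or, not_le, not_le] at hcon
  apply hn
  unfold an
  have a1 := le_abs_self R
  have a2 := neg_abs_le R
  have a3 := abs_nonneg R
  rcases hcon with hc | hc
  · rw [h1 n (by omega), if_pos (by omega), sub_self]
  · rw [h2 n (by omega), if_neg (by omega), sub_self]

/-- the area of a half space -/
noncomputable def ar (X : Hf g) : ℤ := ∑ᶠ n : ℤ, an X.E n

/-- the rank function -/
noncomputable def rho (X : Hf g) : ℤ := ar X + X.J

theorem ar_mono {X Y : Hf g} (h : X ≤ Y) : ar X ≤ ar Y := by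
  classical
  unfold ar
  have hX := an_supp X
  have hY := an_supp Y
  rw [finsum_eq_sum_of_support_subset (an X.E) (s := hX.toFinset ∪ hY.toFinset),
    finsum_eq_sum_of_support_subset (an Y.E) (s := hX.toFinset ∪ hY.toFinset)]
  · refine Finset.sum_le_sum fun m _ => ?_
    unfold an
    have := cn_mono (show X.E ≤ Y.E from h) m
    linarith
  · rw [Finset.coe_union, Set.Finite.coe_toFinset, Set.Finite.coe_toFinset]
    exact Set.subset_union_right
  · rw [Finset.coe_union, Set.Finite.coe_toFinset, Set.Finite.coe_toFinset]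
    exact Set.subset_union_left

theorem ar_strict {X Y : Hf g} (h : X ≤ Y) {n : ℤ} (hn : cn X.E n < cn Y.E n) : ar X < ar Y := by
  classical
  unfold ar
  have hX := an_supp X
  have hY := an_supp Y
  rw [finsum_eq_sum_of_support_subset (an X.E) (s := hX.toFinset ∪ hY.toFinset),
    finsum_eq_sum_of_support_subset (an Y.E) (s := hX.toFinset ∪ hY.toFinset)]
  · refine Finset.sum_lt_sum (fun m _ => ?_) ⟨n, ?_, ?_⟩
    · unfold an
      have := cn_mono (show X.E ≤ Y.E from h) m
      linarith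
    · by_contra hcon
      rw [Finset.mem_union, Set.Finite.mem_toFinset, Set.Finite.mem_toFinset, Function.mem_support,
        Function.mem_support, not_or, not_not, not_not] at hcon
      have h1 := hcon.1
      have h2 := hcon.2
      unfold an at h1 h2
      linarith
    · unfold an
      linarith
  · rw [Finset.coe_union, Set.Finite.coe_toFinset, Set.Finite.coe_toFinset]
    exact Set.subset_union_right
  · rw [Finset.coe_union, Set.Finite.coe_toFinset, Set.Finite.coe_toFinset]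
    exact Set.subset_union_left

theorem fz (h : KG E) (h' : KG E') (hle : E ≤ E')
    (hpol : ∀ (n : ℤ) (i j k : ℕ), i ≤ nz g → j ≤ nz g → k ≤ nz g →
      Cen E' (t0 ^ n * pv i) (t0 ^ n * pv j) (t0 ^ n * pv k) → Cen E (t0 ^ n * pv i) (t0 ^ n * pv j) (t0 ^ n * pv k))
    (hP : E.P = E'.P) : FZ (fun p q r : F g => Cen E' p q r → Cen E p q r) where
  sw p q r h1 h2 := cen_swap.1 (h1 (cen_swap.1 h2))
  sw' p q r h1 h2 := cen_swap'.1 (h1 (cen_swap'.2 h2))
  dg p q h1 := by
    rw [cen_of_S (GP.refl p)] at h1 ⊢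
    rw [hP]
    exact h1
  flip a b p y hcr h1 h2 := by
    classical
    have e1 := cen_flip h.lf hcr
    have e2 := cen_flip h'.lf hcr
    have m1 := @cen_mono (F g) _ E E' hle p y a
    have m2 := @cen_mono (F g) _ E E' hle p y b
    have m3 := @cen_mono (F g) _ E E' hle a b p
    have m4 := @cen_mono (F g) _ E E' hle a b y
    by_cases c1 : Cen E a b p <;> by_cases c2 : Cen E a b y <;> by_cases c3 : Cen E p y a <;>
      by_cases c4 : Cen E p y b <;> by_cases d1 : Cen E' a b p <;> by_cases d2 : Cen E' a b y <;>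
      by_cases d3 : Cen E' p y a <;> by_cases d4 : Cen E' p y b <;> simp_all
  pol k i j l hi hj hl h1 := by
    have e : ∀ z : F g, k * z = (k * (t0 ^ (ph k))⁻¹) * (t0 ^ ph k * z) := by
      intro z
      group
    have hz : ph (k * (t0 ^ (ph k))⁻¹ : F g) = 0 := by
      rw [ph_mul, ph_inv, ph_zpow, ph_t0]
      ring
    rw [e (pv i), e (pv j), e (pv l)] at h1 ⊢
    have c1 := cen_lt (E := E) (k * (t0 ^ (ph k))⁻¹) (t0 ^ ph k * pv i) (t0 ^ ph k * pv j) (t0 ^ ph k * pv l)
    have c2 := cen_lt (E := E') (k * (t0 ^ (ph k))⁻¹) (t0 ^ ph k * pv i) (t0 ^ ph k * pv j) (t0 ^ ph k * pv l)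
    rw [h.inv _ hz] at c1
    rw [h'.inv _ hz] at c2
    exact c1.2 (hpol _ _ _ _ hi hj hl (c2.1 h1))

theorem rho_lt {X Y : Hf g} (h : X < Y) : rho X < rho Y := by
  have h1 := ar_mono h.le
  have h2 := Hf.J_le h.le
  unfold rho
  by_cases hJ : X.J = Y.J
  · have hP : X.E.P = Y.E.P := by
      ext x
      rw [X.lev, Y.lev, hJ]
    have hne : X.E ≠ Y.E := fun hh => h.ne (Hf.E_inj hh)
    obtain ⟨p, q, r, h3, h4⟩ := cen_strict X.lf (show X.E ≤ Y.E from h.le) hP hne
    have h5 : ∃ (n : ℤ) (i j k : ℕ), i ≤ nz g ∧ j ≤ nz g ∧ k ≤ nz g ∧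
        Cen Y.E (t0 ^ n * pv i) (t0 ^ n * pv j) (t0 ^ n * pv k) ∧
        ¬ Cen X.E (t0 ^ n * pv i) (t0 ^ n * pv j) (t0 ^ n * pv k) := by
      by_contra hcon
      push Not at hcon
      exact h4 ((fz X.kg Y.kg h.le (fun n i j k hi hj hk hc => hcon n i j k hi hj hk hc) hP).all p q r h3)
    obtain ⟨n, i, j, k, hi, hj, hk, h6, h7⟩ := h5
    have h8 := ar_strict h.le (cn_strict (show X.E ≤ Y.E from h.le) n hi hj hk h6 h7)
    omega
  · omega

theorem rho_t (X : Hf g) : rho (Hf.tIso g X) = rho X + (TT g + 1) := by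
  have h1 : ar (Hf.tIso g X) = ar X + TT g := by
    have e1 : ar (Hf.tIso g X) = ∑ᶠ n : ℤ, an (Hf.tIso g X).E (n + 1) := by
      unfold ar
      exact (finsum_comp_equiv (Equiv.addRight (1 : ℤ)) (f := an (Hf.tIso g X).E)).symm
    have e2 : ∀ n : ℤ, an (Hf.tIso g X).E (n + 1) = an X.E n + if n = 0 then TT g else 0 := by
      intro n
      unfold an
      have : cn (Hf.tIso g X).E (n + 1) = cn X.E n := cn_map X.E n
      rw [this]
      split_ifs <;> omega
    have e3 : ∑ᶠ n : ℤ, (if n = 0 then TT g else 0) = TT g := by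
      rw [finsum_eq_single (fun n : ℤ => if n = 0 then TT g else 0) (0 : ℤ)]
      · exact if_pos rfl
      · intro n hn
        exact if_neg hn
    rw [e1, finsum_congr e2, finsum_add_distrib (an_supp X)]
    · rw [e3]
      rfl
    · refine (Set.finite_singleton (0 : ℤ)).subset fun n hn => ?_
      rw [Function.mem_support] at hn
      by_contra hh
      exact hn (if_neg hh)
  unfold rho
  rw [h1, J_tIso]
  ring

theorem rho_md' {X Y : Hf g} {Z : Set (GP (F g))} (h : Cohr X.E Y.E Z) :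
    rho (X ⊔ Y) + rho (X ⊓ Y) = rho X + rho Y := by
  classical
  have h1 : ar (X ⊔ Y) + ar (X ⊓ Y) = ar X + ar Y := by
    unfold ar
    rw [← finsum_add_distrib (an_supp _) (an_supp _), ← finsum_add_distrib (an_supp _) (an_supp _)]
    refine finsum_congr fun n => ?_
    have h2 : cn (X ⊔ Y).E n + cn (X ⊓ Y).E n = cn X.E n + cn Y.E n := by
      unfold cn
      rw [← Finset.sum_add_distrib, ← Finset.sum_add_distrib]
      exact Finset.sum_congr rfl fun τ _ => h.cen _ _ _
    unfold an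
    linarith
  have h2 : (X ⊔ Y).J + (X ⊓ Y).J = X.J + Y.J := by
    rw [Hf.J_sup, Hf.J_inf]
    exact max_add_min _ _
  unfold rho
  linarith

end TorL
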