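import Mathlib
import Pool.Agent.Lib.MP_05cdf2_gt.L.Act
import Pool.Agent.Lib.MP_05cdf2_gt.A.CMain

/-! MP_05cdf2_gt, stream L (helper49): from the acyclicity of the complex of cyclic chains of half spaces with one
frontier curve to `HasUData`. -/

set_option autoImplicit false
set_option linter.unusedSectionVars false

namespace TorL
open TorM TorG Tor Pool.Agent.Lib.MP_05cdf2_gt.C

variable {g : ℕ} [NeZero g]

/-- half spaces of level 0 with one frontier curve, below their translate -/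
def PB (g : ℕ) [NeZero g] : Set (Hf g) := {x | x.J = 0 ∧ x ≤ Hf.tIso g x ∧ (fr x).card = 1}

/-- a frontier line -/
noncomputable def lnX (X : Hf g) (h : X ∈ PB g) : Set (F g) := (card_one_iff.1 h.2.2).choose

theorem lnX_one (X : Hf g) (h : X ∈ PB g) : One X (lnX X h) := (card_one_iff.1 h.2.2).choose_spec

theorem dt_ph {D : Set (F g)} (hD : CCut D) (hc : abv (gn D) = v0 g) (x : F g) :
    ph ((dt hD : MulAut (F g)) x) = ph x := by
  unfold ph
  rw [abv_dt, hc, Pi.add_apply, Pi.smul_apply]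
  unfold v0
  rw [Pi.single_apply, if_neg (by simp), smul_zero, add_zero]

/-- the twist about the frontier curve -/
noncomputable def dtX (X : Hf g) (h : X ∈ PB g) : Hph g :=
  ⟨dt (ccut_of h.2.1 (lnX_one X h).1), dt_ph _ ((lnX_one X h).class h.1)⟩

theorem dtX_rho (X : Hf g) (h : X ∈ PB g) : rhoM (((dtX X h : Hph g) : Gam g) : MulAut (F g)) = tv (v0 g) 1 := by
  show rhoM (dt (ccut_of h.2.1 (lnX_one X h).1) : MulAut (F g)) = _
  rw [rhoM_dt, (lnX_one X h).class h.1]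

theorem PB_smul (φ : Hph g) {X : Hf g} (h : X ∈ PB g) : φ • X ∈ PB g := by
  refine ⟨h.1, ?_, ?_⟩
  · rw [← smul_t, smul_le_iff]
    exact h.2.1
  · exact card_one_iff.2 ⟨_, (lnX_one X h).smul φ⟩

theorem dtX_smul (φ : Hph g) {X : Hf g} (h : X ∈ PB g) (h' : φ • X ∈ PB g) :
    dtX (φ • X) h' = φ * dtX X h * φ⁻¹ := by
  apply Subtype.ext
  show dt (ccut_of h'.2.1 (lnX_one (φ • X) h').1) =
    (φ : Gam g) * dt (ccut_of h.2.1 (lnX_one X h).1) * (φ : Gam g)⁻¹
  rw [← dt_im]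
  refine dt_congr _ _ ?_
  obtain ⟨k, -, hk⟩ := ((lnX_one X h).smul φ).uniq (lnX_one (φ • X) h')
  rw [hk, oc_of_tr]

theorem fr_eq_of_one {X Y : Hf g} {D D' : Set (F g)} (h : One X D) (h' : One Y D') (hD : D' ∈ orbK D) : X = Y := by
  apply fr_inj
  have h1 : ∀ A, Ln X.E A ↔ Ln Y.E A := by
    intro A
    have e : orbK D' = orbK D := orbK_eq_of_mem hD
    constructor
    · intro hA
      have h2 := h.2 A hA
      rw [← e] at h2
      obtain ⟨k, hk, rfl⟩ := h2
      exact (Y.kg.ln_tr hk).2 h'.1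
    · intro hA
      have h2 := h'.2 A hA
      rw [e] at h2
      obtain ⟨k, hk, rfl⟩ := h2
      exact (X.kg.ln_tr hk).2 h.1
  ext c
  obtain ⟨A, hA, rfl⟩ := c.rep
  rw [cv_mem_fr, cv_mem_fr, h1]

/-- the twist of a member of a cyclic chain fixes the later members -/
theorem dtX_fix {X Y : Hf g} (hX : X ∈ PB g) (hY : Y ∈ PB g) (h1 : X ≤ Y) (h2 : Y ≤ Hf.tIso g X) :
    dtX X hX • Y = Y := by
  have oX := lnX_one X hX
  have oY := lnX_one Y hY
  have hn : ∀ A ∈ OC (lnX X hX), Nest A (lnX Y hY) := by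
    rintro A (⟨h, rfl⟩ | ⟨h, rfl⟩)
    · have := nest_act hX.2.1 hY.2.1 h1 h2 oX.1 oY.1 h 1
      rwa [tr_one] at this
    · have := nest_act hX.2.1 hY.2.1 h1 h2 oX.1 oY.1 h 1
      rw [tr_one] at this
      exact this.compl_left
  obtain ⟨p, hp, n, hn2⟩ := im_dt_nested (ccut_of hX.2.1 oX.1) oY.1.1.ne oY.1.1.ne' hn
  refine fr_eq_of_one (oY.smul (dtX X hX)) oY ?_
  show lnX Y hY ∈ orbK (im (dt (ccut_of hX.2.1 oX.1) : MulAut (F g)) (lnX Y hY))
  rw [hp]
  refine ⟨p⁻¹, ?_, ?_⟩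
  · have hph : ph p = 0 := by
      unfold ph
      rw [hn2, oX.class hX.1, Pi.smul_apply]
      unfold v0
      rw [Pi.single_apply, if_neg (by simp), smul_zero]
    rw [ph_inv, hph, neg_zero]
  · rw [tr_tr, inv_mul_cancel, tr_one]

theorem bs_one : One (bs g) (D0 g) :=
  ⟨(ln_ofL L0_fam).2 (mem_orbK_self _), fun _ hD' => (ln_ofL L0_fam).1 hD'⟩

theorem One.act {X : Hf g} {D : Set (F g)} (h : One X D) (n : ℤ) : One (X.act (t0 ^ n)) (tr (t0 ^ n) D) := by
  refine ⟨ln_act h.1 _, fun D' hD' => ?_⟩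
  have h1 : D' ∈ LnS (X.act (t0 ^ n)).E := hD'
  rwa [h.lines] at h1

theorem PB_bs : Hf.tIso g (bs g) ∈ PB g := by
  refine ⟨?_, ?_, ?_⟩
  · rw [J_tIso]
    rfl
  · exact (Hf.tIso g).monotone bs_le
  · rw [card_one_iff]
    have := (bs_one (g := g)).act 1
    rw [zpow_one] at this
    exact ⟨_, this⟩

/-- the cyclic relation -/
def RB (x y : Hf g) : Prop := x ≤ y ∧ y ≤ Hf.tIso g x

open Classical in
/-- the stabilising twist of a list -/
noncomputable def thetaL : List (Hf g) → Hph g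
  | [] => 1
  | X :: _ => if h : X ∈ PB g then dtX X h else 1

open Classical in
theorem thetaL_cons {X : Hf g} (hX : X ∈ PB g) (t : List (Hf g)) : thetaL (X :: t) = dtX X hX := by
  show (if h : X ∈ PB g then dtX X h else 1) = _
  rw [dif_pos hX]

theorem hasUData_of_ac (k : ℕ) (h : TorA.Ac (TorA.Fl RB (PB g)) (k + 1)) : HasUData g k := by
  have hN : Tor1 g ≤ Hph g := by
    intro φ hφ x
    rw [mem_Tor1] at hφ
    unfold ph
    rw [hφ x]
  refine ⟨Hph g, hN, Hf g, inferInstance, TorA.Fl RB (PB g), dtX _ PB_bs, thetaL, ?_, dtX_rho _ _⟩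
  refine ⟨TorA.nil_mem_Fl _ _, TorA.Fl_closed _ _, ?_, ?_, ?_, ?_, ?_⟩
  · rintro φ l ⟨h1, h2⟩
    refine ⟨?_, ?_⟩
    · rw [List.pairwise_map]
      refine h1.imp fun {a b} hab => ⟨(smul_le_iff φ).2 hab.1, ?_⟩
      rw [← smul_t, smul_le_iff]
      exact hab.2
    · intro x hx
      rw [List.mem_map] at hx
      obtain ⟨y, hy, rfl⟩ := hx
      exact PB_smul φ (h2 y hy)
  · intro n hn z hz hbd
    exact h n (by omega) z hz hbd
  · rintro s hs hne n -
    obtain ⟨X, t, rfl⟩ := List.exists_cons_of_ne_nil hne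
    have hX : X ∈ PB g := hs.2 X List.mem_cons_self
    rw [List.map_cons, thetaL_cons hX, thetaL_cons (PB_smul n hX)]
    exact dtX_smul n hX _
  · rintro s hs hne
    obtain ⟨X, t, rfl⟩ := List.exists_cons_of_ne_nil hne
    have hX : X ∈ PB g := hs.2 X List.mem_cons_self
    rw [thetaL_cons hX]
    conv_rhs => rw [← List.map_id (X :: t)]
    refine List.map_congr_left fun Y hY => ?_
    have hYP := hs.2 Y hY
    rcases List.mem_cons.1 hY with rfl | hYt
    · exact dtX_fix hX hYP (le_refl _) hX.2.1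
    · have h3 := (List.pairwise_cons.1 hs.1).1 Y hYt
      exact dtX_fix hX hYP h3.1 h3.2
  · rintro s hs hne
    obtain ⟨X, t, rfl⟩ := List.exists_cons_of_ne_nil hne
    have hX : X ∈ PB g := hs.2 X List.mem_cons_self
    rw [thetaL_cons hX, Subgroup.mem_subgroupOf, mem_Tor1]
    rw [← rhoM_eq_one_iff]
    have h1 := dtX_rho X hX
    have h2 := dtX_rho _ (PB_bs (g := g))
    show rhoM ((((dtX X hX : Hph g) : Gam g) : MulAut (F g)) * (((dtX _ PB_bs : Hph g) : Gam g) : MulAut (F g))⁻¹) = 1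
    rw [rhoM_mul, h1, ← h2, ← rhoM_mul, mul_inv_cancel, rhoM_one]

/-- the main theorem from an `HLat` structure -/
theorem hasUData_of_HLat (k : ℕ) (H : TorA.HLat (Hf g) (Cv g)) (ht : H.t = Hf.tIso g) (hfr : H.fr = fr)
    (hJ : H.J = Hf.J) (hk : k + 1 ≤ H.G) : HasUData g k := by
  have h1 := H.cyc_main
  rw [ht, hfr, hJ] at h1
  exact hasUData_of_ac k (h1.mono hk)

end TorL
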